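import Mathlib

/-!
Combinatorics of words: a word with many large letters is not sorted in its blocks of small
letters, or contains a long stretch with short blocks, or is a product of pieces any other
arrangement of which is smaller.
-/

set_option autoImplicit false

namespace Pool.Agent.V8H74.LR

/-- the number with the digits `w` in base `b` -/
def code (b : ℕ) : List ℕ → ℕ
  | [] => 0
  | l :: w => l * b ^ w.length + code b w

theorem code_lt {b : ℕ} : ∀ w : List ℕ, (∀ l ∈ w, l < b) → code b w < b ^ w.length
  | [], _ => by simp [code]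
  | l :: w, h => by
    have h1 := code_lt w (fun k hk => h k (List.mem_cons_of_mem _ hk))
    have h2 : l < b := h l (List.mem_cons_self)
    have h3 : (l + 1) * b ^ w.length ≤ b * b ^ w.length := Nat.mul_le_mul_right _ h2
    rw [List.length_cons, pow_succ', code]
    calc l * b ^ w.length + code b w < l * b ^ w.length + b ^ w.length := by omega
      _ = (l + 1) * b ^ w.length := by ring
      _ ≤ _ := h3

theorem code_append (b : ℕ) (u v : List ℕ) :
    code b (u ++ v) = code b u * b ^ v.length + code b v := by
  induction u with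
  | nil => simp [code]
  | cons l u ih =>
    rw [List.cons_append, code, code, ih, List.length_append, pow_add]
    ring

theorem code_lt_of {b : ℕ} (C : List ℕ) {R R' : List ℕ} {x y : ℕ} (hxy : x < y)
    (hlen : R.length = R'.length) (hR : ∀ l ∈ R, l < b) :
    code b (C ++ x :: R) < code b (C ++ y :: R') := by
  rw [code_append, code_append, List.length_cons, List.length_cons, hlen]
  apply Nat.add_lt_add_left
  rw [code, code, hlen]
  have h1 := code_lt R hR
  rw [hlen] at h1
  have h2 : (x + 1) * b ^ R'.length ≤ y * b ^ R'.length := Nat.mul_le_mul_right _ hxy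
  calc x * b ^ R'.length + code b R < x * b ^ R'.length + b ^ R'.length := by omega
    _ = (x + 1) * b ^ R'.length := by ring
    _ ≤ y * b ^ R'.length := h2
    _ ≤ _ := Nat.le_add_right _ _

theorem code_mid {b : ℕ} (u v : List ℕ) {A A' : List ℕ} (hlen : A.length = A'.length)
    (h : code b A < code b A') (hb : 0 < b) :
    code b (u ++ (A ++ v)) < code b (u ++ (A' ++ v)) := by
  have e : (A ++ v).length = (A' ++ v).length := by simp [hlen]
  rw [code_append b u (A ++ v), code_append b u (A' ++ v), e]
  apply Nat.add_lt_add_left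
  rw [code_append, code_append]
  apply Nat.add_lt_add_right
  exact Nat.mul_lt_mul_of_pos_right h (pow_pos hb _)

/-- `w` contains `d` disjoint subwords `s ^ D z` with `z > s` -/
def Pat (D s : ℕ) : ℕ → List ℕ → Prop
  | 0, _ => True
  | d + 1, w => ∃ u z v, w = u ++ (List.replicate D s ++ z :: v) ∧ s < z ∧ Pat D s d v

theorem Pat_ext {D s d : ℕ} {w : List ℕ} (u : List ℕ) (h : Pat D s d w) :
    Pat D s d (u ++ w) := by
  cases d with
  | zero => trivial
  | succ d =>
    obtain ⟨u', z, v, rfl, hz, hp⟩ := h
    exact ⟨u ++ u', z, v, by simp, hz, hp⟩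

theorem Pat_add {D s d d' : ℕ} {w w' : List ℕ} (h : Pat D s d w) (h' : Pat D s d' w') :
    Pat D s (d' + d) (w ++ w') := by
  induction d generalizing w with
  | zero => exact Pat_ext w h'
  | succ d ih =>
    obtain ⟨u, z, v, rfl, hz, hp⟩ := h
    exact ⟨u, z, v ++ w', by simp, hz, ih hp⟩

theorem Pat_mono {D s d : ℕ} {w : List ℕ} (h : Pat D s (d + 1) w) : Pat D s d w := by
  induction d generalizing w with
  | zero => trivial
  | succ d ih =>
    obtain ⟨u, z, v, rfl, hz, hp⟩ := h
    exact ⟨u, z, v, rfl, hz, ih hp⟩

theorem Pat_le {D s d d' : ℕ} {w : List ℕ} (h : Pat D s d w) (hd : d' ≤ d) : Pat D s d' w := by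
  induction d, hd using Nat.le_induction with
  | base => exact h
  | succ n _ ih => exact ih (Pat_mono h)

/-- the pieces -/
theorem pieces {D s : ℕ} : ∀ d, d ≤ D → ∀ w, Pat D s d w →
    ∃ (a rest : List ℕ) (Q : List (List ℕ)), w = a ++ (Q.flatten ++ rest) ∧ Q.length = d ∧
      ∀ i, (hi : i < Q.length) → ∃ z y, s < z ∧ Q[i] = List.replicate (D - d + i + 1) s ++ z :: y := by
  intro d
  induction d with
  | zero =>
    intro _ w _
    exact ⟨w, [], [], by simp, rfl, fun i hi => by simp at hi⟩
  | succ d ih =>
    intro hd w hw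
    obtain ⟨u, z, v, rfl, hz, hp⟩ := hw
    obtain ⟨a', rest, Q', hv, hQl, hQ⟩ := ih (by omega) v hp
    refine ⟨u ++ List.replicate d s, rest,
      (List.replicate (D - (d + 1) + 1) s ++ z :: a') :: Q', ?_, by simp [hQl], ?_⟩
    · have h1 : List.replicate D s =
          List.replicate d s ++ List.replicate (D - (d + 1) + 1) s := by
        rw [← List.replicate_add]
        congr 1
        omega
      rw [hv, h1]
      simp only [List.flatten_cons, List.append_assoc, List.cons_append]
    · intro i hi
      cases i with
      | zero => exact ⟨z, a', hz, by simp⟩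
      | succ i =>
        have hi' : i < Q'.length := by
          rw [List.length_cons] at hi
          omega
        obtain ⟨z', y', hz', hy'⟩ := hQ i hi'
        refine ⟨z', y', hz', ?_⟩
        rw [List.getElem_cons_succ, hy']
        congr 2
        omega

/-- any other arrangement of the pieces is smaller -/
theorem arr_lt {b D s : ℕ} (P : Fin D → List ℕ)
    (hP : ∀ i, ∃ z y, s < z ∧ P i = List.replicate (i.1 + 1) s ++ z :: y)
    (hb : ∀ i, ∀ l ∈ P i, l < b) (σ : Equiv.Perm (Fin D)) (hσ : σ ≠ 1) :
    code b (List.ofFn fun i => P (σ i)).flatten < code b (List.ofFn P).flatten := by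
  have hex : ∃ k : ℕ, ∃ hk : k < D, σ ⟨k, hk⟩ ≠ ⟨k, hk⟩ := by
    by_contra hcon
    push Not at hcon
    exact hσ (Equiv.ext fun i => hcon i.1 i.2)
  classical
  obtain ⟨hk, hne⟩ := Nat.find_spec hex
  set k := Nat.find hex with hkdef
  have hmin : ∀ i, (hi : i < k) → σ ⟨i, hi.trans hk⟩ = ⟨i, hi.trans hk⟩ := by
    intro i hi
    have h1 := Nat.find_min hex hi
    push Not at h1
    exact h1 (hi.trans hk)
  have hgt : k < (σ ⟨k, hk⟩).1 := by
    rcases lt_trichotomy (σ ⟨k, hk⟩).1 k with h | h | h
    · have h1 := hmin _ h
      have h2 : σ ⟨(σ ⟨k, hk⟩).1, h.trans hk⟩ = σ ⟨k, hk⟩ := h1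
      have h3 := σ.injective h2
      have h4 := congrArg Fin.val h3
      simp only at h4
      omega
    · exact absurd (Fin.ext h) hne
    · exact h
  have hlen1 : k < (List.ofFn fun i => P (σ i)).length := by simpa using hk
  have hlen2 : k < (List.ofFn P).length := by simpa using hk
  have e1 : (List.ofFn fun i => P (σ i)) = (List.ofFn fun i => P (σ i)).take k ++
      P (σ ⟨k, hk⟩) :: (List.ofFn fun i => P (σ i)).drop (k + 1) := by
    conv_lhs => rw [← List.take_append_drop k (List.ofFn fun i => P (σ i))]
    rw [List.drop_eq_getElem_cons hlen1, List.getElem_ofFn]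
  have e2 : List.ofFn P = (List.ofFn P).take k ++ P ⟨k, hk⟩ :: (List.ofFn P).drop (k + 1) := by
    conv_lhs => rw [← List.take_append_drop k (List.ofFn P)]
    rw [List.drop_eq_getElem_cons hlen2, List.getElem_ofFn]
  have e3 : (List.ofFn fun i => P (σ i)).take k = (List.ofFn P).take k := by
    apply List.ext_getElem
    · simp
    · intro i h1 h2
      rw [List.getElem_take, List.getElem_take, List.getElem_ofFn, List.getElem_ofFn]
      have hi : i < k := by
        rw [List.length_take] at h1
        omega
      rw [hmin i hi]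
  have hperm : (List.ofFn fun i => P (σ i)).Perm (List.ofFn P) := Equiv.Perm.ofFn_comp_perm σ P
  have hlen : (List.ofFn fun i => P (σ i)).flatten.length = (List.ofFn P).flatten.length :=
    hperm.flatten.length_eq
  obtain ⟨z, y, hz, hy⟩ := hP ⟨k, hk⟩
  obtain ⟨z', y', hz', hy'⟩ := hP (σ ⟨k, hk⟩)
  have e4 : P (σ ⟨k, hk⟩) = List.replicate (k + 1) s ++
      s :: (List.replicate ((σ ⟨k, hk⟩).1 - (k + 1)) s ++ z' :: y') := by
    rw [hy']
    have h1 : List.replicate ((σ ⟨k, hk⟩).1 + 1) s =
        List.replicate (k + 1) s ++ (List.replicate 1 s ++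
          List.replicate ((σ ⟨k, hk⟩).1 - (k + 1)) s) := by
      rw [← List.replicate_add, ← List.replicate_add]
      congr 1
      omega
    rw [h1]
    simp
  rw [e1, e2, e3] at hlen ⊢
  rw [List.flatten_append, List.flatten_cons, List.flatten_append, List.flatten_cons, e4, hy]
    at hlen ⊢
  have e5 : ∀ (A B C : List ℕ) (x : ℕ) (Z : List ℕ), A ++ ((B ++ x :: C) ++ Z) =
      (A ++ B) ++ x :: (C ++ Z) := by
    intro A B C x Z
    simp
  rw [e5, e5]
  apply code_lt_of _ hz
  · simp only [List.length_append, List.length_cons] at hlen ⊢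
    omega
  · intro l hl
    have h1 : l ∈ (List.ofFn fun i => P (σ i)).flatten := by
      rw [e1, List.flatten_append, List.flatten_cons, e4]
      simp only [List.mem_append, List.mem_cons] at hl ⊢
      tauto
    rw [List.mem_flatten] at h1
    obtain ⟨L, hL, hlL⟩ := h1
    rw [List.mem_ofFn] at hL
    obtain ⟨i, rfl⟩ := hL
    exact hb _ l hlL

/-! ### blocks -/

/-- adjacent small letters are in increasing order -/
def Srt (r : ℕ) (w : List ℕ) : Prop := ∀ u v i j, w = u ++ j :: i :: v → j < r → j ≤ i

theorem Srt.right {r : ℕ} {u v : List ℕ} (h : Srt r (u ++ v)) : Srt r v := by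
  intro a c i j hv hj
  exact h (u ++ a) c i j (by rw [hv]; simp) hj

theorem Srt.left {r : ℕ} {u v : List ℕ} (h : Srt r (u ++ v)) : Srt r u := by
  intro a c i j hv hj
  exact h a (c ++ v) i j (by rw [hv]; simp) hj

/-- a long sorted block contains a power followed by a larger letter -/
theorem long_block {r D : ℕ} (n : ℕ) (hn : r ≤ n) : ∀ (q : ℕ) (β : List ℕ), (∀ l ∈ β, l < r) →
    (∀ l ∈ β, r ≤ l + q) → Srt r β → q * (D - 1) < β.length → 0 < D →
    ∃ s, s < r ∧ Pat D s 1 (β ++ [n]) := by
  intro q
  induction q with
  | zero =>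
    intro β h1 h2 _ hlen _
    rw [zero_mul] at hlen
    obtain ⟨l, hl⟩ := List.exists_mem_of_length_pos hlen
    have := h1 l hl
    have := h2 l hl
    omega
  | succ q ih =>
    intro β h1 h2 hs hlen hD
    cases β with
    | nil => simp at hlen
    | cons s β =>
      have hsr : s < r := h1 s List.mem_cons_self
      -- the first run
      obtain ⟨c, C, hC, hCs⟩ : ∃ (c : ℕ) (C : List ℕ), s :: β = List.replicate c s ++ C ∧
          (∀ l ∈ C, s < l) := by
        clear hlen ih h2
        have key : ∀ β : List ℕ, (∀ l ∈ β, l < r) → Srt r (s :: β) →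
            ∃ (c : ℕ) (C : List ℕ), s :: β = List.replicate c s ++ C ∧ (∀ l ∈ C, s < l) := by
          intro β
          induction β with
          | nil => intro _ _; exact ⟨1, [], by simp, by simp⟩
          | cons l β ihβ =>
            intro h1 hs
            have hsl : s ≤ l := hs [] β l s rfl hsr
            rcases hsl.eq_or_lt with h | h
            · subst h
              have hs' : Srt r (s :: β) := Srt.right (u := [s]) hs
              obtain ⟨c, C, hC, hCs⟩ := ihβ (fun k hk => h1 k (List.mem_cons_of_mem _ hk)) hs'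
              exact ⟨c + 1, C, by rw [hC, List.replicate_succ, List.cons_append], hCs⟩
            · refine ⟨1, l :: β, by simp, ?_⟩
              -- all letters of a sorted word are at least the first one
              have h3 : ∀ (β : List ℕ) (l : ℕ), (∀ k ∈ l :: β, k < r) → Srt r (l :: β) →
                  ∀ k ∈ l :: β, l ≤ k := by
                intro β
                induction β with
                | nil => intro l _ _ k hk; simp at hk; omega
                | cons m β ihm =>
                  intro l hl hs k hk
                  have h4 : l ≤ m := hs [] β m l rfl (hl l List.mem_cons_self)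
                  rcases List.mem_cons.1 hk with rfl | hk
                  · exact le_rfl
                  · exact h4.trans (ihm m (fun k hk => hl k (List.mem_cons_of_mem _ hk))
                      (Srt.right (u := [l]) hs) k hk)
              intro k hk
              exact lt_of_lt_of_le h (h3 β l h1 (Srt.right (u := [s]) hs) k hk)
        exact key β (fun k hk => h1 k (List.mem_cons_of_mem _ hk)) hs
      rw [hC] at h1 h2 hs hlen ⊢
      rcases Nat.lt_or_ge c D with hc | hc
      · have h3 := ih C (fun l hl => h1 l (List.mem_append_right _ hl))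
          (fun l hl => by
            have h4 := hCs l hl
            have h5 := h2 l (List.mem_append_right _ hl)
            by_cases hc0 : c = 0
            · subst hc0
              simp only [List.replicate_zero, List.nil_append] at hC
              have := hCs s (by rw [← hC]; exact List.mem_cons_self)
              omega
            · have h6 := h2 s (List.mem_append_left _ (by
                rw [List.mem_replicate]; exact ⟨hc0, rfl⟩))
              omega) hs.right (by
            rw [List.length_append, List.length_replicate] at hlen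
            have : (q + 1) * (D - 1) = q * (D - 1) + (D - 1) := by ring
            omega) hD
        obtain ⟨s', hs', hp⟩ := h3
        refine ⟨s', hs', ?_⟩
        rw [List.append_assoc]
        exact Pat_ext _ hp
      · refine ⟨s, hsr, ?_⟩
        have h4 : List.replicate c s = List.replicate (c - D) s ++ List.replicate D s := by
          rw [← List.replicate_add]
          congr 1
          omega
        cases C with
        | nil =>
          exact ⟨List.replicate (c - D) s, n, [], by
            rw [h4]; simp only [List.append_assoc, List.nil_append], by omega, trivial⟩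
        | cons z C =>
          exact ⟨List.replicate (c - D) s, z, C ++ [n], by
            rw [h4]; simp only [List.append_assoc, List.cons_append],
            hCs z List.mem_cons_self, trivial⟩

/-- the number of large letters -/
def nc (r : ℕ) (w : List ℕ) : ℕ := (w.filter fun l => r ≤ l).length

theorem nc_append (r : ℕ) (u v : List ℕ) : nc r (u ++ v) = nc r u + nc r v := by
  simp [nc]

/-- a short block of small letters followed by a large letter -/
def Short (r L : ℕ) (γ : List ℕ) : Prop :=
  ∃ β n, γ = β ++ [n] ∧ (∀ l ∈ β, l < r) ∧ r ≤ n ∧ β.length ≤ L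

theorem first_block {r : ℕ} : ∀ w : List ℕ, 0 < nc r w →
    ∃ β n v, w = β ++ n :: v ∧ (∀ l ∈ β, l < r) ∧ r ≤ n := by
  intro w
  induction w with
  | nil => intro h; simp [nc] at h
  | cons l w ih =>
    intro h
    by_cases hl : l < r
    · have h1 : nc r (l :: w) = nc r w := by
        have : ¬ r ≤ l := by omega
        simp [nc, this]
      rw [h1] at h
      obtain ⟨β, n, v, rfl, hβ, hn⟩ := ih h
      refine ⟨l :: β, n, v, rfl, ?_, hn⟩
      intro k hk
      rcases List.mem_cons.1 hk with rfl | hk
      · exact hl
      · exact hβ k hk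
    · exact ⟨[], l, w, rfl, by simp, by omega⟩

theorem nc_block {r : ℕ} {β : List ℕ} {n : ℕ} (hβ : ∀ l ∈ β, l < r) (hn : r ≤ n) :
    nc r (β ++ [n]) = 1 := by
  rw [nc_append]
  have h1 : nc r β = 0 := by
    rw [nc, List.length_eq_zero_iff, List.filter_eq_nil_iff]
    intro l hl
    have := hβ l hl
    simp; omega
  have h2 : nc r [n] = 1 := by simp [nc, hn]
  rw [h1, h2]

/-- scanning the first `k` blocks -/
theorem scan {r D : ℕ} (hD : 0 < D) : ∀ (k : ℕ) (w : List ℕ), Srt r w → k ≤ nc r w →
    (∃ (Q : List (List ℕ)) (v : List ℕ), w = Q.flatten ++ v ∧ Q.length = k ∧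
      ∀ γ ∈ Q, Short r (r * (D - 1)) γ) ∨
    (∃ w1 w2, w = w1 ++ w2 ∧ nc r w1 ≤ k ∧ ∃ s, s < r ∧ Pat D s 1 w1) := by
  intro k
  induction k with
  | zero => intro w _ _; exact Or.inl ⟨[], w, by simp, rfl, by simp⟩
  | succ k ih =>
    intro w hs hk
    obtain ⟨β, n, v, rfl, hβ, hn⟩ := first_block (r := r) w (by omega)
    have e1 : β ++ n :: v = (β ++ [n]) ++ v := by simp
    rw [e1] at hs hk ⊢
    rw [nc_append, nc_block hβ hn] at hk
    rcases Nat.lt_or_ge (r * (D - 1)) β.length with h | h
    · right
      obtain ⟨s, hs1, hs2⟩ := long_block n hn r β hβ (fun l _ => by omega) hs.left.left h hD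
      exact ⟨β ++ [n], v, rfl, by rw [nc_block hβ hn]; omega, s, hs1, hs2⟩
    · rcases ih v hs.right (by omega) with ⟨Q, v', hv, hQ, hsh⟩ | ⟨w1, w2, hv, hn1, s, hs1, hs2⟩
      · left
        refine ⟨(β ++ [n]) :: Q, v', by rw [hv]; simp, by simp [hQ], ?_⟩
        intro γ hγ
        rcases List.mem_cons.1 hγ with rfl | hγ
        · exact ⟨β, n, rfl, hβ, hn, h⟩
        · exact hsh γ hγ
      · right
        refine ⟨(β ++ [n]) ++ w1, w2, by rw [hv]; simp, ?_, s, hs1, Pat_ext _ hs2⟩
        rw [nc_append, nc_block hβ hn]
        omega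

/-- **The alternative for words with many large letters.** -/
theorem alt {r D K0 : ℕ} (hD : 0 < D) : ∀ (q : ℕ) (w : List ℕ), Srt r w → q * K0 ≤ nc r w →
    (∃ (a : List ℕ) (Q : List (List ℕ)) (v : List ℕ), w = a ++ (Q.flatten ++ v) ∧
      Q.length = K0 ∧ ∀ γ ∈ Q, Short r (r * (D - 1)) γ) ∨
    (∃ c : ℕ → ℕ, q ≤ ∑ s ∈ Finset.range r, c s ∧ ∀ s < r, Pat D s (c s) w) := by
  intro q
  induction q with
  | zero => intro w _ _; exact Or.inr ⟨fun _ => 0, by simp, fun _ _ => trivial⟩
  | succ q ih =>
    intro w hs hk
    have hk' : (q + 1) * K0 = q * K0 + K0 := by ring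
    rw [hk'] at hk
    rcases scan hD K0 w hs (by omega) with ⟨Q, v, hw, hQ, hsh⟩ | ⟨w1, w2, rfl, hn1, s, hs1, hs2⟩
    · exact Or.inl ⟨[], Q, v, by simpa using hw, hQ, hsh⟩
    · rw [nc_append] at hk
      rcases ih w2 hs.right (by omega) with ⟨a, Q, v, rfl, hQ, hsh⟩ | ⟨c, hc, hp⟩
      · exact Or.inl ⟨w1 ++ a, Q, v, by simp, hQ, hsh⟩
      · right
        refine ⟨fun s' => c s' + if s' = s then 1 else 0, ?_, ?_⟩
        · rw [Finset.sum_add_distrib, Finset.sum_ite_eq', if_pos (Finset.mem_range.2 hs1)]
          omega
        · intro s' hs'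
          by_cases h : s' = s
          · subst h
            beta_reduce
            rw [if_pos rfl]
            exact Pat_add hs2 (hp s' hs')
          · beta_reduce
            rw [if_neg h, add_zero]
            exact Pat_ext _ (hp s' hs')

theorem alt' {r D K0 : ℕ} (hD : 0 < D) (w : List ℕ) (hs : Srt r w)
    (hk : (r * D + 1) * K0 ≤ nc r w) :
    (∃ (a : List ℕ) (Q : List (List ℕ)) (v : List ℕ), w = a ++ (Q.flatten ++ v) ∧
      Q.length = K0 ∧ ∀ γ ∈ Q, Short r (r * (D - 1)) γ) ∨ (∃ s < r, Pat D s D w) := by
  rcases alt hD _ w hs hk with h | ⟨c, hc, hp⟩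
  · exact Or.inl h
  · right
    by_contra hcon
    push Not at hcon
    have h1 : ∀ s ∈ Finset.range r, c s ≤ D := by
      intro s hs'
      by_contra h2
      push Not at h2
      exact hcon s (Finset.mem_range.1 hs') (Pat_le (hp s (Finset.mem_range.1 hs')) h2.le)
    have h2 := Finset.sum_le_card_nsmul _ _ _ h1
    rw [Finset.card_range, smul_eq_mul] at h2
    have h3 : r * D + 1 ≤ r * D := hc.trans h2
    omega

end Pool.Agent.V8H74.LR
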