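import Pool.Agent.V8H74.LR.RF1
import Mathlib.Combinatorics.Additive.AP.Three.Behrend

/-!
From the sums of coefficients over groups of words to a polynomial with a coefficient `1`.
-/

set_option autoImplicit false

namespace Pool.Agent.V8H74.LR

open Polynomial

variable {Φ : Type} [CommRing Φ]

/-- words with first letter `i`, last letter `j` and multiset `μ` of letters between them -/
def Wd (i j : ℕ) (μ : Multiset ℕ) (w : List ℕ) : Prop :=
  ∃ m : List ℕ, w = i :: (m ++ [j]) ∧ (m : Multiset ℕ) = μ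

open Classical in
/-- the sum of the coefficients of the words with first letter `i`, last letter `j` and multiset
`μ` of letters between them -/
noncomputable def gs (g : List ℕ →₀ Φ) (i j : ℕ) (μ : Multiset ℕ) : Φ :=
  g.sum fun w c => if Wd i j μ w then c else 0

theorem qp_eq (e : ℕ → ℕ) (j : ℕ) (m : List ℕ) :
    qp (Φ := Φ) e j (m ++ [j]) = X ^ (m.map e).sum := by
  induction m with
  | nil => simp [qp]
  | cons l m ih =>
    have h : ¬ (l = j ∧ m ++ [j] = []) := by simp
    simp only [List.cons_append, qp, ih, if_neg h, add_zero, List.map_cons, List.sum_cons, pow_add]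

theorem qp_zero (e : ℕ → ℕ) (j : ℕ) (w : List ℕ) (hw : ∀ m, w ≠ m ++ [j]) :
    qp (Φ := Φ) e j w = 0 := by
  induction w with
  | nil => rfl
  | cons l w ih =>
    have h1 : ∀ m, w ≠ m ++ [j] := by
      rintro m rfl
      exact hw (l :: m) rfl
    have h2 : ¬ (l = j ∧ w = []) := by
      rintro ⟨rfl, rfl⟩
      exact hw [] rfl
    simp only [qp, ih h1, mul_zero, if_neg h2, add_zero]

theorem sum_map_behrend {n M : ℕ} (μ : Multiset ℕ) (hμ : ∀ l ∈ μ, l < n) :
    (μ.map (fun l => M ^ l)).sum = Behrend.map M (fun i : Fin n => μ.count (i : ℕ)) := by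
  induction μ using Multiset.induction_on with
  | empty =>
    simp only [Multiset.map_zero, Multiset.sum_zero, Multiset.count_zero]
    simp [Behrend.map]
  | cons a μ ih =>
    have ha : a < n := hμ a (Multiset.mem_cons_self a μ)
    rw [Multiset.map_cons, Multiset.sum_cons, ih fun l hl => hμ l (Multiset.mem_cons_of_mem hl)]
    have h1 : (fun i : Fin n => (a ::ₘ μ).count (i : ℕ)) =
        Pi.single (⟨a, ha⟩ : Fin n) 1 + fun i : Fin n => μ.count (i : ℕ) := by
      funext i
      rw [Pi.add_apply, Multiset.count_cons, add_comm]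
      congr 1
      by_cases h : i = ⟨a, ha⟩
      · subst h
        rw [if_pos rfl, Pi.single_eq_same]
      · rw [if_neg (fun h2 => h (Fin.ext h2)), Pi.single_eq_of_ne h]
    rw [h1, map_add]
    congr 1
    simp only [Behrend.map, AddMonoidHom.coe_mk, ZeroHom.coe_mk]
    rw [Finset.sum_eq_single (⟨a, ha⟩ : Fin n)]
    · rw [Pi.single_eq_same, one_mul]
    · intro b _ hb
      rw [Pi.single_eq_of_ne hb, zero_mul]
    · intro h
      exact absurd (Finset.mem_univ _) h

theorem kron {n M : ℕ} {μ ν : Multiset ℕ} (hμ : ∀ l ∈ μ, l < n) (hν : ∀ l ∈ ν, l < n)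
    (hμM : μ.card < M) (hνM : ν.card < M)
    (h : (μ.map (fun l => M ^ l)).sum = (ν.map (fun l => M ^ l)).sum) : μ = ν := by
  rw [sum_map_behrend μ hμ, sum_map_behrend ν hν] at h
  have h1 := Behrend.map_injOn (d := M) (n := n)
    (show (fun i : Fin n => μ.count (i : ℕ)) ∈ {x : Fin n → ℕ | ∀ i, x i < M} from
      fun i => lt_of_le_of_lt (Multiset.count_le_card _ _) hμM)
    (show (fun i : Fin n => ν.count (i : ℕ)) ∈ {x : Fin n → ℕ | ∀ i, x i < M} from
      fun i => lt_of_le_of_lt (Multiset.count_le_card _ _) hνM) h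
  ext l
  by_cases hl : l < n
  · exact congrFun h1 ⟨l, hl⟩
  · rw [Multiset.count_eq_zero_of_notMem fun h => hl (hμ l h),
      Multiset.count_eq_zero_of_notMem fun h => hl (hν l h)]

/-- the group sums are coefficients of the polynomials `h0` -/
theorem coeff_h0 (g : List ℕ →₀ Φ) (i j : ℕ) (μ : Multiset ℕ) : ∃ e : ℕ → ℕ, (∀ l, 1 ≤ e l) ∧
    ∃ n, (h0 g e i j).coeff n = gs g i j μ := by
  classical
  obtain ⟨n, hn⟩ : ∃ n : ℕ, (∀ l ∈ μ, l < n) ∧ ∀ w ∈ g.support, ∀ l ∈ w, l < n := by
    refine ⟨(μ.toFinset.sup id + 1) + (g.support.sup fun w => w.toFinset.sup id) + 1, ?_, ?_⟩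
    · intro l hl
      have := Finset.le_sup (f := id) (Multiset.mem_toFinset.2 hl)
      simp only [id] at this
      omega
    · intro w hw l hl
      have h1 := Finset.le_sup (f := id) (List.mem_toFinset.2 hl)
      have h2 := Finset.le_sup (f := fun w : List ℕ => w.toFinset.sup id) hw
      simp only [id] at h1 h2
      omega
  obtain ⟨hn1, hn2⟩ := hn
  obtain ⟨M, hM⟩ : ∃ M : ℕ, μ.card < M ∧ ∀ w ∈ g.support, w.length < M := by
    refine ⟨μ.card + (g.support.sup List.length) + 1, by omega, ?_⟩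
    intro w hw
    have := Finset.le_sup (f := List.length) hw
    omega
  obtain ⟨hM1, hM2⟩ := hM
  refine ⟨fun l => M ^ l, fun l => Nat.one_le_pow _ _ (by omega),
    (μ.map (fun l => M ^ l)).sum, ?_⟩
  simp only [h0, gs, Finsupp.sum, Polynomial.finsetSum_coeff, Polynomial.coeff_C_mul]
  refine Finset.sum_congr rfl fun w hw => ?_
  by_cases hW : Wd i j μ w
  · rw [if_pos hW]
    obtain ⟨m, rfl, hm⟩ := hW
    simp only [hp, if_true, qp_eq, Polynomial.coeff_X_pow]
    rw [if_pos, mul_one]
    rw [← hm, Multiset.map_coe, Multiset.sum_coe]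
  · rw [if_neg hW]
    cases w with
    | nil => simp [hp]
    | cons l w =>
      simp only [hp]
      by_cases hl : l = i
      · subst hl
        rw [if_pos rfl]
        by_cases hm : ∃ m, w = m ++ [j]
        · obtain ⟨m, rfl⟩ := hm
          rw [qp_eq, Polynomial.coeff_X_pow, if_neg, mul_zero]
          intro h
          apply hW
          refine ⟨m, rfl, ?_⟩
          symm
          have h5 := hn2 _ hw
          have h6 := hM2 _ hw
          refine kron (n := n) (M := M) hn1 (fun l hl => h5 l ?_) hM1 ?_ ?_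
          · rw [Multiset.mem_coe] at hl
            exact List.mem_cons_of_mem _ (List.mem_append_left _ hl)
          · rw [Multiset.coe_card]
            rw [List.length_cons, List.length_append] at h6
            omega
          · rw [h, Multiset.map_coe, Multiset.sum_coe]
        · push Not at hm
          rw [qp_zero _ _ _ hm, Polynomial.coeff_zero, mul_zero]
      · rw [if_neg hl, Polynomial.coeff_zero, mul_zero]

/-- the ideal of coefficients of the middle parts -/
def CI (F : Set (List ℕ →₀ Φ)) : Ideal Φ where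
  carrier := {c | ∃ H ∈ Gen3 F, ∃ n, (mid H).coeff n = c}
  add_mem' := by
    rintro a b ⟨H, hH, m, rfl⟩ ⟨K, hK, n, rfl⟩
    refine ⟨MvPolynomial.X 1 ^ n * H + MvPolynomial.X 1 ^ m * K,
      add_mem (Ideal.mul_mem_left _ _ hH) (Ideal.mul_mem_left _ _ hK), m + n, ?_⟩
    have h1 : mid (Φ := Φ) (MvPolynomial.X 1) = Polynomial.X := by
      rw [mid, MvPolynomial.aeval_X]
      rfl
    rw [map_add, map_mul, map_mul, map_pow, map_pow, h1, Polynomial.coeff_add,
      Polynomial.coeff_X_pow_mul, add_comm m n, Polynomial.coeff_X_pow_mul]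
  zero_mem' := ⟨0, zero_mem _, 0, by rw [map_zero, Polynomial.coeff_zero]⟩
  smul_mem' := by
    rintro c a ⟨H, hH, n, rfl⟩
    refine ⟨MvPolynomial.C c * H, Ideal.mul_mem_left _ _ hH, n, ?_⟩
    have h1 : mid (Φ := Φ) (MvPolynomial.C c) = Polynomial.C c := by
      rw [mid, MvPolynomial.aeval_C, Polynomial.algebraMap_eq]
    rw [map_mul, h1, Polynomial.coeff_C_mul, smul_eq_mul]

theorem crit {F : Set (List ℕ →₀ Φ)} (hc : ∀ 𝔪 : Ideal Φ, 𝔪.IsMaximal →
    ∃ g ∈ F, ∃ i j μ, gs g i j μ ∉ 𝔪) :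
    ∃ H ∈ Gen3 F, ∃ n0, H.coeff (Finsupp.single 1 n0) = 1 := by
  have h1 : CI F = ⊤ := by
    by_contra h
    obtain ⟨𝔪, h𝔪, hle⟩ := Ideal.exists_le_maximal _ h
    obtain ⟨g, hg, i, j, μ, hn⟩ := hc 𝔪 h𝔪
    obtain ⟨e, he, n, hen⟩ := coeff_h0 g i j μ
    apply hn
    apply hle
    refine ⟨h3 g e i j, Ideal.subset_span ⟨g, hg, e, he, i, j, rfl⟩, n, ?_⟩
    rw [mid_h3 g e he, hen]
  have h2 : (1 : Φ) ∈ CI F := by rw [h1]; trivial
  obtain ⟨H, hH, n, hn⟩ := h2
  exact ⟨H, hH, n, by rw [← mid_coeff, hn]⟩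

end Pool.Agent.V8H74.LR
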