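import Pool.Agent.V8H74.LR.Words

/-!
Products of noncommutative polynomials.
-/

set_option autoImplicit false

namespace Pool.Agent.V8H74.LR

variable {Φ : Type} [CommRing Φ] {U : Type} [Ring U] [Algebra Φ U]

/-- the product of two noncommutative polynomials -/
noncomputable def fmul (f g : List ℕ →₀ Φ) : List ℕ →₀ Φ :=
  f.sum fun u a => g.sum fun v b => Finsupp.single (u ++ v) (a * b)

theorem ev_add (x : ℕ → U) (f g : List ℕ →₀ Φ) : ev x (f + g) = ev x f + ev x g := by
  simp only [ev]
  exact Finsupp.sum_add_index' (fun _ => zero_smul _ _) (fun _ _ _ => add_smul _ _ _)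

theorem ev_single (x : ℕ → U) (w : List ℕ) (c : Φ) :
    ev x (Finsupp.single w c) = c • (w.map x).prod := by
  simp only [ev]
  exact Finsupp.sum_single_index (zero_smul _ _)

theorem ev_zero (x : ℕ → U) : ev x (0 : List ℕ →₀ Φ) = 0 := Finsupp.sum_zero_index

theorem ev_smul (x : ℕ → U) (c : Φ) (f : List ℕ →₀ Φ) : ev x (c • f) = c • ev x f := by
  simp only [ev]
  rw [Finsupp.sum_smul_index (h := fun (w : List ℕ) (a : Φ) => a • (w.map x).prod)
    (fun _ => zero_smul _ _), Finsupp.smul_sum]
  exact Finsupp.sum_congr fun _ _ => by rw [mul_smul]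

theorem ev_sum {ι : Type} (x : ℕ → U) (s : Finset ι) (f : ι → List ℕ →₀ Φ) :
    ev x (∑ i ∈ s, f i) = ∑ i ∈ s, ev x (f i) := by
  classical
  induction s using Finset.induction_on with
  | empty => rw [Finset.sum_empty, Finset.sum_empty, ev_zero]
  | insert a s ha ih => rw [Finset.sum_insert ha, Finset.sum_insert ha, ev_add, ih]

theorem ev_fmul (x : ℕ → U) (f g : List ℕ →₀ Φ) : ev x (fmul f g) = ev x f * ev x g := by
  simp only [fmul, Finsupp.sum, ev_sum, ev_single]
  simp only [ev, Finsupp.sum]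
  rw [Finset.sum_mul]
  refine Finset.sum_congr rfl fun u _ => ?_
  rw [Finset.mul_sum]
  refine Finset.sum_congr rfl fun v _ => ?_
  rw [List.map_append, List.prod_append, smul_mul_smul_comm]

theorem fmul_apply (f g : List ℕ →₀ Φ) (w : List ℕ) :
    fmul f g w = ∑ u ∈ f.support, ∑ v ∈ g.support, if u ++ v = w then f u * g v else 0 := by
  classical
  simp only [fmul, Finsupp.sum, Finsupp.finsetSum_apply, Finsupp.single_apply]

/-- `f` has no words longer than `n` -/
def Deg (f : List ℕ →₀ Φ) (n : ℕ) : Prop := ∀ w, n < w.length → f w = 0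

theorem Deg.le {f : List ℕ →₀ Φ} {n : ℕ} (h : Deg f n) {w : List ℕ} (hw : w ∈ f.support) :
    w.length ≤ n := by
  by_contra hcon
  push Not at hcon
  exact Finsupp.mem_support_iff.1 hw (h w hcon)

theorem Deg.add {f g : List ℕ →₀ Φ} {n : ℕ} (hf : Deg f n) (hg : Deg g n) : Deg (f + g) n := by
  intro w hw
  rw [Finsupp.add_apply, hf w hw, hg w hw, add_zero]

theorem Deg.smul {f : List ℕ →₀ Φ} {n : ℕ} (hf : Deg f n) (c : Φ) : Deg (c • f) n := by
  intro w hw
  rw [Finsupp.smul_apply, hf w hw, smul_zero]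

theorem Deg.fmul {f g : List ℕ →₀ Φ} {m n : ℕ} (hf : Deg f m) (hg : Deg g n) :
    Deg (fmul f g) (m + n) := by
  intro w hw
  rw [fmul_apply]
  refine Finset.sum_eq_zero fun u hu => Finset.sum_eq_zero fun v hv => ?_
  rw [if_neg]
  rintro rfl
  have h1 := hf.le hu
  have h2 := hg.le hv
  rw [List.length_append] at hw
  omega

theorem fmul_lead {f g : List ℕ →₀ Φ} {m n : ℕ} (hf : Deg f m) (hg : Deg g n) {u v : List ℕ}
    (hu : u.length = m) (hv : v.length = n) : fmul f g (u ++ v) = f u * g v := by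
  rw [fmul_apply]
  have key : ∀ u' ∈ f.support, ∀ v' ∈ g.support, u' ++ v' = u ++ v → u' = u ∧ v' = v := by
    intro u' hu' v' hv' h
    have h1 := hf.le hu'
    have h2 := hg.le hv'
    have h3 := congrArg List.length h
    rw [List.length_append, List.length_append] at h3
    exact List.append_inj h (by omega)
  rw [Finset.sum_eq_single u, Finset.sum_eq_single v]
  · rw [if_pos rfl]
  · intro v' hv' hne
    by_cases hu0 : u ∈ f.support
    · rw [if_neg]
      exact fun h => hne (key u hu0 v' hv' h).2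
    · rw [Finsupp.notMem_support_iff.1 hu0]
      simp
  · intro h
    rw [Finsupp.notMem_support_iff.1 h]
    simp
  · intro u' hu' hne
    refine Finset.sum_eq_zero fun v' hv' => ?_
    rw [if_neg]
    exact fun h => hne (key u' hu' v' hv' h).1
  · intro h
    rw [Finsupp.notMem_support_iff.1 h]
    simp

theorem Deg.single (w : List ℕ) (c : Φ) : Deg (Finsupp.single w c) w.length := by
  classical
  intro v hv
  rw [Finsupp.single_apply, if_neg]
  rintro rfl
  exact lt_irrefl _ hv

theorem exists_top {f : List ℕ →₀ Φ} (hf : f ≠ 0) : ∃ w, f w ≠ 0 ∧ Deg f w.length := by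
  obtain ⟨w, hw, hmax⟩ := Finset.exists_max_image f.support List.length
    (Finsupp.support_nonempty_iff.2 hf)
  refine ⟨w, Finsupp.mem_support_iff.1 hw, fun v hv => ?_⟩
  by_contra hcon
  have := hmax v (Finsupp.mem_support_iff.2 hcon)
  omega

end Pool.Agent.V8H74.LR
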