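import Mathlib

/-!
Ideals of finite index in finitely generated rings without unit.
-/

set_option autoImplicit false

namespace Pool.Agent.V8H74.LR

variable {R : Type} [NonUnitalRing R]

theorem fi_comap (Q : AddSubgroup R) (hQ : Q.FiniteIndex) (f : R →+ R) :
    (Q.comap f).FiniteIndex := by
  constructor
  rw [AddSubgroup.index_comap]
  have := AddSubgroup.isFiniteRelIndex_of_finiteIndex (H := Q) (K := f.range)
  exact AddSubgroup.relIndex_ne_zero

theorem out_sub (Q : AddSubgroup R) (r : R) : r - Quotient.out (r : R ⧸ Q) ∈ Q := by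
  have h : ((Quotient.out (r : R ⧸ Q) : R) : R ⧸ Q) = (r : R ⧸ Q) := Quotient.out_eq' _
  rw [QuotientAddGroup.eq] at h
  have := h
  rw [neg_add_eq_sub] at this
  exact this

/-- a subring of finite index contains an ideal of finite index -/
theorem core (Q : AddSubgroup R) (hQ : Q.FiniteIndex) (hm : ∀ x ∈ Q, ∀ y ∈ Q, x * y ∈ Q) :
    ∃ I : AddSubgroup R, I ≤ Q ∧ I.FiniteIndex ∧ ∀ x ∈ I, ∀ r : R, r * x ∈ I ∧ x * r ∈ I := by
  have hfQ : Finite (R ⧸ Q) := Q.finite_quotient_of_finiteIndex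
  let L : AddSubgroup R := Q ⊓ ⨅ q : R ⧸ Q, Q.comap (AddMonoidHom.mulRight (Quotient.out q))
  have hL1 : L.FiniteIndex := by
    have h1 : (⨅ q : R ⧸ Q, Q.comap (AddMonoidHom.mulRight (Quotient.out q))).FiniteIndex :=
      AddSubgroup.finiteIndex_iInf fun q => fi_comap Q hQ _
    infer_instance
  have hLmem : ∀ x, x ∈ L ↔ x ∈ Q ∧ ∀ r : R, x * r ∈ Q := by
    intro x
    constructor
    · intro hx
      refine ⟨hx.1, fun r => ?_⟩
      have h1 := (AddSubgroup.mem_iInf.1 hx.2) (r : R ⧸ Q)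
      have h2 : x * (Quotient.out (r : R ⧸ Q)) ∈ Q := h1
      have h3 := hm x hx.1 _ (out_sub Q r)
      have h4 := Q.add_mem h2 h3
      rwa [← mul_add, add_sub_cancel] at h4
    · rintro ⟨h1, h2⟩
      exact ⟨h1, AddSubgroup.mem_iInf.2 fun q => h2 _⟩
  have hLr : ∀ x ∈ L, ∀ r : R, x * r ∈ L := by
    intro x hx r
    rw [hLmem] at hx ⊢
    exact ⟨hx.2 r, fun s => by rw [mul_assoc]; exact hx.2 _⟩
  have hfL : Finite (R ⧸ L) := L.finite_quotient_of_finiteIndex
  let I : AddSubgroup R := L ⊓ ⨅ q : R ⧸ L, L.comap (AddMonoidHom.mulLeft (Quotient.out q))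
  have hI1 : I.FiniteIndex := by
    have h1 : (⨅ q : R ⧸ L, L.comap (AddMonoidHom.mulLeft (Quotient.out q))).FiniteIndex :=
      AddSubgroup.finiteIndex_iInf fun q => fi_comap L hL1 _
    infer_instance
  have hImem : ∀ x, x ∈ I ↔ x ∈ L ∧ ∀ r : R, r * x ∈ L := by
    intro x
    constructor
    · intro hx
      refine ⟨hx.1, fun r => ?_⟩
      have h1 := (AddSubgroup.mem_iInf.1 hx.2) (r : R ⧸ L)
      have h2 : (Quotient.out (r : R ⧸ L)) * x ∈ L := h1
      have h3 := hLr _ (out_sub L r) x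
      have h4 := L.add_mem h2 h3
      rwa [← add_mul, add_sub_cancel] at h4
    · rintro ⟨h1, h2⟩
      exact ⟨h1, AddSubgroup.mem_iInf.2 fun q => h2 _⟩
  refine ⟨I, inf_le_left.trans inf_le_left, hI1, ?_⟩
  intro x hx r
  rw [hImem] at hx
  constructor
  · rw [hImem]
    exact ⟨hx.2 r, fun s => by rw [← mul_assoc]; exact hx.2 _⟩
  · rw [hImem]
    exact ⟨hLr _ hx.1 r, fun s => by rw [← mul_assoc]; exact hLr _ (hx.2 s) r⟩

/-- **An ideal of finite index in a finitely generated ring is a finitely generated ring.** -/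
theorem lewin {S : Set R} (hS : S.Finite) (hcl : NonUnitalSubring.closure S = ⊤)
    (B : AddSubgroup R) (hB : B.FiniteIndex) (hid : ∀ x ∈ B, ∀ r : R, r * x ∈ B ∧ x * r ∈ B) :
    ∃ G : Set R, G.Finite ∧ (∀ g ∈ G, g ∈ B) ∧ ∀ x ∈ B, x ∈ NonUnitalSubring.closure G := by
  classical
  have hfB : Finite (R ⧸ B) := B.finite_quotient_of_finiteIndex
  let τ : R → R := fun r => Quotient.out (r : R ⧸ B)
  let b : R → R := fun r => r - τ r
  have hb : ∀ r, b r ∈ B := fun r => out_sub B r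
  have hτb : ∀ r, r = τ r + b r := fun r => (add_sub_cancel _ _).symm
  let T : Set R := Set.range fun q : R ⧸ B => Quotient.out q
  have hT : T.Finite := Set.finite_range _
  have hτT : ∀ r, τ r ∈ T := fun r => ⟨_, rfl⟩
  let G : Set R := b '' (S ∪ {x | ∃ y ∈ T, ∃ z ∈ T, x = y * z})
  have hTT : {x | ∃ y ∈ T, ∃ z ∈ T, x = y * z}.Finite := by
    have : {x | ∃ y ∈ T, ∃ z ∈ T, x = y * z} ⊆ (fun p : R × R => p.1 * p.2) '' (T ×ˢ T) := by
      rintro x ⟨y, hy, z, hz, rfl⟩
      exact ⟨(y, z), ⟨hy, hz⟩, rfl⟩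
    exact ((hT.prod hT).image _).subset this
  have hG : G.Finite := (hS.union hTT).image _
  have hGB : ∀ g ∈ G, g ∈ B := by
    rintro _ ⟨x, _, rfl⟩
    exact hb x
  let G' : Set R := G ∪ ({x | ∃ y ∈ T, ∃ g ∈ G, x = y * g} ∪ ({x | ∃ g ∈ G, ∃ z ∈ T, x = g * z} ∪
    {x | ∃ y ∈ T, ∃ g ∈ G, ∃ z ∈ T, x = y * g * z}))
  have hG'f : G'.Finite := by
    refine hG.union (Set.Finite.union ?_ (Set.Finite.union ?_ ?_))
    · have : {x | ∃ y ∈ T, ∃ g ∈ G, x = y * g} ⊆ (fun p : R × R => p.1 * p.2) '' (T ×ˢ G) := by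
        rintro x ⟨y, hy, z, hz, rfl⟩
        exact ⟨(y, z), ⟨hy, hz⟩, rfl⟩
      exact ((hT.prod hG).image _).subset this
    · have : {x | ∃ g ∈ G, ∃ z ∈ T, x = g * z} ⊆ (fun p : R × R => p.1 * p.2) '' (G ×ˢ T) := by
        rintro x ⟨y, hy, z, hz, rfl⟩
        exact ⟨(y, z), ⟨hy, hz⟩, rfl⟩
      exact ((hG.prod hT).image _).subset this
    · have : {x | ∃ y ∈ T, ∃ g ∈ G, ∃ z ∈ T, x = y * g * z} ⊆
          (fun p : R × R × R => p.1 * p.2.1 * p.2.2) '' (T ×ˢ G ×ˢ T) := by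
        rintro x ⟨y, hy, g, hg, z, hz, rfl⟩
        exact ⟨(y, g, z), ⟨hy, hg, hz⟩, rfl⟩
      exact ((hT.prod (hG.prod hT)).image _).subset this
  have hG'B : ∀ g ∈ G', g ∈ B := by
    rintro x (hx | ⟨y, _, g, hg, rfl⟩ | ⟨g, hg, z, _, rfl⟩ | ⟨y, _, g, hg, z, _, rfl⟩)
    · exact hGB x hx
    · exact (hid g (hGB g hg) y).1
    · exact (hid g (hGB g hg) z).2
    · exact (hid _ (hid g (hGB g hg) y).1 z).2
  let B0 := NonUnitalSubring.closure G'
  have hGB0 : ∀ g ∈ G, g ∈ B0 := fun g hg => NonUnitalSubring.subset_closure (Or.inl hg)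
  have hTG : ∀ y ∈ T, ∀ g ∈ G, y * g ∈ B0 := fun y hy g hg =>
    NonUnitalSubring.subset_closure (Or.inr (Or.inl ⟨y, hy, g, hg, rfl⟩))
  have hGT : ∀ g ∈ G, ∀ z ∈ T, g * z ∈ B0 := fun g hg z hz =>
    NonUnitalSubring.subset_closure (Or.inr (Or.inr (Or.inl ⟨g, hg, z, hz, rfl⟩)))
  have hTGT : ∀ y ∈ T, ∀ g ∈ G, ∀ z ∈ T, y * g * z ∈ B0 := fun y hy g hg z hz =>
    NonUnitalSubring.subset_closure (Or.inr (Or.inr (Or.inr ⟨y, hy, g, hg, z, hz, rfl⟩)))
  have hbTT : ∀ y ∈ T, ∀ z ∈ T, b (y * z) ∈ G := fun y hy z hz =>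
    ⟨_, Or.inr ⟨y, hy, z, hz, rfl⟩, rfl⟩
  have hB0T : ∀ x ∈ B0, ∀ z ∈ T, x * z ∈ B0 := by
    intro x hx
    induction hx using NonUnitalSubring.closure_induction with
    | mem x hx =>
      intro z hz
      rcases hx with hx | ⟨y, hy, g, hg, rfl⟩ | ⟨g, hg, w, hw, rfl⟩ | ⟨y, hy, g, hg, w, hw, rfl⟩
      · exact hGT x hx z hz
      · exact hTGT y hy g hg z hz
      · rw [mul_assoc, hτb (w * z), mul_add]
        exact add_mem (hGT g hg _ (hτT _)) (mul_mem (hGB0 g hg) (hGB0 _ (hbTT w hw z hz)))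
      · rw [mul_assoc, hτb (w * z), mul_add]
        exact add_mem (hTGT y hy g hg _ (hτT _))
          (mul_mem (hTG y hy g hg) (hGB0 _ (hbTT w hw z hz)))
    | zero => intro z _; rw [zero_mul]; exact zero_mem _
    | add x y _ _ hx hy => intro z hz; rw [add_mul]; exact add_mem (hx z hz) (hy z hz)
    | neg x _ hx => intro z hz; rw [neg_mul]; exact neg_mem (hx z hz)
    | mul x y hx' _ _ hy => intro z hz; rw [mul_assoc]; exact mul_mem hx' (hy z hz)
  let V : Submodule ℤ R := Submodule.span ℤ T ⊔ (AddSubgroup.toIntSubmodule B0.toAddSubgroup)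
  have hB0V : ∀ x ∈ B0, x ∈ V := fun x hx => Submodule.mem_sup_right hx
  have hTV : ∀ x ∈ T, x ∈ V := fun x hx => Submodule.mem_sup_left (Submodule.subset_span hx)
  have hVs : ∀ s ∈ S, s ∈ V ∧ ∀ x ∈ V, x * s ∈ V := by
    intro s hs
    have hbs : b s ∈ G := ⟨s, Or.inl hs, rfl⟩
    constructor
    · rw [hτb s]
      exact V.add_mem (hTV _ (hτT s)) (hB0V _ (hGB0 _ hbs))
    · intro x hx
      obtain ⟨v, hv, c, hc, rfl⟩ := Submodule.mem_sup.1 hx
      rw [add_mul]
      refine V.add_mem ?_ ?_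
      · clear hx
        induction hv using Submodule.span_induction with
        | mem y hy =>
          rw [hτb s, mul_add]
          refine V.add_mem ?_ (hB0V _ (hTG y hy _ hbs))
          rw [hτb (y * τ s)]
          exact V.add_mem (hTV _ (hτT _)) (hB0V _ (hGB0 _ (hbTT y hy _ (hτT s))))
        | zero => rw [zero_mul]; exact V.zero_mem
        | add p q _ _ hp hq => rw [add_mul]; exact V.add_mem hp hq
        | smul k p _ hp => rw [smul_mul_assoc]; exact V.smul_mem _ hp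
      · have hc' : c ∈ B0 := hc
        rw [hτb s, mul_add]
        exact V.add_mem (hB0V _ (hB0T c hc' _ (hτT s))) (hB0V _ (mul_mem hc' (hGB0 _ hbs)))
  have hVtop : ∀ r : R, r ∈ V ∧ ∀ x ∈ V, x * r ∈ V := by
    intro r
    have hr : r ∈ NonUnitalSubring.closure S := by rw [hcl]; trivial
    induction hr using NonUnitalSubring.closure_induction with
    | mem s hs => exact hVs s hs
    | zero => exact ⟨V.zero_mem, fun x _ => by rw [mul_zero]; exact V.zero_mem⟩
    | add x y _ _ hx hy =>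
      exact ⟨V.add_mem hx.1 hy.1, fun z hz => by
        rw [mul_add]; exact V.add_mem (hx.2 z hz) (hy.2 z hz)⟩
    | neg x _ hx =>
      exact ⟨V.neg_mem hx.1, fun z hz => by rw [mul_neg]; exact V.neg_mem (hx.2 z hz)⟩
    | mul x y _ _ hx hy =>
      exact ⟨hy.2 x hx.1, fun z hz => by rw [← mul_assoc]; exact hy.2 _ (hx.2 z hz)⟩
  -- the part of `B` in the span of `T`
  let M0 : Submodule ℤ R := (AddSubgroup.toIntSubmodule B) ⊓ Submodule.span ℤ T
  have hM0 : M0.FG := by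
    have h1 : IsNoetherian ℤ (Submodule.span ℤ T) := isNoetherian_span_of_finite ℤ hT
    have h2 : ((AddSubgroup.toIntSubmodule B).comap (Submodule.span ℤ T).subtype).FG :=
      IsNoetherian.noetherian _
    have h3 := h2.map (Submodule.span ℤ T).subtype
    rw [Submodule.map_comap_subtype, inf_comm] at h3
    exact h3
  obtain ⟨E, hEf, hE⟩ := Submodule.fg_def.1 hM0
  refine ⟨G' ∪ E, hG'f.union hEf, ?_, ?_⟩
  · rintro g (hg | hg)
    · exact hG'B g hg
    · have h1 : g ∈ M0 := by rw [← hE]; exact Submodule.subset_span hg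
      exact h1.1
  · intro x hx
    obtain ⟨v, hv, c, hc, hvc⟩ := Submodule.mem_sup.1 (hVtop x).1
    have hc' : c ∈ B0 := hc
    have hB0B : ∀ y ∈ B0, y ∈ B := by
      intro y hy
      induction hy using NonUnitalSubring.closure_induction with
      | mem y hy => exact hG'B y hy
      | zero => exact B.zero_mem
      | add y z _ _ hy hz => exact B.add_mem hy hz
      | neg y _ hy => exact B.neg_mem hy
      | mul y z _ _ hy hz => exact (hid z hz y).1
    have hvM : v ∈ M0 := by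
      refine ⟨?_, hv⟩
      have : v = x - c := by rw [← hvc, add_sub_cancel_right]
      rw [this]
      exact B.sub_mem hx (hB0B c hc')
    rw [← hE] at hvM
    rw [← hvc]
    refine add_mem ?_ (NonUnitalSubring.closure_mono Set.subset_union_left hc')
    clear hvc hv
    induction hvM using Submodule.span_induction with
    | mem y hy => exact NonUnitalSubring.subset_closure (Or.inr hy)
    | zero => exact zero_mem _
    | add y z _ _ hy hz => exact add_mem hy hz
    | smul k y _ hy => exact zsmul_mem hy k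

end Pool.Agent.V8H74.LR
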