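import Pool.Agent.V8H74.LR.Simple2

/-!
An ideal of finite index whose commutators generate a nil ideal.
-/

set_option autoImplicit false

namespace Pool.Agent.V8H74.LR

open Pool.Agent.H854R3.CR Pool.Agent.H854R3.NE

variable {Φ : Type} [CommRing Φ] {U : Type} [Ring U] [Algebra Φ U]

/-- the elements killed by all homomorphisms to rings with at most `K` elements -/
def Small (Φ : Type) [CommRing Φ] (U : Type) [Ring U] [Algebra Φ U] (K : ℕ) :
    Submodule Φ U where
  carrier := {u | ∀ (T : Type) [Ring T] [Finite T], Nat.card T ≤ K → ∀ φ : U →+* T, φ u = 0}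
  add_mem' := by
    intro a b ha hb T _ _ hT φ
    rw [map_add, ha T hT φ, hb T hT φ, add_zero]
  zero_mem' := by
    intro T _ _ _ φ
    exact map_zero φ
  smul_mem' := by
    intro c a ha T _ _ hT φ
    rw [Algebra.smul_def, map_mul, ha T hT φ, mul_zero]

theorem isI_Small (K : ℕ) : IsI (Small Φ U K) := by
  constructor
  · intro u x hx T _ _ hT φ
    rw [map_mul, hx T hT φ, mul_zero]
  · intro u x hx T _ _ hT φ
    rw [map_mul, hx T hT φ, zero_mul]

/-- a finite set without operations -/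
def Fk (k : ℕ) : Type := Fin k

instance (k : ℕ) : Finite (Fk k) := inferInstanceAs (Finite (Fin k))

theorem finite_ring_struct (k : ℕ) : Finite (Ring (Fk k)) := by
  apply Finite.of_injective (fun r : Ring (Fk k) =>
    ((@HAdd.hAdd (Fk k) (Fk k) (Fk k) (@instHAdd _ r.toAdd),
      @HMul.hMul (Fk k) (Fk k) (Fk k) (@instHMul _ r.toMul)) :
      (Fk k → Fk k → Fk k) × (Fk k → Fk k → Fk k)))
  intro r r' h
  exact Ring.ext (congrArg Prod.fst h) (congrArg Prod.snd h)

theorem finite_homs (hU : FGR U) (T : Type) [Ring T] [Finite T] : Finite (U →+* T) := by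
  obtain ⟨S, hS, hcl⟩ := hU
  have := hS.to_subtype
  apply Finite.of_injective (fun (φ : U →+* T) (s : S) => φ s)
  intro φ ψ h
  apply RingHom.eq_of_eqOn_set_top
  rw [← hcl]
  intro x hx
  exact RingHom.eqOn_set_closure (fun s hs => congrFun h ⟨s, hs⟩) hx

theorem finite_Small (hU : FGR U) (K : ℕ) : Finite (U ⧸ Small Φ U K) := by
  let ι := Σ (k : Fin (K + 1)) (_ : Ring (Fk k)), (U →+* Fk k)
  have hf1 : ∀ k, Finite (Ring (Fk k)) := finite_ring_struct
  have hf2 : ∀ (k : Fin (K + 1)) (r : Ring (Fk k)), Finite (U →+* Fk k) :=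
    fun k r => finite_homs hU _
  have hι : Finite ι := inferInstance
  let V := ∀ i : ι, Fk i.1
  have hV : Finite V := inferInstance
  let ψ : U → V := fun u i => i.2.2 u
  have key : ∀ u v : U, ψ u = ψ v → u - v ∈ Small Φ U K := by
    intro u v huv T iT hT hcard φ
    obtain ⟨n, ⟨e⟩⟩ := Finite.exists_equiv_fin T
    have hn : n = Nat.card T := by
      rw [Nat.card_congr e, Nat.card_eq_fintype_card, Fintype.card_fin]
    let e' : T ≃ Fk n := e
    let r : Ring (Fk n) := e'.symm.ring
    let er : T ≃+* Fk n := (e'.symm.ringEquiv).symm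
    let i : ι := ⟨⟨n, by omega⟩, r, er.toRingHom.comp φ⟩
    have h1 : ψ u i = ψ v i := congrFun huv i
    have h2 : er (φ u) = er (φ v) := h1
    rw [map_sub, er.injective h2, sub_self]
  apply Finite.of_injective (fun q : U ⧸ Small Φ U K => ψ (Quotient.out q))
  intro q q' h
  have h1 := key _ _ h
  have h2 : Submodule.Quotient.mk (p := Small Φ U K) (Quotient.out q) =
      Submodule.Quotient.mk (Quotient.out q') := (Submodule.Quotient.eq _).2 h1
  have e1 : Submodule.Quotient.mk (p := Small Φ U K) (Quotient.out q) = q := Quotient.out_eq q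
  have e2 : Submodule.Quotient.mk (p := Small Φ U K) (Quotient.out q') = q' := Quotient.out_eq q'
  rwa [e1, e2] at h2

/-- the relations for all elements of `Gen3` -/
theorem rel_gen {A : Submodule Φ U} {F : Set (List ℕ →₀ Φ)} (hF : ∀ f ∈ F, Van (A : Set U) f)
    {H : P3 Φ} (hH : H ∈ Gen3 F) : ∃ N : ℕ, ∀ (W : Type) [AddCommGroup W] [Module U W]
      (κ : Type) [Field κ] [Module κ W] [Finite κ] (γ : Φ →+* κ), VS Φ A W κ γ →
      ∀ v : Fin 2 → W, LinearIndependent κ v → N < Nat.card κ → ∀ y : κ,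
      (mid H).eval₂ γ y = 0 := by
  induction hH using Submodule.span_induction with
  | mem x hx =>
    obtain ⟨f, hf, e, he, i, j, rfl⟩ := hx
    refine ⟨f.support.sup List.length, ?_⟩
    intro W _ _ κ _ _ _ γ hVS v hv hκ y
    rw [mid_h3 f e he]
    exact rel_h0 hVS (hF f hf) hv e i j (fun w hw => Finset.le_sup (f := List.length) hw) hκ y
  | zero => exact ⟨0, fun W _ _ κ _ _ _ γ _ v _ _ y => by rw [map_zero, Polynomial.eval₂_zero]⟩
  | add x y _ _ hx hy =>
    obtain ⟨N1, h1⟩ := hx
    obtain ⟨N2, h2⟩ := hy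
    refine ⟨max N1 N2, ?_⟩
    intro W _ _ κ _ _ _ γ hVS v hv hκ z
    rw [map_add, Polynomial.eval₂_add,
      h1 W κ γ hVS v hv (lt_of_le_of_lt (le_max_left _ _) hκ) z,
      h2 W κ γ hVS v hv (lt_of_le_of_lt (le_max_right _ _) hκ) z, add_zero]
  | smul c x _ hx =>
    obtain ⟨N1, h1⟩ := hx
    refine ⟨N1, ?_⟩
    intro W _ _ κ _ _ _ γ hVS v hv hκ z
    rw [smul_eq_mul, map_mul, Polynomial.eval₂_mul, h1 W κ γ hVS v hv hκ z, mul_zero]

/-- Finite simple modules on which the algebra does not act commutatively are small. -/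
theorem small_module {A : Submodule Φ U} (hA : IsI A) {m : ℕ}
    {nn : Equiv.Perm (Fin m) → ℤ} {π0 : Equiv.Perm (Fin m)} (h0 : nn π0 = 1)
    (hid : MId (A : Set U) m nn) {F : Set (List ℕ →₀ Φ)} (hF : ∀ f ∈ F, Van (A : Set U) f)
    {H : P3 Φ} (hHF : H ∈ Gen3 F) {n0 : ℕ} (hH : H.coeff (Finsupp.single 1 n0) = 1) :
    ∃ c : ℕ, ∀ (W : Type) [AddCommGroup W] [Module U W], IsSimpleModule U W → Finite W →
      (∃ a ∈ A, ∃ w : W, a • w ≠ 0) → (∃ u v : U, ∃ w : W, (u * v - v * u) • w ≠ 0) →
      Nat.card W ≤ c := by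
  classical
  obtain ⟨N, hN⟩ := rel_gen hF hHF
  refine ⟨(max (max N (mid H).natDegree) 1) ^ m, ?_⟩
  intro W _ _ hs hWf hAW hnc
  obtain ⟨κ, iκ, hκf, iM, γ, hVS⟩ := simple_data hA W hAW
  have := Fintype.ofFinite κ
  have := Fintype.ofFinite W
  have hfin : Module.Finite κ W := Module.Finite.of_finite
  have hdim := dim_le hVS h0 hid
  -- the dimension is at least two
  have h2 : 1 < Module.finrank κ W := by
    by_contra hcon
    push Not at hcon
    obtain ⟨v, hv⟩ := (finrank_le_one_iff).1 hcon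
    obtain ⟨u, u', w, hw⟩ := hnc
    apply hw
    obtain ⟨k, rfl⟩ := hv w
    obtain ⟨a, ha⟩ := hv (u • v)
    obtain ⟨b, hb⟩ := hv (u' • v)
    rw [hVS.comm, sub_smul, mul_smul, mul_smul, ← ha, ← hb, hVS.comm, hVS.comm, ← ha, ← hb,
      smul_smul, smul_smul, mul_comm b a, sub_self, smul_zero]
  let b := Module.finBasis κ W
  let v : Fin 2 → W := fun i => b (Fin.castLE h2 i)
  have hv : LinearIndependent κ v :=
    b.linearIndependent.comp _ (Fin.castLE_injective h2)
  have hκ : Nat.card κ ≤ max N (mid H).natDegree := by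
    by_contra hcon
    push Not at hcon
    have h3 := hN W κ γ hVS v hv (lt_of_le_of_lt (le_max_left _ _) hcon)
    have h4 : (mid H).map γ = 0 := by
      refine Polynomial.eq_zero_of_natDegree_lt_card_of_eval_eq_zero _ (f := (id : κ → κ))
        Function.injective_id ?_ ?_
      · intro y
        rw [Polynomial.eval_map]
        exact h3 y
      · rw [← Nat.card_eq_fintype_card]
        exact lt_of_le_of_lt (Polynomial.natDegree_map_le.trans (le_max_right _ _)) hcon
    have h5 := congrArg (fun p => p.coeff n0) h4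
    simp only [Polynomial.coeff_map, mid_coeff, hH, map_one, Polynomial.coeff_zero] at h5
    exact one_ne_zero h5
  rw [Nat.card_eq_fintype_card, Module.card_eq_pow_finrank (K := κ), ← Nat.card_eq_fintype_card]
  calc Nat.card κ ^ Module.finrank κ W ≤
      (max (max N (mid H).natDegree) 1) ^ Module.finrank κ W :=
        Nat.pow_le_pow_left (hκ.trans (le_max_left _ _)) _
    _ ≤ _ := Nat.pow_le_pow_right (lt_of_lt_of_le Nat.one_pos (le_max_right _ _)) hdim

/-- **An ideal of finite index whose commutators generate a nil ideal.** -/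
theorem fin_B {A : Submodule Φ U} (hA : IsI A) (hU : FGR U) (hPI : PIOn (A : Set U))
    {F : Set (List ℕ →₀ Φ)} (hF : ∀ f ∈ F, Van (A : Set U) f)
    {H : P3 Φ} (hHF : H ∈ Gen3 F) {n0 : ℕ} (hH : H.coeff (Finsupp.single 1 n0) = 1) :
    ∃ I : Submodule Φ U, IsI I ∧ Finite (U ⧸ I) ∧
      ∀ x ∈ Idl Φ {x | ∃ a ∈ A ⊓ I, ∃ b ∈ A ⊓ I, x = a * b - b * a}, ∃ k : ℕ, x ^ k = 0 := by
  obtain ⟨m, nn, π0, h0, hid⟩ := hPI
  obtain ⟨c, hc⟩ := small_module hA h0 hid hF hHF hH
  refine ⟨Small Φ U (c ^ c), isI_Small _, finite_Small hU _, ?_⟩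
  intro x hx
  by_contra hcon
  push Not at hcon
  have hAI : IsI (A ⊓ Small Φ U (c ^ c)) := isI_inf hA (isI_Small _)
  have hxAI : x ∈ A ⊓ Small Φ U (c ^ c) := by
    refine Idl_le hAI ?_ hx
    rintro _ ⟨a, ha, b, hb, rfl⟩
    exact sub_mem (hAI.l _ _ hb) (hAI.l _ _ ha)
  obtain ⟨W, i1, i2, hs, hWf, w, hw⟩ := detect hA hU ⟨m, nn, π0, h0, hid⟩ hxAI.1 hcon
  by_cases hnc : ∃ u v : U, ∃ w : W, (u * v - v * u) • w ≠ 0
  · have hcard := hc W hs hWf ⟨x, hxAI.1, w, hw⟩ hnc
    apply hw
    -- the action on `W` is a homomorphism to a small ring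
    have hEf : Finite (AddMonoid.End W) :=
      Finite.of_injective (fun f : AddMonoid.End W => (f : W → W)) DFunLike.coe_injective
    have hEc : Nat.card (AddMonoid.End W) ≤ c ^ c := by
      have h1 : Nat.card (AddMonoid.End W) ≤ Nat.card (W → W) :=
        Nat.card_le_card_of_injective (fun f : AddMonoid.End W => (f : W → W))
          DFunLike.coe_injective
      have hpos : 0 < Nat.card W := Nat.card_pos
      rw [Nat.card_fun] at h1
      refine h1.trans ?_
      calc Nat.card W ^ Nat.card W ≤ c ^ Nat.card W := Nat.pow_le_pow_left hcard _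
        _ ≤ c ^ c := Nat.pow_le_pow_right (hpos.trans_le hcard) hcard
    have h2 := hxAI.2 (AddMonoid.End W) hEc (Module.toAddMonoidEnd U W)
    exact congrArg (fun f : AddMonoid.End W => f w) h2
  · push Not at hnc
    apply hw
    have key : ∀ y ∈ Idl Φ {x | ∃ a ∈ A ⊓ Small Φ U (c ^ c), ∃ b ∈ A ⊓ Small Φ U (c ^ c),
        x = a * b - b * a}, ∀ w : W, y • w = 0 := by
      intro y hy
      induction hy using Submodule.span_induction with
      | mem y hy =>
        obtain ⟨u, v, _, ⟨a, _, b, _, rfl⟩, rfl⟩ := hy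
        intro w
        rw [mul_smul, mul_smul, hnc, smul_zero]
      | zero => intro w; exact zero_smul _ _
      | add y z _ _ hy hz => intro w; rw [add_smul, hy, hz, add_zero]
      | smul k y _ hy => intro w; rw [Algebra.smul_def, mul_smul, hy, smul_zero]
    exact key x hx w

end Pool.Agent.V8H74.LR
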