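import Pool.Agent.V8H74.LR.Nilp2
import Pool.Agent.V8H74.LR.Simple3
import Pool.Agent.V8H74.LR.Lewin

/-!
Residual finiteness of finitely generated rings without unit.
-/

set_option autoImplicit false

namespace Pool.Agent.V8H74.LR

open Pool.Agent.H854R3.CR Pool.Agent.H854R3.NE

variable (Φ : Type) [CommRing Φ] (R : Type) [NonUnitalRing R] [Module Φ R]
  [IsScalarTower Φ R R] [SMulCommClass Φ R R]

/-- the ring inside its unitization -/
def Ri : Submodule Φ (Unitization Φ R) where
  carrier := {u | u.fst = 0}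
  add_mem' := by
    intro a b ha hb
    change (a + b).fst = 0
    rw [Unitization.fst_add, show a.fst = 0 from ha, show b.fst = 0 from hb, add_zero]
  zero_mem' := Unitization.fst_zero
  smul_mem' := by
    intro c a ha
    change (c • a).fst = 0
    rw [Unitization.fst_smul, show a.fst = 0 from ha, smul_zero]

variable {Φ R}

omit [IsScalarTower Φ R R] [SMulCommClass Φ R R] in
theorem mem_Ri {u : Unitization Φ R} : u ∈ Ri Φ R ↔ u.fst = 0 := Iff.rfl

omit [IsScalarTower Φ R R] [SMulCommClass Φ R R] in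
theorem inr_Ri (r : R) : (r : Unitization Φ R) ∈ Ri Φ R := Unitization.fst_inr Φ r

omit [IsScalarTower Φ R R] [SMulCommClass Φ R R] in
theorem Ri_inr {u : Unitization Φ R} (hu : u ∈ Ri Φ R) : ∃ r : R, u = (r : Unitization Φ R) := by
  refine ⟨u.snd, ?_⟩
  have h := Unitization.inl_fst_add_inr_snd_eq u
  rw [mem_Ri.1 hu, Unitization.inl_zero, zero_add] at h
  exact h.symm

theorem isI_Ri : IsI (Ri Φ R) := by
  constructor
  · intro u x hx
    rw [mem_Ri, Unitization.fst_mul, mem_Ri.1 hx, mul_zero]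
  · intro u x hx
    rw [mem_Ri, Unitization.fst_mul, mem_Ri.1 hx, zero_mul]

theorem fgr_unit [Algebra.FiniteType ℤ Φ] (hR : FGen R) : FGR (Unitization Φ R) := by
  obtain ⟨S, hS, hcl⟩ := hR
  obtain ⟨E, hE⟩ := (inferInstance : Algebra.FiniteType ℤ Φ).out
  refine ⟨(Unitization.inr '' S) ∪ (algebraMap Φ (Unitization Φ R) '' (E : Set Φ)),
    (hS.image _).union (E.finite_toSet.image _), ?_⟩
  rw [eq_top_iff]
  rintro u -
  have h1 : ∀ r : R, (r : Unitization Φ R) ∈ Subring.closure ((Unitization.inr '' S) ∪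
      (algebraMap Φ (Unitization Φ R) '' (E : Set Φ))) := by
    intro r
    have hr : r ∈ NonUnitalSubring.closure S := by rw [hcl]; trivial
    induction hr using NonUnitalSubring.closure_induction with
    | mem x hx => exact Subring.subset_closure (Or.inl ⟨x, hx, rfl⟩)
    | zero => rw [Unitization.inr_zero]; exact zero_mem _
    | add x y _ _ hx hy => rw [Unitization.inr_add]; exact add_mem hx hy
    | neg x _ hx => rw [Unitization.inr_neg]; exact neg_mem hx
    | mul x y _ _ hx hy => rw [Unitization.inr_mul]; exact mul_mem hx hy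
  have h2 : ∀ c : Φ, algebraMap Φ (Unitization Φ R) c ∈ Subring.closure ((Unitization.inr '' S) ∪
      (algebraMap Φ (Unitization Φ R) '' (E : Set Φ))) := by
    intro c
    have hc : c ∈ Algebra.adjoin ℤ (E : Set Φ) := by rw [hE]; trivial
    rw [Algebra.adjoin_int] at hc
    have hc' : c ∈ Subring.closure (E : Set Φ) := hc
    induction hc' using Subring.closure_induction with
    | mem x hx => exact Subring.subset_closure (Or.inr ⟨x, hx, rfl⟩)
    | zero => rw [map_zero]; exact zero_mem _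
    | one => rw [map_one]; exact one_mem _
    | add x y hx hy ihx ihy =>
      rw [map_add]
      exact add_mem (ihx hx) (ihy hy)
    | neg x hx ihx => rw [map_neg]; exact neg_mem (ihx hx)
    | mul x y hx hy ihx ihy => rw [map_mul]; exact mul_mem (ihx hx) (ihy hy)
  have h3 := Unitization.inl_fst_add_inr_snd_eq u
  rw [← h3]
  exact add_mem (h2 _) (h1 _)

theorem mid_of_inj {U V : Type} [Ring U] [Ring V] (j : U →+* V) (hj : Function.Injective j)
    {A : Set U} {B : Set V} (hAB : ∀ x ∈ A, j x ∈ B) (hB : PIOn B) : PIOn A := by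
  obtain ⟨m, nn, π0, h0, hid⟩ := hB
  refine ⟨m, nn, π0, h0, fun a ha => ?_⟩
  apply hj
  rw [map_sum, map_zero, ← hid (fun i => j (a i)) (fun i => hAB _ (ha i))]
  refine Finset.sum_congr rfl fun π _ => ?_
  rw [map_zsmul, map_list_prod, List.map_ofFn]
  rfl

theorem Van_of_inj {U V : Type} [Ring U] [Ring V] [Algebra Φ U] [Algebra Φ V] (j : U →ₐ[Φ] V)
    (hj : Function.Injective j) {A : Set U} {B : Set V} (hAB : ∀ x ∈ A, j x ∈ B)
    {f : List ℕ →₀ Φ} (hB : Van B f) : Van A f := by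
  intro x hx
  apply hj
  rw [map_zero, ev_map]
  exact hB _ fun i => hAB _ (hx i)

theorem fi_of_inj (I : AddSubgroup R) (V : Type) [Finite V] (φ : R → V)
    (h : ∀ x y, φ x = φ y → x - y ∈ I) : I.FiniteIndex := by
  have hf : Finite (R ⧸ I) := by
    apply Finite.of_injective (fun q : R ⧸ I => φ (Quotient.out q))
    intro q q' hq
    have h1 := h _ _ hq
    have e1 : ((Quotient.out q : R) : R ⧸ I) = q := Quotient.out_eq' q
    have e2 : ((Quotient.out q' : R) : R ⧸ I) = q' := Quotient.out_eq' q'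
    rw [← e1, ← e2, QuotientAddGroup.eq, ← I.neg_mem_iff, neg_add_rev, neg_neg, neg_add_eq_sub]
    exact h1
  exact AddSubgroup.finiteIndex_of_finite_quotient

/-- **Residual finiteness of finitely generated rings.** -/
theorem rf_glue [Nontrivial Φ] [IsNoetherianRing Φ] [Algebra.FiniteType ℤ Φ]
    (hΦ : ∀ m : ℕ, 0 < m → Finite (Φ ⧸ Ideal.span {(m : Φ)}))
    (hR : FGen R) (hPI : PIOn (Ri Φ R : Set (Unitization Φ R)))
    {F : Set (List ℕ →₀ Φ)} (hF : ∀ f ∈ F, Van (Ri Φ R : Set (Unitization Φ R)) f) {H : P3 Φ}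
    (hHF : H ∈ Gen3 F) {n0 : ℕ} (hH : H.coeff (Finsupp.single 1 n0) = 1) {r : R} (hr : r ≠ 0) :
    ∃ I : AddSubgroup R, (∀ x ∈ I, ∀ s : R, s * x ∈ I ∧ x * s ∈ I) ∧ r ∉ I ∧ I.FiniteIndex := by
  classical
  obtain ⟨I, hI, hIf, hnil⟩ := fin_B isI_Ri (fgr_unit hR) hPI hF hHF hH
  -- the ideal of finite index
  let R1 : NonUnitalSubalgebra Φ R :=
    { carrier := {x | (x : Unitization Φ R) ∈ I}
      add_mem' := by
        intro a b ha hb
        change ((a + b : R) : Unitization Φ R) ∈ I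
        rw [Unitization.inr_add]
        exact add_mem ha hb
      zero_mem' := by
        change ((0 : R) : Unitization Φ R) ∈ I
        rw [Unitization.inr_zero]
        exact zero_mem _
      mul_mem' := by
        intro a b _ hb
        change ((a * b : R) : Unitization Φ R) ∈ I
        rw [Unitization.inr_mul]
        exact hI.l _ _ hb
      smul_mem' := by
        intro c a ha
        change ((c • a : R) : Unitization Φ R) ∈ I
        rw [Unitization.inr_smul]
        exact Submodule.smul_mem _ _ ha }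
  have hR1 : ∀ x : R, x ∈ R1 ↔ (x : Unitization Φ R) ∈ I := fun x => Iff.rfl
  let B1 : AddSubgroup R := R1.toNonUnitalSubring.toAddSubgroup
  have hB1 : ∀ x : R, x ∈ B1 ↔ (x : Unitization Φ R) ∈ I := fun x => Iff.rfl
  have hB1id : ∀ x ∈ B1, ∀ s : R, s * x ∈ B1 ∧ x * s ∈ B1 := by
    intro x hx s
    rw [hB1] at hx
    rw [hB1, hB1, Unitization.inr_mul, Unitization.inr_mul]
    exact ⟨hI.l _ _ hx, hI.r _ _ hx⟩
  have hB1f : B1.FiniteIndex := by
    refine fi_of_inj B1 (Unitization Φ R ⧸ I)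
      (fun x => Submodule.Quotient.mk (x : Unitization Φ R)) ?_
    intro x y hxy
    rw [hB1, Unitization.inr_sub]
    exact (Submodule.Quotient.eq I).1 hxy
  by_cases hr1 : r ∈ B1
  swap
  · exact ⟨B1, hB1id, hr1, hB1f⟩
  obtain ⟨S, hS, hcl⟩ := hR
  obtain ⟨G, hGf, hGB, hGcl⟩ := lewin hS hcl B1 hB1f hB1id
  let U1 := Unitization Φ R1
  let j0 : R1 →ₙₐ[Φ] Unitization Φ R :=
    (Unitization.inrNonUnitalAlgHom Φ R).comp (NonUnitalSubalgebraClass.subtype R1)
  let j : U1 →ₐ[Φ] Unitization Φ R := Unitization.lift j0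
  have hjr : ∀ x : R1, j (x : U1) = ((x : R) : Unitization Φ R) := by
    intro x
    exact Unitization.lift_symm_apply_apply j x ▸ by
      rw [Equiv.symm_apply_apply]
      rfl
  have hjl : ∀ c : Φ, j (algebraMap Φ U1 c) = algebraMap Φ _ c := fun c => j.commutes c
  have hj : Function.Injective j := by
    rw [injective_iff_map_eq_zero]
    intro u hu
    have h1 := Unitization.inl_fst_add_inr_snd_eq u
    have h2 : j u = Unitization.inl u.fst + ((u.snd : R) : Unitization Φ R) := by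
      conv_lhs => rw [← h1]
      rw [map_add, hjr]
      congr 1
      exact hjl _
    rw [h2] at hu
    have h3 := congrArg (fun w : Unitization Φ R => w.fst) hu
    have h4 := congrArg (fun w : Unitization Φ R => w.snd) hu
    rw [Unitization.fst_add, Unitization.fst_inl, Unitization.fst_inr, Unitization.fst_zero,
      add_zero] at h3
    rw [Unitization.snd_add, Unitization.snd_inl, Unitization.snd_inr, Unitization.snd_zero,
      zero_add] at h4
    rw [← h1, h3, Unitization.inl_zero, zero_add]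
    have h5 : u.snd = 0 := Subtype.ext h4
    rw [h5, Unitization.inr_zero]
  have hjR : ∀ x ∈ (Ri Φ R1 : Set U1), j x ∈ (Ri Φ R : Set (Unitization Φ R)) := by
    intro x hx
    obtain ⟨y, rfl⟩ := Ri_inr hx
    rw [hjr]
    exact inr_Ri _
  let T : Set U1 := {u | ∃ g : R1, (g : R) ∈ G ∧ u = (g : U1)}
  have hTf : T.Finite := by
    have h1 : T ⊆ (fun x : R => if hx : x ∈ R1 then ((⟨x, hx⟩ : R1) : U1) else 0) '' G := by
      rintro _ ⟨g, hg, rfl⟩
      refine ⟨g, hg, ?_⟩
      simp only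
      rw [dif_pos g.2]
    exact (hGf.image _).subset h1
  have hTB : ∀ t ∈ T, t ∈ Ri Φ R1 := by
    rintro _ ⟨g, hg, rfl⟩
    exact inr_Ri _
  have hT : Algebra.adjoin Φ T = ⊤ := by
    have h1 : ∀ x : R, x ∈ NonUnitalSubring.closure G → ∀ hx : x ∈ R1,
        ((⟨x, hx⟩ : R1) : U1) ∈ Algebra.adjoin Φ T := by
      intro x hxG
      have h2 : ∀ y ∈ NonUnitalSubring.closure G, y ∈ R1 := by
        intro y hy
        have h3 : NonUnitalSubring.closure G ≤ R1.toNonUnitalSubring :=
          NonUnitalSubring.closure_le.2 fun g hg => hGB g hg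
        exact h3 hy
      induction hxG using NonUnitalSubring.closure_induction with
      | mem x hx => exact fun hx' => Algebra.subset_adjoin ⟨⟨x, hx'⟩, hx, rfl⟩
      | zero =>
          intro hx'
          have : (⟨0, hx'⟩ : R1) = 0 := rfl
          rw [this, Unitization.inr_zero]
          exact zero_mem _
      | add x y hx hy ihx ihy =>
          intro hx'
          have : (⟨x + y, hx'⟩ : R1) = ⟨x, h2 x hx⟩ + ⟨y, h2 y hy⟩ := rfl
          rw [this, Unitization.inr_add]
          exact add_mem (ihx _) (ihy _)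
      | neg x hx ihx =>
          intro hx'
          have : (⟨-x, hx'⟩ : R1) = -⟨x, h2 x hx⟩ := rfl
          rw [this, Unitization.inr_neg]
          exact neg_mem (ihx _)
      | mul x y hx hy ihx ihy =>
          intro hx'
          have : (⟨x * y, hx'⟩ : R1) = ⟨x, h2 x hx⟩ * ⟨y, h2 y hy⟩ := rfl
          rw [this, Unitization.inr_mul]
          exact mul_mem (ihx _) (ihy _)
    rw [eq_top_iff]
    rintro u -
    rw [← Unitization.inl_fst_add_inr_snd_eq u]
    refine add_mem ?_ (h1 _ (hGcl _ u.snd.2) u.snd.2)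
    exact Subalgebra.algebraMap_mem _ u.fst
  have hnil1 : ∀ x ∈ Idl Φ (Com T), ∃ k : ℕ, x ^ k = 0 := by
    have h1 : ∀ x ∈ Idl Φ (Com T), j x ∈ Idl Φ {x | ∃ a ∈ Ri Φ R ⊓ I, ∃ b ∈ Ri Φ R ⊓ I,
        x = a * b - b * a} := by
      have hTI : ∀ t ∈ T, j t ∈ Ri Φ R ⊓ I := by
        rintro _ ⟨g, hg, rfl⟩
        rw [hjr]
        exact ⟨inr_Ri _, g.2⟩
      intro x hx
      induction hx using Submodule.span_induction with
      | mem x hx =>
        obtain ⟨u, v, _, ⟨a, ha, b, hb, rfl⟩, rfl⟩ := hx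
        rw [map_mul, map_mul, map_sub, map_mul, map_mul]
        exact Submodule.subset_span ⟨j u, j v, _, ⟨j a, hTI a ha, j b, hTI b hb, rfl⟩, rfl⟩
      | zero => rw [map_zero]; exact zero_mem _
      | add x y _ _ hx hy => rw [map_add]; exact add_mem hx hy
      | smul c x _ hx => rw [map_smul]; exact Submodule.smul_mem _ _ hx
    intro x hx
    obtain ⟨k, hk⟩ := hnil _ (h1 x hx)
    refine ⟨k, hj ?_⟩
    rw [map_pow, hk, map_zero]
  have hr' : ((⟨r, hr1⟩ : R1) : U1) ≠ 0 := by
    intro h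
    apply hr
    have h1 := congrArg j h
    rw [hjr, map_zero] at h1
    have h2 := congrArg (fun w : Unitization Φ R => w.snd) h1
    rwa [Unitization.snd_inr, Unitization.snd_zero] at h2
  obtain ⟨I', hI', hrI', hI'f⟩ := rf_of_nil hΦ isI_Ri hTf hTB hT
    (mid_of_inj j.toRingHom hj hjR hPI) hnil1
    (fun f hf => Van_of_inj j hj hjR (hF f hf)) hHF hH hr'
  let Q : AddSubgroup R :=
    { carrier := {x | ∃ hx : x ∈ R1, ((⟨x, hx⟩ : R1) : U1) ∈ I'}
      add_mem' := by
        rintro a b ⟨ha, ha'⟩ ⟨hb, hb'⟩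
        refine ⟨add_mem ha hb, ?_⟩
        have : (⟨a + b, add_mem ha hb⟩ : R1) = ⟨a, ha⟩ + ⟨b, hb⟩ := rfl
        rw [this, Unitization.inr_add]
        exact add_mem ha' hb'
      zero_mem' := by
        refine ⟨zero_mem _, ?_⟩
        have : (⟨0, zero_mem _⟩ : R1) = 0 := rfl
        rw [this, Unitization.inr_zero]
        exact zero_mem _
      neg_mem' := by
        rintro a ⟨ha, ha'⟩
        refine ⟨neg_mem ha, ?_⟩
        have : (⟨-a, neg_mem ha⟩ : R1) = -⟨a, ha⟩ := rfl
        rw [this, Unitization.inr_neg]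
        exact neg_mem ha' }
  have hQ : ∀ x : R, x ∈ Q ↔ ∃ hx : x ∈ R1, ((⟨x, hx⟩ : R1) : U1) ∈ I' := fun x => Iff.rfl
  have hQf : Q.FiniteIndex := by
    classical
    refine fi_of_inj Q ((R ⧸ B1) × (U1 ⧸ I')) (fun x => ((x : R ⧸ B1),
      Submodule.Quotient.mk (if hx : x - Quotient.out (x : R ⧸ B1) ∈ R1 then
        ((⟨x - Quotient.out (x : R ⧸ B1), hx⟩ : R1) : U1) else 0))) ?_
    intro x y hxy
    have h1 := congrArg Prod.fst hxy
    have h2 := congrArg Prod.snd hxy
    simp only at h1 h2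
    rw [h1] at h2
    have hx : x - Quotient.out (y : R ⧸ B1) ∈ R1 := by
      rw [← h1]
      exact out_sub B1 x
    have hy : y - Quotient.out (y : R ⧸ B1) ∈ R1 := out_sub B1 y
    rw [dif_pos hx, dif_pos hy, Submodule.Quotient.eq, ← Unitization.inr_sub] at h2
    rw [hQ]
    have h3 : x - y = (x - Quotient.out (y : R ⧸ B1)) - (y - Quotient.out (y : R ⧸ B1)) := by abel
    have h4 : x - y ∈ R1 := by
      rw [h3]
      exact sub_mem hx hy
    refine ⟨h4, ?_⟩
    have h5 : (⟨x - y, h4⟩ : R1) = ⟨_, hx⟩ - ⟨_, hy⟩ := Subtype.ext h3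
    rw [h5]
    exact h2
  have hQm : ∀ x ∈ Q, ∀ y ∈ Q, x * y ∈ Q := by
    rintro x ⟨hx, hx'⟩ y ⟨hy, hy'⟩
    refine ⟨mul_mem hx hy, ?_⟩
    have : (⟨x * y, mul_mem hx hy⟩ : R1) = ⟨x, hx⟩ * ⟨y, hy⟩ := rfl
    rw [this, Unitization.inr_mul]
    exact hI'.l _ _ hy'
  obtain ⟨J, hJQ, hJf, hJ⟩ := core Q hQf hQm
  refine ⟨J, hJ, fun hrJ => ?_, hJf⟩
  obtain ⟨_, h1⟩ := hJQ hrJ
  exact hrI' h1

end Pool.Agent.V8H74.LR
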