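import Pool.Agent.V8H74.LR.Defs
import Pool.Agent.V8H74.LR.Glue
import Pool.Agent.V8H74.LR.Crit
import Pool.Agent.V8H74.LR.FMul

/-!
From identities of rings without unit to identities on the ideal of the unitization.
-/

set_option autoImplicit false

namespace Pool.Agent.V8H74.LR

open Pool.Agent.H854R3.CR

variable {Φ : Type} [CommRing Φ]

/-- words as lists -/
def toL (w : FreeSemigroup ℕ) : List ℕ := w.head :: w.tail

theorem toL_inj : Function.Injective toL := by
  rintro ⟨a, s⟩ ⟨b, t⟩ h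
  simp only [toL, List.cons.injEq] at h
  obtain ⟨rfl, rfl⟩ := h
  rfl

/-- the polynomial as a combination of lists -/
noncomputable def fh (f : FreeSemigroup ℕ →₀ Φ) : List ℕ →₀ Φ := f.mapDomain toL

theorem fh_apply (f : FreeSemigroup ℕ →₀ Φ) (w : FreeSemigroup ℕ) : fh f (toL w) = f w :=
  Finsupp.mapDomain_apply toL_inj f w

theorem gs_fh (f : FreeSemigroup ℕ →₀ Φ) (i j : ℕ) (μ : Multiset ℕ) :
    gs (fh f) i j μ = grp f i j μ := by
  classical
  rw [gs, fh, Finsupp.sum_mapDomain_index, grp]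
  · refine Finsupp.sum_congr fun w _ => ?_
    have h : Wd i j μ (toL w) ↔ (w.head = i ∧ ∃ m : List ℕ, w.tail = m ++ [j] ∧
        (m : Multiset ℕ) = μ) := by
      constructor
      · rintro ⟨m, h1, h2⟩
        simp only [toL, List.cons.injEq] at h1
        exact ⟨h1.1, m, h1.2, h2⟩
      · rintro ⟨rfl, m, h1, h2⟩
        exact ⟨m, by rw [toL, h1], h2⟩
    by_cases h2 : Wd i j μ (toL w)
    · rw [if_pos h2, if_pos (h.1 h2)]
    · rw [if_neg h2, if_neg (fun h3 => h2 (h.2 h3))]
  · intro w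
    split_ifs <;> rfl
  · intro w a b
    split_ifs
    · rfl
    · rw [add_zero]

theorem gs_zero (g : List ℕ →₀ Φ) (i j : ℕ) : gs g i j 0 = g [i, j] := by
  classical
  rw [gs, Finsupp.sum]
  have h : ∀ w, Wd i j 0 w ↔ w = [i, j] := by
    intro w
    constructor
    · rintro ⟨m, rfl, hm⟩
      have : m = [] := by
        rw [← Multiset.coe_nil] at hm
        exact List.perm_nil.1 (Multiset.coe_eq_coe.1 hm)
      rw [this]
      rfl
    · rintro rfl
      exact ⟨[], rfl, rfl⟩
  by_cases h2 : [i, j] ∈ g.support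
  · rw [Finset.sum_eq_single [i, j]]
    · rw [if_pos ((h _).2 rfl)]
    · intro w _ hw
      rw [if_neg (fun h3 => hw ((h w).1 h3))]
    · intro h3
      exact absurd h2 h3
  · rw [Finset.sum_eq_zero, Finsupp.notMem_support_iff.1 h2]
    intro w hw
    rw [if_neg]
    intro h3
    rw [(h w).1 h3] at hw
    exact h2 hw

theorem fmul_single (g : List ℕ →₀ Φ) (u v : List ℕ) :
    fmul g (Finsupp.single v 1) (u ++ v) = g u := by
  classical
  by_cases h10 : (1 : Φ) = 0
  · have := subsingleton_of_zero_eq_one h10.symm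
    exact Subsingleton.elim _ _
  rw [fmul_apply, Finsupp.support_single _ h10]
  by_cases h2 : u ∈ g.support
  · rw [Finset.sum_eq_single u]
    · rw [Finset.sum_singleton, if_pos rfl, Finsupp.single_eq_same, mul_one]
    · intro w _ hw
      rw [Finset.sum_singleton, if_neg]
      exact fun h3 => hw (List.append_cancel_right h3)
    · intro h3
      exact absurd h2 h3
  · rw [Finset.sum_eq_zero, Finsupp.notMem_support_iff.1 h2]
    intro w hw
    rw [Finset.sum_singleton, if_neg]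
    intro h3
    rw [List.append_cancel_right h3] at hw
    exact h2 hw

theorem gs_fmul (f : FreeSemigroup ℕ →₀ Φ) (i : ℕ) :
    gs (fmul (fh f) (Finsupp.single [0] 1)) i 0 0 = f (FreeSemigroup.of i) := by
  rw [gs_zero]
  have h := fmul_single (fh f) [i] [0]
  rw [List.singleton_append] at h
  rw [h]
  exact fh_apply f (FreeSemigroup.of i)

section ring

variable {R : Type} [NonUnitalRing R] [Module Φ R] [IsScalarTower Φ R R] [SMulCommClass Φ R R]

theorem lift_toL (x : ℕ → R) (w : FreeSemigroup ℕ) :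
    ((toL w).map (fun i => (x i : Unitization Φ R))).prod =
      (FreeSemigroup.lift x w : Unitization Φ R) := by
  obtain ⟨a, t⟩ := w
  rw [FreeSemigroup.lift_mk_eq_foldl, toL, List.map_cons, List.prod_cons]
  simp only
  have key : ∀ (t : List ℕ) (s : R), (s : Unitization Φ R) *
      (t.map (fun i => (x i : Unitization Φ R))).prod =
      ((t.foldl (fun b l => b * x l) s : R) : Unitization Φ R) := by
    intro t
    induction t with
    | nil => intro s; rw [List.map_nil, List.prod_nil, mul_one]; rfl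
    | cons l t ih =>
      intro s
      rw [List.map_cons, List.prod_cons, ← mul_assoc, ← Unitization.inr_mul, ih]
      rfl
  exact key t (x a)

theorem ev_fh (x : ℕ → R) (f : FreeSemigroup ℕ →₀ Φ) :
    ev (fun i => (x i : Unitization Φ R)) (fh f) = ((val x f : R) : Unitization Φ R) := by
  rw [ev, fh, Finsupp.sum_mapDomain_index]
  · have h : ((val x f : R) : Unitization Φ R) = Unitization.inrHom Φ Φ R (val x f) := rfl
    rw [h, val, Finsupp.sum, Finsupp.sum, map_sum]
    refine Finset.sum_congr rfl fun w _ => ?_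
    rw [lift_toL, map_smul]
    rfl
  · intro w
    exact zero_smul _ _
  · intro w a b
    exact add_smul _ _ _

theorem Van_fh {f : FreeSemigroup ℕ →₀ Φ} (hf : ∀ x : ℕ → R, val x f = 0) :
    Van (Ri Φ R : Set (Unitization Φ R)) (fh f) := by
  intro x hx
  choose y hy using fun i => Ri_inr (hx i)
  have h1 : x = fun i => (y i : Unitization Φ R) := funext hy
  rw [h1, ev_fh, hf y, Unitization.inr_zero]

theorem Van_fmul {U : Type} [Ring U] [Algebra Φ U] {B : Set U} {f : List ℕ →₀ Φ} (hf : Van B f)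
    (g : List ℕ →₀ Φ) : Van B (fmul f g) := by
  intro x hx
  rw [ev_fmul, hf x hx, zero_mul]

/-- **Residual finiteness from the conditions on the coefficients.** -/
theorem rf_conv [Nontrivial Φ] [IsNoetherianRing Φ] [Algebra.FiniteType ℤ Φ]
    (hΦ : ∀ m : ℕ, 0 < m → Finite (Φ ⧸ Ideal.span {(m : Φ)}))
    {S : Set (FreeSemigroup ℕ →₀ Φ)} (hc : ∀ 𝔪 : Ideal Φ, 𝔪.IsMaximal → ∃ f ∈ S,
      (∃ i, f (FreeSemigroup.of i) ∉ 𝔪) ∨ ∃ i j μ, grp f i j μ ∉ 𝔪)
    (hR : FGen R) (hPI : PIOn (Ri Φ R : Set (Unitization Φ R)))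
    (hS : ∀ f ∈ S, ∀ x : ℕ → R, val x f = 0) {r : R} (hr : r ≠ 0) :
    ∃ I : AddSubgroup R, (∀ x ∈ I, ∀ s : R, s * x ∈ I ∧ x * s ∈ I) ∧ r ∉ I ∧ I.FiniteIndex := by
  let F : Set (List ℕ →₀ Φ) := {g | ∃ f ∈ S, g = fh f ∨ g = fmul (fh f) (Finsupp.single [0] 1)}
  have hF : ∀ g ∈ F, Van (Ri Φ R : Set (Unitization Φ R)) g := by
    rintro g ⟨f, hf, rfl | rfl⟩
    · exact Van_fh (hS f hf)
    · exact Van_fmul (Van_fh (hS f hf)) _
  obtain ⟨H, hH, n0, hn0⟩ := crit (F := F) (by
    intro 𝔪 h𝔪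
    obtain ⟨f, hf, ⟨i, hi⟩ | ⟨i, j, μ, hi⟩⟩ := hc 𝔪 h𝔪
    · exact ⟨_, ⟨f, hf, Or.inr rfl⟩, i, 0, 0, by rwa [gs_fmul]⟩
    · exact ⟨_, ⟨f, hf, Or.inl rfl⟩, i, j, μ, by rwa [gs_fh]⟩)
  exact rf_glue hΦ hR hPI hF hH hn0 hr

end ring

end Pool.Agent.V8H74.LR
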