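import Mathlib

/-!
Identities of rings without unit, and the sums of coefficients over groups of words.
-/

set_option autoImplicit false

namespace Pool.Agent.V8H74.LR

variable {Φ : Type} [CommRing Φ] {R : Type} [NonUnitalRing R] [Module Φ R]

/-- The value at `x` of an element `f` of the free associative algebra without unit. -/
noncomputable def val (x : ℕ → R) (f : FreeSemigroup ℕ →₀ Φ) : R :=
  f.sum fun w c => c • FreeSemigroup.lift x w

open Classical in
/-- The sum of the coefficients in `f` of the words with first letter `i`, last letter `j`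
and multiset `μ` of letters between them. -/
noncomputable def grp (f : FreeSemigroup ℕ →₀ Φ) (i j : ℕ) (μ : Multiset ℕ) : Φ :=
  f.sum fun w c => if w.head = i ∧ ∃ m : List ℕ, w.tail = m ++ [j] ∧ (m : Multiset ℕ) = μ
    then c else 0

/-- the value of a list of letters after an element -/
def fo (x : ℕ → R) (s : R) (m : List ℕ) : R := m.foldl (fun a l => a * x l) s

theorem fo_cons (x : ℕ → R) (s : R) (l : ℕ) (m : List ℕ) :
    fo x s (l :: m) = fo x (s * x l) m := rfl

theorem fo_congr (x : ℕ → R) : ∀ (m : List ℕ) (a b : R), (∀ u, a * u = b * u) →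
    ∀ t, fo x a m * t = fo x b m * t
  | [], _, _, h, t => h t
  | l :: m, a, b, h, t => by
    rw [fo_cons, fo_cons]
    exact fo_congr x m _ _ (fun u => by rw [mul_assoc, mul_assoc]; exact h _) t

theorem fo_perm (hR : ∀ x y z u : R, x * (y * z - z * y) * u = 0) (x : ℕ → R) {m m' : List ℕ}
    (h : m.Perm m') : ∀ s t : R, fo x s m * t = fo x s m' * t := by
  induction h with
  | nil => intro s t; rfl
  | cons l _ ih =>
    intro s t
    rw [fo_cons, fo_cons]
    exact ih _ _
  | swap a b m =>
    intro s t
    rw [fo_cons, fo_cons, fo_cons, fo_cons]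
    refine fo_congr x m _ _ (fun u => ?_) t
    have h1 := hR s (x b) (x a) u
    rw [mul_sub, sub_mul, sub_eq_zero] at h1
    rw [mul_assoc s, mul_assoc s (x a)]
    exact h1
  | trans _ _ ih1 ih2 =>
    intro s t
    rw [ih1, ih2]

theorem lift_snoc (x : ℕ → R) (i j : ℕ) (m : List ℕ) :
    FreeSemigroup.lift x ⟨i, m ++ [j]⟩ = fo x (x i) m * x j := by
  rw [FreeSemigroup.lift_mk_eq_foldl, List.foldl_append]
  rfl

/-- If the sums over groups act as zero then the identity holds in all rings with
`x (y z - z y) u = 0`. -/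
theorem val_zero (hR : ∀ x y z u : R, x * (y * z - z * y) * u = 0)
    (f : FreeSemigroup ℕ →₀ Φ) (h1 : ∀ i (r : R), f (FreeSemigroup.of i) • r = 0)
    (h2 : ∀ i j μ (r : R), grp f i j μ • r = 0) (x : ℕ → R) : val x f = 0 := by
  classical
  let key : FreeSemigroup ℕ → ℕ × Option ℕ × Multiset ℕ := fun w =>
    (w.head, w.tail.getLast?, (w.tail.dropLast : Multiset ℕ))
  simp only [val, Finsupp.sum]
  rw [← Finset.sum_fiberwise_of_maps_to (s := f.support) (t := f.support.image key) (g := key)
    (fun w hw => Finset.mem_image_of_mem _ hw)]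
  refine Finset.sum_eq_zero fun κ hκ => ?_
  obtain ⟨w0, hw0, rfl⟩ := Finset.mem_image.1 hκ
  obtain ⟨i, t⟩ := w0
  rcases List.eq_nil_or_concat t with rfl | ⟨m, j, rfl⟩
  · -- words of one letter
    have h3 : ∀ w ∈ f.support.filter (fun w => key w = key ⟨i, []⟩), w = FreeSemigroup.of i := by
      intro w hw
      have h4 := (Finset.mem_filter.1 hw).2
      obtain ⟨i', t'⟩ := w
      simp only [key, Prod.mk.injEq] at h4
      obtain ⟨rfl, h5, _⟩ := h4
      have h6 : t' = [] := by
        rw [List.getLast?_nil, List.getLast?_eq_none_iff] at h5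
        exact h5
      subst h6
      rfl
    refine Finset.sum_eq_zero fun w hw => ?_
    rw [h3 w hw]
    exact h1 _ _
  · rw [List.concat_eq_append] at hw0 ⊢
    have h3 : ∀ w, key w = key ⟨i, m ++ [j]⟩ ↔ (w.head = i ∧ ∃ m' : List ℕ, w.tail = m' ++ [j] ∧
        (m' : Multiset ℕ) = (m : Multiset ℕ)) := by
      intro w
      obtain ⟨i', t'⟩ := w
      simp only [key, Prod.mk.injEq, List.dropLast_concat, List.getLast?_concat]
      constructor
      · rintro ⟨rfl, h5, h6⟩
        refine ⟨rfl, t'.dropLast, ?_, h6⟩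
        have h7 := List.dropLast_append_getLast? (l := t') j h5
        exact h7.symm
      · rintro ⟨rfl, m', rfl, h6⟩
        exact ⟨rfl, by rw [List.getLast?_concat], by rw [List.dropLast_concat]; exact h6⟩
    have h4 : ∀ w ∈ f.support.filter (fun w => key w = key ⟨i, m ++ [j]⟩),
        f w • FreeSemigroup.lift x w = f w • FreeSemigroup.lift x ⟨i, m ++ [j]⟩ := by
      intro w hw
      obtain ⟨h5, m', h6, h7⟩ := (h3 w).1 (Finset.mem_filter.1 hw).2
      obtain ⟨i', t'⟩ := w
      simp only at h5 h6
      subst h5 h6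
      rw [lift_snoc, lift_snoc]
      congr 1
      exact fo_perm hR x (Multiset.coe_eq_coe.1 h7) _ _
    rw [Finset.sum_congr rfl h4, ← Finset.sum_smul]
    have h5 : ∑ w ∈ f.support.filter (fun w => key w = key ⟨i, m ++ [j]⟩), f w =
        grp f i j (m : Multiset ℕ) := by
      rw [grp, Finsupp.sum, Finset.sum_filter]
      refine Finset.sum_congr rfl fun w _ => ?_
      by_cases h : key w = key ⟨i, m ++ [j]⟩
      · rw [if_pos h, if_pos ((h3 w).1 h)]
      · rw [if_neg h, if_neg (fun h' => h ((h3 w).2 h'))]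
    rw [h5]
    exact h2 _ _ _ _

end Pool.Agent.V8H74.LR
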