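import Pool.Agent.V8H74.LR.Layer
import Pool.Agent.H854R3.NE.FinRed

/-!
Quotients of ideals on which commutators act trivially, as modules over a commutative ring of
operators.
-/

set_option autoImplicit false

namespace Pool.Agent.V8H74.LR

variable {Φ : Type} [CommRing Φ] {U : Type} [Ring U] [Algebra Φ U]

/-- `M ≤ X` are ideals and commutators act trivially on `X / M` from both sides -/
structure CL (M X : Submodule Φ U) : Prop where
  isM : IsI M
  isX : IsI X
  le : M ≤ X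
  l : ∀ u v, ∀ x ∈ X, (u * v - v * u) * x ∈ M
  r : ∀ u v, ∀ x ∈ X, x * (u * v - v * u) ∈ M

/-- the factor `X / M` -/
abbrev GQ (M X : Submodule Φ U) := X ⧸ (M.comap X.subtype)

/-- the class of an element -/
def mkG {M X : Submodule Φ U} (x : X) : GQ M X := Submodule.Quotient.mk x

theorem mkG_eq {M X : Submodule Φ U} {x y : X} :
    mkG (M := M) x = mkG y ↔ (x : U) - y ∈ M := by
  rw [mkG, mkG, Submodule.Quotient.eq]
  rfl

theorem mkG_surj {M X : Submodule Φ U} (g : GQ M X) : ∃ x, mkG x = g :=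
  Submodule.Quotient.mk_surjective _ g

/-- left multiplication on the factor -/
def Lq {M X : Submodule Φ U} (h : CL M X) (u : U) : Module.End Φ (GQ M X) :=
  (M.comap X.subtype).mapQ (M.comap X.subtype)
    ((LinearMap.mulLeft Φ u).restrict (p := X) (q := X) (fun x hx => h.isX.l u x hx))
    (fun x hx => h.isM.l u x hx)

/-- right multiplication on the factor -/
def Rq {M X : Submodule Φ U} (h : CL M X) (u : U) : Module.End Φ (GQ M X) :=
  (M.comap X.subtype).mapQ (M.comap X.subtype)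
    ((LinearMap.mulRight Φ u).restrict (p := X) (q := X) (fun x hx => h.isX.r u x hx))
    (fun x hx => h.isM.r u x hx)

section

variable {M X : Submodule Φ U} (h : CL M X)

theorem Lq_mk (u : U) (x : X) : Lq h u (mkG x) = mkG ⟨u * x, h.isX.l u x x.2⟩ := rfl

theorem Rq_mk (u : U) (x : X) : Rq h u (mkG x) = mkG ⟨x * u, h.isX.r u x x.2⟩ := rfl

theorem LL' (u v : U) : Lq h u * Lq h v = Lq h v * Lq h u := by
  ext x
  change Lq h u (Lq h v (mkG x)) = Lq h v (Lq h u (mkG x))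
  rw [Lq_mk, Lq_mk, Lq_mk, Lq_mk, mkG_eq]
  have := h.l u v x x.2
  change u * (v * (x : U)) - v * (u * (x : U)) ∈ M
  convert this using 1
  noncomm_ring

theorem RR' (u v : U) : Rq h u * Rq h v = Rq h v * Rq h u := by
  ext x
  change Rq h u (Rq h v (mkG x)) = Rq h v (Rq h u (mkG x))
  rw [Rq_mk, Rq_mk, Rq_mk, Rq_mk, mkG_eq]
  have := h.r v u x x.2
  change (x : U) * v * u - (x : U) * u * v ∈ M
  convert this using 1
  noncomm_ring

theorem LR' (u v : U) : Lq h u * Rq h v = Rq h v * Lq h u := by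
  ext x
  change Lq h u (Rq h v (mkG x)) = Rq h v (Lq h u (mkG x))
  rw [Lq_mk, Rq_mk, Rq_mk, Lq_mk, mkG_eq]
  change u * ((x : U) * v) - u * (x : U) * v ∈ M
  rw [mul_assoc, sub_self]
  exact zero_mem _

theorem Lq_mul (u v : U) : Lq h (u * v) = Lq h u * Lq h v := by
  ext x
  change Lq h (u * v) (mkG x) = Lq h u (Lq h v (mkG x))
  rw [Lq_mk, Lq_mk, Lq_mk, mkG_eq]
  change u * v * (x : U) - u * (v * (x : U)) ∈ M
  rw [mul_assoc, sub_self]
  exact zero_mem _

theorem Rq_mul (u v : U) : Rq h (u * v) = Rq h v * Rq h u := by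
  ext x
  change Rq h (u * v) (mkG x) = Rq h v (Rq h u (mkG x))
  rw [Rq_mk, Rq_mk, Rq_mk, mkG_eq]
  change (x : U) * (u * v) - (x : U) * u * v ∈ M
  rw [mul_assoc, sub_self]
  exact zero_mem _

theorem Lq_add (u v : U) : Lq h (u + v) = Lq h u + Lq h v := by
  ext x
  change Lq h (u + v) (mkG x) = Lq h u (mkG x) + Lq h v (mkG x)
  rw [Lq_mk, Lq_mk, Lq_mk]
  change mkG _ = mkG _
  rw [mkG_eq]
  change (u + v) * (x : U) - (u * (x : U) + v * (x : U)) ∈ M
  rw [add_mul, sub_self]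
  exact zero_mem _

theorem Rq_add (u v : U) : Rq h (u + v) = Rq h u + Rq h v := by
  ext x
  change Rq h (u + v) (mkG x) = Rq h u (mkG x) + Rq h v (mkG x)
  rw [Rq_mk, Rq_mk, Rq_mk]
  change mkG _ = mkG _
  rw [mkG_eq]
  change (x : U) * (u + v) - ((x : U) * u + (x : U) * v) ∈ M
  rw [mul_add, sub_self]
  exact zero_mem _

theorem Lq_alg (c : Φ) : Lq h (algebraMap Φ U c) = algebraMap Φ _ c := by
  ext x
  change Lq h (algebraMap Φ U c) (mkG x) = c • (mkG x)
  rw [Lq_mk]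
  change mkG _ = mkG _
  rw [mkG_eq]
  change algebraMap Φ U c * (x : U) - c • (x : U) ∈ M
  rw [Algebra.smul_def, sub_self]
  exact zero_mem _

theorem Rq_alg (c : Φ) : Rq h (algebraMap Φ U c) = algebraMap Φ _ c := by
  ext x
  change Rq h (algebraMap Φ U c) (mkG x) = c • (mkG x)
  rw [Rq_mk]
  change mkG _ = mkG _
  rw [mkG_eq]
  change (x : U) * algebraMap Φ U c - c • (x : U) ∈ M
  rw [Algebra.smul_def, Algebra.commutes, sub_self]
  exact zero_mem _

/-- the ring of operators -/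
noncomputable abbrev Sop (T : Set U) : Subalgebra Φ (Module.End Φ (GQ M X)) :=
  Algebra.adjoin Φ (Lq h '' T ∪ Rq h '' T)

theorem Lq_mem {T : Set U} (hT : Algebra.adjoin Φ T = ⊤) (u : U) : Lq h u ∈ Sop h T := by
  have hu : u ∈ Algebra.adjoin Φ T := by rw [hT]; trivial
  induction hu using Algebra.adjoin_induction with
  | mem x hx => exact Algebra.subset_adjoin (Or.inl ⟨x, hx, rfl⟩)
  | algebraMap r => rw [Lq_alg]; exact Subalgebra.algebraMap_mem _ r
  | add x y _ _ hx hy => rw [Lq_add]; exact add_mem hx hy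
  | mul x y _ _ hx hy => rw [Lq_mul]; exact mul_mem hx hy

theorem Rq_mem {T : Set U} (hT : Algebra.adjoin Φ T = ⊤) (u : U) : Rq h u ∈ Sop h T := by
  have hu : u ∈ Algebra.adjoin Φ T := by rw [hT]; trivial
  induction hu using Algebra.adjoin_induction with
  | mem x hx => exact Algebra.subset_adjoin (Or.inr ⟨x, hx, rfl⟩)
  | algebraMap r => rw [Rq_alg]; exact Subalgebra.algebraMap_mem _ r
  | add x y _ _ hx hy => rw [Rq_add]; exact add_mem hx hy
  | mul x y _ _ hx hy => rw [Rq_mul]; exact mul_mem hy hx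

theorem Sop_comm (T : Set U) : ∀ a b : Sop h T, a * b = b * a := by
  have h1 : ∀ x ∈ (Lq h '' T ∪ Rq h '' T), ∀ y ∈ (Lq h '' T ∪ Rq h '' T), x * y = y * x := by
    rintro _ (⟨u, _, rfl⟩ | ⟨u, _, rfl⟩) _ (⟨v, _, rfl⟩ | ⟨v, _, rfl⟩)
    · exact LL' h u v
    · exact LR' h u v
    · exact (LR' h v u).symm
    · exact RR' h u v
  intro a b
  have := Algebra.isMulCommutative_adjoin Φ h1
  exact mul_comm' a b

/-- the ring of operators is commutative -/
noncomputable instance instCommSop (T : Set U) : CommRing (Sop h T) :=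
  { (Sop h T).toRing with mul_comm := Sop_comm h T }

theorem Sop_ft {T : Set U} (hTf : T.Finite) : Algebra.FiniteType Φ (Sop h T) := by
  rw [← Subalgebra.fg_iff_finiteType]
  exact Subalgebra.fg_def.2 ⟨_, (hTf.image _).union (hTf.image _), rfl⟩

/-- subgroups stable under the operators -/
theorem Sop_stable {T : Set U} {J : Submodule Φ U} (hJ : IsI J)
    (s : Sop h T) : ∀ x : X, (x : U) ∈ J →
      ∃ y : X, (y : U) ∈ J ∧ s • (mkG (M := M) x) = mkG y := by
  obtain ⟨s, hs⟩ := s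
  change ∀ x : X, (x : U) ∈ J → ∃ y : X, (y : U) ∈ J ∧ s (mkG (M := M) x) = mkG y
  induction hs using Algebra.adjoin_induction with
  | mem s hs =>
    intro x hx
    rcases hs with ⟨u, _, rfl⟩ | ⟨u, _, rfl⟩
    · exact ⟨_, hJ.l u _ hx, Lq_mk h u x⟩
    · exact ⟨_, hJ.r u _ hx, Rq_mk h u x⟩
  | algebraMap r => intro x hx; exact ⟨r • x, J.smul_mem _ hx, rfl⟩
  | add s t _ _ hs ht =>
    intro x hx
    obtain ⟨y, hy, h1⟩ := hs x hx
    obtain ⟨z, hz, h2⟩ := ht x hx
    exact ⟨y + z, J.add_mem hy hz, by rw [LinearMap.add_apply, h1, h2]; rfl⟩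
  | mul s t _ _ hs ht =>
    intro x hx
    obtain ⟨y, hy, h1⟩ := ht x hx
    obtain ⟨z, hz, h2⟩ := hs y hy
    exact ⟨z, hz, by rw [Module.End.mul_apply, h1, h2]⟩

/-- the submodule of an ideal -/
def subJ {T : Set U} {J : Submodule Φ U} (hJ : IsI J) : Submodule (Sop h T) (GQ M X) where
  carrier := {g | ∃ x : X, (x : U) ∈ J ∧ mkG x = g}
  add_mem' := by
    rintro _ _ ⟨x, hx, rfl⟩ ⟨y, hy, rfl⟩
    exact ⟨x + y, J.add_mem hx hy, rfl⟩
  zero_mem' := ⟨0, J.zero_mem, rfl⟩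
  smul_mem' := by
    rintro s _ ⟨x, hx, rfl⟩
    obtain ⟨y, hy, h1⟩ := Sop_stable h hJ s x hx
    exact ⟨y, hy, h1.symm⟩

theorem mem_subJ {T : Set U} {J : Submodule Φ U} (hJ : IsI J) {g : GQ M X} :
    g ∈ subJ h (T := T) hJ ↔ ∃ x : X, (x : U) ∈ J ∧ mkG x = g := Iff.rfl

/-- the factor is a finitely generated module -/
theorem GQ_fin {T : Set U} (hT : Algebra.adjoin Φ T = ⊤) {Y : Set U} (hY : Y.Finite)
    (hYX : ∀ y ∈ Y, y ∈ X) (hX : X ≤ Idl Φ Y ⊔ M) : Module.Finite (Sop h T) (GQ M X) := by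
  have hYf := hY.to_subtype
  refine ⟨Submodule.fg_def.2 ⟨Set.range (fun y : Y => mkG (M := M) ⟨y.1, hYX y.1 y.2⟩),
    Set.finite_range _, ?_⟩⟩
  rw [eq_top_iff]
  rintro g -
  set G0 := Submodule.span (Sop h T)
    (Set.range (fun y : Y => mkG (M := M) ⟨y.1, hYX y.1 y.2⟩)) with hG0
  have key : ∀ p ∈ Idl Φ Y, ∃ hp : p ∈ X, mkG (M := M) ⟨p, hp⟩ ∈ G0 := by
    intro p hp
    induction hp using Submodule.span_induction with
    | zero => exact ⟨zero_mem _, zero_mem G0⟩
    | add p q _ _ hp hq =>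
      obtain ⟨h1, h2⟩ := hp
      obtain ⟨h3, h4⟩ := hq
      exact ⟨add_mem h1 h3, add_mem h2 h4⟩
    | smul c p _ hp =>
      obtain ⟨h1, h2⟩ := hp
      refine ⟨X.smul_mem c h1, ?_⟩
      exact G0.smul_mem (algebraMap Φ (Sop h T) c) h2
    | mem p hp =>
      obtain ⟨u, v, y, hy, rfl⟩ := hp
      have hyX := hYX y hy
      refine ⟨h.isX.r v _ (h.isX.l u _ hyX), ?_⟩
      have h1 : mkG (M := M) ⟨y, hyX⟩ ∈ G0 := Submodule.subset_span ⟨⟨y, hy⟩, rfl⟩
      have h2 := G0.smul_mem (⟨Rq h v, Rq_mem h hT v⟩ : Sop h T)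
        (G0.smul_mem (⟨Lq h u, Lq_mem h hT u⟩ : Sop h T) h1)
      exact h2
  obtain ⟨⟨x, hx⟩, rfl⟩ := mkG_surj g
  obtain ⟨p, hp, q, hq, hpq⟩ := Submodule.mem_sup.1 (hX hx)
  obtain ⟨h1, h2⟩ := key p hp
  have h3 : mkG (M := M) ⟨x, hx⟩ = mkG ⟨p, h1⟩ := by
    rw [mkG_eq]
    change x - p ∈ M
    rw [← hpq, add_sub_cancel_left]
    exact hq
  rw [h3]
  exact h2

/-- ascending chain condition for the ideals between `M` and `X` -/
def AccB (M X : Submodule Φ U) : Prop :=
  ∀ J : ℕ → Submodule Φ U, Monotone J → (∀ k, IsI (J k)) → (∀ k, M ≤ J k) → (∀ k, J k ≤ X) →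
    ∃ n, ∀ m, n ≤ m → J m = J n

include h in
theorem accB [IsNoetherianRing Φ] {T : Set U} (hTf : T.Finite) (hT : Algebra.adjoin Φ T = ⊤)
    {Y : Set U} (hY : Y.Finite) (hYX : ∀ y ∈ Y, y ∈ X) (hX : X ≤ Idl Φ Y ⊔ M) : AccB M X := by
  intro J hmono hJ hMJ hJX
  have h1 := Sop_ft h hTf
  have h2 : IsNoetherianRing (Sop h T) := Algebra.FiniteType.isNoetherianRing Φ (Sop h T)
  have h3 := GQ_fin h hT hY hYX hX
  have h4 : IsNoetherian (Sop h T) (GQ M X) := isNoetherian_of_isNoetherianRing_of_finite _ _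
  have h5 := monotone_stabilizes_iff_noetherian.2 h4
  obtain ⟨n, hn⟩ := h5 ⟨fun k => subJ h (T := T) (hJ k), fun k l hkl => by
    rintro _ ⟨x, hx, rfl⟩
    exact ⟨x, hmono hkl hx, rfl⟩⟩
  refine ⟨n, fun m hm => le_antisymm ?_ (hmono hm)⟩
  intro x hx
  have h6 := hn m hm
  change subJ h (T := T) (hJ n) = subJ h (T := T) (hJ m) at h6
  have h7 : mkG (M := M) ⟨x, hJX m hx⟩ ∈ subJ h (T := T) (hJ n) := by
    rw [h6]
    exact ⟨_, hx, rfl⟩
  obtain ⟨y, hy, hyx⟩ := h7
  rw [mkG_eq] at hyx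
  have h8 := (J n).sub_mem hy (hMJ n hyx)
  rwa [sub_sub_cancel] at h8

/-- finitely generated modules over `Φ` which are torsion -/
theorem finmod {G : Type} [AddCommGroup G] [Module Φ G] [Module.Finite Φ G] (m : ℕ)
    (hm : ∀ g : G, (m : Φ) • g = 0) (hf : Finite (Φ ⧸ Ideal.span {(m : Φ)})) : Finite G := by
  obtain ⟨n, f, hf'⟩ := Module.Finite.exists_fin' Φ G
  have hsurj : Function.Surjective (fun c : Fin n → Φ ⧸ Ideal.span {(m : Φ)} =>
      f (fun i => Quotient.out (c i))) := by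
    intro g
    obtain ⟨c, rfl⟩ := hf' g
    refine ⟨fun i => Ideal.Quotient.mk _ (c i), ?_⟩
    rw [← sub_eq_zero]
    change f (fun i => Quotient.out (Ideal.Quotient.mk (Ideal.span {(m : Φ)}) (c i))) - f c = 0
    rw [← map_sub]
    have h1 : ∀ i, ∃ e : Φ, Quotient.out (Ideal.Quotient.mk (Ideal.span {(m : Φ)}) (c i)) - c i =
        m * e := by
      intro i
      have h2 : Ideal.Quotient.mk (Ideal.span {(m : Φ)})
          (Quotient.out (Ideal.Quotient.mk (Ideal.span {(m : Φ)}) (c i))) =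
          Ideal.Quotient.mk (Ideal.span {(m : Φ)}) (c i) := Quotient.out_eq _
      rw [Ideal.Quotient.eq, Ideal.mem_span_singleton] at h2
      exact h2
    choose e he using h1
    have h3 : (fun i => Quotient.out (Ideal.Quotient.mk (Ideal.span {(m : Φ)}) (c i))) - c =
        (m : Φ) • e := by
      funext i
      exact he i
    rw [h3, map_smul]
    exact hm _
  exact Finite.of_surjective _ hsurj

include h in
/-- the factor is finite if the generators act integrally -/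
theorem GQ_finite {T : Set U} (hTf : T.Finite) (hT : Algebra.adjoin Φ T = ⊤)
    (hLi : ∀ t ∈ T, IsIntegral Φ (Lq h t)) (hRi : ∀ t ∈ T, IsIntegral Φ (Rq h t))
    {Y : Set U} (hY : Y.Finite) (hYX : ∀ y ∈ Y, y ∈ X) (hX : X ≤ Idl Φ Y ⊔ M) (m : ℕ)
    (hm : ∀ x ∈ X, (m : Φ) • x = 0) (hf : Finite (Φ ⧸ Ideal.span {(m : Φ)})) :
    Finite (GQ M X) := by
  have h1 := Sop_ft h hTf
  have h2 : ∀ x (hx : x ∈ Sop h T), IsIntegral Φ (⟨x, hx⟩ : Sop h T) := by
    intro x hx
    induction hx using Algebra.adjoin_induction with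
    | mem x hx =>
      have h3 : IsIntegral Φ x := by
        rcases hx with ⟨u, hu, rfl⟩ | ⟨u, hu, rfl⟩
        · exact hLi u hu
        · exact hRi u hu
      exact (isIntegral_algHom_iff (Sop h T).val Subtype.val_injective).1 h3
    | algebraMap r => exact isIntegral_algebraMap (x := r)
    | add x y _ _ hx hy => exact IsIntegral.add hx hy
    | mul x y _ _ hx hy => exact IsIntegral.mul hx hy
  have h4 : Algebra.IsIntegral Φ (Sop h T) := ⟨fun x => h2 x.1 x.2⟩
  have h5 : Module.Finite Φ (Sop h T) := Algebra.IsIntegral.finite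
  have h6 := GQ_fin h hT hY hYX hX
  have h7 : Module.Finite Φ (GQ M X) := Module.Finite.trans (Sop h T) _
  refine finmod m (fun g => ?_) hf
  obtain ⟨x, rfl⟩ := mkG_surj g
  change mkG ((m : Φ) • x) = mkG 0
  rw [mkG_eq]
  change (m : Φ) • (x : U) - 0 ∈ M
  rw [hm x x.2, sub_zero]
  exact zero_mem _

end

/-- the minimal ideal of a subdirectly irreducible ring is finite -/
theorem heart_finite [Algebra.FiniteType ℤ Φ] {r : U} (hr : r ≠ 0)
    (hmin : ∀ J : Submodule Φ U, IsI J → J ≠ ⊥ → r ∈ J)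
    (h : CL ⊥ (Idl Φ {r})) {T : Set U} (hTf : T.Finite) (hT : Algebra.adjoin Φ T = ⊤) :
    Finite (Idl Φ ({r} : Set U)) := by
  have hrH : r ∈ Idl Φ ({r} : Set U) := subset_Idl rfl
  set g : GQ ⊥ (Idl Φ ({r} : Set U)) := mkG ⟨r, hrH⟩ with hg
  have hne : g ≠ 0 := by
    intro h0
    have h1 : g = mkG 0 := h0
    rw [hg, mkG_eq] at h1
    change r - 0 ∈ (⊥ : Submodule Φ U) at h1
    rw [sub_zero, Submodule.mem_bot] at h1
    exact hr h1
  have hJ : ∀ P : Submodule (Sop h T) (GQ ⊥ (Idl Φ ({r} : Set U))), P ≠ ⊥ → g ∈ P := by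
    intro P hP
    obtain ⟨p, hp, hp0⟩ := Submodule.exists_mem_ne_zero_of_ne_bot hP
    let J : Submodule Φ U :=
      { carrier := {x | ∃ hx : x ∈ Idl Φ ({r} : Set U), mkG ⟨x, hx⟩ ∈ P}
        add_mem' := by
          rintro x y ⟨hx, h1⟩ ⟨hy, h2⟩
          exact ⟨add_mem hx hy, P.add_mem h1 h2⟩
        zero_mem' := ⟨zero_mem _, P.zero_mem⟩
        smul_mem' := by
          rintro c x ⟨hx, h1⟩
          exact ⟨Submodule.smul_mem _ _ hx, P.smul_mem (algebraMap Φ (Sop h T) c) h1⟩ }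
    have hJI : IsI J := by
      constructor
      · rintro u x ⟨hx, h1⟩
        exact ⟨(isI_Idl _).l u _ hx, P.smul_mem (⟨Lq h u, Lq_mem h hT u⟩ : Sop h T) h1⟩
      · rintro u x ⟨hx, h1⟩
        exact ⟨(isI_Idl _).r u _ hx, P.smul_mem (⟨Rq h u, Rq_mem h hT u⟩ : Sop h T) h1⟩
    have hJne : J ≠ ⊥ := by
      intro hJ0
      obtain ⟨x, rfl⟩ := mkG_surj p
      apply hp0
      have hx : (x : U) ∈ J := ⟨x.2, hp⟩
      rw [hJ0, Submodule.mem_bot] at hx
      have : x = 0 := Subtype.ext hx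
      rw [this]
      rfl
    obtain ⟨_, h2⟩ := hmin J hJI hJne
    exact h2
  have hcyc : ∀ p : GQ ⊥ (Idl Φ ({r} : Set U)), p ∈ Submodule.span (Sop h T) {g} := by
    intro p
    obtain ⟨⟨x, hx⟩, rfl⟩ := mkG_surj p
    have key : ∀ x ∈ Idl Φ ({r} : Set U), ∃ hx : x ∈ Idl Φ ({r} : Set U),
        mkG (M := ⊥) ⟨x, hx⟩ ∈ Submodule.span (Sop h T) {g} := by
      intro x hx
      induction hx using Submodule.span_induction with
      | zero => exact ⟨zero_mem _, zero_mem _⟩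
      | add p q _ _ hp hq =>
        obtain ⟨h1, h2⟩ := hp
        obtain ⟨h3, h4⟩ := hq
        exact ⟨add_mem h1 h3, add_mem h2 h4⟩
      | smul c p _ hp =>
        obtain ⟨h1, h2⟩ := hp
        exact ⟨Submodule.smul_mem _ c h1, Submodule.smul_mem _ (algebraMap Φ (Sop h T) c) h2⟩
      | mem p hp =>
        obtain ⟨u, v, y, hy, rfl⟩ := hp
        rw [Set.mem_singleton_iff] at hy
        subst hy
        refine ⟨(isI_Idl _).r v _ ((isI_Idl _).l u _ hrH), ?_⟩
        have h1 : g ∈ Submodule.span (Sop h T) {g} := Submodule.mem_span_singleton_self g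
        exact Submodule.smul_mem _ (⟨Rq h v, Rq_mem h hT v⟩ : Sop h T)
          (Submodule.smul_mem _ (⟨Lq h u, Lq_mem h hT u⟩ : Sop h T) h1)
    exact (key x hx).2
  have hann : ∀ s : Sop h T, s • g = 0 → s = 0 := by
    intro s hs
    have h1 : ∀ p : GQ ⊥ (Idl Φ ({r} : Set U)), s • p = 0 := by
      intro p
      obtain ⟨s', rfl⟩ := Submodule.mem_span_singleton.1 (hcyc p)
      rw [smul_smul, mul_comm, ← smul_smul, hs, smul_zero]
    apply Subtype.ext
    apply LinearMap.ext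
    intro p
    exact h1 p
  have hinv : ∀ s : Sop h T, s ≠ 0 → ∃ s', s' * s = 1 := by
    intro s hs
    have h1 : s • g ≠ 0 := fun h0 => hs (hann s h0)
    have h2 := hJ (Submodule.span (Sop h T) {s • g}) (by
      rw [Ne, Submodule.span_singleton_eq_bot]; exact h1)
    obtain ⟨s', hs'⟩ := Submodule.mem_span_singleton.1 h2
    refine ⟨s', ?_⟩
    rw [← sub_eq_zero]
    apply hann
    rw [sub_smul, one_smul, ← smul_smul, hs', sub_self]
  have h1ne : (1 : Sop h T) ≠ 0 := by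
    intro h0
    apply hne
    rw [← one_smul (Sop h T) g, h0, zero_smul]
  have hdom : IsDomain (Sop h T) := by
    have : Nontrivial (Sop h T) := ⟨⟨1, 0, h1ne⟩⟩
    have : NoZeroDivisors (Sop h T) := by
      refine ⟨fun {a b} hab => ?_⟩
      by_contra hcon
      push Not at hcon
      obtain ⟨a', ha'⟩ := hinv a hcon.1
      apply hcon.2
      rw [← one_mul b, ← ha', mul_assoc, hab, mul_zero]
    exact NoZeroDivisors.to_isDomain _
  have hft : Algebra.FiniteType ℤ (Sop h T) :=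
    Algebra.FiniteType.trans (S := Φ) inferInstance (Sop_ft h hTf)
  obtain ⟨L, iL, hL, f, -⟩ := Pool.Agent.H854R3.NE.exists_residue (Sop h T) 1 h1ne
  have hinj : Function.Injective f := by
    rw [injective_iff_map_eq_zero]
    intro s hs
    by_contra hne'
    obtain ⟨s', hs'⟩ := hinv s hne'
    have h2 := congrArg f hs'
    rw [map_mul, hs, mul_zero, map_one] at h2
    exact zero_ne_one h2
  have hSf : Finite (Sop h T) := Finite.of_injective f hinj
  have hGf : Finite (GQ ⊥ (Idl Φ ({r} : Set U))) := by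
    apply Finite.of_surjective (fun s : Sop h T => s • g)
    intro p
    exact Submodule.mem_span_singleton.1 (hcyc p)
  apply Finite.of_injective (fun x : Idl Φ ({r} : Set U) => mkG (M := ⊥) x)
  intro x y hxy
  change mkG x = mkG y at hxy
  rw [mkG_eq, Submodule.mem_bot, sub_eq_zero] at hxy
  exact Subtype.ext hxy

end Pool.Agent.V8H74.LR
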