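import Mathlib

/-!
A polynomial relation between the values of all integer polynomials at three elements of a
field.
-/

set_option autoImplicit false

namespace Pool.Agent.V8H74.LR

open MvPolynomial

variable {K : Type} [Field K]

/-- all monomials have degree less than `d` -/
def Ltd (d : ℕ) (h : MvPolynomial (Fin 3) K) : Prop :=
  ∀ m : Fin 3 →₀ ℕ, d ≤ m.degree → h.coeff m = 0

theorem Ltd.add {d : ℕ} {h k : MvPolynomial (Fin 3) K} (hh : Ltd d h) (hk : Ltd d k) :
    Ltd d (h + k) := by
  intro m hm
  rw [coeff_add, hh m hm, hk m hm, add_zero]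

theorem Ltd.mono {d d' : ℕ} (hd : d ≤ d') {h : MvPolynomial (Fin 3) K} (hh : Ltd d h) :
    Ltd d' h := fun m hm => hh m (hd.trans hm)

theorem Ltd.C {d : ℕ} {h : MvPolynomial (Fin 3) K} (hh : Ltd d h) (c : K) :
    Ltd d (C c * h) := by
  intro m hm
  rw [coeff_C_mul, hh m hm, mul_zero]

theorem Ltd.X {d : ℕ} {h : MvPolynomial (Fin 3) K} (hh : Ltd d h) (k : Fin 3) :
    Ltd (d + 1) (X k * h) := by
  intro m hm
  rw [coeff_X_mul']
  split_ifs with hk
  · apply hh
    have h1 : m = (m - Finsupp.single k 1) + Finsupp.single k 1 := by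
      rw [tsub_add_cancel_of_le]
      rw [Finsupp.single_le_iff]
      exact Nat.one_le_iff_ne_zero.2 (Finsupp.mem_support_iff.1 hk)
    have h2 := congrArg Finsupp.degree h1
    rw [map_add, Finsupp.degree_single] at h2
    omega
  · rfl

/-- translation -/
noncomputable def sh (c : Fin 3 → K) : MvPolynomial (Fin 3) K →ₐ[K] MvPolynomial (Fin 3) K :=
  aeval fun k => X k + C (c k)

theorem sh_eval (c x : Fin 3 → K) (h : MvPolynomial (Fin 3) K) :
    eval x (sh c h) = eval (x + c) h := by
  have h1 : (eval x).comp (sh c).toRingHom = eval (x + c) := by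
    apply MvPolynomial.ringHom_ext
    · intro r
      simp [sh]
    · intro k
      simp [sh]
  exact congrArg (fun f => f h) h1

theorem sh_mono (c : Fin 3 → K) (n : ℕ) : ∀ (m : Fin 3 →₀ ℕ) (a : K), m.degree = n →
    Ltd n (sh c (monomial m a) - monomial m a) := by
  induction n with
  | zero =>
    intro m a hm
    have hm0 : m = 0 := by rwa [Finsupp.degree_eq_zero_iff] at hm
    subst hm0
    have : sh c (monomial 0 a) = monomial 0 a := by
      rw [← C_apply, sh, aeval_C]
      rfl
    rw [this, sub_self]
    intro m _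
    exact coeff_zero m
  | succ n ih =>
    intro m a hm
    have hne : m ≠ 0 := by
      rintro rfl
      simp at hm
    obtain ⟨k, hk⟩ := Finsupp.support_nonempty_iff.2 hne
    have h1 : m = Finsupp.single k 1 + (m - Finsupp.single k 1) := by
      rw [add_comm, tsub_add_cancel_of_le]
      rw [Finsupp.single_le_iff]
      exact Nat.one_le_iff_ne_zero.2 (Finsupp.mem_support_iff.1 hk)
    set m' := m - Finsupp.single k 1 with hm'
    have h2 : m'.degree = n := by
      have h3 := congrArg Finsupp.degree h1
      rw [map_add, Finsupp.degree_single] at h3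
      omega
    have h3 : monomial m a = X k * monomial m' a := by
      rw [X, monomial_mul, one_mul, ← h1]
    have h4 : sh c (monomial m a) - monomial m a =
        X k * (sh c (monomial m' a) - monomial m' a) +
        C (c k) * ((sh c (monomial m' a) - monomial m' a) + monomial m' a) := by
      rw [h3, map_mul]
      have : sh c (X k) = X k + C (c k) := by simp [sh]
      rw [this]
      ring
    rw [h4]
    refine ((ih m' a h2).X k).add (Ltd.C ?_ _)
    refine ((ih m' a h2).mono (Nat.le_succ n)).add ?_
    intro q hq
    rw [coeff_monomial, if_neg]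
    rintro rfl
    omega

theorem sh_sub {d : ℕ} (c : Fin 3 → K) {h : MvPolynomial (Fin 3) K} (hh : Ltd (d + 1) h) :
    Ltd d (sh c h - h) := by
  have h1 : sh c h - h = ∑ m ∈ h.support,
      (sh c (monomial m (h.coeff m)) - monomial m (h.coeff m)) := by
    rw [Finset.sum_sub_distrib, ← map_sum, ← MvPolynomial.as_sum]
  rw [h1]
  intro q hq
  rw [coeff_sum]
  refine Finset.sum_eq_zero fun m hm => ?_
  refine (sh_mono c m.degree m _ rfl).mono ?_ q hq
  by_contra hcon
  push Not at hcon
  exact (mem_support_iff.1 hm) (hh m hcon)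

theorem single_of_zero {m : Fin 3 →₀ ℕ} (h0 : m 0 = 0) (h2 : m 2 = 0) :
    m = Finsupp.single 1 (m 1) := by
  ext k
  fin_cases k
  · simpa using h0
  · simp
  · simpa using h2

theorem eval_mid {h : MvPolynomial (Fin 3) K} (hh : ∀ n, h.coeff (Finsupp.single 1 n) = 0)
    (y : K) : eval ![0, y, 0] h = 0 := by
  rw [eval_eq']
  refine Finset.sum_eq_zero fun m _ => ?_
  rw [Fin.prod_univ_three]
  simp only [Matrix.cons_val_zero, Matrix.cons_val_one, Matrix.cons_val]
  by_cases h0 : m 0 = 0
  · by_cases h2 : m 2 = 0
    · rw [single_of_zero h0 h2, hh, zero_mul]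
    · rw [zero_pow h2, mul_zero, mul_zero]
  · rw [zero_pow h0, zero_mul, zero_mul, mul_zero]

/-- The middle variable does not occur alone in a relation, unless it is integral over the other
two for a trivial reason. -/
theorem il (u v w : K) (hv0 : v ≠ 0) (hvv : ∀ a b, a < b → v ^ a ≠ v ^ b)
    (huw : ∀ n α β, 1 ≤ n → v ^ n ≠ u ^ α * w ^ β) (d : ℕ) :
    ∀ h : MvPolynomial (Fin 3) K, Ltd d h →
    (∀ g : Polynomial ℤ, g.coeff 0 = 0 →
      eval ![Polynomial.aeval u g, Polynomial.aeval v g, Polynomial.aeval w g] h = 0) →
    ∀ n, h.coeff (Finsupp.single 1 n) = 0 := by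
  classical
  induction d with
  | zero =>
    intro h hh _ n
    exact hh _ (Nat.zero_le _)
  | succ d ih =>
    intro h hh hvan n
    have key : ∀ g : Polynomial ℤ, g.coeff 0 = 0 →
        eval ![Polynomial.aeval u g, 0, Polynomial.aeval w g] h =
          eval ![0, - Polynomial.aeval v g, 0] h := by
      intro g hg
      set c : Fin 3 → K := ![Polynomial.aeval u g, Polynomial.aeval v g, Polynomial.aeval w g]
        with hc
      have h1 := ih (sh c h - h) (sh_sub c hh) (by
        intro g' hg'
        rw [map_sub, sh_eval, hvan g' hg']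
        have e1 : ![Polynomial.aeval u g', Polynomial.aeval v g', Polynomial.aeval w g'] + c =
            ![Polynomial.aeval u (g' + g), Polynomial.aeval v (g' + g),
              Polynomial.aeval w (g' + g)] := by
          rw [hc]
          funext k
          fin_cases k <;> simp
        rw [e1, hvan (g' + g) (by rw [Polynomial.coeff_add, hg, hg', add_zero]), sub_zero])
      have h2 := eval_mid h1 (- Polynomial.aeval v g)
      rw [map_sub, sh_eval, sub_eq_zero] at h2
      rw [← h2]
      congr 1
      congr 1
      rw [hc]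
      funext k
      fin_cases k <;> simp
    have key2 : ∀ k : ℕ, 1 ≤ k →
        ∑ m ∈ h.support with m 1 = 0, h.coeff m * (u ^ (m 0) * w ^ (m 2)) ^ k =
        ∑ m ∈ h.support with m 0 = 0 ∧ m 2 = 0, h.coeff m * (-1) ^ (m 1) * (v ^ (m 1)) ^ k := by
      intro k hk
      have h1 := key (Polynomial.X ^ k) (by
        rw [Polynomial.coeff_X_pow, if_neg]
        omega)
      rw [eval_eq', eval_eq'] at h1
      simp only [Fin.prod_univ_three, map_pow, Polynomial.aeval_X] at h1
      simp only [Matrix.cons_val_zero, Matrix.cons_val_one, Matrix.cons_val] at h1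
      rw [Finset.sum_filter, Finset.sum_filter]
      calc _ = _ := ?_
        _ = _ := h1
        _ = _ := ?_
      · refine Finset.sum_congr rfl fun m _ => ?_
        split_ifs with h2
        · rw [h2, pow_zero, mul_one, mul_pow, ← pow_mul, ← pow_mul, ← pow_mul, ← pow_mul,
            mul_comm k, mul_comm k]
        · rw [zero_pow h2, mul_zero, zero_mul, mul_zero]
      · refine Finset.sum_congr rfl fun m _ => ?_
        split_ifs with h2
        · rw [h2.1, h2.2, pow_zero, one_mul, mul_one, neg_pow, ← mul_assoc, ← pow_mul, ← pow_mul,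
            mul_comm k]
        · rcases not_and_or.1 h2 with h3 | h3
          · rw [zero_pow h3, zero_mul, zero_mul, mul_zero]
          · rw [zero_pow h3, mul_zero, mul_zero]
    have key3 : ∀ q : Polynomial K,
        ∑ m ∈ h.support with m 1 = 0, h.coeff m * ((u ^ (m 0) * w ^ (m 2)) *
          q.eval (u ^ (m 0) * w ^ (m 2))) =
        ∑ m ∈ h.support with m 0 = 0 ∧ m 2 = 0, h.coeff m * (-1) ^ (m 1) * ((v ^ (m 1)) *
          q.eval (v ^ (m 1))) := by
      intro q
      induction q using Polynomial.induction_on' with
      | add p q hp hq =>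
        simp only [Polynomial.eval_add, mul_add, Finset.sum_add_distrib, hp, hq]
      | monomial k c =>
        have h1 := key2 (k + 1) (Nat.succ_pos k)
        have h2 := congrArg (fun z => c * z) h1
        simp only [Finset.mul_sum] at h2
        simp only [Polynomial.eval_monomial]
        calc _ = _ := ?_
          _ = _ := h2
          _ = _ := ?_
        · refine Finset.sum_congr rfl fun m _ => ?_
          rw [pow_succ]
          ring
        · refine Finset.sum_congr rfl fun m _ => ?_
          rw [pow_succ]
          ring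
    have hzero : h.coeff 0 = 0 := by
      have h1 := hvan 0 (by simp)
      simp only [map_zero] at h1
      have e1 : (![0, 0, 0] : Fin 3 → K) = 0 := by
        funext k
        fin_cases k <;> rfl
      rw [e1] at h1
      rw [eval_zero, MvPolynomial.constantCoeff_eq] at h1
      exact h1
    rcases Nat.eq_zero_or_pos n with rfl | hn
    · rw [Finsupp.single_zero]
      exact hzero
    by_contra hcon
    set Y : Finset K := ((h.support.filter fun m => m 1 = 0).image fun m => u ^ (m 0) * w ^ (m 2)) ∪
      ((h.support.filter fun m => m 0 = 0 ∧ m 2 = 0 ∧ m 1 ≠ n).image fun m => v ^ (m 1)) with hY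
    set q : Polynomial K := ∏ z ∈ Y, (Polynomial.X - Polynomial.C z) with hq
    have hq0 : ∀ z ∈ Y, q.eval z = 0 := by
      intro z hz
      rw [hq, Polynomial.eval_prod]
      exact Finset.prod_eq_zero hz (by simp)
    have hqn : q.eval (v ^ n) ≠ 0 := by
      rw [hq, Polynomial.eval_prod]
      refine Finset.prod_ne_zero_iff.2 fun z hz => ?_
      rw [Polynomial.eval_sub, Polynomial.eval_X, Polynomial.eval_C, sub_ne_zero]
      rw [hY, Finset.mem_union, Finset.mem_image, Finset.mem_image] at hz
      rcases hz with ⟨m, _, rfl⟩ | ⟨m, hm, rfl⟩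
      · exact huw n _ _ hn
      · rw [Finset.mem_filter] at hm
        rcases lt_or_gt_of_ne hm.2.2.2 with h1 | h1
        · exact (hvv _ _ h1).symm
        · exact hvv _ _ h1
    have h1 := key3 q
    rw [Finset.sum_eq_zero, Finset.sum_eq_single (Finsupp.single 1 n)] at h1
    · simp only [Finsupp.single_eq_same] at h1
      have h2 : h.coeff (Finsupp.single 1 n) * (-1) ^ n * (v ^ n * q.eval (v ^ n)) ≠ 0 := by
        refine mul_ne_zero (mul_ne_zero hcon ?_) (mul_ne_zero (pow_ne_zero _ hv0) hqn)
        exact pow_ne_zero _ (neg_ne_zero.2 one_ne_zero)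
      exact h2 h1.symm
    · intro m hm hne
      rw [Finset.mem_filter] at hm
      have h2 : m 1 ≠ n := by
        rintro rfl
        exact hne (single_of_zero hm.2.1 hm.2.2)
      rw [hq0, mul_zero, mul_zero]
      rw [hY, Finset.mem_union]
      right
      exact Finset.mem_image.2 ⟨m, Finset.mem_filter.2 ⟨hm.1, hm.2.1, hm.2.2, h2⟩, rfl⟩
    · intro h2
      exfalso
      apply h2
      rw [Finset.mem_filter]
      refine ⟨mem_support_iff.2 hcon, ?_, ?_⟩
      · rw [Finsupp.single_apply, if_neg (by decide)]
      · rw [Finsupp.single_apply, if_neg (by decide)]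
    · intro m hm
      rw [hq0, mul_zero, mul_zero]
      rw [hY, Finset.mem_union]
      left
      exact Finset.mem_image.2 ⟨m, hm, rfl⟩

end Pool.Agent.V8H74.LR
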