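import Pool.Agent.V8H74.LR.Words3
import Pool.Agent.V8H74.LR.IL

/-!
The middle variable is integral over the other two modulo the relations of a pair of ideals.
-/

set_option autoImplicit false

namespace Pool.Agent.V8H74.LR

variable {Φ : Type} [CommRing Φ]

/-- the polynomials in the two outer variables -/
noncomputable abbrev S0 (Φ : Type) [CommRing Φ] : Subalgebra Φ (P3 Φ) :=
  Algebra.adjoin Φ {MvPolynomial.X 0, MvPolynomial.X 2}

/-- monic polynomials in the middle variable -/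
def Mon (Φ : Type) [CommRing Φ] : Submonoid (P3 Φ) where
  carrier := {x | ∃ Q : Polynomial (S0 Φ), Q.Monic ∧
    Polynomial.aeval (MvPolynomial.X 1 : P3 Φ) Q = x}
  one_mem' := ⟨1, Polynomial.monic_one, map_one _⟩
  mul_mem' := by
    rintro _ _ ⟨P, hP, rfl⟩ ⟨Q, hQ, rfl⟩
    exact ⟨P * Q, hP.mul hQ, map_mul _ _ _⟩

theorem aeval_sub' {S R : Type} [CommRing S] [CommRing R] [Algebra S R] (x : R)
    (p q : Polynomial S) : Polynomial.aeval x (p - q) = Polynomial.aeval x p - Polynomial.aeval x q :=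
  map_sub _ _ _

theorem exists_Ltd {K : Type} [Field K] (h : MvPolynomial (Fin 3) K) : ∃ d, Ltd d h := by
  refine ⟨h.support.sup Finsupp.degree + 1, fun m hm => ?_⟩
  by_contra hcon
  have h1 := Finset.le_sup (f := Finsupp.degree) (MvPolynomial.mem_support_iff.2 hcon)
  omega

theorem eval_sg {K : Type} [Field K] (θ : P3 Φ →+* K) (g : Polynomial ℤ) (H : P3 Φ) :
    MvPolynomial.eval ![Polynomial.aeval (θ (MvPolynomial.X 0)) g,
      Polynomial.aeval (θ (MvPolynomial.X 1)) g, Polynomial.aeval (θ (MvPolynomial.X 2)) g]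
      (MvPolynomial.map (θ.comp MvPolynomial.C) H) =
    θ (sg (g.map (Int.castRingHom Φ)) H) := by
  have hg : ∀ k : Fin 3, θ (Polynomial.aeval (MvPolynomial.X k : P3 Φ)
      (g.map (Int.castRingHom Φ))) = Polynomial.aeval (θ (MvPolynomial.X k)) g := by
    intro k
    rw [Polynomial.aeval_def, Polynomial.eval₂_map, Polynomial.hom_eval₂, Polynomial.aeval_def]
    congr 1
    exact RingHom.ext_int _ _
  have h1 : (MvPolynomial.eval ![Polynomial.aeval (θ (MvPolynomial.X 0)) g,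
      Polynomial.aeval (θ (MvPolynomial.X 1)) g, Polynomial.aeval (θ (MvPolynomial.X 2)) g]).comp
      (MvPolynomial.map (θ.comp MvPolynomial.C)) =
      θ.comp (sg (g.map (Int.castRingHom Φ))).toRingHom := by
    apply MvPolynomial.ringHom_ext
    · intro r
      simp only [RingHom.comp_apply, MvPolynomial.map_C, MvPolynomial.eval_C]
      change _ = θ (sg _ (MvPolynomial.C r))
      rw [sg, MvPolynomial.aeval_C, MvPolynomial.algebraMap_eq]
    · intro k
      simp only [RingHom.comp_apply, MvPolynomial.map_X, MvPolynomial.eval_X]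
      change _ = θ (sg _ (MvPolynomial.X k))
      rw [sg, MvPolynomial.aeval_X, hg]
      fin_cases k <;> rfl
  exact congrArg (fun f => f H) h1

theorem exists_monic (J : Ideal (P3 Φ)) (H : P3 Φ) (n0 : ℕ)
    (hH : H.coeff (Finsupp.single 1 n0) = 1)
    (hJ : ∀ g : Polynomial Φ, g.coeff 0 = 0 →
      (MvPolynomial.X 1 - MvPolynomial.X 2) * sg g H ∈ J) :
    ∃ Q : Polynomial (S0 Φ), Q.Monic ∧ Polynomial.aeval (MvPolynomial.X 1 : P3 Φ) Q ∈ J := by
  by_contra hcon
  have hdis : Disjoint (J : Set (P3 Φ)) (Mon Φ) := by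
    rw [Set.disjoint_left]
    rintro x hx ⟨Q, hQ, rfl⟩
    exact hcon ⟨Q, hQ, hx⟩
  obtain ⟨q, hq, hJq, hqd⟩ := Ideal.exists_le_prime_disjoint J (Mon Φ) hdis
  have hnot : ∀ Q : Polynomial (S0 Φ), Q.Monic →
      Polynomial.aeval (MvPolynomial.X 1 : P3 Φ) Q ∉ q := fun Q hQ hmem =>
    Set.disjoint_left.1 hqd hmem ⟨Q, hQ, rfl⟩
  have hX0 : (MvPolynomial.X 0 : P3 Φ) ∈ S0 Φ := Algebra.subset_adjoin (by simp)
  have hX2 : (MvPolynomial.X 2 : P3 Φ) ∈ S0 Φ := Algebra.subset_adjoin (by simp)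
  let K := FractionRing (P3 Φ ⧸ q)
  let θ : P3 Φ →+* K := (algebraMap (P3 Φ ⧸ q) K).comp (Ideal.Quotient.mk q)
  have hθ : ∀ x, θ x = 0 ↔ x ∈ q := by
    intro x
    change algebraMap (P3 Φ ⧸ q) K (Ideal.Quotient.mk q x) = 0 ↔ _
    rw [FaithfulSMul.algebraMap_eq_zero_iff, Ideal.Quotient.eq_zero_iff_mem]
  have hθ' : ∀ x y, θ x = θ y ↔ x - y ∈ q := by
    intro x y
    rw [← hθ, map_sub, sub_eq_zero]
  have h12 : (MvPolynomial.X 1 - MvPolynomial.X 2 : P3 Φ) ∉ q := by
    have := hnot (Polynomial.X - Polynomial.C ⟨MvPolynomial.X 2, hX2⟩)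
      (Polynomial.monic_X_sub_C _)
    rwa [aeval_sub', Polynomial.aeval_X, Polynomial.aeval_C] at this
  have hnt : Nontrivial (S0 Φ) := by
    refine ⟨⟨0, 1, fun h => ?_⟩⟩
    have h1 : (0 : P3 Φ) = 1 := congrArg Subtype.val h
    apply hq.ne_top
    rw [Ideal.eq_top_iff_one, ← h1]
    exact zero_mem _
  obtain ⟨d, hd⟩ := exists_Ltd (MvPolynomial.map (θ.comp MvPolynomial.C) H)
  have h1 := il (θ (MvPolynomial.X 0)) (θ (MvPolynomial.X 1)) (θ (MvPolynomial.X 2)) ?_ ?_ ?_ d
    _ hd ?_ n0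
  · rw [MvPolynomial.coeff_map, hH, map_one] at h1
    exact one_ne_zero h1
  · intro h0
    rw [hθ] at h0
    have := hnot Polynomial.X Polynomial.monic_X
    rw [Polynomial.aeval_X] at this
    exact this h0
  · intro a b hab h0
    rw [← map_pow, ← map_pow, hθ'] at h0
    have h2 : (Polynomial.X ^ b - Polynomial.X ^ a : Polynomial (S0 Φ)).Monic := by
      apply Polynomial.monic_X_pow_sub
      rw [Polynomial.degree_X_pow]
      exact_mod_cast hab
    have := hnot _ h2
    rw [aeval_sub', map_pow, map_pow, Polynomial.aeval_X] at this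
    apply this
    rw [← neg_sub]
    exact neg_mem h0
  · intro n α β hn h0
    rw [← map_pow, ← map_pow, ← map_pow, ← map_mul, hθ'] at h0
    have h2 : (Polynomial.X ^ n - Polynomial.C
        ((⟨MvPolynomial.X 0, hX0⟩ : S0 Φ) ^ α * (⟨MvPolynomial.X 2, hX2⟩ : S0 Φ) ^ β)).Monic := by
      apply Polynomial.monic_X_pow_sub
      refine lt_of_le_of_lt Polynomial.degree_C_le ?_
      exact_mod_cast hn
    have := hnot _ h2
    rw [aeval_sub', map_pow, Polynomial.aeval_X, Polynomial.aeval_C] at this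
    exact this h0
  · intro g hg
    rw [eval_sg, hθ]
    have h2 := hJq (hJ (g.map (Int.castRingHom Φ)) (by rw [Polynomial.coeff_map, hg, map_zero]))
    exact (hq.mem_or_mem h2).resolve_left h12

variable {U : Type} [Ring U] [Algebra Φ U]

variable (Φ) in
/-- the span of the elements `u a z b v` with `z ∈ F` -/
def SP (a b : U) (F : Set U) : Submodule Φ U :=
  Submodule.span Φ {x | ∃ u v, ∃ z ∈ F, x = u * a * z * b * v}

theorem isI_SP (a b : U) (F : Set U) : IsI (SP Φ a b F) := by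
  constructor
  · intro u
    apply span_l
    rintro x ⟨p, q, z, hz, rfl⟩
    exact Submodule.subset_span ⟨u * p, q, z, hz, by noncomm_ring⟩
  · intro u
    apply span_r
    rintro x ⟨p, q, z, hz, rfl⟩
    exact Submodule.subset_span ⟨p, q * u, z, hz, by noncomm_ring⟩

theorem mem_SP (a b : U) {F : Set U} {z : U} (hz : z ∈ F) : a * z * b ∈ SP Φ a b F :=
  Submodule.subset_span ⟨1, 1, z, hz, by noncomm_ring⟩

theorem SP_mono (a b : U) {F G : Set U} (h : F ⊆ G) : SP Φ a b F ≤ SP Φ a b G := by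
  apply Submodule.span_mono
  rintro x ⟨p, q, z, hz, rfl⟩
  exact ⟨p, q, z, h hz, rfl⟩

theorem TT_S0 {I : Submodule Φ U} (hI : IsI I) (t a b : U) {s : P3 Φ} (hs : s ∈ S0 Φ) :
    ∀ F : P3 Φ, TT t a b F ∈ I → TT t a b (s * F) ∈ I := by
  induction hs using Algebra.adjoin_induction with
  | mem x hx =>
    intro F hF
    rcases hx with rfl | hx
    · rw [TT_X0]; exact hI.l _ _ hF
    · rw [Set.mem_singleton_iff] at hx
      rw [hx, TT_X2]; exact hI.r _ _ hF
  | algebraMap r =>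
    intro F hF
    rw [MvPolynomial.algebraMap_eq, TT_C]
    exact Submodule.smul_mem _ _ hF
  | add x y _ _ hx hy =>
    intro F hF
    rw [add_mul, map_add]
    exact add_mem (hx F hF) (hy F hF)
  | mul x y _ _ hx hy =>
    intro F hF
    rw [mul_assoc]
    exact hx _ (hy F hF)

theorem TT_X1_pow (t a b : U) (k : ℕ) :
    TT t a b ((MvPolynomial.X 1 : P3 Φ) ^ k) = a * t ^ k * b := by
  induction k generalizing a with
  | zero => rw [pow_zero, TT_one, pow_zero, mul_one]
  | succ k ih => rw [pow_succ', TT_X1, ih, pow_succ', mul_assoc a]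

/-- large powers of `t` between `a` and `b` reduce to smaller ones -/
theorem red_pow {A A' I : Submodule Φ U} (hA : IsI A) (hI : IsI I) {t : U}
    {Q : Polynomial (S0 Φ)} (hQ : Q.Monic)
    (hJ : Polynomial.aeval (MvPolynomial.X 1 : P3 Φ) Q ∈ J3 A A' I hA hI t) {n : ℕ}
    (hn : Q.natDegree ≤ n) {a b : U} (ha : a ∈ A) (hb : b ∈ A') :
    a * t ^ n * b ∈ SP Φ a b {z | ∃ k < n, z = t ^ k} ⊔ I := by
  set d := Q.natDegree with hd
  set a' := a * t ^ (n - d) with ha'
  have h1 : TT t a' b (Polynomial.aeval (MvPolynomial.X 1 : P3 Φ) Q) ∈ I :=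
    hJ a' (hA.r _ _ ha) b hb
  rw [Polynomial.aeval_eq_sum_range, Finset.sum_range_succ, ← hd] at h1
  have hlead : Q.coeff d = 1 := hQ.coeff_natDegree
  rw [hlead, one_smul, map_add, TT_X1_pow] at h1
  have e1 : a' * t ^ d * b = a * t ^ n * b := by
    rw [ha', mul_assoc a, ← pow_add]
    congr 3
    omega
  rw [e1] at h1
  set z : U := TT t a' b (∑ x ∈ Finset.range d, Q.coeff x • (MvPolynomial.X 1 : P3 Φ) ^ x)
    with hz
  have h2 : a * t ^ n * b = - z + (z + a * t ^ n * b) := by abel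
  rw [h2]
  refine Submodule.add_mem_sup (neg_mem ?_) h1
  rw [hz, map_sum]
  refine Submodule.sum_mem _ fun k hk => ?_
  rw [Finset.mem_range] at hk
  have e2 : (Q.coeff k • (MvPolynomial.X 1 : P3 Φ) ^ k) =
      (Q.coeff k : P3 Φ) * (MvPolynomial.X 1 : P3 Φ) ^ k := Algebra.smul_def _ _
  rw [e2]
  refine TT_S0 (isI_SP (Φ := Φ) a b _) t a' b (Q.coeff k).2 _ ?_
  rw [TT_X1_pow]
  have e3 : a' * t ^ k * b = a * t ^ (n - d + k) * b := by
    rw [ha', mul_assoc a, ← pow_add]
  rw [e3]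
  exact mem_SP a b ⟨n - d + k, by omega, rfl⟩

end Pool.Agent.V8H74.LR
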