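import Pool.Agent.V8H74.LR.Int

/-!
The factors `N ^ i / N ^ (i + 1)` are finitely generated as bimodules.
-/

set_option autoImplicit false

namespace Pool.Agent.V8H74.LR

variable {Φ : Type} [CommRing Φ] {U : Type} [Ring U] [Algebra Φ U]

variable (Φ) in
/-- the ideal generated by a set -/
def Idl (X : Set U) : Submodule Φ U := Submodule.span Φ {z | ∃ u v, ∃ x ∈ X, z = u * x * v}

theorem isI_Idl (X : Set U) : IsI (Idl Φ X) := by
  constructor
  · intro u
    apply span_l
    rintro x ⟨p, q, z, hz, rfl⟩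
    exact Submodule.subset_span ⟨u * p, q, z, hz, by noncomm_ring⟩
  · intro u
    apply span_r
    rintro x ⟨p, q, z, hz, rfl⟩
    exact Submodule.subset_span ⟨p, q * u, z, hz, by noncomm_ring⟩

theorem subset_Idl {X : Set U} {x : U} (hx : x ∈ X) : x ∈ Idl Φ X :=
  Submodule.subset_span ⟨1, 1, x, hx, by noncomm_ring⟩

theorem Idl_le {X : Set U} {I : Submodule Φ U} (hI : IsI I) (h : ∀ x ∈ X, x ∈ I) :
    Idl Φ X ≤ I := by
  apply Submodule.span_le.2
  rintro z ⟨u, v, x, hx, rfl⟩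
  exact hI.r _ _ (hI.l _ _ (h x hx))

theorem Idl_mono {X Y : Set U} (h : X ⊆ Y) : Idl Φ X ≤ Idl Φ Y :=
  Idl_le (isI_Idl _) fun _ hx => subset_Idl (h hx)

theorem SP_le {a b : U} {F : Set U} {I : Submodule Φ U} (hI : IsI I)
    (h : ∀ z ∈ F, a * z * b ∈ I) : SP Φ a b F ≤ I := by
  apply Submodule.span_le.2
  rintro z ⟨u, v, x, hx, rfl⟩
  have := hI.r v _ (hI.l u _ (h x hx))
  change u * a * x * b * v ∈ I
  convert this using 1
  noncomm_ring

theorem isI_sup {I J : Submodule Φ U} (hI : IsI I) (hJ : IsI J) : IsI (I ⊔ J) := by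
  constructor
  · intro u x hx
    obtain ⟨p, hp, q, hq, rfl⟩ := Submodule.mem_sup.1 hx
    rw [mul_add]
    exact Submodule.add_mem_sup (hI.l _ _ hp) (hJ.l _ _ hq)
  · intro u x hx
    obtain ⟨p, hp, q, hq, rfl⟩ := Submodule.mem_sup.1 hx
    rw [add_mul]
    exact Submodule.add_mem_sup (hI.r _ _ hp) (hJ.r _ _ hq)

theorem isI_mul {I J : Submodule Φ U} (hI : IsI I) (hJ : IsI J) : IsI (I * J) := by
  constructor
  · intro u x hx
    induction hx using Submodule.mul_induction_on' with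
    | mem_mul_mem m hm n hn =>
      rw [← mul_assoc]
      exact Submodule.mul_mem_mul (hI.l _ _ hm) hn
    | add x _ y _ hx hy => rw [mul_add]; exact add_mem hx hy
  · intro u x hx
    induction hx using Submodule.mul_induction_on' with
    | mem_mul_mem m hm n hn =>
      rw [mul_assoc]
      exact Submodule.mul_mem_mul hm (hJ.r _ _ hn)
    | add x _ y _ hx hy => rw [add_mul]; exact add_mem hx hy

theorem isI_pow {N : Submodule Φ U} (hN : IsI N) : ∀ i, 1 ≤ i → IsI (N ^ i) := by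
  intro i hi
  induction i, hi using Nat.le_induction with
  | base => rwa [pow_one]
  | succ n _ ih => rw [pow_succ]; exact isI_mul ih hN

theorem pow_succ_le {N : Submodule Φ U} (hN : IsI N) {i : ℕ} (hi : 1 ≤ i) :
    N ^ (i + 1) ≤ N ^ i := by
  rw [pow_succ]
  refine Submodule.mul_le.2 fun m hm n _ => ?_
  exact (isI_pow hN i hi).r _ _ hm

theorem pow_anti {N : Submodule Φ U} (hN : IsI N) {i j : ℕ} (hi : 1 ≤ i) (hij : i ≤ j) :
    N ^ j ≤ N ^ i := by
  induction j, hij using Nat.le_induction with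
  | base => exact le_rfl
  | succ n hn ih => exact (pow_succ_le hN (hi.trans hn)).trans ih

/-- the consequence of an identity in three variables for all pairs of ideals -/
def G5all (B : Set U) (H : P3 Φ) : Prop :=
  ∀ A A' I : Submodule Φ U, IsI A → IsI I → (∀ a ∈ A, ∀ b ∈ A', Tri a b I) →
    (∀ x ∈ A, x ∈ B) → (∀ x ∈ A', x ∈ B) → ∀ t ∈ B, G5 A A' I t H

theorem tri_pow {N : Submodule Φ U} (hN : IsI N) {i : ℕ} (hi : 1 ≤ i) {a b : U}
    (ha : a ∈ N ^ i) (hb : b ∈ N) : Tri a b (N ^ (i + 2)) := by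
  have hNi := isI_pow hN i hi
  have haN : a ∈ N := by
    have := pow_anti hN le_rfl hi ha
    rwa [pow_one] at this
  have e1 : ∀ x ∈ N ^ i, ∀ y ∈ N, ∀ z ∈ N, x * y * z ∈ N ^ (i + 2) := by
    intro x hx y hy z hz
    rw [pow_succ, pow_succ]
    exact Submodule.mul_mem_mul (Submodule.mul_mem_mul hx hy) hz
  have e2 : ∀ x ∈ N, ∀ y ∈ N ^ i, ∀ z ∈ N, x * y * z ∈ N ^ (i + 2) := by
    intro x hx y hy z hz
    rw [pow_succ, pow_succ']
    exact Submodule.mul_mem_mul (Submodule.mul_mem_mul hx hy) hz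
  have e3 : ∀ x ∈ N, ∀ y ∈ N, ∀ z ∈ N ^ i, x * y * z ∈ N ^ (i + 2) := by
    intro x hx y hy z hz
    rw [pow_succ', pow_succ', mul_assoc]
    exact Submodule.mul_mem_mul hx (Submodule.mul_mem_mul hy hz)
  refine ⟨fun u v => ?_, fun u v => ?_, fun u v => ?_, fun u v => ?_, fun u v => ?_,
    fun u v => ?_⟩
  · have := e1 (a * u) (hNi.r _ _ ha) (a * v) (hN.r _ _ haN) b hb
    convert this using 1; noncomm_ring
  · have := e1 (a * u) (hNi.r _ _ ha) (b * v) (hN.r _ _ hb) b hb
    convert this using 1; noncomm_ring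
  · have := e1 (a * u) (hNi.r _ _ ha) (b * v) (hN.r _ _ hb) a haN
    convert this using 1; noncomm_ring
  · have := e2 (b * u) (hN.r _ _ hb) (a * v) (hNi.r _ _ ha) a haN
    convert this using 1; noncomm_ring
  · have := e2 (b * u) (hN.r _ _ hb) (a * v) (hNi.r _ _ ha) b hb
    convert this using 1; noncomm_ring
  · have := e3 (b * u) (hN.r _ _ hb) (b * v) (hN.r _ _ hb) a ha
    convert this using 1; noncomm_ring

/-- the middle factor may be taken from the finite set `F` -/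
def MidF (N : Submodule Φ U) (i : ℕ) (F S : Set U) : Prop :=
  ∀ a ∈ N ^ i, ∀ b ∈ N, ∀ s ∈ S, a * s * b ∈ SP Φ a b F ⊔ N ^ (i + 2)

section mid

variable {N : Submodule Φ U} (hN : IsI N) (hcomm : ∀ u v : U, u * v - v * u ∈ N) {i : ℕ}
  (hi : 1 ≤ i)

include hcomm in
theorem mid_swap {a b : U} (ha : a ∈ N ^ i) (hb : b ∈ N) (u v : U) :
    a * (u * v) * b - a * (v * u) * b ∈ N ^ (i + 2) := by
  have h := hcomm u v
  have e : a * (u * v) * b - a * (v * u) * b = a * (u * v - v * u) * b := by noncomm_ring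
  rw [e, pow_succ, pow_succ]
  exact Submodule.mul_mem_mul (Submodule.mul_mem_mul ha h) hb

include hN hcomm hi in
theorem mid_step {S : Subalgebra Φ U} (hS : ∀ x ∈ N, x ∈ S) {F : Set U}
    (hF : MidF N i F S) {t : U} {d : ℕ}
    (hd : ∀ n, d ≤ n → ∀ a ∈ N ^ i, ∀ b ∈ N,
      a * t ^ n * b ∈ SP Φ a b {z | ∃ k < n, z = t ^ k} ⊔ N ^ (i + 2)) :
    MidF N i {x | ∃ z ∈ F, ∃ k < d, x = z * t ^ k} (Algebra.adjoin Φ (insert t (S : Set U))) := by
  have hNi := isI_pow hN i hi
  have hI := isI_pow hN (i + 2) (by omega)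
  have c1 : ∀ a ∈ N ^ i, ∀ b ∈ N, ∀ z ∈ F, ∀ e, a * z * t ^ e * b ∈
      SP Φ a b {x | ∃ z ∈ F, ∃ k < d, x = z * t ^ k} ⊔ N ^ (i + 2) := by
    intro a ha b hb z hz e
    induction e using Nat.strong_induction_on with
    | _ e ih =>
      rcases lt_or_ge e d with he | he
      · refine Submodule.mem_sup_left ?_
        rw [mul_assoc a]
        exact mem_SP a b ⟨z, hz, e, he, rfl⟩
      · have h1 := hd e he (a * z) (hNi.r _ _ ha) b hb
        refine (sup_le ?_ le_sup_right : SP Φ (a * z) b {z | ∃ k < e, z = t ^ k} ⊔ N ^ (i + 2) ≤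
          _) h1
        apply SP_le (isI_sup (isI_SP _ _ _) hI)
        rintro _ ⟨k, hk, rfl⟩
        exact ih k hk
  have c2 : ∀ a ∈ N ^ i, ∀ b ∈ N, ∀ s ∈ S, ∀ e, a * (s * t ^ e) * b ∈
      SP Φ a b {x | ∃ z ∈ F, ∃ k < d, x = z * t ^ k} ⊔ N ^ (i + 2) := by
    intro a ha b hb s hs e
    have h1 := mid_swap hcomm ha hb s (t ^ e)
    have h2 := hF (a * t ^ e) (hNi.r _ _ ha) b hb s hs
    have h3 : a * (t ^ e * s) * b ∈
        SP Φ a b {x | ∃ z ∈ F, ∃ k < d, x = z * t ^ k} ⊔ N ^ (i + 2) := by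
      have e1 : a * (t ^ e * s) * b = a * t ^ e * s * b := by noncomm_ring
      rw [e1]
      refine (sup_le ?_ le_sup_right : SP Φ (a * t ^ e) b F ⊔ N ^ (i + 2) ≤ _) h2
      apply SP_le (isI_sup (isI_SP _ _ _) hI)
      intro z hz
      have h4 := mid_swap hcomm ha hb (t ^ e) z
      have h5 := add_mem (Submodule.mem_sup_right (S := SP Φ a b {x | ∃ z ∈ F, ∃ k < d,
        x = z * t ^ k}) h4) (c1 a ha b hb z hz e)
      convert h5 using 1
      noncomm_ring
    have h6 := add_mem (Submodule.mem_sup_right (S := SP Φ a b {x | ∃ z ∈ F, ∃ k < d,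
      x = z * t ^ k}) h1) h3
    rwa [sub_add_cancel] at h6
  have c0 : ∀ x ∈ Submodule.span Φ {x | ∃ s ∈ S, ∃ e : ℕ, x = s * t ^ e},
      ∀ y ∈ Submodule.span Φ {x | ∃ s ∈ S, ∃ e : ℕ, x = s * t ^ e},
      x * y ∈ Submodule.span Φ {x | ∃ s ∈ S, ∃ e : ℕ, x = s * t ^ e} := by
    intro x hx y hy
    refine span_into_r y ?_ x hx
    rintro _ ⟨s, hs, e, rfl⟩
    refine span_into_l _ ?_ y hy
    rintro _ ⟨s', hs', e', rfl⟩
    have e1 : s * t ^ e * (s' * t ^ e') =
        s * s' * t ^ (e + e') + s * (t ^ e * s' - s' * t ^ e) * t ^ e' := by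
      rw [pow_add]; noncomm_ring
    rw [e1]
    refine add_mem (Submodule.subset_span ⟨_, mul_mem hs hs', _, rfl⟩) ?_
    exact Submodule.subset_span ⟨_, mul_mem hs (hS _ (hcomm _ _)), _, rfl⟩
  have c3 : ∀ x ∈ Algebra.adjoin Φ (insert t (S : Set U)),
      x ∈ Submodule.span Φ {x | ∃ s ∈ S, ∃ e : ℕ, x = s * t ^ e} := by
    intro x hx
    induction hx using Algebra.adjoin_induction with
    | mem x hx =>
      rcases hx with rfl | hx
      · exact Submodule.subset_span ⟨1, one_mem _, 1, by simp⟩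
      · exact Submodule.subset_span ⟨x, hx, 0, by simp⟩
    | algebraMap r => exact Submodule.subset_span ⟨_, S.algebraMap_mem r, 0, by simp⟩
    | add x y _ _ hx hy => exact add_mem hx hy
    | mul x y _ _ hx hy => exact c0 x hx y hy
  intro a ha b hb x hx
  have h1 := c3 x hx
  clear hx
  induction h1 using Submodule.span_induction with
  | zero => rw [mul_zero, zero_mul]; exact zero_mem _
  | add p q _ _ hp hq =>
    have e1 : a * (p + q) * b = a * p * b + a * q * b := by noncomm_ring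
    rw [e1]
    exact add_mem hp hq
  | smul c p _ hp =>
    rw [mul_smul_comm, smul_mul_assoc]
    exact Submodule.smul_mem _ _ hp
  | mem p hp =>
    obtain ⟨s, hs, e, rfl⟩ := hp
    exact c2 a ha b hb s hs e

end mid

theorem mid_base {N : Submodule Φ U} (hN : IsI N) {i : ℕ} (hi : 1 ≤ i) :
    MidF N i {1} (Algebra.adjoin Φ (N : Set U)) := by
  have hNi := isI_pow hN i hi
  have hI := isI_pow hN (i + 2) (by omega)
  intro a ha b hb s hs
  induction hs using Algebra.adjoin_induction generalizing a with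
  | mem x hx =>
    refine Submodule.mem_sup_right ?_
    rw [pow_succ, pow_succ]
    exact Submodule.mul_mem_mul (Submodule.mul_mem_mul ha hx) hb
  | algebraMap r =>
    refine Submodule.mem_sup_left ?_
    have e : a * (algebraMap Φ U) r * b = r • (a * 1 * b) := by
      rw [← Algebra.commutes, ← Algebra.smul_def, smul_mul_assoc, mul_one]
    rw [e]
    exact Submodule.smul_mem _ _ (mem_SP a b rfl)
  | add x y _ _ hx hy =>
    have e1 : a * (x + y) * b = a * x * b + a * y * b := by noncomm_ring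
    rw [e1]
    exact add_mem (hx a ha) (hy a ha)
  | mul x y _ _ hx hy =>
    rw [← mul_assoc a]
    refine (sup_le ?_ le_sup_right : SP Φ (a * x) b {1} ⊔ N ^ (i + 2) ≤ _)
      (hy (a * x) (hNi.r _ _ ha))
    apply SP_le (isI_sup (isI_SP _ _ _) hI)
    rintro z rfl
    rw [mul_one]
    exact hx a ha

/-- the setting: an algebra `U` which is generated by finitely many elements of `B`, with an
ideal `N ≤ B` which contains all commutators -/
structure Setup (B : Set U) (N : Submodule Φ U) : Prop where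
  clo : Clo B
  smul : ∀ (c : Φ), ∀ x ∈ B, c • x ∈ B
  isI : IsI N
  sub : ∀ x ∈ N, x ∈ B
  comm : ∀ u v : U, u * v - v * u ∈ N
  gen : ∃ T : Set U, T.Finite ∧ T ⊆ B ∧ Algebra.adjoin Φ T = ⊤
  fg : ∃ X : Set U, X.Finite ∧ N = Idl Φ X

theorem exists_mid {B : Set U} {N : Submodule Φ U} (hs : Setup B N) {H : P3 Φ} {n0 : ℕ}
    (hH : H.coeff (Finsupp.single 1 n0) = 1) (hG : G5all B H) {i : ℕ} (hi : 1 ≤ i) :
    ∃ F : Set U, F.Finite ∧ MidF N i F Set.univ := by
  obtain ⟨T, hTf, hTB, hT⟩ := hs.gen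
  have hNi := isI_pow hs.isI i hi
  have hI := isI_pow hs.isI (i + 2) (by omega)
  have hNiN : ∀ x ∈ N ^ i, x ∈ N := by
    intro x hx
    have := pow_anti hs.isI le_rfl hi hx
    rwa [pow_one] at this
  have key : ∀ T : Set U, T.Finite → T ⊆ B →
      ∃ F : Set U, F.Finite ∧ MidF N i F (Algebra.adjoin Φ (T ∪ (N : Set U))) := by
    intro T hTf
    induction T, hTf using Set.Finite.induction_on with
    | empty =>
      intro _
      refine ⟨{1}, Set.finite_singleton 1, ?_⟩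
      rw [Set.empty_union]
      exact mid_base hs.isI hi
    | @insert t T _ _ ih =>
      intro hB
      obtain ⟨F, hF, hmid⟩ := ih ((Set.subset_insert _ _).trans hB)
      have htB : t ∈ B := hB (Set.mem_insert _ _)
      obtain ⟨Q, hQ, hQJ⟩ := exists_monic (J3 (N ^ i) N (N ^ (i + 2)) hNi hI t) H n0 hH
        (fun g hg => hG (N ^ i) N (N ^ (i + 2)) hNi hI
          (fun a ha b hb => tri_pow hs.isI hi ha hb) (fun x hx => hs.sub x (hNiN x hx)) hs.sub t
          htB g hg)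
      have hstep := mid_step hs.isI hs.comm hi (S := Algebra.adjoin Φ (T ∪ (N : Set U)))
        (fun x hx => Algebra.subset_adjoin (Or.inr hx)) hmid (t := t) (d := Q.natDegree)
        (fun n hn a ha b hb => red_pow hNi hI hQ hQJ hn ha hb)
      refine ⟨_, ?_, fun a ha b hb s hs' => hstep a ha b hb s ?_⟩
      · have : {x | ∃ z ∈ F, ∃ k < Q.natDegree, x = z * t ^ k} ⊆
            (fun p : U × ℕ => p.1 * t ^ p.2) '' (F ×ˢ Set.Iio Q.natDegree) := by
          rintro x ⟨z, hz, k, hk, rfl⟩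
          exact ⟨(z, k), ⟨hz, hk⟩, rfl⟩
        exact ((hF.prod (Set.finite_Iio _)).image _).subset this
      · have h1 : insert t T ∪ (N : Set U) ⊆ insert t
            ((Algebra.adjoin Φ (T ∪ (N : Set U)) : Subalgebra Φ U) : Set U) := by
          rintro x ((rfl | hx) | hx)
          · exact Set.mem_insert _ _
          · exact Set.mem_insert_of_mem _ (Algebra.subset_adjoin (Or.inl hx))
          · exact Set.mem_insert_of_mem _ (Algebra.subset_adjoin (Or.inr hx))
        exact Algebra.adjoin_mono h1 hs'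
  obtain ⟨F, hF, hmid⟩ := key T hTf hTB
  refine ⟨F, hF, fun a ha b hb s _ => hmid a ha b hb s ?_⟩
  have h1 : Algebra.adjoin Φ T ≤ Algebra.adjoin Φ (T ∪ (N : Set U)) :=
    Algebra.adjoin_mono Set.subset_union_left
  rw [hT] at h1
  exact h1 Algebra.mem_top

/-- **The factors of the powers of `N` are finitely generated bimodules.** -/
theorem layer {B : Set U} {N : Submodule Φ U} (hs : Setup B N) {H : P3 Φ} {n0 : ℕ}
    (hH : H.coeff (Finsupp.single 1 n0) = 1) (hG : G5all B H) {i : ℕ} (hi : 1 ≤ i) :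
    ∃ X : Set U, X.Finite ∧ (∀ x ∈ X, x ∈ N ^ i) ∧ N ^ i ≤ Idl Φ X ⊔ N ^ (i + 1) := by
  obtain ⟨Y, hY, hNY⟩ := hs.fg
  have hYN : ∀ y ∈ Y, y ∈ N := fun y hy => hNY ▸ subset_Idl hy
  induction i, hi using Nat.le_induction with
  | base =>
    refine ⟨Y, hY, fun y hy => by rw [pow_one]; exact hYN y hy, ?_⟩
    rw [pow_one]
    exact le_sup_of_le_left hNY.le
  | succ i hi ih =>
    obtain ⟨X, hX, hXN, hle⟩ := ih
    obtain ⟨F, hF, hmid⟩ := exists_mid hs hH hG hi
    have hI := isI_pow hs.isI (i + 2) (by omega)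
    refine ⟨{x | ∃ a ∈ X, ∃ z ∈ F, ∃ b ∈ Y, x = a * z * b}, ?_, ?_, ?_⟩
    · have : {x | ∃ a ∈ X, ∃ z ∈ F, ∃ b ∈ Y, x = a * z * b} ⊆
          (fun p : U × U × U => p.1 * p.2.1 * p.2.2) '' (X ×ˢ F ×ˢ Y) := by
        rintro x ⟨a, ha, z, hz, b, hb, rfl⟩
        exact ⟨(a, z, b), ⟨ha, hz, hb⟩, rfl⟩
      exact ((hX.prod (hF.prod hY)).image _).subset this
    · rintro x ⟨a, ha, z, hz, b, hb, rfl⟩
      rw [pow_succ]
      exact Submodule.mul_mem_mul ((isI_pow hs.isI i hi).r _ _ (hXN a ha)) (hYN b hb)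
    · set Z : Set U := {x | ∃ a ∈ X, ∃ z ∈ F, ∃ b ∈ Y, x = a * z * b} with hZ
      have hIZ : IsI (Idl Φ Z ⊔ N ^ (i + 1 + 1)) := isI_sup (isI_Idl _) hI
      rw [pow_succ N i]
      refine Submodule.mul_le.2 fun a ha b hb => ?_
      obtain ⟨p, hp, q, hq, rfl⟩ := Submodule.mem_sup.1 (hle ha)
      rw [add_mul]
      refine add_mem ?_ (Submodule.mem_sup_right ?_)
      · rw [hNY] at hb
        refine span_into_r b ?_ p hp
        rintro _ ⟨u, v, x, hx, rfl⟩
        refine span_into_l _ ?_ b hb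
        rintro _ ⟨u', v', y, hy, rfl⟩
        have h1 := hmid x (hXN x hx) y (hYN y hy) (v * u') trivial
        have h2 : SP Φ x y F ⊔ N ^ (i + 2) ≤ Idl Φ Z ⊔ N ^ (i + 1 + 1) := by
          refine sup_le ?_ le_sup_right
          refine SP_le hIZ fun z hz => Submodule.mem_sup_left (subset_Idl ?_)
          exact ⟨x, hx, z, hz, y, hy, rfl⟩
        have h3 := hIZ.r v' _ (hIZ.l u _ (h2 h1))
        convert h3 using 1
        noncomm_ring
      · rw [pow_succ]
        exact Submodule.mul_mem_mul hq hb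

end Pool.Agent.V8H74.LR
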