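import Pool.Agent.V8H74.LR.Words
import Pool.Agent.H854R3.CR.Stmts

/-!
Linearization of identities.
-/

set_option autoImplicit false

namespace Pool.Agent.V8H74.LR

open Pool.Agent.H854R3.CR

variable {U : Type} [Ring U]

/-- the sums of the variables outside `T` -/
def xs {n : ℕ} (l : Fin n → ℕ) (z : Fin n → U) (T : Finset (Fin n)) (j : ℕ) : U :=
  ∑ i ∈ Tᶜ, if l i = j then z i else 0

theorem word_expand {n k : ℕ} (l : Fin n → ℕ) (z : Fin n → U) (T : Finset (Fin n))
    (w : Fin k → ℕ) : (List.ofFn fun i => xs l z T (w i)).prod =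
    ∑ r ∈ Fintype.piFinset (fun _ : Fin k => Tᶜ),
      (List.ofFn fun i => if l (r i) = w i then z (r i) else 0).prod := by
  have h := (MultilinearMap.mkPiAlgebraFin ℤ k U).map_sum_finset
    (fun i j => if l j = w i then z j else 0) (fun _ => Tᶜ)
  rw [MultilinearMap.mkPiAlgebraFin_apply] at h
  simp only [MultilinearMap.mkPiAlgebraFin_apply] at h
  exact h

theorem sign_sum {n k : ℕ} (Z : (Fin k → Fin n) → U) :
    ∑ T : Finset (Fin n), (-1 : ℤ) ^ T.card • ∑ r ∈ Fintype.piFinset (fun _ : Fin k => Tᶜ), Z r =
    ∑ r : Fin k → Fin n, if Function.Surjective r then Z r else 0 := by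
  classical
  have h1 : ∀ T : Finset (Fin n), (-1 : ℤ) ^ T.card •
      ∑ r ∈ Fintype.piFinset (fun _ : Fin k => Tᶜ), Z r =
      ∑ r : Fin k → Fin n, (if T ∈ ((Finset.univ.image r)ᶜ).powerset then (-1 : ℤ) ^ T.card
        else 0) • Z r := by
    intro T
    rw [Finset.smul_sum, ← Finset.sum_filter_add_sum_filter_not Finset.univ
      (fun r : Fin k → Fin n => r ∈ Fintype.piFinset (fun _ : Fin k => Tᶜ))]
    rw [Finset.filter_mem_eq_inter, Finset.univ_inter]
    rw [Finset.sum_eq_zero (s := Finset.univ.filter _), add_zero]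
    · refine Finset.sum_congr rfl fun r hr => ?_
      rw [if_pos]
      rw [Finset.mem_powerset]
      intro t ht
      rw [Finset.mem_compl]
      intro hcon
      obtain ⟨i, _, rfl⟩ := Finset.mem_image.1 hcon
      have := Fintype.mem_piFinset.1 hr i
      rw [Finset.mem_compl] at this
      exact this ht
    · intro r hr
      rw [Finset.mem_filter] at hr
      rw [if_neg, zero_smul]
      intro hcon
      apply hr.2
      rw [Fintype.mem_piFinset]
      intro i
      rw [Finset.mem_compl]
      intro hi
      have := Finset.mem_powerset.1 hcon hi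
      rw [Finset.mem_compl] at this
      exact this (Finset.mem_image_of_mem _ (Finset.mem_univ _))
  rw [Finset.sum_congr rfl fun T _ => h1 T, Finset.sum_comm]
  refine Finset.sum_congr rfl fun r _ => ?_
  rw [← Finset.sum_smul]
  have h2 : ∑ T : Finset (Fin n), (if T ∈ ((Finset.univ.image r)ᶜ).powerset then
      (-1 : ℤ) ^ T.card else 0) = if Function.Surjective r then 1 else 0 := by
    rw [← Finset.sum_filter, Finset.filter_mem_eq_inter, Finset.univ_inter,
      Finset.sum_powerset_neg_one_pow_card]
    by_cases h : Function.Surjective r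
    · rw [if_pos h, if_pos]
      rw [Finset.image_univ_of_surjective h, Finset.compl_univ]
    · rw [if_neg h, if_neg]
      intro hcon
      apply h
      intro i
      have h3 : Finset.univ.image r = Finset.univ := by
        rwa [Finset.compl_eq_empty_iff] at hcon
      have h4 : i ∈ Finset.univ.image r := by rw [h3]; exact Finset.mem_univ _
      obtain ⟨j, _, hj⟩ := Finset.mem_image.1 h4
      exact ⟨j, hj⟩
  rw [h2]
  split_ifs
  · rw [one_smul]
  · rw [zero_smul]

theorem sum_perm {n : ℕ} (Z : (Fin n → Fin n) → U) :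
    (∑ r : Fin n → Fin n, if Function.Surjective r then Z r else 0) =
      ∑ π : Equiv.Perm (Fin n), Z π := by
  classical
  rw [← Finset.sum_filter]
  symm
  refine Finset.sum_bij (fun π _ => (π : Fin n → Fin n)) ?_ ?_ ?_ ?_
  · intro π _
    exact Finset.mem_filter.2 ⟨Finset.mem_univ _, π.surjective⟩
  · intro π _ σ _ h
    exact DFunLike.coe_injective h
  · intro r hr
    have h := (Finset.mem_filter.1 hr).2
    have h2 : Function.Bijective r := ⟨Finite.injective_iff_surjective.2 h, h⟩
    exact ⟨Equiv.ofBijective r h2, Finset.mem_univ _, rfl⟩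
  · intro π _
    rfl

theorem word_lin {n : ℕ} (l : Fin n → ℕ) (z : Fin n → U) (w : List ℕ) (hw : w.length ≤ n) :
    ∑ T : Finset (Fin n), (-1 : ℤ) ^ T.card • (w.map (xs l z T)).prod =
      ∑ π : Equiv.Perm (Fin n), if (List.ofFn fun k => l (π k)) = w then
        (List.ofFn fun k => z (π k)).prod else 0 := by
  classical
  have h1 : ∀ T : Finset (Fin n), (w.map (xs l z T)).prod =
      ∑ r ∈ Fintype.piFinset (fun _ : Fin w.length => Tᶜ),
        (List.ofFn fun i => if l (r i) = w.get i then z (r i) else 0).prod := by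
    intro T
    rw [← word_expand l z T (fun i => w.get i)]
    congr 1
    conv_lhs => rw [← List.ofFn_get w]
    rw [List.map_ofFn]
    rfl
  rw [Finset.sum_congr rfl fun T _ => by rw [h1 T], sign_sum]
  rcases hw.lt_or_eq with hlt | heq
  · rw [Finset.sum_eq_zero, Finset.sum_eq_zero]
    · intro π _
      rw [if_neg]
      intro h
      rw [← h, List.length_ofFn] at hlt
      omega
    · intro r _
      rw [if_neg]
      intro h
      have := Fintype.card_le_of_surjective r h
      rw [Fintype.card_fin, Fintype.card_fin] at this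
      omega
  · subst heq
    rw [sum_perm (fun r => (List.ofFn fun i => if l (r i) = w.get i then z (r i) else 0).prod)]
    refine Finset.sum_congr rfl fun π _ => ?_
    by_cases h : (List.ofFn fun k => l (π k)) = w
    · rw [if_pos h]
      congr 2
      funext i
      rw [if_pos]
      have h2 : ∀ (w' : List ℕ) (h : (List.ofFn fun k => l (π k)) = w') (i : ℕ) (hi : i < w.length)
        (hi' : i < w'.length), l (π ⟨i, hi⟩) = w'[i] := by
        intro w' h i hi hi'
        subst h
        rw [List.getElem_ofFn]
      exact h2 w h i i.2 i.2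
    · rw [if_neg h]
      have h3 : ∃ i : Fin w.length, l (π i) ≠ w.get i := by
        by_contra hcon
        push Not at hcon
        apply h
        rw [show (fun k => l (π k)) = fun k => w.get k from funext hcon]
        exact List.ofFn_get w
      obtain ⟨i, hi⟩ := h3
      apply List.prod_eq_zero
      rw [List.mem_ofFn]
      exact ⟨i, if_neg hi⟩

theorem xs_mem {A : Submodule ℤ U} {n : ℕ} (l : Fin n → ℕ) (z : Fin n → U)
    (hz : ∀ i, z i ∈ A) (T : Finset (Fin n)) (j : ℕ) : xs l z T j ∈ A := by
  refine sum_mem fun i _ => ?_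
  split_ifs
  · exact hz i
  · exact zero_mem _

/-- **Linearization**: the multilinear identity obtained from an identity of degree `n`. -/
theorem lin {A : Submodule ℤ U} {n : ℕ} (l : Fin n → ℕ) {f : List ℕ →₀ ℤ}
    (hf : ∀ w, n < w.length → f w = 0) (hV : Van (A : Set U) f) :
    MId (A : Set U) n (fun π => f (List.ofFn fun k => l (π k))) := by
  classical
  intro z hz
  have h1 : ∑ T : Finset (Fin n), (-1 : ℤ) ^ T.card • ev (xs l z T) f = 0 :=
    Finset.sum_eq_zero fun T _ => by rw [hV _ (xs_mem l z hz T), smul_zero]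
  have h2 : ∑ T : Finset (Fin n), (-1 : ℤ) ^ T.card • ev (xs l z T) f =
      ∑ w ∈ f.support, f w • ∑ T : Finset (Fin n), (-1 : ℤ) ^ T.card •
        (w.map (xs l z T)).prod := by
    simp only [ev, Finsupp.sum, Finset.smul_sum]
    rw [Finset.sum_comm]
    refine Finset.sum_congr rfl fun w _ => Finset.sum_congr rfl fun T _ => ?_
    rw [smul_comm]
  rw [h2] at h1
  rw [← h1]
  have h3 : ∀ w ∈ f.support, f w • ∑ T : Finset (Fin n), (-1 : ℤ) ^ T.card •
        (w.map (xs l z T)).prod = ∑ π : Equiv.Perm (Fin n),
          if (List.ofFn fun k => l (π k)) = w then f w • (List.ofFn fun k => z (π k)).prod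
            else 0 := by
    intro w hw
    rw [word_lin l z w, Finset.smul_sum]
    · refine Finset.sum_congr rfl fun π _ => ?_
      split_ifs
      · rfl
      · rw [smul_zero]
    · by_contra hcon
      push Not at hcon
      exact Finsupp.mem_support_iff.1 hw (hf w hcon)
  rw [Finset.sum_congr rfl h3, Finset.sum_comm]
  refine Finset.sum_congr rfl fun π _ => ?_
  rw [Finset.sum_ite_eq]
  split_ifs with h
  · rfl
  · simp only [Finsupp.notMem_support_iff.1 h, zero_smul]

end Pool.Agent.V8H74.LR
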