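import Pool.Agent.V8H74.LR.Layer
import Pool.Agent.H265R3.CRPow
import Pool.Agent.H214R3.CR.Nil
import Pool.Agent.H854R3.CR.Glue

/-!
Nil ideals satisfying a polynomial identity are locally nilpotent.
-/

set_option autoImplicit false

namespace Pool.Agent.V8H74.LR

open Pool.Agent.H854R3.CR Pool.Agent.H265R3.CRPow

variable {Φ : Type} [CommRing Φ] {U : Type} [Ring U] [Algebra Φ U]

theorem Jt_prod {A : Type} [Ring A] {K : Ideal A} :
    ∀ (t : ℕ) (L : List A), L.length = t → (∀ x ∈ L, x ∈ K) → L.prod ∈ Jt K t := by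
  intro t
  induction t with
  | zero => intro L _ _; exact Submodule.mem_top
  | succ t ih =>
    intro L hL hK
    cases L with
    | nil => simp at hL
    | cons x L =>
      rw [List.prod_cons]
      exact mul_mem_pr (hK x List.mem_cons_self)
        (ih L (by simpa using hL) (fun y hy => hK y (List.mem_cons_of_mem _ hy)))

theorem loc_nil {J : Submodule Φ U} (hJ : IsI J) (hnil : ∀ x ∈ J, ∃ k : ℕ, x ^ k = 0)
    (hPI : PIOn (J : Set U)) {Ω : Set U} (hΩ : Ω.Finite) (hΩJ : ∀ x ∈ Ω, x ∈ J) :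
    ∃ K0 : ℕ, ∀ L : List U, L.length = K0 → (∀ x ∈ L, x ∈ Ω) → L.prod = 0 := by
  classical
  let A : Subring U := Subring.closure Ω
  let S : Set A := {x | (x : U) ∈ Ω}
  have hSf : S.Finite := hΩ.preimage Subtype.val_injective.injOn
  let K : Ideal A :=
    { carrier := {x | (x : U) ∈ J}
      add_mem' := fun {a b} ha hb => J.add_mem ha hb
      zero_mem' := J.zero_mem
      smul_mem' := fun c x hx => hJ.l _ _ hx }
  have hK : ∀ x : A, x ∈ K ↔ (x : U) ∈ J := fun x => Iff.rfl
  have hKr : ∀ x ∈ K, ∀ y : A, x * y ∈ K := fun x hx y => hJ.r _ _ hx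
  have hGen : Gen S := by
    intro T h1 hT
    have key : ∀ a (ha : a ∈ Subring.closure Ω), ∀ y ∈ T, (⟨a, ha⟩ : A) * y ∈ T := by
      intro a ha
      induction ha using Subring.closure_induction with
      | mem x hx => intro y hy; exact hT ⟨x, _⟩ hx y hy
      | zero =>
        intro y _
        have : (⟨0, zero_mem _⟩ : A) * y = 0 := zero_mul y
        rw [this]; exact T.zero_mem
      | one =>
        intro y hy
        have : (⟨1, one_mem _⟩ : A) * y = y := one_mul y
        rw [this]; exact hy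
      | add x z hx' hz' hx hz =>
        intro y hy
        have : (⟨x + z, add_mem hx' hz'⟩ : A) * y = ⟨x, hx'⟩ * y + ⟨z, hz'⟩ * y :=
          add_mul (⟨x, hx'⟩ : A) ⟨z, hz'⟩ y
        rw [this]; exact T.add_mem (hx y hy) (hz y hy)
      | neg x hx' hx =>
        intro y hy
        have : (⟨-x, neg_mem hx'⟩ : A) * y = -(⟨x, hx'⟩ * y) := neg_mul (⟨x, hx'⟩ : A) y
        rw [this]; exact T.neg_mem (hx y hy)
      | mul x z hx' hz' hx hz =>
        intro y hy
        have : (⟨x * z, mul_mem hx' hz'⟩ : A) * y = ⟨x, hx'⟩ * (⟨z, hz'⟩ * y) :=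
          mul_assoc (⟨x, hx'⟩ : A) ⟨z, hz'⟩ y
        rw [this]; exact hx _ (hz y hy)
    rw [eq_top_iff]
    rintro ⟨a, ha⟩ -
    have h2 := key a ha 1 h1
    rwa [mul_one] at h2
  have hCof : Cof K := by
    refine ⟨{1}, Set.finite_singleton 1, ?_⟩
    rintro ⟨a, ha⟩
    induction ha using Subring.closure_induction with
    | mem x hx =>
      refine ⟨0, zero_mem _, ?_⟩
      rw [sub_zero]
      exact hΩJ x hx
    | zero => exact ⟨0, zero_mem _, by rw [sub_zero]; exact K.zero_mem⟩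
    | one => exact ⟨1, Submodule.mem_span_singleton_self 1, by
        have : (⟨1, one_mem _⟩ : A) - 1 = 0 := sub_self _
        rw [this]; exact K.zero_mem⟩
    | add x z hx' hz' hx hz =>
      obtain ⟨m, hm, h1⟩ := hx
      obtain ⟨m', hm', h2⟩ := hz
      refine ⟨m + m', add_mem hm hm', ?_⟩
      have : (⟨x + z, add_mem hx' hz'⟩ : A) - (m + m') = (⟨x, hx'⟩ - m) + (⟨z, hz'⟩ - m') :=
        add_sub_add_comm (⟨x, hx'⟩ : A) ⟨z, hz'⟩ m m'
      rw [this]
      exact K.add_mem h1 h2
    | neg x hx' hx =>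
      obtain ⟨m, hm, h1⟩ := hx
      refine ⟨-m, neg_mem hm, ?_⟩
      have : (⟨-x, neg_mem hx'⟩ : A) - -m = -(⟨x, hx'⟩ - m) := by
        have h3 : (⟨-x, neg_mem hx'⟩ : A) = - ⟨x, hx'⟩ := rfl
        rw [h3]; abel
      rw [this]
      exact K.neg_mem h1
    | mul x z hx' hz' hx hz =>
      obtain ⟨m, hm, h1⟩ := hx
      obtain ⟨m', hm', h2⟩ := hz
      obtain ⟨c, rfl⟩ := Submodule.mem_span_singleton.1 hm
      obtain ⟨c', rfl⟩ := Submodule.mem_span_singleton.1 hm'
      refine ⟨(c * c') • 1, Submodule.smul_mem _ _ (Submodule.mem_span_singleton_self 1), ?_⟩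
      have : (⟨x * z, mul_mem hx' hz'⟩ : A) - (c * c') • 1 =
          (⟨x, hx'⟩ - c • 1) * ⟨z, hz'⟩ + (c • (1 : A)) * (⟨z, hz'⟩ - c' • 1) := by
        have h3 : (⟨x * z, mul_mem hx' hz'⟩ : A) = ⟨x, hx'⟩ * ⟨z, hz'⟩ := rfl
        rw [h3, sub_mul, mul_sub, smul_mul_smul_comm, mul_one]
        abel
      rw [this]
      exact K.add_mem (hKr _ h1 _) (K.mul_mem_left _ h2)
  by_cases hne : ∀ t, Jt K t ≠ ⊥
  · exfalso
    obtain ⟨P, hP, hprime⟩ := exists_prime hSf hGen hCof hne
    let φ : A →+* P.ringCon.Quotient := P.ringCon.mk'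
    have hφs : Function.Surjective φ := by
      intro x
      obtain ⟨y, rfl⟩ := Quotient.exists_rep x
      exact ⟨y, rfl⟩
    have hφ0 : ∀ x, φ x = 0 ↔ x ∈ P := by
      intro x
      rw [TwoSidedIdeal.mem_iff]
      exact RingCon.eq P.ringCon
    let N : TwoSidedIdeal P.ringCon.Quotient := TwoSidedIdeal.mk' {y | ∃ r ∈ K, φ r = y}
      ⟨0, K.zero_mem, by rw [map_zero]⟩
      (by
        rintro _ _ ⟨r, hr, rfl⟩ ⟨s, hs, rfl⟩
        exact ⟨r + s, K.add_mem hr hs, by rw [map_add]⟩)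
      (by
        rintro _ ⟨r, hr, rfl⟩
        exact ⟨-r, K.neg_mem hr, by rw [map_neg]⟩)
      (by
        rintro x _ ⟨r, hr, rfl⟩
        obtain ⟨a, rfl⟩ := hφs x
        exact ⟨a * r, K.mul_mem_left _ hr, by rw [map_mul]⟩)
      (by
        rintro _ x ⟨r, hr, rfl⟩
        obtain ⟨a, rfl⟩ := hφs x
        exact ⟨r * a, hKr _ hr _, by rw [map_mul]⟩)
    have hN : ∀ x, x ∈ N ↔ ∃ r ∈ K, φ r = x := fun x => TwoSidedIdeal.mem_mk' _ _ _ _ _ _ x
    have hPIK : PIOn (K : Set A) := by
      obtain ⟨m, nn, π0, h0, hid⟩ := hPI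
      refine ⟨m, nn, π0, h0, fun a ha => ?_⟩
      apply Subtype.val_injective
      have h1 := hid (fun i => (a i : U)) (fun i => ha i)
      have h2 := map_sp A.subtype nn a
      have h3 : (A.subtype (∑ π, nn π • (List.ofFn fun k => a (π k)).prod)) = 0 := h2.trans h1
      exact h3
    have hbot := Pool.Agent.H214R3.CR.taskNil P.ringCon.Quotient (by
        intro a b hab
        obtain ⟨a, rfl⟩ := hφs a
        obtain ⟨b, rfl⟩ := hφs b
        rw [hφ0, hφ0]
        apply hprime
        intro r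
        rw [← hφ0, map_mul, map_mul]
        exact hab (φ r)) N
      (by
        intro x hx
        obtain ⟨r, hr, rfl⟩ := (hN x).1 hx
        obtain ⟨k, hk⟩ := hnil r hr
        refine ⟨k, ?_⟩
        have h1 : r ^ k = 0 := Subtype.ext hk
        rw [← map_pow, h1, map_zero])
      (hPIK.map φ (fun x hx => (hN x).1 hx))
    apply hP 1
    intro x hx
    have h1 := pr_le_closure (K := K) (J := ⊤) hx
    have h2 : ∀ k ∈ K, k ∈ P := by
      intro r hr
      rw [← hφ0]
      have h3 : φ r ∈ N := (hN _).2 ⟨r, hr, rfl⟩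
      rw [hbot] at h3
      exact (TwoSidedIdeal.mem_bot _).1 h3
    clear hx
    induction h1 using AddSubgroup.closure_induction with
    | mem z hz =>
      obtain ⟨k, hk, j, _, rfl⟩ := hz
      exact P.mul_mem_right _ _ (h2 k hk)
    | zero => exact P.zero_mem
    | add x y _ _ hx hy => exact P.add_mem hx hy
    | neg x _ hx => exact P.neg_mem hx
  · push Not at hne
    obtain ⟨t, ht⟩ := hne
    refine ⟨t, fun L hL hLΩ => ?_⟩
    have hLA : ∀ x ∈ L, x ∈ Subring.closure Ω := fun x hx => Subring.subset_closure (hLΩ x hx)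
    let L' : List A := L.pmap (fun x hx => ⟨x, hx⟩) hLA
    have h1 : L'.map Subtype.val = L := by
      simp only [L', List.map_pmap]
      rw [List.pmap_eq_map, List.map_id']
    have h2 := Jt_prod (K := K) t L' (by simp only [L', List.length_pmap, hL]) (by
      intro x hx
      have h3 : (x : U) ∈ L := by
        rw [← h1]
        exact List.mem_map_of_mem hx
      exact hΩJ _ (hLΩ _ h3))
    rw [ht, Submodule.mem_bot] at h2
    have h4 : L.prod = A.subtype L'.prod := by
      rw [map_list_prod]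
      congr 1
      exact h1.symm
    rw [h4, h2, map_zero]

end Pool.Agent.V8H74.LR
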