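import Pool.Agent.V8H74.LR.PI

/-!
Multilinear identities over the integers for algebras over finite fields.
-/

set_option autoImplicit false

namespace Pool.Agent.V8H74.LR

open Pool.Agent.H854R3.CR

variable {F : Type} [Field F] {U : Type} [Ring U] [Algebra F U]

/-- the polynomial with coefficients replaced by their images -/
noncomputable def tw (σ : F →+* F) (f : List ℕ →₀ F) : List ℕ →₀ F :=
  f.mapRange σ (map_zero σ)

/-- the product of the conjugates -/
noncomputable def cp (σ : ℕ → F →+* F) (f : List ℕ →₀ F) : ℕ → (List ℕ →₀ F)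
  | 0 => Finsupp.single [] 1
  | n + 1 => fmul (cp σ f n) (tw (σ n) f)

theorem tw_add (σ : F →+* F) (f g : List ℕ →₀ F) : tw σ (f + g) = tw σ f + tw σ g := by
  ext w
  simp [tw]

theorem tw_single (σ : F →+* F) (w : List ℕ) (c : F) :
    tw σ (Finsupp.single w c) = Finsupp.single w (σ c) := by
  simp [tw]

theorem tw_sum {ι : Type} (σ : F →+* F) (s : Finset ι) (f : ι → List ℕ →₀ F) :
    tw σ (∑ i ∈ s, f i) = ∑ i ∈ s, tw σ (f i) := by
  ext w
  simp [tw, Finsupp.finsetSum_apply]

theorem tw_support (σ : F →+* F) (f : List ℕ →₀ F) : (tw σ f).support = f.support := by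
  ext w
  simp [tw]

theorem tw_fmul (σ : F →+* F) (f g : List ℕ →₀ F) :
    tw σ (fmul f g) = fmul (tw σ f) (tw σ g) := by
  simp only [fmul, Finsupp.sum, tw_sum, tw_single, tw_support]
  refine Finset.sum_congr rfl fun u _ => Finset.sum_congr rfl fun v _ => ?_
  simp [tw]

theorem tw_cp (τ : F →+* F) (σ : ℕ → F →+* F) (f : List ℕ →₀ F) (n : ℕ) :
    tw τ (cp σ f n) = cp (fun i => τ.comp (σ i)) f n := by
  induction n with
  | zero => simp only [cp, tw_single, map_one]
  | succ n ih =>
    simp only [cp, tw_fmul, ih]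
    congr 1
    ext w
    simp [tw]

theorem cp_zero {x : ℕ → U} {σ : ℕ → F →+* F} {f : List ℕ →₀ F} {i : ℕ}
    (h : ev x (tw (σ i) f) = 0) : ∀ n, i < n → ev x (cp σ f n) = 0 := by
  intro n
  induction n with
  | zero => intro h; omega
  | succ n ih =>
    intro hi
    simp only [cp]
    rw [ev_fmul]
    by_cases h2 : i < n
    · rw [ih h2, zero_mul]
    · have : i = n := by omega
      subst this
      rw [h, mul_zero]

theorem cp_lead {σ : ℕ → F →+* F} {f : List ℕ →₀ F} {w : List ℕ} (hw : f w ≠ 0)
    (hd : Deg f w.length) (n : ℕ) : ∃ v, cp σ f n v ≠ 0 ∧ Deg (cp σ f n) v.length := by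
  induction n with
  | zero =>
    refine ⟨[], ?_, Deg.single _ _⟩
    simp [cp]
  | succ n ih =>
    obtain ⟨v, hv, hvd⟩ := ih
    have hd2 : Deg (tw (σ n) f) w.length := by
      intro u hu
      simp [tw, hd u hu]
    refine ⟨v ++ w, ?_, ?_⟩
    · simp only [cp]
      rw [fmul_lead hvd hd2 rfl rfl]
      refine mul_ne_zero hv ?_
      simpa [tw] using hw
    · rw [List.length_append]
      exact hvd.fmul hd2

/-- **A nonzero identity over a finite field gives a multilinear identity with integer
coefficients, one of them being `1`.** -/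
theorem pi_of_field [Finite F] {A : Submodule F U} {f : List ℕ →₀ F} (hf : Van (A : Set U) f)
    (hf0 : f ≠ 0) : PIOn (A : Set U) := by
  classical
  obtain ⟨w, hw, hd⟩ := exists_top hf0
  obtain ⟨p, hp⟩ := CharP.exists F
  have hpp : p.Prime := CharP.char_is_prime F p
  have : Fact p.Prime := ⟨hpp⟩
  let _ : Algebra (ZMod p) F := ZMod.algebra F p
  have := Fintype.ofFinite F
  let k := Module.finrank (ZMod p) F
  have hk : 0 < k := Module.finrank_pos
  have hcard : Fintype.card F = p ^ k := by
    have h := Module.card_eq_pow_finrank (K := ZMod p) (V := F)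
    rwa [ZMod.card] at h
  let σ : ℕ → F →+* F := fun i => (frobenius F p) ^ i
  have hσ : ∀ i x, σ i x = x ^ (p ^ i) := by
    intro i x
    change ((frobenius F p) ^ i) x = _
    rw [RingHom.coe_pow, iterate_frobenius]
  have hσk : ∀ x, σ k x = x := by
    intro x
    rw [hσ, ← hcard, FiniteField.pow_card]
  obtain ⟨v, hv, hvd⟩ := cp_lead (σ := σ) hw hd k
  set g := cp σ f k with hg
  obtain ⟨b, hb⟩ := Algebra.trace_surjective (ZMod p) F 1
  let c := b * (g v)⁻¹
  have hc : Algebra.trace (ZMod p) F (c * g v) = 1 := by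
    rw [mul_assoc, inv_mul_cancel₀ hv, mul_one, hb]
  let t : F → ℤ := fun a => ((Algebra.trace (ZMod p) F (c * a)).val : ℤ)
  have ht0 : t 0 = 0 := by simp [t]
  have hpi : PIOn ((A.restrictScalars ℤ : Submodule ℤ U) : Set U) := by
    apply pi_of_lead
    refine ⟨g.mapRange t ht0, v, ?_, ?_, ?_⟩
    · intro x hx
      have hx' : ∀ i, x i ∈ (A : Set U) := hx
      -- the conjugates are identities
      have h1 : ∀ j < k, ev x (tw (σ j) g) = 0 := by
        intro j hj
        rw [hg, tw_cp]
        by_cases hj0 : j = 0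
        · subst hj0
          refine cp_zero (i := 0) ?_ k hk
          have h2 : tw ((σ 0).comp (σ 0)) f = f := by
            ext w
            simp [tw, σ]
          rw [h2]
          exact hf x hx'
        · refine cp_zero (i := k - j) ?_ k (by omega)
          have h2 : tw ((σ j).comp (σ (k - j))) f = f := by
            ext w
            simp only [tw, Finsupp.mapRange_apply, RingHom.comp_apply]
            rw [hσ, hσ, ← pow_mul, ← pow_add, Nat.sub_add_cancel (by omega), ← hσ, hσk]
          rw [h2]
          exact hf x hx'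
      have h3 : ∑ j ∈ Finset.range k, σ j c • ev x (tw (σ j) g) = 0 :=
        Finset.sum_eq_zero fun j hj => by rw [h1 j (Finset.mem_range.1 hj), smul_zero]
      rw [← h3]
      simp only [ev]
      rw [Finsupp.sum_mapRange_index (h := fun (w : List ℕ) (c : ℤ) => c • (w.map x).prod)
        (fun _ => zero_smul _ _)]
      simp only [tw]
      have h4 : ∀ j, (g.mapRange (σ j) (map_zero (σ j))).sum
          (fun w c => c • (w.map x).prod) = g.sum fun w a => (σ j a) • (w.map x).prod :=
        fun j => Finsupp.sum_mapRange_index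
          (h := fun (w : List ℕ) (c : F) => c • (w.map x).prod) (fun _ => zero_smul _ _)
      rw [Finset.sum_congr rfl fun j _ => by rw [h4 j]]
      simp only [Finsupp.sum, Finset.smul_sum]
      rw [Finset.sum_comm]
      refine Finset.sum_congr rfl fun w _ => ?_
      simp only [smul_smul]
      rw [← Finset.sum_smul, ← Int.cast_smul_eq_zsmul F]
      congr 1
      simp only [t, Int.cast_natCast]
      have h5 : (((Algebra.trace (ZMod p) F (c * g w)).val : ℕ) : F) =
          algebraMap (ZMod p) F (Algebra.trace (ZMod p) F (c * g w)) := by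
        conv_rhs => rw [← ZMod.natCast_zmod_val (Algebra.trace (ZMod p) F (c * g w))]
        rw [map_natCast]
      rw [h5, FiniteField.algebraMap_trace_eq_sum_pow, Nat.card_zmod]
      refine Finset.sum_congr rfl fun j _ => ?_
      rw [← map_mul, hσ]
    · rw [Finsupp.mapRange_apply]
      simp only [t, hc]
      rw [ZMod.val_one]
      rfl
    · intro u hu
      rw [Finsupp.mapRange_apply, hvd u hu, ht0]
  exact hpi

end Pool.Agent.V8H74.LR
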