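import Pool.Agent.V8H74.LR.RG

/-!
The coefficient conditions are necessary for an identity to hold in the rings with
`x (y z - z y) u = 0`.
-/

set_option autoImplicit false

namespace Pool.Agent.V8H74.LR

open MvPolynomial

variable (K : Type) [Field K]

/-- the ring of quadruples of polynomials in countably many variables -/
abbrev RM : Type := RG (K := K) (P := MvPolynomial ℕ K) (C := MvPolynomial ℕ K) LinearMap.id

variable {K}

/-- the last component as a linear map -/
def cH : RM K →ₗ[K] MvPolynomial ℕ K where
  toFun x := x.c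
  map_add' _ _ := rfl
  map_smul' _ _ := rfl

theorem val_c (x : ℕ → RM K) (f : FreeSemigroup ℕ →₀ K) :
    (val x f).c = f.sum fun w a => a • (FreeSemigroup.lift x w).c := by
  have h : (val x f).c = cH (val x f) := rfl
  rw [h, val, Finsupp.sum, map_sum, Finsupp.sum]
  refine Finset.sum_congr rfl fun w _ => ?_
  rw [map_smul]
  rfl

theorem sem1 {f : FreeSemigroup ℕ →₀ K} (hf : ∀ x : ℕ → RM K, val x f = 0) (i : ℕ) :
    f (FreeSemigroup.of i) = 0 := by
  classical
  let x : ℕ → RM K := fun l => ⟨0, 0, 0, if l = i then 1 else 0⟩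
  have h1 := congrArg RG.c (hf x)
  rw [val_c, RG.zero_c] at h1
  have h2 : ∀ w : FreeSemigroup ℕ, (FreeSemigroup.lift x w).c =
      if w = FreeSemigroup.of i then 1 else 0 := by
    rintro ⟨a, t⟩
    rcases List.eq_nil_or_concat t with rfl | ⟨m, j, rfl⟩
    · change (if a = i then (1 : MvPolynomial ℕ K) else 0) = _
      by_cases h : a = i
      · subst h
        rw [if_pos rfl]
        exact (if_pos rfl).symm
      · rw [if_neg h, if_neg]
        intro h3
        apply h
        exact congrArg FreeSemigroup.head h3
    · rw [List.concat_eq_append, lift_snoc, RG.mul_c, if_neg]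
      · change (_ * (0 : MvPolynomial ℕ K)) = 0
        rw [mul_zero]
      · intro h3
        have h4 := congrArg FreeSemigroup.tail h3
        simp [FreeSemigroup.of] at h4
  rw [Finsupp.sum, Finset.sum_congr rfl fun w _ => by rw [h2 w]] at h1
  by_cases h3 : FreeSemigroup.of i ∈ f.support
  · rw [Finset.sum_eq_single (FreeSemigroup.of i)] at h1
    · rw [if_pos rfl] at h1
      have h4 := congrArg (MvPolynomial.coeff 0) h1
      rw [MvPolynomial.coeff_smul, MvPolynomial.coeff_zero] at h4
      simpa using h4
    · intro w _ hw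
      rw [if_neg hw, smul_zero]
    · intro h4
      exact absurd h3 h4
  · exact Finsupp.notMem_support_iff.1 h3

theorem fo_q (x : ℕ → RM K) (hx : ∀ l, (x l).p = X l) (m : List ℕ) :
    ∀ s : RM K, (fo x s m).q = s.q * monomial (Multiset.toFinsupp (m : Multiset ℕ)) 1 := by
  induction m with
  | nil =>
    intro s
    rw [Multiset.coe_nil, map_zero]
    change s.q = s.q * 1
    rw [mul_one]
  | cons l m ih =>
    intro s
    rw [fo_cons, ih, RG.mul_q, hx, mul_assoc]
    congr 1
    rw [MvPolynomial.X, monomial_mul, one_mul, ← Multiset.cons_coe, ← Multiset.singleton_add,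
      map_add, Multiset.toFinsupp_singleton]

theorem sem2 {f : FreeSemigroup ℕ →₀ K} (hf : ∀ x : ℕ → RM K, val x f = 0) (i j : ℕ)
    (μ : Multiset ℕ) : grp f i j μ = 0 := by
  classical
  let x : ℕ → RM K := fun l => ⟨X l, if l = i then 1 else 0, if l = j then 1 else 0, 0⟩
  have h1 := congrArg RG.c (hf x)
  rw [val_c, RG.zero_c] at h1
  have h5 := congrArg (MvPolynomial.coeff (Multiset.toFinsupp μ)) h1
  rw [Finsupp.sum, MvPolynomial.coeff_sum, MvPolynomial.coeff_zero] at h5
  rw [grp, Finsupp.sum]
  refine Eq.trans (Finset.sum_congr rfl fun w _ => ?_) h5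
  rw [MvPolynomial.coeff_smul]
  obtain ⟨a, t⟩ := w
  rcases List.eq_nil_or_concat t with rfl | ⟨m, b, rfl⟩
  · rw [if_neg]
    · change 0 = f ⟨a, []⟩ • MvPolynomial.coeff _ (0 : MvPolynomial ℕ K)
      rw [MvPolynomial.coeff_zero, smul_zero]
    · rintro ⟨_, m, hm, _⟩
      simp at hm
  · rw [List.concat_eq_append, lift_snoc, RG.mul_c, fo_q x (fun _ => rfl)]
    change _ = f _ • MvPolynomial.coeff _ ((if a = i then (1 : MvPolynomial ℕ K) else 0) *
      monomial _ 1 * (if b = j then (1 : MvPolynomial ℕ K) else 0))
    by_cases ha : a = i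
    · by_cases hb : b = j
      · subst ha hb
        rw [if_pos (rfl : a = a), if_pos (rfl : b = b), one_mul, mul_one, coeff_monomial]
        by_cases hm : (m : Multiset ℕ) = μ
        · rw [if_pos, if_pos, smul_eq_mul, mul_one]
          · rw [hm]
          · exact ⟨rfl, m, rfl, hm⟩
        · rw [if_neg, if_neg, smul_zero]
          · intro h6
            exact hm (Multiset.toFinsupp.injective h6)
          · rintro ⟨_, m', h6, h7⟩
            rw [List.append_cancel_right h6] at hm
            exact hm h7
      · rw [if_neg hb, mul_zero, MvPolynomial.coeff_zero, smul_zero, if_neg]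
        rintro ⟨_, m', h6, _⟩
        have h8 := congrArg List.getLast? h6
        rw [List.getLast?_concat, List.getLast?_concat] at h8
        exact hb (Option.some.inj h8)
    · rw [if_neg ha, zero_mul, zero_mul, MvPolynomial.coeff_zero, smul_zero, if_neg]
      rintro ⟨h6, _⟩
      exact ha h6

end Pool.Agent.V8H74.LR
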