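import Pool.Agent.V8H74.LR.Conv
import Pool.Agent.V8H74.LR.PIF
import Pool.Agent.V8H74.LR.Sem

/-!
Locally residually finite varieties of rings and of algebras over finite fields.
-/

set_option autoImplicit false

namespace Pool.Agent.V8H74.LR

open Pool.Agent.H854R3.CR

section quot

variable {Φ : Type} [CommRing Φ] {R : Type} [NonUnitalRing R] [Module Φ R]
  [IsScalarTower Φ R R] [SMulCommClass Φ R R]

/-- the homomorphism onto the quotient by an ideal -/
theorem quot_exists (J : Submodule Φ R) (hJ : ∀ x ∈ J, ∀ s : R, s * x ∈ J ∧ x * s ∈ J)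
    (V : Type) [Finite V] (g : R → V) (hg : ∀ x y, g x = g y → x - y ∈ J) {r : R} (hr : r ∉ J) :
    ∃ (T : Type) (_ : NonUnitalRing T) (_ : Module Φ T) (_ : IsScalarTower Φ T T)
      (_ : SMulCommClass Φ T T) (φ : R →ₙₐ[Φ] T), Finite T ∧ Function.Surjective φ ∧ φ r ≠ 0 := by
  let J' : Submodule Φ (Unitization Φ R) :=
    { carrier := {u | u.fst = 0 ∧ u.snd ∈ J}
      add_mem' := by
        rintro a b ⟨ha, ha'⟩ ⟨hb, hb'⟩
        refine ⟨?_, ?_⟩
        · rw [Unitization.fst_add, ha, hb, add_zero]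
        · rw [Unitization.snd_add]
          exact add_mem ha' hb'
      zero_mem' := ⟨Unitization.fst_zero, by rw [Unitization.snd_zero]; exact zero_mem _⟩
      smul_mem' := by
        rintro c a ⟨ha, ha'⟩
        refine ⟨?_, ?_⟩
        · rw [Unitization.fst_smul, ha, smul_zero]
        · rw [Unitization.snd_smul]
          exact Submodule.smul_mem _ _ ha' }
  have hJ' : IsI J' := by
    constructor
    · rintro u x ⟨hx, hx'⟩
      refine ⟨?_, ?_⟩
      · rw [Unitization.fst_mul, hx, mul_zero]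
      · rw [Unitization.snd_mul, hx, zero_smul, add_zero]
        exact add_mem (Submodule.smul_mem _ _ hx') (hJ _ hx' _).1
    · rintro u x ⟨hx, hx'⟩
      refine ⟨?_, ?_⟩
      · rw [Unitization.fst_mul, hx, zero_mul]
      · rw [Unitization.snd_mul, hx, zero_smul, zero_add]
        exact add_mem (Submodule.smul_mem _ _ hx') (hJ _ hx' _).2
  obtain ⟨C, iC, iA, π, hπ, hker⟩ := exists_quot J' hJ'
  let φ0 : R →ₙₐ[Φ] C := (π : Unitization Φ R →ₙₐ[Φ] C).comp (Unitization.inrNonUnitalAlgHom Φ R)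
  have hφ0 : ∀ x : R, φ0 x = 0 ↔ x ∈ J := by
    intro x
    have h1 : φ0 x = π (x : Unitization Φ R) := rfl
    rw [h1, hker]
    constructor
    · intro h
      have := h.2
      rwa [Unitization.snd_inr] at this
    · intro h
      exact ⟨Unitization.fst_inr _ _, by rwa [Unitization.snd_inr]⟩
  let T : NonUnitalSubalgebra Φ C := NonUnitalAlgHom.range φ0
  refine ⟨T, inferInstance, inferInstance, inferInstance, inferInstance,
    NonUnitalAlgHom.codRestrict φ0 T (fun x => ⟨x, rfl⟩), ?_, ?_, ?_⟩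
  · have hs : ∀ t : T, ∃ x : R, φ0 x = t := fun t => t.2
    choose p hp using hs
    apply Finite.of_injective (fun t => g (p t))
    intro t t' h
    have h1 := (hφ0 _).2 (hg _ _ h)
    rw [map_sub, sub_eq_zero, hp, hp] at h1
    exact Subtype.ext h1
  · rintro ⟨_, x, rfl⟩
    exact ⟨x, rfl⟩
  · intro h
    apply hr
    rw [← hφ0]
    exact congrArg Subtype.val h

end quot

section ring

theorem maxZ {𝔪 : Ideal ℤ} (h : 𝔪.IsMaximal) : ∃ p : ℕ, p.Prime ∧ ∀ c : ℤ, c ∈ 𝔪 ↔ (p : ℤ) ∣ c := by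
  obtain ⟨g, hg⟩ := (IsPrincipalIdealRing.principal 𝔪).principal
  have hg' : 𝔪 = Ideal.span {g} := hg
  have h0 : g ≠ 0 := by
    rintro rfl
    apply Ring.ne_bot_of_isMaximal_of_not_isField h Int.not_isField
    rw [hg', Ideal.span_singleton_eq_bot]
  have h1 : (Ideal.span {g}).IsPrime := by
    rw [← hg']
    exact h.isPrime
  have h2 : Prime g := (Ideal.span_singleton_prime h0).1 h1
  refine ⟨g.natAbs, Int.prime_iff_natAbs_prime.1 h2, fun c => ?_⟩
  rw [hg', Ideal.mem_span_singleton, Int.natAbs_dvd]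

theorem finZ (m : ℕ) (hm : 0 < m) : Finite (ℤ ⧸ Ideal.span {(m : ℤ)}) := by
  have : NeZero m := ⟨by omega⟩
  exact Finite.of_equiv _ (Int.quotientSpanNatEquivZMod m).symm.toEquiv

/-- the condition on the coefficients at `p` -/
def CrP (S : Set (FreeSemigroup ℕ →₀ ℤ)) (p : ℕ) : Prop :=
  ∃ f ∈ S, (∃ i, ¬ (p : ℤ) ∣ f (FreeSemigroup.of i)) ∨ ∃ i j μ, ¬ (p : ℤ) ∣ grp f i j μ

theorem grp_dvd {f : FreeSemigroup ℕ →₀ ℤ} {p : ℤ} (h : ∀ w, p ∣ f w) (i j : ℕ)
    (μ : Multiset ℕ) : p ∣ grp f i j μ := by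
  classical
  rw [grp, Finsupp.sum]
  refine Finset.dvd_sum fun w _ => ?_
  split_ifs
  · exact h w
  · exact dvd_zero _

/-- **Sufficiency for rings.** -/
theorem ring_suff {S : Set (FreeSemigroup ℕ →₀ ℤ)} (hS : ∀ p : ℕ, p.Prime → CrP S p)
    (R : Type) [NonUnitalRing R] (hR : FGen R) (hRS : ∀ f ∈ S, ∀ x : ℕ → R, val x f = 0)
    {r : R} (hr : r ≠ 0) : ∃ (T : Type) (_ : NonUnitalRing T) (φ : R →ₙ+* T), Finite T ∧
      Function.Surjective φ ∧ φ r ≠ 0 := by
  have hPI : PIOn (Ri ℤ R : Set (Unitization ℤ R)) := by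
    apply pi_of_primes
    intro p hp
    obtain ⟨f, hf, h⟩ := hS p hp
    refine ⟨fh f, Van_fh (hRS f hf), ?_⟩
    by_contra hcon
    push Not at hcon
    have h1 : ∀ w, (p : ℤ) ∣ f w := fun w => by
      have := hcon (toL w)
      rwa [fh_apply] at this
    rcases h with ⟨i, hi⟩ | ⟨i, j, μ, hi⟩
    · exact hi (h1 _)
    · exact hi (grp_dvd h1 i j μ)
  obtain ⟨I, hI, hrI, hIf⟩ := rf_conv (Φ := ℤ) finZ (S := S) (by
    intro 𝔪 h𝔪
    obtain ⟨p, hp, hc⟩ := maxZ h𝔪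
    obtain ⟨f, hf, ⟨i, hi⟩ | ⟨i, j, μ, hi⟩⟩ := hS p hp
    · exact ⟨f, hf, Or.inl ⟨i, fun h => hi ((hc _).1 h)⟩⟩
    · exact ⟨f, hf, Or.inr ⟨i, j, μ, fun h => hi ((hc _).1 h)⟩⟩) hR hPI hRS hr
  have hfin : Finite (R ⧸ I) := I.finite_quotient_of_finiteIndex
  obtain ⟨T, i1, i2, i3, i4, φ, h1, h2, h3⟩ := quot_exists (AddSubgroup.toIntSubmodule I) hI
    (R ⧸ I) (fun x => (x : R ⧸ I)) (by
      intro x y h
      rw [QuotientAddGroup.eq, ← I.neg_mem_iff, neg_add_rev, neg_neg, neg_add_eq_sub] at h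
      exact h) hrI
  exact ⟨T, i1, φ, h1, h2, h3⟩

/-- the integer polynomial modulo `p` -/
noncomputable def mp (p : ℕ) (f : FreeSemigroup ℕ →₀ ℤ) : FreeSemigroup ℕ →₀ ZMod p :=
  f.mapRange (Int.castRingHom (ZMod p)) (map_zero _)

theorem val_mp {p : ℕ} {R : Type} [NonUnitalRing R] [Module (ZMod p) R] (x : ℕ → R)
    (f : FreeSemigroup ℕ →₀ ℤ) : val x (mp p f) = val x f := by
  rw [val, mp, Finsupp.sum_mapRange_index, val]
  · refine Finsupp.sum_congr fun w _ => ?_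
    exact Int.cast_smul_eq_zsmul (ZMod p) (f w) _
  · intro w
    exact zero_smul _ _

theorem grp_mp {p : ℕ} (f : FreeSemigroup ℕ →₀ ℤ) (i j : ℕ) (μ : Multiset ℕ) :
    grp (mp p f) i j μ = ((grp f i j μ : ℤ) : ZMod p) := by
  classical
  rw [grp, mp, Finsupp.sum_mapRange_index, grp, Finsupp.sum, Finsupp.sum, Int.cast_sum]
  · refine Finset.sum_congr rfl fun w _ => ?_
    by_cases h : w.head = i ∧ ∃ m : List ℕ, w.tail = m ++ [j] ∧ (m : Multiset ℕ) = μ
    · rw [if_pos h, if_pos h]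
      rfl
    · rw [if_neg h, if_neg h, Int.cast_zero]
  · intro w
    split_ifs <;> rfl

/-- If the condition on the coefficients fails at `p` then all rings of characteristic `p` with
`x (y z - z y) u = 0` satisfy the identities. -/
theorem sat_of_not {S : Set (FreeSemigroup ℕ →₀ ℤ)} {p : ℕ} (h : ¬ CrP S p) (R : Type)
    [NonUnitalRing R] (hp : ∀ x : R, p • x = 0) (hR : ∀ x y z u : R, x * (y * z - z * y) * u = 0) :
    ∀ f ∈ S, ∀ x : ℕ → R, val x f = 0 := by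
  intro f hf x
  have hc : ∀ c : ℤ, (p : ℤ) ∣ c → ∀ r : R, c • r = 0 := by
    rintro _ ⟨c, rfl⟩ r
    rw [mul_comm, mul_smul, natCast_zsmul, hp, smul_zero]
  refine val_zero hR f (fun i r => hc _ ?_ r) (fun i j μ r => hc _ ?_ r) x
  · by_contra hcon
    exact h ⟨f, hf, Or.inl ⟨i, hcon⟩⟩
  · by_contra hcon
    exact h ⟨f, hf, Or.inr ⟨i, j, μ, hcon⟩⟩

theorem char_RG {p : ℕ} [Fact p.Prime] (R : Type) [NonUnitalRing R] [Module (ZMod p) R] (x : R) :
    p • x = 0 := by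
  rw [← Nat.cast_smul_eq_nsmul (ZMod p), ZMod.natCast_self, zero_smul]

/-- **Necessity for rings.** -/
theorem ring_nec {S : Set (FreeSemigroup ℕ →₀ ℤ)} {p : ℕ} (hp : p.Prime) (h : ¬ CrP S p) :
    ∃ (R : Type) (_ : NonUnitalRing R), FGen R ∧ (∀ f ∈ S, ∀ x : ℕ → R, val x f = 0) ∧
      ∃ r : R, r ≠ 0 ∧ ∀ (T : Type) [NonUnitalRing T] [Finite T] (φ : R →ₙ+* T), φ r = 0 := by
  have : Fact p.Prime := ⟨hp⟩
  refine ⟨RG (L2 (ZMod p)), inferInstance, ?_, ?_, ⟨0, 0, 0, 1⟩, ?_, RG_nrf⟩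
  · refine ⟨gen4, gen4_finite, ?_⟩
    rw [eq_top_iff]
    rintro x -
    refine RG_gen (NonUnitalSubring.closure gen4).toAddSubgroup
      (fun x hx y hy => mul_mem (S := NonUnitalSubring (RG (L2 (ZMod p)))) hx hy) ?_ ?_ x
    · intro k x hx
      exact ZMod.smul_mem hx k
    · intro x hx
      exact NonUnitalSubring.subset_closure hx
  · exact sat_of_not h _ (char_RG _) RG.comm4
  · intro h1
    have := congrArg RG.c h1
    exact one_ne_zero this

/-- If the condition on the coefficients holds at `p` then some ring of characteristic `p` with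
`x (y z - z y) u = 0` does not satisfy the identities. -/
theorem ring_sem {S : Set (FreeSemigroup ℕ →₀ ℤ)} {p : ℕ} (hp : p.Prime) (h : CrP S p) :
    ∃ (R : Type) (_ : NonUnitalRing R), (∀ x : R, p • x = 0) ∧
      (∀ x y z u : R, x * (y * z - z * y) * u = 0) ∧ ¬ (∀ f ∈ S, ∀ x : ℕ → R, val x f = 0) := by
  have : Fact p.Prime := ⟨hp⟩
  refine ⟨RM (ZMod p), inferInstance, char_RG _, RG.comm4, fun hcon => ?_⟩
  obtain ⟨f, hf, h⟩ := h
  have h1 : ∀ x : ℕ → RM (ZMod p), val x (mp p f) = 0 := fun x => by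
    rw [val_mp]
    exact hcon f hf x
  rcases h with ⟨i, hi⟩ | ⟨i, j, μ, hi⟩
  · have h2 := sem1 h1 i
    rw [mp, Finsupp.mapRange_apply] at h2
    exact hi ((ZMod.intCast_zmod_eq_zero_iff_dvd _ p).1 h2)
  · have h2 := sem2 h1 i j μ
    rw [grp_mp] at h2
    exact hi ((ZMod.intCast_zmod_eq_zero_iff_dvd _ p).1 h2)

end ring

end Pool.Agent.V8H74.LR
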