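import Pool.Agent.V8H74.LR.Main

/-!
Locally residually finite varieties of algebras over a finite field.
-/

set_option autoImplicit false

namespace Pool.Agent.V8H74.LR

open Pool.Agent.H854R3.CR

variable {F : Type} [Field F]

/-- the condition on the coefficients -/
def CrF (S : Set (FreeSemigroup ℕ →₀ F)) : Prop :=
  ∃ f ∈ S, (∃ i, f (FreeSemigroup.of i) ≠ 0) ∨ ∃ i j μ, grp f i j μ ≠ 0

section

variable {R : Type} [NonUnitalRing R] [Module F R] [IsScalarTower F R R] [SMulCommClass F R R]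

theorem fgen_of_alg [Finite F] {S : Set R} (hS : S.Finite)
    (hcl : NonUnitalAlgebra.adjoin F S = ⊤) : FGen R := by
  refine ⟨(fun p : F × R => p.1 • p.2) '' (Set.univ ×ˢ S), (Set.finite_univ.prod hS).image _, ?_⟩
  rw [eq_top_iff]
  rintro x -
  have hx : x ∈ NonUnitalAlgebra.adjoin F S := by rw [hcl]; trivial
  set C := NonUnitalSubring.closure ((fun p : F × R => p.1 • p.2) '' (Set.univ ×ˢ S)) with hC
  have hs : ∀ y ∈ C, ∀ c : F, c • y ∈ C := by
    intro y hy
    induction hy using NonUnitalSubring.closure_induction with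
    | mem y hy =>
      obtain ⟨⟨a, s⟩, ⟨_, hs⟩, rfl⟩ := hy
      intro c
      refine NonUnitalSubring.subset_closure ⟨(c * a, s), ⟨trivial, hs⟩, ?_⟩
      exact mul_smul c a s
    | zero => intro c; rw [smul_zero]; exact zero_mem _
    | add y z _ _ hy hz => intro c; rw [smul_add]; exact add_mem (hy c) (hz c)
    | neg y _ hy => intro c; rw [smul_neg]; exact neg_mem (hy c)
    | mul y z _ hz' hy _ =>
      intro c
      rw [← smul_mul_assoc]
      exact mul_mem (hy c) hz'
  induction hx using NonUnitalAlgebra.adjoin_induction with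
  | mem s hs' =>
    refine NonUnitalSubring.subset_closure ⟨(1, s), ⟨trivial, hs'⟩, ?_⟩
    exact one_smul F s
  | add y z _ _ hy hz => exact add_mem hy hz
  | zero => exact zero_mem _
  | mul y z _ _ hy hz => exact mul_mem hy hz
  | smul c y _ hy => exact hs y hy c

/-- **Sufficiency for algebras over finite fields.** -/
theorem alg_suff [Finite F] {S : Set (FreeSemigroup ℕ →₀ F)} (hS : CrF S)
    (hR : ∃ G : Set R, G.Finite ∧ NonUnitalAlgebra.adjoin F G = ⊤)
    (hRS : ∀ f ∈ S, ∀ x : ℕ → R, val x f = 0) {r : R} (hr : r ≠ 0) :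
    ∃ (T : Type) (_ : NonUnitalRing T) (_ : Module F T) (_ : IsScalarTower F T T)
      (_ : SMulCommClass F T T) (φ : R →ₙₐ[F] T), Finite T ∧ Function.Surjective φ ∧ φ r ≠ 0 := by
  classical
  obtain ⟨G, hG, hcl⟩ := hR
  have hFG : FGen R := fgen_of_alg hG hcl
  have hPI : PIOn (Ri F R : Set (Unitization F R)) := by
    obtain ⟨f, hf, h⟩ := hS
    refine pi_of_field (Van_fh (hRS f hf)) ?_
    intro h0
    have h1 : ∀ w, f w = 0 := fun w => by rw [← fh_apply, h0, Finsupp.zero_apply]
    rcases h with ⟨i, hi⟩ | ⟨i, j, μ, hi⟩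
    · exact hi (h1 _)
    · apply hi
      rw [grp, Finsupp.sum]
      refine Finset.sum_eq_zero fun w _ => ?_
      rw [h1 w]
      split_ifs <;> rfl
  have hFT : Algebra.FiniteType ℤ F := by
    have : Module.Finite ℤ F := Module.Finite.of_finite
    infer_instance
  obtain ⟨I, hI, hrI, hIf⟩ := rf_conv (Φ := F) (fun m _ =>
    Finite.of_surjective _ Ideal.Quotient.mk_surjective) (S := S) (by
    intro 𝔪 h𝔪
    have h0 : 𝔪 = ⊥ := (Ideal.eq_bot_or_top 𝔪).resolve_right h𝔪.ne_top
    obtain ⟨f, hf, ⟨i, hi⟩ | ⟨i, j, μ, hi⟩⟩ := hS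
    · exact ⟨f, hf, Or.inl ⟨i, fun h => hi (by rwa [h0, Ideal.mem_bot] at h)⟩⟩
    · exact ⟨f, hf, Or.inr ⟨i, j, μ, fun h => hi (by rwa [h0, Ideal.mem_bot] at h)⟩⟩)
    hFG hPI hRS hr
  have hfin : Finite (R ⧸ I) := I.finite_quotient_of_finiteIndex
  let J : Submodule F R :=
    { carrier := {x | ∀ c : F, c • x ∈ I}
      add_mem' := by
        intro a b ha hb c
        rw [smul_add]
        exact I.add_mem (ha c) (hb c)
      zero_mem' := by
        intro c
        rw [smul_zero]
        exact I.zero_mem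
      smul_mem' := by
        intro k a ha c
        rw [smul_smul]
        exact ha _ }
  have hJ : ∀ x ∈ J, ∀ s : R, s * x ∈ J ∧ x * s ∈ J := by
    intro x hx s
    constructor
    · intro c
      rw [← mul_smul_comm]
      exact (hI _ (hx c) s).1
    · intro c
      rw [← smul_mul_assoc]
      exact (hI _ (hx c) s).2
  refine quot_exists J hJ (F → R ⧸ I) (fun x c => ((c • x : R) : R ⧸ I)) ?_ ?_
  · intro x y h c
    have h1 := congrFun h c
    rw [QuotientAddGroup.eq, ← I.neg_mem_iff, neg_add_rev, neg_neg, neg_add_eq_sub,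
      ← smul_sub] at h1
    exact h1
  · intro hrJ
    have := hrJ 1
    rw [one_smul] at this
    exact hrI this

end

/-- If the condition on the coefficients fails then all algebras with
`x (y z - z y) u = 0` satisfy the identities. -/
theorem satF_of_not {S : Set (FreeSemigroup ℕ →₀ F)} (h : ¬ CrF S) (R : Type)
    [NonUnitalRing R] [Module F R] (hR : ∀ x y z u : R, x * (y * z - z * y) * u = 0) :
    ∀ f ∈ S, ∀ x : ℕ → R, val x f = 0 := by
  intro f hf x
  refine val_zero hR f (fun i r => ?_) (fun i j μ r => ?_) x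
  · by_cases h0 : f (FreeSemigroup.of i) = 0
    · rw [h0, zero_smul]
    · exact absurd ⟨f, hf, Or.inl ⟨i, h0⟩⟩ h
  · by_cases h0 : grp f i j μ = 0
    · rw [h0, zero_smul]
    · exact absurd ⟨f, hf, Or.inr ⟨i, j, μ, h0⟩⟩ h

/-- **Necessity for algebras.** -/
theorem alg_nec {S : Set (FreeSemigroup ℕ →₀ F)} (h : ¬ CrF S) :
    ∃ (R : Type) (_ : NonUnitalRing R) (_ : Module F R) (_ : IsScalarTower F R R)
      (_ : SMulCommClass F R R), (∃ G : Set R, G.Finite ∧ NonUnitalAlgebra.adjoin F G = ⊤) ∧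
      (∀ f ∈ S, ∀ x : ℕ → R, val x f = 0) ∧
      ∃ r : R, r ≠ 0 ∧ ∀ (T : Type) [NonUnitalRing T] [Finite T] (φ : R →ₙ+* T), φ r = 0 := by
  refine ⟨RG (L2 F), inferInstance, inferInstance, inferInstance, inferInstance, ?_, ?_,
    ⟨0, 0, 0, 1⟩, ?_, RG_nrf⟩
  · refine ⟨gen4, gen4_finite, ?_⟩
    rw [eq_top_iff]
    rintro x -
    have h1 : ∀ A : NonUnitalSubalgebra F (RG (L2 F)), (∀ y ∈ gen4, y ∈ A) → x ∈ A := by
      intro A hA
      let T : AddSubgroup (RG (L2 F)) :=
        { carrier := A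
          add_mem' := fun {a b} ha hb => A.add_mem' ha hb
          zero_mem' := A.zero_mem'
          neg_mem' := fun {a} ha => by
            have h2 := A.smul_mem' (-1) ha
            rwa [neg_smul, one_smul] at h2 }
      have hT : ∀ y, y ∈ T ↔ y ∈ A := fun y => Iff.rfl
      rw [← hT]
      refine RG_gen T (fun y hy z hz => ?_) (fun k y hy => ?_) (fun y hy => ?_) x
      · rw [hT] at hy hz ⊢
        exact A.mul_mem' hy hz
      · rw [hT] at hy ⊢
        exact A.smul_mem' k hy
      · rw [hT]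
        exact hA y hy
    exact h1 _ fun y hy => NonUnitalAlgebra.subset_adjoin F hy
  · exact satF_of_not h _ RG.comm4
  · intro h1
    have := congrArg RG.c h1
    exact one_ne_zero this

/-- If the condition on the coefficients holds then some algebra with
`x (y z - z y) u = 0` does not satisfy the identities. -/
theorem alg_sem {S : Set (FreeSemigroup ℕ →₀ F)} (h : CrF S) :
    ∃ (R : Type) (_ : NonUnitalRing R) (_ : Module F R) (_ : IsScalarTower F R R)
      (_ : SMulCommClass F R R),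
      (∀ x y z u : R, x * (y * z - z * y) * u = 0) ∧ ¬ (∀ f ∈ S, ∀ x : ℕ → R, val x f = 0) := by
  refine ⟨RM F, inferInstance, inferInstance, inferInstance, inferInstance, RG.comm4,
    fun hcon => ?_⟩
  obtain ⟨f, hf, ⟨i, hi⟩ | ⟨i, j, μ, hi⟩⟩ := h
  · exact hi (sem1 (hcon f hf) i)
  · exact hi (sem2 (hcon f hf) i j μ)

end Pool.Agent.V8H74.LR
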