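import Pool.Agent.V8H74.LR.LocNil
import Pool.Agent.V8H74.LR.Comb

/-!
The commutator ideal of a finitely generated algebra is nilpotent if it is nil and the algebra
satisfies a polynomial identity.
-/

set_option autoImplicit false

namespace Pool.Agent.V8H74.LR

open Pool.Agent.H854R3.CR

variable {Φ : Type} [CommRing Φ] {U : Type} [Ring U] [Algebra Φ U]

/-- the letters: generators and their commutators -/
def lett (r : ℕ) (t : ℕ → U) (l : ℕ) : U :=
  if l < r then t l else t ((l - r) / r) * t ((l - r) % r) - t ((l - r) % r) * t ((l - r) / r)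

theorem lett_comm {r : ℕ} (t : ℕ → U) {i j : ℕ} (hi : i < r) :
    lett r t (r + (j * r + i)) = t j * t i - t i * t j := by
  have h1 : ¬ r + (j * r + i) < r := by omega
  have h2 : (r + (j * r + i) - r) = i + r * j := by rw [Nat.add_sub_cancel_left]; ring
  have h3 : (i + r * j) / r = j := by
    rw [Nat.add_mul_div_left _ _ (by omega), Nat.div_eq_of_lt hi, zero_add]
  have h4 : (i + r * j) % r = i := by rw [Nat.add_mul_mod_self_left, Nat.mod_eq_of_lt hi]
  rw [lett, if_neg h1, h2, h3, h4]

/-- values of words -/
def evw (r : ℕ) (t : ℕ → U) (w : List ℕ) : U := (w.map (lett r t)).prod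

theorem evw_append (r : ℕ) (t : ℕ → U) (u v : List ℕ) :
    evw r t (u ++ v) = evw r t u * evw r t v := by
  simp [evw]

theorem evw_flatten (r : ℕ) (t : ℕ → U) (Q : List (List ℕ)) :
    evw r t Q.flatten = (Q.map (evw r t)).prod := by
  induction Q with
  | nil => simp [evw]
  | cons a Q ih => rw [List.flatten_cons, evw_append, ih, List.map_cons, List.prod_cons]

section main

variable {B N : Submodule Φ U} (hB : IsI B) (hN : IsI N) (hNB : N ≤ B) {r : ℕ} {t : ℕ → U}
  (htB : ∀ i, i < r → t i ∈ B) (htN : ∀ i j, t i * t j - t j * t i ∈ N)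

include hNB htB htN in
theorem lett_B (l : ℕ) : lett r t l ∈ B := by
  rw [lett]
  split_ifs with h
  · exact htB l h
  · exact hNB (htN _ _)

include htN in
theorem lett_N {l : ℕ} (hl : r ≤ l) : lett r t l ∈ N := by
  rw [lett, if_neg (by omega)]
  exact htN _ _

include hB hNB htB htN in
theorem evw_B : ∀ w : List ℕ, w ≠ [] → evw r t w ∈ B := by
  intro w hw
  cases w with
  | nil => exact absurd rfl hw
  | cons l w =>
    rw [evw, List.map_cons, List.prod_cons]
    exact hB.r _ _ (lett_B hNB htB htN l)

theorem pi_rw {J : Set U} {m : ℕ} {nn : Equiv.Perm (Fin m) → ℤ} {π0 : Equiv.Perm (Fin m)}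
    (h0 : nn π0 = 1) (hid : MId J m nn) (a : Fin m → U) (ha : ∀ i, a i ∈ J) :
    (List.ofFn a).prod = ∑ σ ∈ Finset.univ.erase (1 : Equiv.Perm (Fin m)),
        (- nn (π0 * σ)) • (List.ofFn fun k => a (σ k)).prod := by
  have h1 := hid (fun i => a (π0⁻¹ i)) (fun i => ha _)
  have h2 : ∑ σ : Equiv.Perm (Fin m), nn (π0 * σ) • (List.ofFn fun k => a (σ k)).prod = 0 := by
    rw [← h1]
    refine Fintype.sum_equiv (Equiv.mulLeft π0) _ _ fun σ => ?_
    simp
  rw [← Finset.add_sum_erase _ _ (Finset.mem_univ (1 : Equiv.Perm (Fin m)))] at h2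
  rw [mul_one, h0, one_smul] at h2
  simp only [neg_smul, Finset.sum_neg_distrib]
  rw [eq_neg_iff_add_eq_zero]
  exact h2

theorem nc_perm {r : ℕ} {u v : List ℕ} (h : u.Perm v) : nc r u = nc r v :=
  (h.filter _).length_eq

theorem pieces' {D s : ℕ} {w : List ℕ} (h : Pat D s D w) :
    ∃ (a rest : List ℕ) (P : Fin D → List ℕ), w = a ++ ((List.ofFn P).flatten ++ rest) ∧
      ∀ i, ∃ z y, s < z ∧ P i = List.replicate (i.1 + 1) s ++ z :: y := by
  obtain ⟨a, rest, Q, hw, hQl, hQ⟩ := pieces D le_rfl w h
  subst hQl
  refine ⟨a, rest, fun i => Q[i.1], ?_, ?_⟩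
  · rw [List.ofFn_getElem]
    exact hw
  · intro i
    obtain ⟨z, y, hz, hy⟩ := hQ i.1 i.2
    refine ⟨z, y, hz, ?_⟩
    simp only [Nat.sub_self, Nat.zero_add] at hy
    exact hy

include hB hNB htB htN in
theorem zero_of_nc {m : ℕ} (hm : 0 < m) {nn : Equiv.Perm (Fin m) → ℤ}
    {π0 : Equiv.Perm (Fin m)} (h0 : nn π0 = 1) (hid : MId (B : Set U) m nn) {K0 : ℕ}
    (hK0 : ∀ L : List U, L.length = K0 →
      (∀ x ∈ L, ∃ γ, Short r (r * (m - 1)) γ ∧ (∀ l ∈ γ, l < r + r * r) ∧ x = evw r t γ) →
      L.prod = 0) :
    ∀ (n cd : ℕ) (w : List ℕ), w.length = n → code (r + r * r) w = cd →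
      (∀ l ∈ w, l < r + r * r) → (r * m + 1) * K0 ≤ nc r w → evw r t w = 0 := by
  intro n
  induction n using Nat.strong_induction_on with
  | _ n ihn =>
  intro cd
  induction cd using Nat.strong_induction_on with
  | _ cd ihc =>
  intro w hwn hwc hwb hwk
  by_cases hs : Srt r w
  · rcases alt' hm w hs hwk with ⟨a, Q, v, hw, hQ, hsh⟩ | ⟨s, hs1, hs2⟩
    · rw [hw, evw_append, evw_append, evw_flatten, hK0 (Q.map (evw r t)) (by simpa using hQ),
        zero_mul, mul_zero]
      intro x hx
      obtain ⟨γ, hγ, rfl⟩ := List.mem_map.1 hx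
      refine ⟨γ, hsh γ hγ, fun l hl => hwb l ?_, rfl⟩
      rw [hw]
      exact List.mem_append_right _ (List.mem_append_left _ (List.mem_flatten.2 ⟨γ, hγ, hl⟩))
    · obtain ⟨a, rest, P, hw, hP⟩ := pieces' hs2
      have hQb : ∀ i, ∀ l ∈ P i, l < r + r * r := by
        intro i l hl
        apply hwb
        rw [hw]
        exact List.mem_append_right _ (List.mem_append_left _ (List.mem_flatten.2
          ⟨P i, List.mem_ofFn.2 ⟨i, rfl⟩, hl⟩))
      have hPB : ∀ i, evw r t (P i) ∈ (B : Set U) := by
        intro i
        refine evw_B hB hNB htB htN _ ?_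
        obtain ⟨z, y, _, hy⟩ := hP i
        rw [hy]
        simp
      have h1 := pi_rw h0 hid (fun i => evw r t (P i)) hPB
      have h2 : evw r t (List.ofFn P).flatten = (List.ofFn (fun i => evw r t (P i))).prod := by
        rw [evw_flatten, List.map_ofFn]
        rfl
      rw [hw, evw_append, evw_append, h2, h1, Finset.sum_mul, Finset.mul_sum]
      refine Finset.sum_eq_zero fun σ hσ => ?_
      have hσ1 : σ ≠ 1 := (Finset.mem_erase.1 hσ).1
      rw [smul_mul_assoc, mul_smul_comm]
      have h3 : evw r t a * ((List.ofFn fun k => evw r t (P (σ k))).prod * evw r t rest) =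
          evw r t (a ++ ((List.ofFn fun k => P (σ k)).flatten ++ rest)) := by
        rw [evw_append, evw_append, evw_flatten, List.map_ofFn]
        rfl
      have hperm : (List.ofFn fun k => P (σ k)).Perm (List.ofFn P) :=
        Equiv.Perm.ofFn_comp_perm σ P
      have hperm' := hperm.flatten
      have hlt := arr_lt (b := r + r * r) P hP hQb σ hσ1
      have h4 := ihc _ (by
        rw [← hwc, hw]
        exact code_mid (b := r + r * r) a rest hperm'.length_eq hlt (by omega))
          (a ++ ((List.ofFn fun k => P (σ k)).flatten ++ rest)) (by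
          rw [← hwn, hw]
          simp only [List.length_append, hperm'.length_eq]) rfl (by
          intro l hl
          apply hwb
          rw [hw]
          simp only [List.mem_append] at hl ⊢
          rw [hperm'.mem_iff] at hl
          exact hl) (by
          refine hwk.trans ?_
          rw [hw, nc_append, nc_append, nc_append, nc_append, nc_perm hperm'])
      rw [h3, h4, smul_zero]
  · rw [Srt] at hs
    push Not at hs
    obtain ⟨u, v, i, j, hw, hjr, hij⟩ := hs
    have e1 : evw r t w = evw r t (u ++ i :: j :: v) + evw r t (u ++ (r + (j * r + i)) :: v) := by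
      rw [hw]
      simp only [evw, List.map_append, List.map_cons, List.prod_append, List.prod_cons]
      rw [lett_comm t (lt_trans hij hjr)]
      have h5 : lett r t j = t j := by rw [lett, if_pos hjr]
      have h6 : lett r t i = t i := by rw [lett, if_pos (lt_trans hij hjr)]
      rw [h5, h6]
      noncomm_ring
    have hub : ∀ l ∈ u, l < r + r * r := fun l hl => hwb l (by rw [hw]; simp [hl])
    have hvb : ∀ l ∈ v, l < r + r * r := fun l hl => hwb l (by rw [hw]; simp [hl])
    have hjb : j < r + r * r := by omega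
    have hib : i < r + r * r := by omega
    have hnb : r + (j * r + i) < r + r * r := by
      have : (j + 1) * r ≤ r * r := Nat.mul_le_mul_right _ hjr
      have h7 : (j + 1) * r = j * r + r := by ring
      omega
    have hnc : nc r (u ++ i :: j :: v) = nc r w := by
      rw [hw]
      apply nc_perm
      exact (List.Perm.swap _ _ _).append_left u
    have h1 : evw r t (u ++ i :: j :: v) = 0 := by
      refine ihc _ (by
        rw [← hwc, hw]
        exact code_lt_of u hij (by simp) (by
          intro l hl
          rcases List.mem_cons.1 hl with rfl | hl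
          · exact hjb
          · exact hvb l hl)) _ (by rw [← hwn, hw]; simp) rfl ?_ (by rw [hnc]; exact hwk)
      intro l hl
      simp only [List.mem_append, List.mem_cons] at hl
      rcases hl with hl | rfl | rfl | hl
      · exact hub l hl
      · exact hib
      · exact hjb
      · exact hvb l hl
    have h2 : evw r t (u ++ (r + (j * r + i)) :: v) = 0 := by
      refine ihn (u ++ (r + (j * r + i)) :: v).length (by rw [← hwn, hw]; simp) _ _ rfl rfl ?_ ?_
      · intro l hl
        simp only [List.mem_append, List.mem_cons] at hl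
        rcases hl with hl | rfl | hl
        · exact hub l hl
        · exact hnb
        · exact hvb l hl
      · refine hwk.trans ?_
        have h8 : ∀ (x : ℕ) (y : List ℕ), x :: y = [x] ++ y := fun x y => rfl
        rw [hw, h8 j, h8 i, h8 (r + (j * r + i)), nc_append, nc_append, nc_append, nc_append,
          nc_append]
        have h9 : nc r [j] = 0 := by simp [nc, hjr]
        have h10 : nc r [i] = 0 := by simp [nc, lt_trans hij hjr]
        rw [h9, h10]
        omega
    rw [e1, h1, h2, add_zero]

end main

end Pool.Agent.V8H74.LR
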