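import Pool.Agent.V8H74.LR.SI3

/-!
Residual finiteness when the commutator ideal is nilpotent.
-/

set_option autoImplicit false

namespace Pool.Agent.V8H74.LR

variable {Φ : Type} [CommRing Φ] {U : Type} [Ring U] [Algebra Φ U]

/-- the polynomials in three variables obtained from a set of identities -/
noncomputable def Gen3 (F : Set (List ℕ →₀ Φ)) : Ideal (P3 Φ) :=
  Ideal.span {h | ∃ f ∈ F, ∃ e : ℕ → ℕ, (∀ l, 1 ≤ e l) ∧ ∃ i j, h = h3 f e i j}

/-- the part in the middle variable -/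
noncomputable def mid : P3 Φ →ₐ[Φ] Polynomial Φ := MvPolynomial.aeval ![0, Polynomial.X, 0]

theorem mid_coeff (H : P3 Φ) (n : ℕ) :
    (mid H).coeff n = H.coeff (Finsupp.single 1 n) := by
  induction H using MvPolynomial.induction_on' with
  | add p q hp hq => rw [map_add, Polynomial.coeff_add, MvPolynomial.coeff_add, hp, hq]
  | monomial m c =>
    rw [mid, MvPolynomial.aeval_monomial, MvPolynomial.coeff_monomial,
      Finsupp.prod_fintype _ _ (fun _ => pow_zero _), Fin.prod_univ_three]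
    simp only [Matrix.cons_val_zero, Matrix.cons_val_one, Matrix.cons_val]
    by_cases h0 : m 0 = 0
    · by_cases h2 : m 2 = 0
      · rw [h0, h2, pow_zero, one_mul, mul_one, Polynomial.algebraMap_eq,
          Polynomial.coeff_C_mul, Polynomial.coeff_X_pow]
        have h3 : m = Finsupp.single 1 (m 1) := by
          ext k
          fin_cases k
          · simpa using h0
          · simp
          · simpa using h2
        by_cases h4 : n = m 1
        · rw [if_pos h4, if_pos (by rw [h4]; exact h3), mul_one]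
        · rw [if_neg h4, if_neg, mul_zero]
          intro h5
          apply h4
          have := congrArg (fun f => f 1) h5
          simpa using this.symm
      · rw [zero_pow h2, mul_zero, mul_zero, Polynomial.coeff_zero, if_neg]
        intro h5
        apply h2
        rw [h5]
        simp
    · rw [zero_pow h0, zero_mul, zero_mul, mul_zero, Polynomial.coeff_zero, if_neg]
      intro h5
      apply h0
      rw [h5]
      simp

theorem LB_mid (e : ℕ → ℕ) (he : ∀ l, 1 ≤ e l) (j : ℕ) (w : List ℕ) :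
    LB (fun l => (Polynomial.X : Polynomial Φ) ^ e l) (fun l => (0 : Polynomial Φ) ^ e l) j w =
      qp e j w := by
  induction w with
  | nil => rfl
  | cons l w ih =>
    simp only [LB, qp, ih]
    congr 1
    cases w with
    | nil => simp
    | cons k w =>
      have h1 : (0 : Polynomial Φ) ^ e k = 0 := zero_pow (by have := he k; omega)
      rw [List.map_cons, List.prod_cons, h1, zero_mul]
      simp

theorem mid_h3 (f : List ℕ →₀ Φ) (e : ℕ → ℕ) (he : ∀ l, 1 ≤ e l) (i j : ℕ) :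
    mid (h3 f e i j) = h0 f e i j := by
  simp only [h3, h0, Finsupp.sum, map_sum, map_mul]
  refine Finset.sum_congr rfl fun w _ => ?_
  have h1 : mid (MvPolynomial.C (f w)) = Polynomial.C (f w) := by
    rw [mid, MvPolynomial.aeval_C, Polynomial.algebraMap_eq]
  rw [h1]
  congr 1
  have h2 := LAB_map (mid (Φ := Φ)).toRingHom (fun l => (MvPolynomial.X 0 : P3 Φ) ^ e l)
    (fun l => (MvPolynomial.X 1 : P3 Φ) ^ e l) (fun l => (MvPolynomial.X 2 : P3 Φ) ^ e l) i j w
  have e0 : ∀ l, (mid (Φ := Φ)).toRingHom ((MvPolynomial.X 0 : P3 Φ) ^ e l) =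
      (0 : Polynomial Φ) ^ e l := by
    intro l
    rw [map_pow]
    congr 1
    change mid (MvPolynomial.X 0) = 0
    rw [mid, MvPolynomial.aeval_X]
    rfl
  have e1 : ∀ l, (mid (Φ := Φ)).toRingHom ((MvPolynomial.X 1 : P3 Φ) ^ e l) =
      (Polynomial.X : Polynomial Φ) ^ e l := by
    intro l
    rw [map_pow]
    congr 1
    change mid (MvPolynomial.X 1) = Polynomial.X
    rw [mid, MvPolynomial.aeval_X]
    rfl
  have e2 : ∀ l, (mid (Φ := Φ)).toRingHom ((MvPolynomial.X 2 : P3 Φ) ^ e l) =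
      (0 : Polynomial Φ) ^ e l := by
    intro l
    rw [map_pow]
    congr 1
    change mid (MvPolynomial.X 2) = 0
    rw [mid, MvPolynomial.aeval_X]
    rfl
  simp only [e0, e1, e2] at h2
  refine Eq.trans h2 ?_
  cases w with
  | nil => rfl
  | cons l w =>
    simp only [LAB, hp]
    have h5 : (0 : Polynomial Φ) ^ e l = 0 := zero_pow (by have := he l; omega)
    rw [h5, zero_mul, zero_add, LB_mid e he]

theorem G5all_of_gen {B : Set U} (hB : Clo B) (hS : ∀ (c : Φ), ∀ x ∈ B, c • x ∈ B)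
    {F : Set (List ℕ →₀ Φ)} (hF : ∀ f ∈ F, Van B f) {H : P3 Φ} (hH : H ∈ Gen3 F) :
    G5all B H := by
  intro A A' I hA hI hT hAB hAB' t ht g hg
  have key : ∀ H ∈ Gen3 F, (MvPolynomial.X 1 - MvPolynomial.X 2) * sg g H ∈
      J3 A A' I hA hI t := by
    intro H hH
    induction hH using Submodule.span_induction with
    | mem x hx =>
      obtain ⟨f, hf, e, he, i, j, rfl⟩ := hx
      exact G5_h3 hB hS (hF f hf) he i j hA hI hT hAB hAB' ht g hg
    | zero => rw [map_zero, mul_zero]; exact zero_mem _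
    | add x y _ _ hx hy => rw [map_add, mul_add]; exact add_mem hx hy
    | smul c x _ hx =>
      rw [smul_eq_mul, map_mul]
      have e1 : (MvPolynomial.X 1 - MvPolynomial.X 2) * (sg g c * sg g x) =
        sg g c * ((MvPolynomial.X 1 - MvPolynomial.X 2) * sg g x) := by ring
      rw [e1]
      exact Ideal.mul_mem_left _ _ hx
  exact key H hH

theorem G6_of_gen {B : Set U} (hB : Clo B) {F : Set (List ℕ →₀ Φ)} (hF : ∀ f ∈ F, Van B f)
    {H : P3 Φ} (hH : H ∈ Gen3 F) : G6 B (mid H) := by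
  induction hH using Submodule.span_induction with
  | mem x hx =>
    obtain ⟨f, hf, e, he, i, j, rfl⟩ := hx
    rw [mid_h3 f e he]
    exact G6_h0 hB (hF f hf) he i j
  | zero => rw [map_zero]; exact G6_zero B
  | add x y _ _ hx hy => rw [map_add]; exact G6_add hx hy
  | smul c x _ hx =>
    rw [smul_eq_mul, map_mul]
    exact G6_mul hB.mul hx _

theorem exists_quot (I : Submodule Φ U) (hI : IsI I) :
    ∃ (C : Type) (_ : Ring C) (_ : Algebra Φ C) (π : U →ₐ[Φ] C),
      Function.Surjective π ∧ ∀ x, π x = 0 ↔ x ∈ I := by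
  have htwo : (toIdl I hI).IsTwoSided := ⟨fun {a} b ha => hI.r b a ha⟩
  let iR : Ring (U ⧸ toIdl I hI) := Ideal.Quotient.ring (toIdl I hI)
  let iA : Algebra Φ (U ⧸ toIdl I hI) := Ideal.Quotient.algebra Φ
  refine ⟨U ⧸ toIdl I hI, iR, iA, Ideal.Quotient.mkₐ Φ (toIdl I hI), ?_, ?_⟩
  · exact Ideal.Quotient.mk_surjective
  · intro x
    exact Ideal.Quotient.eq_zero_iff_mem

section map

variable {V : Type} [Ring V] [Algebra Φ V] (π : U →ₐ[Φ] V)

theorem ev_map (x : ℕ → U) (f : List ℕ →₀ Φ) : π (ev x f) = ev (fun i => π (x i)) f := by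
  simp only [ev, Finsupp.sum, map_sum, map_smul, map_list_prod, List.map_map]
  rfl

theorem isI_map (hπ : Function.Surjective π) {I : Submodule Φ U} (hI : IsI I) :
    IsI (I.map π.toLinearMap) := by
  constructor
  · rintro v _ ⟨x, hx, rfl⟩
    obtain ⟨u, rfl⟩ := hπ v
    exact ⟨u * x, hI.l u x hx, map_mul π _ _⟩
  · rintro v _ ⟨x, hx, rfl⟩
    obtain ⟨u, rfl⟩ := hπ v
    exact ⟨x * u, hI.r u x hx, map_mul π _ _⟩

theorem isI_comap {I : Submodule Φ V} (hI : IsI I) : IsI (I.comap π.toLinearMap) := by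
  constructor
  · intro u x hx
    change π (u * x) ∈ I
    rw [map_mul]
    exact hI.l _ _ hx
  · intro u x hx
    change π (x * u) ∈ I
    rw [map_mul]
    exact hI.r _ _ hx

theorem Std.map (hπ : Function.Surjective π) {B N : Submodule Φ U} (h : Std B N) :
    Std (B.map π.toLinearMap) (N.map π.toLinearMap) := by
  refine ⟨isI_map π hπ h.isB, isI_map π hπ h.isN, Submodule.map_mono h.sub, ?_, ?_, ?_⟩
  · intro u v
    obtain ⟨u, rfl⟩ := hπ u
    obtain ⟨v, rfl⟩ := hπ v
    refine ⟨_, h.comm u v, ?_⟩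
    change π (u * v - v * u) = _
    rw [map_sub, map_mul, map_mul]
  · obtain ⟨T, hTf, hTB, hT⟩ := h.gen
    refine ⟨π '' T, hTf.image _, ?_, ?_⟩
    · rintro _ ⟨t, ht, rfl⟩
      exact ⟨t, hTB t ht, rfl⟩
    · rw [← AlgHom.map_adjoin, hT, Algebra.map_top]
      exact (AlgHom.range_eq_top π).2 hπ
  · obtain ⟨X, hX, hNX⟩ := h.fg
    refine ⟨π '' X, hX.image _, ?_⟩
    apply le_antisymm
    · rw [hNX]
      rintro _ ⟨x, hx, rfl⟩
      change π x ∈ _
      induction hx using Submodule.span_induction with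
      | mem x hx =>
        obtain ⟨u, v, y, hy, rfl⟩ := hx
        rw [map_mul, map_mul]
        exact Submodule.subset_span ⟨π u, π v, π y, ⟨y, hy, rfl⟩, rfl⟩
      | zero => rw [map_zero]; exact zero_mem _
      | add x y _ _ hx hy => rw [map_add]; exact add_mem hx hy
      | smul c x _ hx => rw [map_smul]; exact Submodule.smul_mem _ _ hx
    · apply Idl_le (isI_map π hπ h.isN)
      rintro _ ⟨x, hx, rfl⟩
      refine ⟨x, ?_, rfl⟩
      rw [hNX]
      exact subset_Idl hx

end map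

theorem exists_max_avoid {r : U} (hr : r ≠ 0) :
    ∃ I : Submodule Φ U, IsI I ∧ r ∉ I ∧ ∀ J : Submodule Φ U, IsI J → I ≤ J → r ∉ J → J = I := by
  obtain ⟨I, _, hI⟩ := zorn_le_nonempty₀ {I : Submodule Φ U | IsI I ∧ r ∉ I}
    (fun c hc hchain y hy => by
      have hne : c.Nonempty := ⟨y, hy⟩
      have hdir : DirectedOn (· ≤ ·) c := hchain.directedOn
      have hmem : ∀ x, x ∈ sSup c ↔ ∃ I ∈ c, x ∈ I := fun x =>
        Submodule.mem_sSup_of_directed hne hdir
      refine ⟨sSup c, ⟨⟨?_, ?_⟩, ?_⟩, fun z hz => le_sSup hz⟩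
      · intro u x hx
        obtain ⟨I, hI, hx⟩ := (hmem x).1 hx
        exact (hmem _).2 ⟨I, hI, (hc hI).1.l u x hx⟩
      · intro u x hx
        obtain ⟨I, hI, hx⟩ := (hmem x).1 hx
        exact (hmem _).2 ⟨I, hI, (hc hI).1.r u x hx⟩
      · intro hx
        obtain ⟨I, hI, hx⟩ := (hmem r).1 hx
        exact (hc hI).2 hx) ⊥ ⟨isI_bot, by simpa using hr⟩
  refine ⟨I, hI.1.1, hI.1.2, fun J hJ hIJ hrJ => ?_⟩
  exact le_antisymm (hI.2 ⟨hJ, hrJ⟩ hIJ) hIJ

/-- **Residual finiteness in the nilpotent case.** -/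
theorem rf_nil [Nontrivial Φ] [IsNoetherianRing Φ] [Algebra.FiniteType ℤ Φ]
    (hΦ : ∀ m : ℕ, 0 < m → Finite (Φ ⧸ Ideal.span {(m : Φ)}))
    {B N : Submodule Φ U} (h : Std B N) {n : ℕ} (hn : N ^ n = ⊥)
    {F : Set (List ℕ →₀ Φ)} (hF : ∀ f ∈ F, Van (B : Set U) f) {H : P3 Φ} (hHF : H ∈ Gen3 F)
    {n0 : ℕ} (hH : H.coeff (Finsupp.single 1 n0) = 1) {r : U} (hr : r ≠ 0) :
    ∃ I : Submodule Φ U, IsI I ∧ r ∉ I ∧ Finite (U ⧸ I) := by
  obtain ⟨I, hI, hrI, hmax⟩ := exists_max_avoid (Φ := Φ) hr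
  refine ⟨I, hI, hrI, ?_⟩
  obtain ⟨C, iC, iA, π, hπ, hker⟩ := exists_quot I hI
  have hS := h.map π hπ
  have hn' : (N.map π.toLinearMap) ^ n = ⊥ := by
    rw [← Submodule.map_pow, hn, Submodule.map_bot]
  have hF' : ∀ f ∈ F, Van ((B.map π.toLinearMap : Submodule Φ C) : Set C) f := by
    intro f hf x hx
    choose y hy hyx using hx
    have h1 := ev_map π y f
    rw [hF f hf y hy, map_zero] at h1
    have h2 : (fun i => π (y i)) = x := funext hyx
    rw [h2] at h1
    exact h1.symm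
  have hG5 := G5all_of_gen hS.clo (fun c _ hx => Submodule.smul_mem _ c hx) hF' hHF
  have hG6 := G6_of_gen hS.clo hF' hHF
  have hL : Layers (N.map π.toLinearMap) := fun i hi => layer hS.setup hH hG5 hi
  have hr' : Min Φ (π r) := by
    refine ⟨fun h0 => hrI ((hker r).1 h0), fun J hJ hJne => ?_⟩
    by_contra hcon
    apply hJne
    have h1 := hmax (J.comap π.toLinearMap) (isI_comap π hJ) (by
      intro x hx
      change π x ∈ J
      rw [(hker x).2 hx]
      exact zero_mem _) hcon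
    rw [eq_bot_iff]
    intro c hc
    obtain ⟨u, rfl⟩ := hπ c
    have h2 : u ∈ J.comap π.toLinearMap := hc
    rw [h1] at h2
    rw [Submodule.mem_bot]
    exact (hker u).2 h2
  have hfin := si_finite hΦ hS hn' (H := mid H) (n0 := n0) (by rw [mid_coeff, hH]) hG6 hL hr'
  exact fin_of_ker π.toLinearMap (fun x hx => (hker x).1 hx)

end Pool.Agent.V8H74.LR
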