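import Pool.Agent.V8H74.LR.Nilp
import Pool.Agent.V8H74.LR.RF1

/-!
The commutator ideal is nilpotent, and the algebra is residually finite.
-/

set_option autoImplicit false

namespace Pool.Agent.V8H74.LR

open Pool.Agent.H854R3.CR

variable {Φ : Type} [CommRing Φ] {U : Type} [Ring U] [Algebra Φ U]

/-- commutators of generators -/
def Com (T : Set U) : Set U := {x | ∃ a ∈ T, ∃ b ∈ T, x = a * b - b * a}

theorem com_finite {T : Set U} (hT : T.Finite) : (Com T).Finite := by
  have : Com T ⊆ (fun p : U × U => p.1 * p.2 - p.2 * p.1) '' (T ×ˢ T) := by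
    rintro x ⟨a, ha, b, hb, rfl⟩
    exact ⟨(a, b), ⟨ha, hb⟩, rfl⟩
  exact ((hT.prod hT).image _).subset this

theorem comm_mem {T : Set U} (hT : Algebra.adjoin Φ T = ⊤) (u v : U) :
    u * v - v * u ∈ Idl Φ (Com T) := by
  have hI := isI_Idl (Φ := Φ) (Com T)
  have key : ∀ w : U, (∀ t ∈ T, t * w - w * t ∈ Idl Φ (Com T)) → ∀ u : U,
      u * w - w * u ∈ Idl Φ (Com T) := by
    intro w hw u
    have hu : u ∈ Algebra.adjoin Φ T := by rw [hT]; trivial
    induction hu using Algebra.adjoin_induction with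
    | mem x hx => exact hw x hx
    | algebraMap c =>
      rw [Algebra.commutes, sub_self]
      exact zero_mem _
    | add x y _ _ hx hy =>
      have e : (x + y) * w - w * (x + y) = (x * w - w * x) + (y * w - w * y) := by noncomm_ring
      rw [e]
      exact add_mem hx hy
    | mul x y _ _ hx hy =>
      have e : x * y * w - w * (x * y) = x * (y * w - w * y) + (x * w - w * x) * y := by
        noncomm_ring
      rw [e]
      exact add_mem (hI.l _ _ hy) (hI.r _ _ hx)
  apply key v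
  intro t ht
  have h1 := key t (fun s hs => subset_Idl ⟨s, hs, t, ht, rfl⟩) v
  have h2 := neg_mem h1
  rwa [neg_sub] at h2

theorem std_com {B : Submodule Φ U} (hB : IsI B) {T : Set U} (hTf : T.Finite)
    (hTB : ∀ t ∈ T, t ∈ B) (hT : Algebra.adjoin Φ T = ⊤) : Std B (Idl Φ (Com T)) := by
  refine ⟨hB, isI_Idl _, ?_, comm_mem hT, ⟨T, hTf, hTB, hT⟩, ⟨Com T, com_finite hTf, rfl⟩⟩
  apply Idl_le hB
  rintro x ⟨a, ha, b, hb, rfl⟩
  exact B.sub_mem (hB.l _ _ (hTB b hb)) (hB.l _ _ (hTB a ha))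

theorem nilpotent {B : Submodule Φ U} (hB : IsI B) {T : Set U} (hTf : T.Finite)
    (hTB : ∀ t ∈ T, t ∈ B) (hT : Algebra.adjoin Φ T = ⊤) (hPI : PIOn (B : Set U))
    (hnil : ∀ x ∈ Idl Φ (Com T), ∃ k : ℕ, x ^ k = 0) : ∃ n : ℕ, Idl Φ (Com T) ^ n = ⊥ := by
  classical
  set N := Idl Φ (Com T) with hNdef
  have hstd := std_com hB hTf hTB hT
  have hN : IsI N := hstd.isN
  have hNB : N ≤ B := hstd.sub
  have hPI' := hPI
  obtain ⟨m, nn, π0, h0, hid⟩ := hPI'
  rcases Nat.eq_zero_or_pos m with rfl | hm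
  · -- the ring is trivial
    have h1 := hid (fun i => i.elim0) (fun i => i.elim0)
    have h3 : (Finset.univ : Finset (Equiv.Perm (Fin 0))) = {π0} := by
      ext x
      simp only [Finset.mem_univ, Finset.mem_singleton, true_iff]
      exact Subsingleton.elim x π0
    rw [h3, Finset.sum_singleton, h0] at h1
    have h4 : (1 : U) = 0 := by simpa using h1
    refine ⟨1, ?_⟩
    rw [pow_one, eq_bot_iff]
    intro x _
    rw [Submodule.mem_bot, ← mul_one x, h4, mul_zero]
  -- enumerate the generators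
  obtain ⟨r, e, he⟩ : ∃ (r : ℕ) (e : Fin r → U), Set.range e = T := by
    have := hTf.to_subtype
    obtain ⟨n, ⟨eq⟩⟩ := Finite.exists_equiv_fin T
    refine ⟨n, fun i => (eq.symm i : U), ?_⟩
    ext x
    constructor
    · rintro ⟨i, rfl⟩
      exact (eq.symm i).2
    · intro hx
      exact ⟨eq ⟨x, hx⟩, by simp⟩
  let t : ℕ → U := fun i => if h : i < r then e ⟨i, h⟩ else 0
  have htT : ∀ i, i < r → t i ∈ T := by
    intro i hi
    simp only [t, dif_pos hi]
    rw [← he]
    exact ⟨_, rfl⟩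
  have hTt : ∀ x ∈ T, ∃ i, i < r ∧ t i = x := by
    intro x hx
    rw [← he] at hx
    obtain ⟨i, rfl⟩ := hx
    refine ⟨i.1, i.2, ?_⟩
    simp only [t, dif_pos i.2]
  have htB : ∀ i, i < r → t i ∈ B := fun i hi => hTB _ (htT i hi)
  have htN : ∀ i j, t i * t j - t j * t i ∈ N := fun i j => hstd.comm _ _
  -- the finite set of short blocks
  set b := r + r * r with hb
  set Ω : Set U := {x | ∃ γ, Short r (r * (m - 1)) γ ∧ (∀ l ∈ γ, l < b) ∧ x = evw r t γ} with hΩ
  have hΩf : Ω.Finite := by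
    have h1 : Set.Finite {L : List (Fin b) | L.length ≤ r * (m - 1) + 1} :=
      List.finite_length_le _ _
    refine (h1.image fun L => evw r t (L.map Fin.val)).subset ?_
    rintro x ⟨γ, hγ, hγb, rfl⟩
    refine ⟨γ.pmap (fun l hl => ⟨l, hl⟩) hγb, ?_, ?_⟩
    · obtain ⟨β, n, rfl, _, _, hβ⟩ := hγ
      simp only [Set.mem_ofPred_eq, List.length_pmap, List.length_append, List.length_cons,
        List.length_nil]
      omega
    · simp only [List.map_pmap]
      rw [List.pmap_eq_map, List.map_id']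
  have hΩN : ∀ x ∈ Ω, x ∈ N := by
    rintro x ⟨γ, ⟨β, n, rfl, _, hn, _⟩, _, rfl⟩
    rw [evw_append]
    refine hN.l _ _ ?_
    simp only [evw, List.map_cons, List.map_nil, List.prod_cons, List.prod_nil, mul_one]
    exact lett_N htN hn
  have hPIN : PIOn (N : Set U) := by
    refine ⟨m, nn, π0, h0, fun a ha => hid a (fun i => hNB (ha i))⟩
  obtain ⟨K0, hK0⟩ := loc_nil hN hnil hPIN hΩf hΩN
  have hzero := zero_of_nc hB hNB htB htN hm h0 hid (K0 := K0) hK0
  -- the filtration by the number of commutators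
  let V : ℕ → Submodule Φ U := fun k =>
    Submodule.span Φ {x | ∃ w : List ℕ, (∀ l ∈ w, l < b) ∧ k ≤ nc r w ∧ x = evw r t w}
  have hVmul : ∀ i j, V i * V j ≤ V (i + j) := by
    intro i j
    rw [Submodule.span_mul_span]
    apply Submodule.span_mono
    rintro _ ⟨_, ⟨w, hw, hwi, rfl⟩, _, ⟨w', hw', hwj, rfl⟩, rfl⟩
    refine ⟨w ++ w', ?_, ?_, ?_⟩
    · intro l hl
      rcases List.mem_append.1 hl with h | h
      · exact hw l h
      · exact hw' l h
    · rw [nc_append]; omega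
    · exact (evw_append r t w w').symm
  have hV0 : ∀ u : U, u ∈ V 0 := by
    intro u
    have hu : u ∈ Algebra.adjoin Φ T := by rw [hT]; trivial
    induction hu using Algebra.adjoin_induction with
    | mem x hx =>
      obtain ⟨i, hi, rfl⟩ := hTt x hx
      refine Submodule.subset_span ⟨[i], ?_, Nat.zero_le _, ?_⟩
      · intro l hl
        rw [List.mem_singleton] at hl
        omega
      · simp [evw, lett, hi]
    | algebraMap c =>
      rw [Algebra.algebraMap_eq_smul_one]
      exact Submodule.smul_mem _ _ (Submodule.subset_span ⟨[], by simp, Nat.zero_le _, by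
        simp [evw]⟩)
    | add x y _ _ hx hy => exact add_mem hx hy
    | mul x y _ _ hx hy => exact hVmul 0 0 (Submodule.mul_mem_mul hx hy)
  have hNV : N ≤ V 1 := by
    apply Submodule.span_le.2
    rintro _ ⟨u, v, x, ⟨a, ha, c, hc, rfl⟩, rfl⟩
    obtain ⟨i, hi, rfl⟩ := hTt a ha
    obtain ⟨j, hj, rfl⟩ := hTt c hc
    have h1 : t i * t j - t j * t i ∈ V 1 := by
      refine Submodule.subset_span ⟨[r + (i * r + j)], ?_, ?_, ?_⟩
      · intro l hl
        rw [List.mem_singleton] at hl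
        have : (i + 1) * r ≤ r * r := Nat.mul_le_mul_right _ hi
        have h7 : (i + 1) * r = i * r + r := by ring
        omega
      · simp [nc]
      · simp only [evw, List.map_cons, List.map_nil, List.prod_cons, List.prod_nil, mul_one]
        rw [lett_comm t hj]
    have h2 := hVmul 0 1 (Submodule.mul_mem_mul (hV0 u) h1)
    have h3 := hVmul (0 + 1) 0 (Submodule.mul_mem_mul h2 (hV0 v))
    exact h3
  have hNk : ∀ k : ℕ, N ^ k ≤ V k := by
    intro k
    induction k with
    | zero => exact fun x _ => hV0 x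
    | succ k ih =>
      rw [pow_succ]
      exact (mul_le_mul' ih hNV).trans (hVmul k 1)
  refine ⟨(r * m + 1) * K0, ?_⟩
  rw [eq_bot_iff]
  refine (hNk _).trans ?_
  apply Submodule.span_le.2
  rintro x ⟨w, hw, hk, rfl⟩
  exact hzero _ _ w rfl rfl hw hk

/-- **Residual finiteness when the commutator ideal is nil.** -/
theorem rf_of_nil [Nontrivial Φ] [IsNoetherianRing Φ] [Algebra.FiniteType ℤ Φ]
    (hΦ : ∀ m : ℕ, 0 < m → Finite (Φ ⧸ Ideal.span {(m : Φ)}))
    {B : Submodule Φ U} (hB : IsI B) {T : Set U} (hTf : T.Finite)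
    (hTB : ∀ t ∈ T, t ∈ B) (hT : Algebra.adjoin Φ T = ⊤) (hPI : PIOn (B : Set U))
    (hnil : ∀ x ∈ Idl Φ (Com T), ∃ k : ℕ, x ^ k = 0)
    {F : Set (List ℕ →₀ Φ)} (hF : ∀ f ∈ F, Van (B : Set U) f) {H : P3 Φ} (hHF : H ∈ Gen3 F)
    {n0 : ℕ} (hH : H.coeff (Finsupp.single 1 n0) = 1) {r : U} (hr : r ≠ 0) :
    ∃ I : Submodule Φ U, IsI I ∧ r ∉ I ∧ Finite (U ⧸ I) := by
  obtain ⟨n, hn⟩ := nilpotent hB hTf hTB hT hPI hnil
  exact rf_nil hΦ (std_com hB hTf hTB hT) hn hF hHF hH hr

end Pool.Agent.V8H74.LR
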