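import Pool.Agent.V8H74.LR.FMul
import Pool.Agent.V8H74.LR.Lin

/-!
Multilinear identities with a coefficient `1`.
-/

set_option autoImplicit false

namespace Pool.Agent.V8H74.LR

open Pool.Agent.H854R3.CR

variable {U : Type} [Ring U]

/-- the leading coefficients of the identities of `A` -/
def Lead (A : Submodule ℤ U) : Ideal ℤ where
  carrier := {c | ∃ (f : List ℕ →₀ ℤ) (w : List ℕ), Van (A : Set U) f ∧ f w = c ∧ Deg f w.length}
  add_mem' := by
    rintro a b ⟨f, u, hf, rfl, hu⟩ ⟨g, v, hg, rfl, hv⟩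
    refine ⟨fmul f (Finsupp.single v 1) + fmul (Finsupp.single u 1) g, u ++ v, ?_, ?_, ?_⟩
    · intro x hx
      rw [ev_add, ev_fmul, ev_fmul, hf x hx, hg x hx, zero_mul, mul_zero, add_zero]
    · rw [Finsupp.add_apply, fmul_lead hu (Deg.single v 1) rfl rfl,
        fmul_lead (Deg.single u 1) hv rfl rfl, Finsupp.single_eq_same, Finsupp.single_eq_same,
        mul_one, one_mul]
    · rw [List.length_append]
      exact (hu.fmul (Deg.single v 1)).add ((Deg.single u 1).fmul hv)
  zero_mem' := by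
    refine ⟨0, [], ?_, rfl, fun _ _ => rfl⟩
    intro x _
    exact ev_zero x
  smul_mem' := by
    rintro c a ⟨f, u, hf, rfl, hu⟩
    refine ⟨c • f, u, ?_, rfl, hu.smul c⟩
    intro x hx
    rw [ev_smul, hf x hx, smul_zero]

theorem pi_of_lead {A : Submodule ℤ U} (h : 1 ∈ Lead A) : PIOn (A : Set U) := by
  obtain ⟨f, w, hf, h1, hw⟩ := h
  refine ⟨w.length, _, 1, ?_, lin (fun k => w.get k) hw hf⟩
  change f (List.ofFn fun k => w.get k) = 1
  rw [List.ofFn_get, h1]

/-- **An identity with a coefficient prime to `p` for every prime `p` gives a multilinear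
identity with a coefficient `1`.** -/
theorem pi_of_primes {A : Submodule ℤ U}
    (h : ∀ p : ℕ, p.Prime → ∃ f : List ℕ →₀ ℤ, Van (A : Set U) f ∧ ∃ w, ¬ (p : ℤ) ∣ f w) :
    PIOn (A : Set U) := by
  classical
  apply pi_of_lead
  obtain ⟨c, hc⟩ := (IsPrincipalIdealRing.principal (Lead A)).principal
  have hmem : ∀ x, x ∈ Lead A ↔ c ∣ x := by
    intro x
    rw [hc]
    exact Ideal.mem_span_singleton
  by_cases hu : IsUnit c
  · rw [hmem]
    exact hu.dvd
  exfalso
  by_cases h0 : c = 0
  · obtain ⟨f, hf, w, hw⟩ := h 2 Nat.prime_two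
    have hf0 : f ≠ 0 := by
      rintro rfl
      exact hw (dvd_zero _)
    obtain ⟨v, hv, hdeg⟩ := exists_top hf0
    have h1 : f v ∈ Lead A := ⟨f, v, hf, rfl, hdeg⟩
    rw [hmem, h0, zero_dvd_iff] at h1
    exact hv h1
  have h1 : c.natAbs ≠ 1 := fun h => hu (Int.isUnit_iff_natAbs_eq.2 h)
  obtain ⟨p, hp, hpc⟩ := Nat.exists_prime_and_dvd h1
  have hpc' : (p : ℤ) ∣ c := Int.natCast_dvd.2 hpc
  obtain ⟨c', hc'⟩ := hpc'
  -- the multilinear identity with all coefficients divisible by `c`
  obtain ⟨f, w, hf, hfw, hdeg⟩ := (hmem c).2 dvd_rfl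
  have hl := lin (fun k => w.get k) hdeg hf
  have hdiv : ∀ π : Equiv.Perm (Fin w.length), c ∣ f (List.ofFn fun k => w.get (π k)) := by
    intro π
    rw [← hmem]
    refine ⟨f, _, hf, rfl, ?_⟩
    rw [List.length_ofFn]
    exact hdeg
  choose q hq using hdiv
  let G : List ℕ →₀ ℤ := ∑ π : Equiv.Perm (Fin w.length),
    Finsupp.single (List.ofFn fun k => ((π k : Fin w.length) : ℕ)) (q π)
  let w0 : List ℕ := List.ofFn fun k : Fin w.length => (k : ℕ)
  have hw0 : w0.length = w.length := List.length_ofFn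
  have hGdeg : Deg G w.length := by
    intro v hv
    simp only [G, Finsupp.finsetSum_apply]
    refine Finset.sum_eq_zero fun π _ => ?_
    rw [Finsupp.single_apply, if_neg]
    rintro rfl
    rw [List.length_ofFn] at hv
    exact lt_irrefl _ hv
  have hG1 : G w0 = 1 := by
    simp only [G, Finsupp.finsetSum_apply]
    rw [Finset.sum_eq_single 1]
    · rw [Finsupp.single_apply, if_pos (show (List.ofFn fun k : Fin w.length =>
        (((1 : Equiv.Perm (Fin w.length)) k : Fin w.length) : ℕ)) = w0 from rfl)]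
      have h2 := hq 1
      have h3 : (List.ofFn fun k => w.get ((1 : Equiv.Perm (Fin w.length)) k)) = w :=
        List.ofFn_get w
      rw [h3, hfw] at h2
      have h4 : c * 1 = c * q 1 := by rw [mul_one]; exact h2
      exact (mul_left_cancel₀ h0 h4).symm
    · intro π _ hπ
      rw [Finsupp.single_apply, if_neg]
      intro h2
      apply hπ
      ext k
      have h3 := List.ofFn_injective h2
      exact congrFun h3 k
    · intro h2
      exact absurd (Finset.mem_univ _) h2
  have hGev : ∀ x : ℕ → U, (∀ i, x i ∈ (A : Set U)) → c • ev x G = 0 := by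
    intro x hx
    simp only [G, ev_sum, ev_single]
    rw [← hl (fun k => x k) (fun k => hx _), Finset.smul_sum]
    refine Finset.sum_congr rfl fun π _ => ?_
    simp only [hq π]
    rw [mul_smul, List.map_ofFn]
    rfl
  -- the identity for `p`
  obtain ⟨g, hg, w1, hw1⟩ := h p hp
  let u : List ℕ →₀ ℤ := g.mapRange (fun a => if (p : ℤ) ∣ a then 0 else a) (by simp)
  let v : List ℕ →₀ ℤ := g.mapRange (fun a => if (p : ℤ) ∣ a then a / p else 0) (by simp)
  have huv : g = u + (p : ℤ) • v := by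
    ext w
    simp only [u, v, Finsupp.add_apply, Finsupp.smul_apply, Finsupp.mapRange_apply, smul_eq_mul]
    split_ifs with h2
    · rw [zero_add, Int.mul_ediv_cancel' h2]
    · rw [mul_zero, add_zero]
  have hu0 : u ≠ 0 := by
    intro h2
    have h3 := DFunLike.congr_fun h2 w1
    simp only [u, Finsupp.mapRange_apply, if_neg hw1, Finsupp.zero_apply] at h3
    exact hw1 (by rw [h3]; exact dvd_zero _)
  obtain ⟨w2, hw2, hudeg⟩ := exists_top hu0
  have hw2' : ¬ (p : ℤ) ∣ u w2 := by
    intro h2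
    apply hw2
    simp only [u, Finsupp.mapRange_apply] at h2 ⊢
    split_ifs with h3
    · rfl
    · rw [if_neg h3] at h2
      exact absurd h2 h3
  have hmem2 : c' * u w2 ∈ Lead A := by
    refine ⟨c' • fmul G u, w0 ++ w2, ?_, ?_, ?_⟩
    · intro x hx
      rw [ev_smul, ev_fmul]
      have h2 : ev x u = -((p : ℤ) • ev x v) := by
        have h3 := hg x hx
        rw [huv, ev_add, ev_smul] at h3
        exact eq_neg_of_add_eq_zero_left h3
      rw [h2, mul_neg, smul_neg, mul_smul_comm, smul_smul, mul_comm c' (p : ℤ), ← hc',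
        ← smul_mul_assoc, hGev x hx, zero_mul, neg_zero]
    · rw [Finsupp.smul_apply, fmul_lead hGdeg hudeg hw0 rfl, hG1, one_mul, smul_eq_mul]
    · rw [List.length_append, hw0]
      exact (hGdeg.fmul hudeg).smul _
  rw [hmem, hc'] at hmem2
  have hc'0 : c' ≠ 0 := by
    rintro rfl
    rw [mul_zero] at hc'
    exact h0 hc'
  rw [mul_comm (p : ℤ) c'] at hmem2
  exact hw2' ((mul_dvd_mul_iff_left hc'0).1 hmem2)

end Pool.Agent.V8H74.LR
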