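import Pool.Agent.V8H74.LR.Defs

/-!
Rings of quadruples with `x (y z - z y) u = 0`.
-/

set_option autoImplicit false

namespace Pool.Agent.V8H74.LR

open Polynomial

/-- The ring of quadruples `(p, q, r, c)` with multiplication
`(p, q, r, c) (p', q', r', c') = (p p', q p', p r', Λ (q r'))`. -/
@[ext]
structure RG {K P C : Type} [CommRing K] [CommRing P] [Algebra K P] [AddCommGroup C] [Module K C]
    (Λ : P →ₗ[K] C) : Type where
  /-- first component -/
  p : P
  /-- second component -/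
  q : P
  /-- third component -/
  r : P
  /-- fourth component -/
  c : C

namespace RG

section

variable {K P C : Type} [CommRing K] [CommRing P] [Algebra K P] [AddCommGroup C] [Module K C]
  {Λ : P →ₗ[K] C}

instance : Zero (RG Λ) := ⟨⟨0, 0, 0, 0⟩⟩
instance : Add (RG Λ) := ⟨fun x y => ⟨x.p + y.p, x.q + y.q, x.r + y.r, x.c + y.c⟩⟩
instance : Neg (RG Λ) := ⟨fun x => ⟨-x.p, -x.q, -x.r, -x.c⟩⟩
instance : Sub (RG Λ) := ⟨fun x y => ⟨x.p - y.p, x.q - y.q, x.r - y.r, x.c - y.c⟩⟩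
instance {S : Type} [SMul S P] [SMul S C] : SMul S (RG Λ) :=
  ⟨fun k x => ⟨k • x.p, k • x.q, k • x.r, k • x.c⟩⟩
instance : Mul (RG Λ) := ⟨fun x y => ⟨x.p * y.p, x.q * y.p, x.p * y.r, Λ (x.q * y.r)⟩⟩

/-- the components as an element of a product -/
def toProd (x : RG Λ) : P × P × P × C := (x.p, x.q, x.r, x.c)

theorem toProd_inj : Function.Injective (toProd : RG Λ → P × P × P × C) := by
  intro x y h
  simp only [toProd, Prod.mk.injEq] at h
  exact RG.ext h.1 h.2.1 h.2.2.1 h.2.2.2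

instance : AddCommGroup (RG Λ) :=
  Function.Injective.addCommGroup toProd toProd_inj rfl (fun _ _ => rfl) (fun _ => rfl)
    (fun _ _ => rfl) (fun _ _ => rfl) (fun _ _ => rfl)

instance : Module K (RG Λ) :=
  Function.Injective.module K (⟨⟨toProd, rfl⟩, fun _ _ => rfl⟩ : RG Λ →+ P × P × P × C)
    toProd_inj (fun _ _ => rfl)

@[simp] theorem zero_p : (0 : RG Λ).p = 0 := rfl
@[simp] theorem zero_q : (0 : RG Λ).q = 0 := rfl
@[simp] theorem zero_r : (0 : RG Λ).r = 0 := rfl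
@[simp] theorem zero_c : (0 : RG Λ).c = 0 := rfl
@[simp] theorem add_p (x y : RG Λ) : (x + y).p = x.p + y.p := rfl
@[simp] theorem add_q (x y : RG Λ) : (x + y).q = x.q + y.q := rfl
@[simp] theorem add_r (x y : RG Λ) : (x + y).r = x.r + y.r := rfl
@[simp] theorem add_c (x y : RG Λ) : (x + y).c = x.c + y.c := rfl
@[simp] theorem sub_p (x y : RG Λ) : (x - y).p = x.p - y.p := rfl
@[simp] theorem sub_q (x y : RG Λ) : (x - y).q = x.q - y.q := rfl
@[simp] theorem sub_r (x y : RG Λ) : (x - y).r = x.r - y.r := rfl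
@[simp] theorem sub_c (x y : RG Λ) : (x - y).c = x.c - y.c := rfl
@[simp] theorem mul_p (x y : RG Λ) : (x * y).p = x.p * y.p := rfl
@[simp] theorem mul_q (x y : RG Λ) : (x * y).q = x.q * y.p := rfl
@[simp] theorem mul_r (x y : RG Λ) : (x * y).r = x.p * y.r := rfl
@[simp] theorem mul_c (x y : RG Λ) : (x * y).c = Λ (x.q * y.r) := rfl
@[simp] theorem smul_p (k : K) (x : RG Λ) : (k • x).p = k • x.p := rfl
@[simp] theorem smul_q (k : K) (x : RG Λ) : (k • x).q = k • x.q := rfl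
@[simp] theorem smul_r (k : K) (x : RG Λ) : (k • x).r = k • x.r := rfl
@[simp] theorem smul_c (k : K) (x : RG Λ) : (k • x).c = k • x.c := rfl

instance : NonUnitalRing (RG Λ) :=
  { (inferInstance : AddCommGroup (RG Λ)), (inferInstance : Mul (RG Λ)) with
    left_distrib := by
      intro a b c
      ext <;> simp [mul_add]
    right_distrib := by
      intro a b c
      ext <;> simp [add_mul]
    zero_mul := by
      intro a
      ext <;> simp
    mul_zero := by
      intro a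
      ext <;> simp
    mul_assoc := by
      intro a b c
      ext <;> simp [mul_assoc] }

instance : IsScalarTower K (RG Λ) (RG Λ) where
  smul_assoc := by
    intro k a b
    ext <;> simp [smul_eq_mul]

instance : SMulCommClass K (RG Λ) (RG Λ) where
  smul_comm := by
    intro k a b
    ext <;> simp [smul_eq_mul]

theorem comm4 (x y z u : RG Λ) : x * (y * z - z * y) * u = 0 := by
  ext
  · simp only [mul_p, sub_p, zero_p]
    ring
  · simp only [mul_p, mul_q, sub_p, zero_q]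
    ring
  · simp only [mul_p, mul_r, sub_p, zero_r]
    ring
  · simp only [mul_p, mul_q, mul_c, sub_p, zero_c]
    rw [mul_comm z.p y.p, sub_self, mul_zero, zero_mul, map_zero]

end

end RG

section field

variable (K : Type) [Field K]

/-- the sum of the coefficients at the powers `X ^ (2 ^ k)` -/
noncomputable def L2 : K[X] →ₗ[K] K := by
  classical
  exact Polynomial.lsum fun n => if ∃ k : ℕ, n = 2 ^ k then LinearMap.id else 0

variable {K}

open Classical in
theorem L2_monomial (n : ℕ) (c : K) :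
    L2 K (Polynomial.monomial n c) = if ∃ k : ℕ, n = 2 ^ k then c else 0 := by
  rw [L2, Polynomial.lsum_apply, Polynomial.sum_monomial_index]
  · split_ifs
    · rfl
    · rfl
  · rw [map_zero]

theorem L2_nz {p : K[X]} (hp : p ≠ 0) : ∃ s : K[X], L2 K (p * s) = 1 := by
  classical
  have hd : p.natDegree < 2 ^ p.natDegree := Nat.lt_two_pow_self
  have hdd : 2 ^ (p.natDegree + 1) = 2 * 2 ^ p.natDegree := by rw [pow_succ, mul_comm]
  let m := 2 ^ (p.natDegree + 1) - p.natDegree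
  have hm : m + p.natDegree = 2 ^ (p.natDegree + 1) := by omega
  refine ⟨Polynomial.monomial m (p.leadingCoeff)⁻¹, ?_⟩
  have h1 : p * Polynomial.monomial m (p.leadingCoeff)⁻¹ =
      (∑ i ∈ Finset.range (p.natDegree + 1), Polynomial.monomial i (p.coeff i)) *
        Polynomial.monomial m (p.leadingCoeff)⁻¹ := by
    rw [← Polynomial.as_sum_range p]
  rw [h1, Finset.sum_mul, map_sum, Finset.sum_eq_single p.natDegree]
  · rw [Polynomial.monomial_mul_monomial, L2_monomial, if_pos]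
    · exact mul_inv_cancel₀ (Polynomial.leadingCoeff_ne_zero.2 hp)
    · exact ⟨p.natDegree + 1, by omega⟩
  · intro i hi hne
    rw [Polynomial.monomial_mul_monomial, L2_monomial, if_neg]
    rintro ⟨k, hk⟩
    have hi' : i < p.natDegree := by
      have := Finset.mem_range.1 hi
      omega
    have h2 : 2 ^ k < 2 ^ (p.natDegree + 1) := by omega
    have h3 : 2 ^ p.natDegree < 2 ^ k := by omega
    have h4 := (Nat.pow_lt_pow_iff_right (by norm_num)).1 h2
    have h5 := (Nat.pow_lt_pow_iff_right (by norm_num)).1 h3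
    omega
  · intro h
    exact absurd (Finset.mem_range.2 (Nat.lt_succ_self _)) h

/-- the generators -/
def gen4 : Set (RG (L2 K)) := {⟨1, 0, 0, 0⟩, ⟨X, 0, 0, 0⟩, ⟨0, 1, 0, 0⟩, ⟨0, 0, 1, 0⟩}

theorem gen4_finite : (gen4 (K := K)).Finite := by
  simp only [gen4]
  exact Set.toFinite _

theorem RG_gen (T : AddSubgroup (RG (L2 K))) (hm : ∀ x ∈ T, ∀ y ∈ T, x * y ∈ T)
    (hs : ∀ k : K, ∀ x ∈ T, k • x ∈ T) (hg : ∀ x ∈ gen4, x ∈ T) (x : RG (L2 K)) : x ∈ T := by
  have g1 : (⟨1, 0, 0, 0⟩ : RG (L2 K)) ∈ T := hg _ (by simp [gen4])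
  have g2 : (⟨X, 0, 0, 0⟩ : RG (L2 K)) ∈ T := hg _ (by simp [gen4])
  have g3 : (⟨0, 1, 0, 0⟩ : RG (L2 K)) ∈ T := hg _ (by simp [gen4])
  have g4 : (⟨0, 0, 1, 0⟩ : RG (L2 K)) ∈ T := hg _ (by simp [gen4])
  have hp : ∀ p : K[X], (⟨p, 0, 0, 0⟩ : RG (L2 K)) ∈ T := by
    intro p
    induction p using Polynomial.induction_on with
    | C a =>
      have h := hs a _ g1
      have e : a • (⟨1, 0, 0, 0⟩ : RG (L2 K)) = ⟨C a, 0, 0, 0⟩ := by
        refine RG.ext ?_ (smul_zero _) (smul_zero _) (smul_zero _)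
        change a • (1 : K[X]) = C a
        rw [Polynomial.smul_eq_C_mul, mul_one]
      rwa [e] at h
    | add p q hp hq =>
      have h := T.add_mem hp hq
      have e : (⟨p, 0, 0, 0⟩ : RG (L2 K)) + ⟨q, 0, 0, 0⟩ = ⟨p + q, 0, 0, 0⟩ :=
        RG.ext rfl (add_zero _) (add_zero _) (add_zero _)
      rwa [e] at h
    | monomial n a ih =>
      have h := hm _ ih _ g2
      have e : (⟨C a * X ^ n, 0, 0, 0⟩ : RG (L2 K)) * ⟨X, 0, 0, 0⟩ =
          ⟨C a * X ^ (n + 1), 0, 0, 0⟩ := by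
        refine RG.ext ?_ (zero_mul _) (mul_zero _) ?_
        · change C a * X ^ n * X = C a * X ^ (n + 1)
          rw [pow_succ, mul_assoc]
        · change L2 K (0 * 0) = 0
          rw [mul_zero, map_zero]
      rwa [e] at h
  have hq : ∀ q : K[X], (⟨0, q, 0, 0⟩ : RG (L2 K)) ∈ T := by
    intro q
    have h := hm _ g3 _ (hp q)
    have e : (⟨0, 1, 0, 0⟩ : RG (L2 K)) * ⟨q, 0, 0, 0⟩ = ⟨0, q, 0, 0⟩ := by
      refine RG.ext (zero_mul _) (one_mul _) (zero_mul _) ?_
      change L2 K (1 * 0) = 0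
      rw [mul_zero, map_zero]
    rwa [e] at h
  have hr : ∀ r : K[X], (⟨0, 0, r, 0⟩ : RG (L2 K)) ∈ T := by
    intro r
    have h := hm _ (hp r) _ g4
    have e : (⟨r, 0, 0, 0⟩ : RG (L2 K)) * ⟨0, 0, 1, 0⟩ = ⟨0, 0, r, 0⟩ := by
      refine RG.ext (mul_zero _) (mul_zero _) (mul_one _) ?_
      change L2 K (0 * 1) = 0
      rw [zero_mul, map_zero]
    rwa [e] at h
  have hc : ∀ c : K, (⟨0, 0, 0, c⟩ : RG (L2 K)) ∈ T := by
    intro c
    have h := hs c _ (hm _ (hq X) _ g4)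
    have e : c • ((⟨0, X, 0, 0⟩ : RG (L2 K)) * ⟨0, 0, 1, 0⟩) = ⟨0, 0, 0, c⟩ := by
      refine RG.ext ?_ ?_ ?_ ?_
      · change c • ((0 : K[X]) * 0) = 0
        rw [mul_zero, smul_zero]
      · change c • ((X : K[X]) * 0) = 0
        rw [mul_zero, smul_zero]
      · change c • ((0 : K[X]) * 1) = 0
        rw [zero_mul, smul_zero]
      · change c • L2 K (X * 1) = c
        rw [mul_one, ← Polynomial.monomial_one_one_eq_X, L2_monomial, if_pos ⟨0, rfl⟩,
          smul_eq_mul, mul_one]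
    rwa [e] at h
  obtain ⟨p, q, r, c⟩ := x
  have h := T.add_mem (T.add_mem (hp p) (hq q)) (T.add_mem (hr r) (hc c))
  have e : (⟨p, 0, 0, 0⟩ : RG (L2 K)) + ⟨0, q, 0, 0⟩ + (⟨0, 0, r, 0⟩ + ⟨0, 0, 0, c⟩) =
      ⟨p, q, r, c⟩ := by
    refine RG.ext ?_ ?_ ?_ ?_
    · change p + 0 + (0 + 0) = p
      abel
    · change 0 + q + (0 + 0) = q
      abel
    · change (0 : K[X]) + 0 + (r + 0) = r
      abel
    · change (0 : K) + 0 + (0 + c) = c
      abel
  rwa [e] at h

/-- the element `(0, 0, 0, 1)` is killed by all homomorphisms to finite rings -/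
theorem RG_nrf (T : Type) [NonUnitalRing T] [Finite T] (φ : RG (L2 K) →ₙ+* T) :
    φ (⟨0, 0, 0, 1⟩ : RG (L2 K)) = 0 := by
  have h1 : ¬ Function.Injective (fun p : K[X] => φ (⟨p, 0, 0, 0⟩ : RG (L2 K))) :=
    not_injective_infinite_finite _
  simp only [Function.Injective, not_forall] at h1
  obtain ⟨p1, p2, h2, h3⟩ := h1
  have h4 : φ (⟨p1 - p2, 0, 0, 0⟩ : RG (L2 K)) = 0 := by
    have e : (⟨p1 - p2, 0, 0, 0⟩ : RG (L2 K)) = ⟨p1, 0, 0, 0⟩ - ⟨p2, 0, 0, 0⟩ :=
      RG.ext rfl (sub_zero _).symm (sub_zero _).symm (sub_zero _).symm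
    rw [e, map_sub, h2, sub_self]
  obtain ⟨s, hs⟩ := L2_nz (sub_ne_zero.2 h3)
  have e : (⟨0, 0, 0, 1⟩ : RG (L2 K)) =
      ⟨0, 1, 0, 0⟩ * (⟨p1 - p2, 0, 0, 0⟩ * ⟨s, 0, 0, 0⟩) * ⟨0, 0, 1, 0⟩ := by
    refine RG.ext ?_ ?_ ?_ ?_
    · change (0 : K[X]) = 0 * _ * 0
      rw [mul_zero]
    · change (0 : K[X]) = _ * 0
      rw [mul_zero]
    · change (0 : K[X]) = 0 * _ * 1
      rw [zero_mul, zero_mul]
    · change (1 : K) = L2 K (1 * ((p1 - p2) * s) * 1)
      rw [one_mul, mul_one, hs]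
  rw [e, map_mul, map_mul, map_mul, h4, zero_mul, mul_zero, zero_mul]

end field

end Pool.Agent.V8H74.LR
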