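import Pool.Agent.V8H74.LR.GQ

/-!
Subdirectly irreducible algebras with a nilpotent commutator ideal: first properties.
-/

set_option autoImplicit false

namespace Pool.Agent.V8H74.LR

variable {Φ : Type} [CommRing Φ] {U : Type} [Ring U] [Algebra Φ U]

/-- ascending chain condition for the ideals inside `X` -/
def Acc (X : Submodule Φ U) : Prop :=
  ∀ J : ℕ → Submodule Φ U, Monotone J → (∀ k, IsI (J k)) → (∀ k, J k ≤ X) →
    ∃ n, ∀ m, n ≤ m → J m = J n

theorem isI_inf {I J : Submodule Φ U} (hI : IsI I) (hJ : IsI J) : IsI (I ⊓ J) :=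
  ⟨fun u x hx => ⟨hI.l u x hx.1, hJ.l u x hx.2⟩, fun u x hx => ⟨hI.r u x hx.1, hJ.r u x hx.2⟩⟩

theorem isI_bot : IsI (⊥ : Submodule Φ U) := by
  constructor
  · intro u x hx
    rw [Submodule.mem_bot] at hx
    rw [hx, mul_zero]
    exact zero_mem _
  · intro u x hx
    rw [Submodule.mem_bot] at hx
    rw [hx, zero_mul]
    exact zero_mem _

theorem isI_top : IsI (⊤ : Submodule Φ U) := ⟨fun _ _ _ => trivial, fun _ _ _ => trivial⟩

theorem acc_of_accB {M X : Submodule Φ U} (hM : IsI M) (hMX : M ≤ X) (h1 : AccB M X)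
    (h2 : Acc M) : Acc X := by
  intro J hmono hJ hJX
  obtain ⟨n1, hn1⟩ := h1 (fun k => J k ⊔ M) (fun k l hkl => sup_le_sup_right (hmono hkl) _)
    (fun k => isI_sup (hJ k) hM) (fun k => le_sup_right) (fun k => sup_le (hJX k) hMX)
  obtain ⟨n2, hn2⟩ := h2 (fun k => J k ⊓ M) (fun k l hkl => inf_le_inf_right _ (hmono hkl))
    (fun k => isI_inf (hJ k) hM) (fun k => inf_le_right)
  refine ⟨max n1 n2, fun m hm => ?_⟩
  have e1 := (hn1 m ((le_max_left _ _).trans hm)).trans (hn1 (max n1 n2) (le_max_left _ _)).symm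
  have e2 := (hn2 m ((le_max_right _ _).trans hm)).trans (hn2 (max n1 n2) (le_max_right _ _)).symm
  exact (eq_of_le_of_inf_le_of_sup_le (hmono hm) e2.le e1.le).symm

theorem acc_bot : Acc (⊥ : Submodule Φ U) := by
  intro J _ _ hJ
  exact ⟨0, fun m _ => (le_bot_iff.1 (hJ m)).trans (le_bot_iff.1 (hJ 0)).symm⟩

/-- the layers of `N` -/
def Layers (N : Submodule Φ U) : Prop :=
  ∀ i, 1 ≤ i → ∃ X : Set U, X.Finite ∧ (∀ x ∈ X, x ∈ N ^ i) ∧ N ^ i ≤ Idl Φ X ⊔ N ^ (i + 1)

theorem cl_pow {N : Submodule Φ U} (hN : IsI N) (hcomm : ∀ u v : U, u * v - v * u ∈ N) {i : ℕ}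
    (hi : 1 ≤ i) : CL (N ^ (i + 1)) (N ^ i) :=
  ⟨isI_pow hN _ (by omega), isI_pow hN i hi, pow_succ_le hN hi,
    fun u v x hx => by rw [pow_succ']; exact Submodule.mul_mem_mul (hcomm u v) hx,
    fun u v x hx => by rw [pow_succ]; exact Submodule.mul_mem_mul hx (hcomm u v)⟩

theorem cl_top {N : Submodule Φ U} (hN : IsI N) (hcomm : ∀ u v : U, u * v - v * u ∈ N) :
    CL N ⊤ :=
  ⟨hN, isI_top, le_top, fun u v _ _ => hN.r _ _ (hcomm u v), fun u v _ _ => hN.l _ _ (hcomm u v)⟩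

theorem acc_pow [IsNoetherianRing Φ] {N : Submodule Φ U} (hN : IsI N)
    (hcomm : ∀ u v : U, u * v - v * u ∈ N) (hL : Layers N) {n : ℕ} (hn : N ^ n = ⊥) {T : Set U}
    (hTf : T.Finite) (hT : Algebra.adjoin Φ T = ⊤) : ∀ i, 1 ≤ i → Acc (N ^ i) := by
  have key : ∀ k i, 1 ≤ i → n ≤ i + k → Acc (N ^ i) := by
    intro k
    induction k with
    | zero =>
      intro i hi hni
      rw [add_zero] at hni
      have : N ^ i = ⊥ := by
        rw [← Nat.sub_add_cancel hni, pow_add, hn]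
        exact Submodule.mul_bot _
      rw [this]
      exact acc_bot
    | succ k ih =>
      intro i hi hni
      obtain ⟨X, hX, hXN, hle⟩ := hL i hi
      exact acc_of_accB (isI_pow hN _ (by omega)) (pow_succ_le hN hi)
        (accB (cl_pow hN hcomm hi) hTf hT hX hXN hle) (ih (i + 1) (by omega) (by omega))
  intro i hi
  exact key n i hi (by omega)

theorem acc_top [IsNoetherianRing Φ] {N : Submodule Φ U} (hN : IsI N)
    (hcomm : ∀ u v : U, u * v - v * u ∈ N) (hL : Layers N) {n : ℕ} (hn : N ^ n = ⊥) {T : Set U}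
    (hTf : T.Finite) (hT : Algebra.adjoin Φ T = ⊤) : Acc (⊤ : Submodule Φ U) := by
  have h1 := acc_pow hN hcomm hL hn hTf hT 1 le_rfl
  rw [pow_one] at h1
  refine acc_of_accB hN le_top (accB (cl_top hN hcomm) hTf hT (Set.finite_singleton 1)
    (fun _ _ => trivial) ?_) h1
  intro x _
  refine Submodule.mem_sup_left ?_
  have := (isI_Idl (Φ := Φ) ({1} : Set U)).l x 1 (subset_Idl rfl)
  rwa [mul_one] at this

/-- every non-zero ideal contains `r` -/
def Min (Φ : Type) [CommRing Φ] {U : Type} [Ring U] [Algebra Φ U] (r : U) : Prop :=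
  r ≠ 0 ∧ ∀ J : Submodule Φ U, IsI J → J ≠ ⊥ → r ∈ J

/-- Fitting's lemma -/
theorem fitting {X : Submodule Φ U} (hX : IsI X) (hacc : Acc X) {r : U} (hr : Min Φ r)
    (ζ : U →ₗ[Φ] U) (hζ : ∀ x ∈ X, ζ x ∈ X) (hl : ∀ u, ∀ x ∈ X, ζ (u * x) = u * ζ x)
    (hrr : ∀ u, ∀ x ∈ X, ζ (x * u) = ζ x * u) (h0 : ζ r = 0) :
    ∃ k : ℕ, ∀ x ∈ X, (ζ ^ k) x = 0 := by
  have hk : ∀ k : ℕ, ∀ x ∈ X, (ζ ^ k) x ∈ X := by
    intro k
    induction k with
    | zero => intro x hx; exact hx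
    | succ k ih => intro x hx; rw [pow_succ']; exact hζ _ (ih x hx)
  have hkl : ∀ k : ℕ, ∀ u, ∀ x ∈ X, (ζ ^ k) (u * x) = u * (ζ ^ k) x := by
    intro k
    induction k with
    | zero => intro u x _; rfl
    | succ k ih =>
      intro u x hx
      rw [pow_succ', Module.End.mul_apply, Module.End.mul_apply, ih u x hx, hl _ _ (hk k x hx)]
  have hkr : ∀ k : ℕ, ∀ u, ∀ x ∈ X, (ζ ^ k) (x * u) = (ζ ^ k) x * u := by
    intro k
    induction k with
    | zero => intro u x _; rfl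
    | succ k ih =>
      intro u x hx
      rw [pow_succ', Module.End.mul_apply, Module.End.mul_apply, ih u x hx, hrr _ _ (hk k x hx)]
  obtain ⟨n, hn⟩ := hacc (fun k => X ⊓ LinearMap.ker (ζ ^ k)) (by
      intro k l hkl' x hx
      refine ⟨hx.1, ?_⟩
      have h2 : (ζ ^ k) x = 0 := hx.2
      change (ζ ^ l) x = 0
      rw [← Nat.sub_add_cancel hkl', pow_add, Module.End.mul_apply, h2, map_zero])
    (by
      intro k
      constructor
      · intro u x hx
        refine ⟨hX.l u x hx.1, ?_⟩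
        have h2 : (ζ ^ k) x = 0 := hx.2
        change (ζ ^ k) (u * x) = 0
        rw [hkl k u x hx.1, h2, mul_zero]
      · intro u x hx
        refine ⟨hX.r u x hx.1, ?_⟩
        have h2 : (ζ ^ k) x = 0 := hx.2
        change (ζ ^ k) (x * u) = 0
        rw [hkr k u x hx.1, h2, zero_mul])
    (fun k => inf_le_left)
  refine ⟨n, ?_⟩
  by_contra hcon
  push Not at hcon
  obtain ⟨x0, hx0, hne⟩ := hcon
  have hI : IsI (Submodule.map (ζ ^ n) X) := by
    constructor
    · rintro u _ ⟨x, hx, rfl⟩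
      exact ⟨u * x, hX.l u x hx, hkl n u x hx⟩
    · rintro u _ ⟨x, hx, rfl⟩
      exact ⟨x * u, hX.r u x hx, hkr n u x hx⟩
  have h1 := hr.2 _ hI (by
    intro hbot
    apply hne
    have : (ζ ^ n) x0 ∈ Submodule.map (ζ ^ n) X := ⟨x0, hx0, rfl⟩
    rwa [hbot, Submodule.mem_bot] at this)
  obtain ⟨x, hx, hxr⟩ := h1
  have h2 : x ∈ X ⊓ LinearMap.ker (ζ ^ (n + 1)) := by
    refine ⟨hx, ?_⟩
    change (ζ ^ (n + 1)) x = 0
    rw [pow_succ', Module.End.mul_apply, hxr, h0]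
  have h3 := hn (n + 1) (Nat.le_succ n)
  change X ⊓ LinearMap.ker (ζ ^ (n + 1)) = X ⊓ LinearMap.ker (ζ ^ n) at h3
  rw [h3] at h2
  have h4 : (ζ ^ n) x = 0 := h2.2
  exact hr.1 (hxr.symm.trans h4)

/-- a nilpotent ideal annihilates the heart -/
theorem nil_heart {N : Submodule Φ U} (hN : IsI N) {n : ℕ} (hn : N ^ n = ⊥) {r : U}
    (hr : Min Φ r) : (∀ x ∈ N, ∀ y ∈ Idl Φ ({r} : Set U), x * y = 0) ∧
      (∀ x ∈ N, ∀ y ∈ Idl Φ ({r} : Set U), y * x = 0) := by
  set H := Idl Φ ({r} : Set U) with hH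
  have hHI : IsI H := isI_Idl _
  have hrH : r ∈ H := subset_Idl rfl
  constructor
  · by_contra hcon
    push Not at hcon
    obtain ⟨x, hx, y, hy, hxy⟩ := hcon
    have h1 : r ∈ N * H := hr.2 _ (isI_mul hN hHI) (fun h0 => hxy (by
      have := Submodule.mul_mem_mul hx hy
      rwa [h0, Submodule.mem_bot] at this))
    have h2 : H ≤ N * H := Idl_le (isI_mul hN hHI) (fun z hz => by
      rw [Set.mem_singleton_iff] at hz; rw [hz]; exact h1)
    have h3 : ∀ k : ℕ, H ≤ N ^ k * H := by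
      intro k
      induction k with
      | zero => rw [pow_zero, one_mul]
      | succ k ih =>
        rw [pow_succ, mul_assoc]
        exact ih.trans (mul_le_mul' le_rfl h2)
    have h4 := h3 n hrH
    rw [hn, Submodule.bot_mul, Submodule.mem_bot] at h4
    exact hr.1 h4
  · by_contra hcon
    push Not at hcon
    obtain ⟨x, hx, y, hy, hxy⟩ := hcon
    have h1 : r ∈ H * N := hr.2 _ (isI_mul hHI hN) (fun h0 => hxy (by
      have := Submodule.mul_mem_mul hy hx
      rwa [h0, Submodule.mem_bot] at this))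
    have h2 : H ≤ H * N := Idl_le (isI_mul hHI hN) (fun z hz => by
      rw [Set.mem_singleton_iff] at hz; rw [hz]; exact h1)
    have h3 : ∀ k : ℕ, H ≤ H * N ^ k := by
      intro k
      induction k with
      | zero => rw [pow_zero, mul_one]
      | succ k ih =>
        rw [pow_succ', ← mul_assoc]
        exact ih.trans (mul_le_mul' h2 le_rfl)
    have h4 := h3 n hrH
    rw [hn, Submodule.mul_bot, Submodule.mem_bot] at h4
    exact hr.1 h4

theorem heart_fin [Algebra.FiniteType ℤ Φ] {N : Submodule Φ U} (hN : IsI N)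
    (hcomm : ∀ u v : U, u * v - v * u ∈ N) {n : ℕ} (hn : N ^ n = ⊥) {r : U}
    (hr : Min Φ r) {T : Set U} (hTf : T.Finite) (hT : Algebra.adjoin Φ T = ⊤) :
    Finite (Idl Φ ({r} : Set U)) := by
  obtain ⟨h1, h2⟩ := nil_heart hN hn hr
  refine heart_finite hr.1 hr.2 ⟨isI_bot, isI_Idl _, bot_le, ?_, ?_⟩ hTf hT
  · intro u v x hx
    rw [h1 _ (hcomm u v) x hx]
    exact zero_mem _
  · intro u v x hx
    rw [h2 _ (hcomm u v) x hx]
    exact zero_mem _

theorem torsion {r : U} (hr : Min Φ r) (hH : Finite (Idl Φ ({r} : Set U)))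
    (hacc : Acc (⊤ : Submodule Φ U)) : ∃ m : ℕ, 0 < m ∧ ∀ u : U, (m : Φ) • u = 0 := by
  set c := Nat.card (Idl Φ ({r} : Set U)) with hc
  have hcpos : 0 < c := Nat.card_pos
  have hcr : (c : Φ) • r = 0 := by
    have h1 := card_nsmul_eq_zero' (G := Idl Φ ({r} : Set U)) (x := ⟨r, subset_Idl rfl⟩)
    have h2 := congrArg (Subtype.val) h1
    rw [Nat.cast_smul_eq_nsmul]
    exact h2
  obtain ⟨k, hk⟩ := fitting isI_top hacc hr ((c : Φ) • LinearMap.id) (fun _ _ => trivial)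
    (fun u x _ => by simp) (fun u x _ => by simp) (by simpa using hcr)
  refine ⟨c ^ k, pow_pos hcpos k, fun u => ?_⟩
  have h1 := hk u trivial
  rw [smul_pow] at h1
  simpa using h1

end Pool.Agent.V8H74.LR
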