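import Pool.Agent.V8H74.LR.SI1

/-!
Ideals of finite index in algebras with a nilpotent commutator ideal.
-/

set_option autoImplicit false

namespace Pool.Agent.V8H74.LR

variable {Φ : Type} [CommRing Φ] {U : Type} [Ring U] [Algebra Φ U]

/-- an ideal as a left ideal -/
def toIdl (I : Submodule Φ U) (hI : IsI I) : Ideal U where
  carrier := I
  add_mem' := I.add_mem
  zero_mem' := I.zero_mem
  smul_mem' := fun u x hx => hI.l u x hx

theorem exists_comm_quot (I : Submodule Φ U) (hI : IsI I)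
    (hc : ∀ u v : U, u * v - v * u ∈ I) :
    ∃ (C : Type) (_ : CommRing C) (_ : Algebra Φ C) (π : U →ₐ[Φ] C),
      Function.Surjective π ∧ ∀ x, π x = 0 ↔ x ∈ I := by
  have htwo : (toIdl I hI).IsTwoSided := ⟨fun {a} b ha => hI.r b a ha⟩
  let iR : Ring (U ⧸ toIdl I hI) := Ideal.Quotient.ring (toIdl I hI)
  let iC : CommRing (U ⧸ toIdl I hI) :=
    { iR with
      mul_comm := by
        intro a b
        obtain ⟨x, rfl⟩ := Ideal.Quotient.mk_surjective a
        obtain ⟨y, rfl⟩ := Ideal.Quotient.mk_surjective b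
        have h1 : Ideal.Quotient.mk (toIdl I hI) (x * y) =
            Ideal.Quotient.mk (toIdl I hI) (y * x) := Ideal.Quotient.eq.2 (hc x y)
        exact h1 }
  let iA : Algebra Φ (U ⧸ toIdl I hI) := Ideal.Quotient.algebra Φ
  refine ⟨U ⧸ toIdl I hI, iC, iA, Ideal.Quotient.mkₐ Φ (toIdl I hI), ?_, ?_⟩
  · exact Ideal.Quotient.mk_surjective
  · intro x
    exact Ideal.Quotient.eq_zero_iff_mem

open Polynomial in
theorem comm_fin {C : Type} [CommRing C] [Algebra Φ C] [Algebra.FiniteType ℤ C] (D : Ideal C)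
    (hD : Finite (C ⧸ D)) (H : Φ[X]) (n0 : ℕ) (hH : H.coeff n0 = 1)
    (hrel : ∀ y ∈ D, ∀ d ∈ D, y * aeval d H = 0) : Finite C := by
  classical
  have hnoeth : IsNoetherianRing C := Algebra.FiniteType.isNoetherianRing ℤ C
  have hprime : ∀ q : PrimeSpectrum C, Finite (C ⧸ q.asIdeal) := by
    intro q
    by_cases hDq : D ≤ q.asIdeal
    · exact Finite.of_surjective (Ideal.Quotient.factor hDq)
        (Ideal.Quotient.factor_surjective hDq)
    · obtain ⟨y, hyD, hyq⟩ := SetLike.not_le_iff_exists.1 hDq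
      have hq := q.2
      let P : (C ⧸ q.asIdeal)[X] := H.map (algebraMap Φ (C ⧸ q.asIdeal))
      have hP : P ≠ 0 := by
        intro h0
        have h1 := congrArg (fun p => p.coeff n0) h0
        simp only [P, coeff_map, hH, map_one, coeff_zero] at h1
        exact one_ne_zero h1
      have hroot : ∀ d ∈ D, Ideal.Quotient.mk q.asIdeal d ∈ P.roots := by
        intro d hd
        rw [mem_roots hP, IsRoot.def]
        have h1 : y * aeval d H ∈ q.asIdeal := by
          rw [hrel y hyD d hd]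
          exact zero_mem _
        have h2 : aeval d H ∈ q.asIdeal := (hq.mem_or_mem h1).resolve_left hyq
        rw [← Ideal.Quotient.eq_zero_iff_mem] at h2
        have h3 : P.eval (Ideal.Quotient.mk q.asIdeal d) =
            aeval (Ideal.Quotient.mkₐ Φ q.asIdeal d) H := by
          rw [aeval_def, eval_map]
          rfl
        rw [h3, aeval_algHom_apply]
        exact h2
      have hfin : Set.Finite {x | x ∈ P.roots} := by
        have : {x | x ∈ P.roots} = (P.roots.toFinset : Set (C ⧸ q.asIdeal)) := by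
          ext x; simp
        rw [this]
        exact Finset.finite_toSet _
      have hfin' := hfin.to_subtype
      have hy0 : Ideal.Quotient.mk q.asIdeal y ≠ 0 := by
        rw [Ne, Ideal.Quotient.eq_zero_iff_mem]; exact hyq
      refine Finite.of_injective (β := {x | x ∈ P.roots})
        (fun x => ⟨x * Ideal.Quotient.mk q.asIdeal y, ?_⟩) ?_
      · obtain ⟨z, rfl⟩ := Ideal.Quotient.mk_surjective x
        rw [← map_mul]
        exact hroot _ (D.mul_mem_left _ hyD)
      · intro x x' hxx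
        have h1 := congrArg Subtype.val hxx
        exact mul_right_cancel₀ hy0 h1
  obtain ⟨Z, hZ⟩ := PrimeSpectrum.exists_primeSpectrum_prod_le C ⊥
  have hprod : ∀ Z : Multiset (PrimeSpectrum C),
      Finite (C ⧸ (Z.map PrimeSpectrum.asIdeal).prod) := by
    intro Z
    induction Z using Multiset.induction_on with
    | empty =>
      rw [Multiset.map_zero, Multiset.prod_zero, Ideal.one_eq_top]
      infer_instance
    | cons a Z ih =>
      rw [Multiset.map_cons, Multiset.prod_cons, mul_comm]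
      have h1 := hprime a
      exact Submodule.finite_quotient_smul _ (IsNoetherian.noetherian a.asIdeal)
  have h1 := hprod Z
  rw [le_bot_iff.1 hZ] at h1
  exact Finite.of_equiv _ (RingEquiv.quotientBot C).toEquiv

/-- finite index from a linear map into a finite module -/
theorem fin_of_ker {V : Type} [AddCommGroup V] [Module Φ V] [Finite V] (ψ : U →ₗ[Φ] V)
    {I : Submodule Φ U} (h : LinearMap.ker ψ ≤ I) : Finite (U ⧸ I) := by
  have h1 : Finite (U ⧸ LinearMap.ker ψ) :=
    Finite.of_injective _ (LinearMap.quotKerEquivRange ψ).injective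
  exact Finite.of_surjective _ (Submodule.factor_surjective h)

theorem fin_inf {I J : Submodule Φ U} (hI : Finite (U ⧸ I)) (hJ : Finite (U ⧸ J)) :
    Finite (U ⧸ (I ⊓ J)) := by
  refine fin_of_ker (I.mkQ.prod J.mkQ) ?_
  intro x hx
  have h1 : (I.mkQ x, J.mkQ x) = 0 := hx
  have h2 := congrArg Prod.fst h1
  have h3 := congrArg Prod.snd h1
  exact ⟨(Submodule.Quotient.mk_eq_zero _).1 h2, (Submodule.Quotient.mk_eq_zero _).1 h3⟩

theorem fin_of_span {F : Set U} (hF : F.Finite) {E : Submodule Φ U}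
    (hE : Submodule.span Φ F ⊔ E = ⊤) {m : ℕ} (hm : ∀ u : U, (m : Φ) • u = 0)
    (hf : Finite (Φ ⧸ Ideal.span {(m : Φ)})) : Finite (U ⧸ E) := by
  have h1 : Module.Finite Φ (U ⧸ E) := by
    refine ⟨Submodule.fg_def.2 ⟨E.mkQ '' F, hF.image _, ?_⟩⟩
    rw [← Submodule.map_span]
    have h2 : Submodule.map E.mkQ (Submodule.span Φ F ⊔ E) = ⊤ := by
      rw [hE, Submodule.map_top, Submodule.range_mkQ]
    rwa [Submodule.map_sup, Submodule.mkQ_map_self, sup_bot_eq] at h2
  refine finmod m (fun g => ?_) hf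
  obtain ⟨x, rfl⟩ := Submodule.Quotient.mk_surjective _ g
  rw [← Submodule.Quotient.mk_smul, hm, Submodule.Quotient.mk_zero]

theorem span_of_fin {E : Submodule Φ U} (hE : Finite (U ⧸ E)) :
    ∃ F : Set U, F.Finite ∧ Submodule.span Φ F ⊔ E = ⊤ := by
  refine ⟨Set.range (fun q : U ⧸ E => Quotient.out q), Set.finite_range _, ?_⟩
  rw [eq_top_iff]
  intro u _
  have h1 : Submodule.Quotient.mk (p := E) (Quotient.out (Submodule.Quotient.mk (p := E) u)) =
      Submodule.Quotient.mk u := Quotient.out_eq _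
  rw [Submodule.Quotient.eq] at h1
  have h2 : u = Quotient.out (Submodule.Quotient.mk (p := E) u) -
      (Quotient.out (Submodule.Quotient.mk (p := E) u) - u) := by abel
  rw [h2]
  exact sub_mem (Submodule.mem_sup_left (Submodule.subset_span ⟨_, rfl⟩))
    (Submodule.mem_sup_right h1)

theorem lift {N : Submodule Φ U} (hN : IsI N) (hL : Layers N) {E : Submodule Φ U} (hE : IsI E)
    {F1 : Set U} (hF1 : F1.Finite) (h1 : Submodule.span Φ F1 ⊔ (N ⊔ E) = ⊤) :
    ∀ k, 1 ≤ k → ∃ F : Set U, F.Finite ∧ Submodule.span Φ F ⊔ (N ^ k ⊔ E) = ⊤ := by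
  intro k hk
  induction k, hk using Nat.le_induction with
  | base => exact ⟨F1, hF1, by rwa [pow_one]⟩
  | succ k hk ih =>
    obtain ⟨F, hF, hFk⟩ := ih
    obtain ⟨X, hX, hXN, hle⟩ := hL k hk
    set G : Set U := {z | ∃ f ∈ F1, ∃ x ∈ X, ∃ g ∈ F1, z = f * x * g} with hG
    have hNk1 := isI_pow hN (k + 1) (by omega)
    have hWI : IsI (N ^ (k + 1) ⊔ E) := isI_sup hNk1 hE
    have hnx : ∀ n ∈ N ⊔ E, ∀ x ∈ X, n * x ∈ N ^ (k + 1) ⊔ E := by
      intro n hn x hx
      obtain ⟨p, hp, q, hq, rfl⟩ := Submodule.mem_sup.1 hn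
      rw [add_mul]
      refine Submodule.add_mem_sup ?_ (hE.r _ _ hq)
      rw [pow_succ']
      exact Submodule.mul_mem_mul hp (hXN x hx)
    have hxn : ∀ n ∈ N ⊔ E, ∀ x ∈ X, x * n ∈ N ^ (k + 1) ⊔ E := by
      intro n hn x hx
      obtain ⟨p, hp, q, hq, rfl⟩ := Submodule.mem_sup.1 hn
      rw [mul_add]
      refine Submodule.add_mem_sup ?_ (hE.l _ _ hq)
      rw [pow_succ]
      exact Submodule.mul_mem_mul (hXN x hx) hp
    have hkey : ∀ x ∈ X, ∀ u v : U, u * x * v ∈ Submodule.span Φ G ⊔ (N ^ (k + 1) ⊔ E) := by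
      intro x hx u v
      have hu : u ∈ Submodule.span Φ F1 ⊔ (N ⊔ E) := by rw [h1]; trivial
      have hv : v ∈ Submodule.span Φ F1 ⊔ (N ⊔ E) := by rw [h1]; trivial
      obtain ⟨p, hp, n, hn, rfl⟩ := Submodule.mem_sup.1 hu
      obtain ⟨q, hq, n', hn', rfl⟩ := Submodule.mem_sup.1 hv
      have e1 : (p + n) * x * (q + n') = p * x * q + (p * (x * n') + n * x * (q + n')) := by
        noncomm_ring
      rw [e1]
      refine add_mem (Submodule.mem_sup_left ?_) (Submodule.mem_sup_right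
        (add_mem (hWI.l _ _ (hxn n' hn' x hx)) (hWI.r _ _ (hnx n hn x hx))))
      rw [mul_assoc]
      refine span_into_r _ ?_ p hp
      intro f hf
      rw [← mul_assoc]
      refine span_into_l _ ?_ q hq
      intro g hg
      exact Submodule.subset_span ⟨f, hf, x, hx, g, hg, rfl⟩
    refine ⟨F ∪ G, ?_, ?_⟩
    · refine hF.union ?_
      have : G ⊆ (fun p : U × U × U => p.1 * p.2.1 * p.2.2) '' (F1 ×ˢ X ×ˢ F1) := by
        rintro z ⟨f, hf, x, hx, g, hg, rfl⟩
        exact ⟨(f, x, g), ⟨hf, hx, hg⟩, rfl⟩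
      exact ((hF1.prod (hX.prod hF1)).image _).subset this
    · rw [eq_top_iff, ← hFk, Submodule.span_union, sup_assoc]
      refine sup_le_sup_left ?_ _
      refine sup_le (hle.trans (sup_le ?_ ?_)) ?_
      · apply Submodule.span_le.2
        rintro _ ⟨u, v, x, hx, rfl⟩
        exact hkey x hx u v
      · exact le_sup_left.trans le_sup_right
      · exact le_sup_right.trans le_sup_right

/-- The quotient is finite if a polynomial relation holds on an ideal of finite index. -/
theorem cof [Algebra.FiniteType ℤ Φ] {N : Submodule Φ U} (hN : IsI N)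
    (hcomm : ∀ u v : U, u * v - v * u ∈ N) (hL : Layers N) {n : ℕ} (hn : N ^ n = ⊥) {T : Set U}
    (hTf : T.Finite) (hT : Algebra.adjoin Φ T = ⊤) {m : ℕ} (hm : ∀ u : U, (m : Φ) • u = 0)
    (hf : Finite (Φ ⧸ Ideal.span {(m : Φ)})) {D E : Submodule Φ U} (hE : IsI E) (hD : IsI D)
    (hDf : Finite (U ⧸ D)) {H : Polynomial Φ} {n0 : ℕ} (hH : H.coeff n0 = 1)
    (hrel : ∀ y ∈ D, ∀ d ∈ D, y * Polynomial.aeval d H ∈ E) : Finite (U ⧸ E) := by
  have hNE : IsI (N ⊔ E) := isI_sup hN hE
  obtain ⟨C, iC, iA, π, hπ, hker⟩ := exists_comm_quot (N ⊔ E) hNE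
    (fun u v => Submodule.mem_sup_left (hcomm u v))
  have hftC : Algebra.FiniteType Φ C := by
    have hU : Algebra.FiniteType Φ U := ⟨Subalgebra.fg_def.2 ⟨T, hTf, hT⟩⟩
    exact Algebra.FiniteType.of_surjective π hπ
  have hftC' : Algebra.FiniteType ℤ C := Algebra.FiniteType.trans (S := Φ) inferInstance hftC
  let DC : Ideal C :=
    { carrier := {c | ∃ d ∈ D, π d = c}
      add_mem' := by
        rintro _ _ ⟨x, hx, rfl⟩ ⟨y, hy, rfl⟩
        exact ⟨x + y, D.add_mem hx hy, map_add _ _ _⟩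
      zero_mem' := ⟨0, D.zero_mem, map_zero _⟩
      smul_mem' := by
        rintro c _ ⟨x, hx, rfl⟩
        obtain ⟨u, rfl⟩ := hπ c
        exact ⟨u * x, hD.l u x hx, map_mul _ _ _⟩ }
  have hDC : Finite (C ⧸ DC) := by
    apply Finite.of_surjective (fun q : U ⧸ D => (Ideal.Quotient.mk DC (π (Quotient.out q))))
    intro c
    obtain ⟨c, rfl⟩ := Ideal.Quotient.mk_surjective c
    obtain ⟨u, rfl⟩ := hπ c
    refine ⟨Submodule.Quotient.mk u, ?_⟩
    have h1 : Submodule.Quotient.mk (p := D) (Quotient.out (Submodule.Quotient.mk (p := D) u)) =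
      Submodule.Quotient.mk u := Quotient.out_eq _
    rw [Submodule.Quotient.eq] at h1
    apply Ideal.Quotient.eq.2
    exact ⟨_, h1, map_sub _ _ _⟩
  have hCf : Finite C := by
    refine comm_fin DC hDC H n0 hH ?_
    rintro _ ⟨y, hy, rfl⟩ _ ⟨d, hd, rfl⟩
    rw [Polynomial.aeval_algHom_apply, ← map_mul, hker]
    exact Submodule.mem_sup_right (hrel y hy d hd)
  have h1 : Finite (U ⧸ (N ⊔ E)) := by
    refine fin_of_ker π.toLinearMap ?_
    intro x hx
    exact (hker x).1 hx
  obtain ⟨F1, hF1, h2⟩ := span_of_fin h1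
  obtain ⟨F, hF, h3⟩ := lift hN hL hE hF1 h2 (n + 1) (by omega)
  have h4 : N ^ (n + 1) = ⊥ := by rw [pow_succ, hn]; exact Submodule.bot_mul _
  rw [h4, bot_sup_eq] at h3
  exact fin_of_span hF h3 hm hf

end Pool.Agent.V8H74.LR
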