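import Pool.Agent.V8H74.LR.SI2

/-!
Subdirectly irreducible algebras with a nilpotent commutator ideal and the identity are finite.
-/

set_option autoImplicit false

namespace Pool.Agent.V8H74.LR

variable {Φ : Type} [CommRing Φ] {U : Type} [Ring U] [Algebra Φ U]

/-- the two-sided annihilator of an ideal -/
def Ann2 (M : Submodule Φ U) : Submodule Φ U where
  carrier := {z | ∀ m ∈ M, z * m = 0 ∧ m * z = 0}
  add_mem' := by
    intro x y hx hy m hm
    rw [add_mul, mul_add, (hx m hm).1, (hx m hm).2, (hy m hm).1, (hy m hm).2, add_zero]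
    exact ⟨rfl, rfl⟩
  zero_mem' := by
    intro m _
    rw [zero_mul, mul_zero]
    exact ⟨rfl, rfl⟩
  smul_mem' := by
    intro c x hx m hm
    rw [smul_mul_assoc, mul_smul_comm, (hx m hm).1, (hx m hm).2, smul_zero]
    exact ⟨rfl, rfl⟩

theorem mem_Ann2 {M : Submodule Φ U} {z : U} :
    z ∈ Ann2 M ↔ ∀ m ∈ M, z * m = 0 ∧ m * z = 0 := Iff.rfl

theorem isI_Ann2 {M : Submodule Φ U} (hM : IsI M) : IsI (Ann2 M) := by
  constructor
  · intro u x hx m hm
    constructor
    · rw [mul_assoc, (hx m hm).1, mul_zero]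
    · rw [← mul_assoc, (hx _ (hM.r u m hm)).2]
  · intro u x hx m hm
    constructor
    · rw [mul_assoc, (hx _ (hM.l u m hm)).1]
    · rw [← mul_assoc, (hx m hm).2, zero_mul]

theorem fin_Ann2 {M : Submodule Φ U} (hM : IsI M) (hf : Finite M) : Finite (U ⧸ Ann2 M) := by
  let ψ : U →ₗ[Φ] (M → M) × (M → M) :=
    { toFun := fun u => (fun m => ⟨u * m, hM.l u m m.2⟩, fun m => ⟨m * u, hM.r u m m.2⟩)
      map_add' := by
        intro u v
        ext m
        · exact add_mul _ _ _
        · exact mul_add _ _ _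
      map_smul' := by
        intro c u
        ext m
        · exact smul_mul_assoc _ _ _
        · exact mul_smul_comm _ _ _ }
  refine fin_of_ker ψ ?_
  intro x hx m hm
  have h1 : ψ x = 0 := hx
  constructor
  · exact congrArg Subtype.val (congrFun (congrArg Prod.fst h1) ⟨m, hm⟩)
  · exact congrArg Subtype.val (congrFun (congrArg Prod.snd h1) ⟨m, hm⟩)

/-- the elements `z` with `P z Q ⊆ W` -/
def Mid (P Q W : Submodule Φ U) : Submodule Φ U where
  carrier := {z | ∀ p ∈ P, ∀ q ∈ Q, p * z * q ∈ W}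
  add_mem' := by
    intro x y hx hy p hp q hq
    rw [mul_add, add_mul]
    exact add_mem (hx p hp q hq) (hy p hp q hq)
  zero_mem' := by
    intro p _ q _
    rw [mul_zero, zero_mul]
    exact zero_mem _
  smul_mem' := by
    intro c x hx p hp q hq
    rw [mul_smul_comm, smul_mul_assoc]
    exact W.smul_mem c (hx p hp q hq)

theorem mem_Mid {P Q W : Submodule Φ U} {z : U} :
    z ∈ Mid P Q W ↔ ∀ p ∈ P, ∀ q ∈ Q, p * z * q ∈ W := Iff.rfl

theorem isI_Mid {P Q W : Submodule Φ U} (hP : IsI P) (hQ : IsI Q) : IsI (Mid P Q W) := by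
  constructor
  · intro u x hx p hp q hq
    rw [← mul_assoc]
    exact hx _ (hP.r u p hp) q hq
  · intro u x hx p hp q hq
    have := hx p hp _ (hQ.l u q hq)
    convert this using 1
    noncomm_ring

/-- the standing assumptions -/
structure Std (B N : Submodule Φ U) : Prop where
  isB : IsI B
  isN : IsI N
  sub : N ≤ B
  comm : ∀ u v : U, u * v - v * u ∈ N
  gen : ∃ T : Set U, T.Finite ∧ (∀ t ∈ T, t ∈ B) ∧ Algebra.adjoin Φ T = ⊤
  fg : ∃ X : Set U, X.Finite ∧ N = Idl Φ X

theorem Std.clo {B N : Submodule Φ U} (h : Std B N) : Clo (B : Set U) :=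
  ⟨B.zero_mem, fun _ hx _ hy => B.add_mem hx hy, fun x _ y hy => h.isB.l x y hy⟩

theorem Std.setup {B N : Submodule Φ U} (h : Std B N) : Setup (B : Set U) N :=
  ⟨h.clo, fun c _ hx => B.smul_mem c hx, h.isN, fun _ hx => h.sub hx, h.comm, h.gen, h.fg⟩

theorem Std.span {B N : Submodule Φ U} (h : Std B N) : Submodule.span Φ {1} ⊔ B = ⊤ := by
  obtain ⟨T, _, hTB, hT⟩ := h.gen
  rw [eq_top_iff]
  intro u _
  have hu : u ∈ Algebra.adjoin Φ T := by rw [hT]; trivial
  induction hu using Algebra.adjoin_induction with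
  | mem x hx => exact Submodule.mem_sup_right (hTB x hx)
  | algebraMap r =>
    refine Submodule.mem_sup_left ?_
    rw [Algebra.algebraMap_eq_smul_one]
    exact Submodule.smul_mem _ _ (Submodule.mem_span_singleton_self 1)
  | add x y _ _ hx hy => exact add_mem (hx trivial) (hy trivial)
  | mul x y _ _ hx hy =>
    obtain ⟨p, hp, b, hb, rfl⟩ := Submodule.mem_sup.1 (hx trivial)
    obtain ⟨c, rfl⟩ := Submodule.mem_span_singleton.1 hp
    rw [add_mul, smul_mul_assoc, one_mul]
    exact add_mem (Submodule.smul_mem _ _ (hy trivial)) (Submodule.mem_sup_right (h.isB.r _ _ hb))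

section kc

variable {B N : Submodule Φ U} (h : Std B N) {n : ℕ} (hn : N ^ n = ⊥)
  {m : ℕ} (hm : ∀ u : U, (m : Φ) • u = 0) (hf : Finite (Φ ⧸ Ideal.span {(m : Φ)}))
  {H : Polynomial Φ} {n0 : ℕ} (hH : H.coeff n0 = 1) (hG : G6 (B : Set U) H) (hL : Layers N)

include h hn hm hf hH hG hL in
/-- the elements acting trivially between two ideals form an ideal of finite index -/
theorem kc [Algebra.FiniteType ℤ Φ] {i : ℕ} {P Q : Submodule Φ U}
    (hP : IsI P) (hQ : IsI Q) (hPN : P ≤ N) (hQN : Q ≤ N)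
    (hPQ : ∀ p ∈ P, ∀ q ∈ Q, p * q ∈ N ^ (i + 1)) (hQP : ∀ p ∈ P, ∀ q ∈ Q, q * p ∈ N ^ (i + 1))
    (hMf : Finite (N ^ (i + 1) : Submodule Φ U)) :
    ∀ j, Finite (U ⧸ Mid P Q (N ^ (i + 1 + j))) := by
  obtain ⟨T, hTf, hTB, hT⟩ := h.gen
  have hM := isI_pow h.isN (i + 1) (by omega)
  have hBf : Finite (U ⧸ B) := fin_of_span (Set.finite_singleton 1) h.span hm hf
  have hZf := fin_Ann2 hM hMf
  have hZI := isI_Ann2 hM
  intro j
  induction j with
  | zero =>
    refine fin_of_ker (V := Unit) (0 : U →ₗ[Φ] Unit) ?_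
    intro z _ p hp q hq
    rw [add_zero]
    exact hPQ _ (hP.r z p hp) q hq
  | succ j ih =>
    set W := N ^ (i + 1 + j) with hW
    have hWI : IsI W := isI_pow h.isN _ (by omega)
    have hWM : W ≤ N ^ (i + 1) := pow_anti h.isN (by omega) (by omega)
    have hW1 : N ^ (i + 1 + (j + 1)) = W * N := pow_succ N (i + 1 + j)
    have hW2 : N ^ (i + 1 + (j + 1)) = N * W := pow_succ' N (i + 1 + j)
    have hI := isI_pow h.isN (i + 1 + (j + 1)) (by omega)
    have hEI : IsI (Mid P Q W) := isI_Mid hP hQ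
    set D := Mid P Q W ⊓ (Ann2 (N ^ (i + 1)) ⊓ B) with hD
    have hDI : IsI D := isI_inf hEI (isI_inf hZI h.isB)
    have hDf : Finite (U ⧸ D) := fin_inf ih (fin_inf hZf hBf)
    refine cof h.isN h.comm hL hn hTf hT hm hf (isI_Mid hP hQ) hDI hDf hH ?_
    intro y hy d hd p hp q hq
    have key := hG (N ^ (i + 1 + (j + 1))) hI (p * y) (h.isB.l _ _ hy.2.2) q (h.sub (hQN hq)) d
      hd.2.2 ?_
    · have e : p * (y * (Polynomial.aeval d) H) * q = p * y * (Polynomial.aeval d) H * q := by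
        noncomm_ring
      rw [e]
      exact key
    · have hmid : ∀ z ∈ D, p * z * q ∈ W := fun z hz => hz.1 p hp q hq
      refine ⟨fun u => ?_, fun u v => ?_, fun u v => ?_, fun u v => ?_, fun u v => ?_⟩
      · have h1 := (hy.2.1 _ (hQP p hp _ (hQ.r u q hq))).2
        have e : q * u * (p * y) = q * u * p * y := by noncomm_ring
        rw [e, h1]
        exact zero_mem _
      · have h1 := hWM (hmid _ (hDI.r v _ hy))
        have h2 := ((hDI.r u _ hd).2.1 _ h1).1
        have e : d * u * (p * y) * v * q = d * u * (p * (y * v) * q) := by noncomm_ring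
        rw [e, h2]
        exact zero_mem _
      · have h1 := hWM (hmid _ (hDI.r u _ hy))
        have h2 := ((hDI.l v _ hd).2.1 _ h1).2
        have e : p * y * u * q * v * d = p * (y * u) * q * (v * d) := by noncomm_ring
        rw [e, h2]
        exact zero_mem _
      · have h1 := hmid _ (hDI.r v _ hy)
        have h2 : p * y * u ∈ N := h.isN.r _ _ (h.isN.r _ _ (hPN hp))
        have e : p * y * u * (p * y) * v * q = p * y * u * (p * (y * v) * q) := by noncomm_ring
        rw [e, hW2]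
        exact Submodule.mul_mem_mul h2 h1
      · have h1 := hmid _ (hDI.r u _ hy)
        have h2 : v * q ∈ N := h.isN.l _ _ (hQN hq)
        have e : p * y * u * q * v * q = p * (y * u) * q * (v * q) := by noncomm_ring
        rw [e, hW1]
        exact Submodule.mul_mem_mul h1 h2

end kc

theorem pow_repeat {W : Submodule Φ U} (hW : Finite (U ⧸ W)) (t : U) :
    ∃ a b : ℕ, a < b ∧ t ^ b - t ^ a ∈ W := by
  obtain ⟨a, b, hne, hab⟩ := Finite.exists_ne_map_eq_of_infinite
    (fun n : ℕ => Submodule.Quotient.mk (p := W) (t ^ n))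
  have hab' := (Submodule.Quotient.eq W).1 hab
  rcases lt_or_gt_of_ne hne with h | h
  · refine ⟨a, b, h, ?_⟩
    rw [← neg_sub]
    exact neg_mem hab'
  · exact ⟨b, a, h, hab'⟩

section ops

variable {M X : Submodule Φ U} (h : CL M X)

theorem Lq_sub (u v : U) : Lq h (u - v) = Lq h u - Lq h v := by
  rw [eq_sub_iff_add_eq, ← Lq_add, sub_add_cancel]

theorem Rq_sub (u v : U) : Rq h (u - v) = Rq h u - Rq h v := by
  rw [eq_sub_iff_add_eq, ← Rq_add, sub_add_cancel]

theorem Lq_one : Lq h 1 = 1 := by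
  have := Lq_alg h 1
  rwa [map_one, map_one] at this

theorem Rq_one : Rq h 1 = 1 := by
  have := Rq_alg h 1
  rwa [map_one, map_one] at this

theorem Lq_pow (u : U) (k : ℕ) : Lq h (u ^ k) = Lq h u ^ k := by
  induction k with
  | zero => rw [pow_zero, pow_zero, Lq_one]
  | succ k ih => rw [pow_succ, pow_succ, Lq_mul, ih]

theorem Rq_pow (u : U) (k : ℕ) : Rq h (u ^ k) = Rq h u ^ k := by
  induction k with
  | zero => rw [pow_zero, pow_zero, Rq_one]
  | succ k ih => rw [pow_succ, pow_succ', Rq_mul, ih]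

theorem int_of_rel {A : Type} [Ring A] [Algebra Φ A] [Nontrivial Φ] (x : A) {a b : ℕ}
    (hab : a < b) (k : ℕ)
    (hx : ((x ^ b - x ^ a) ^ 2) ^ k = 0) : IsIntegral Φ x := by
  refine ⟨((Polynomial.X ^ b - Polynomial.X ^ a) ^ 2) ^ k, ?_, ?_⟩
  · refine Polynomial.Monic.pow (Polynomial.Monic.pow ?_ 2) k
    apply Polynomial.monic_X_pow_sub
    rw [Polynomial.degree_X_pow]
    exact_mod_cast hab
  · rw [← Polynomial.aeval_def]
    simp only [map_pow, map_sub, Polynomial.aeval_X]
    exact hx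

end ops

/-- the main step: `X` is finite if `M` is finite and the elements acting trivially between `N`
and `X` form ideals of finite index -/
theorem main_step [Nontrivial Φ] {B N : Submodule Φ U} (h : Std B N)
    {m : ℕ} (hm : ∀ u : U, (m : Φ) • u = 0) (hf : Finite (Φ ⧸ Ideal.span {(m : Φ)}))
    {r : U} (hr : Min Φ r) (hH : Finite (Idl Φ ({r} : Set U)))
    {M X : Submodule Φ U} (hM : IsI M) (hX : IsI X) (hMX : M ≤ X)
    (hNX : ∀ z ∈ N, ∀ x ∈ X, z * x ∈ M ∧ x * z ∈ M) (hacc : Acc X)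
    (hMf : Finite M) (hl : Finite (U ⧸ Mid N X (⊥ : Submodule Φ U)))
    (hrf : Finite (U ⧸ Mid X N (⊥ : Submodule Φ U)))
    {Y : Set U} (hY : Y.Finite) (hYX : ∀ y ∈ Y, y ∈ X) (hXY : X ≤ Idl Φ Y ⊔ M) : Finite X := by
  obtain ⟨T, hTf, hTB, hT⟩ := h.gen
  have hcl : CL M X := ⟨hM, hX, hMX, fun u v x hx => (hNX _ (h.comm u v) x hx).1,
    fun u v x hx => (hNX _ (h.comm u v) x hx).2⟩
  set H := Idl Φ ({r} : Set U) with hHdef
  have hrH : r ∈ H := subset_Idl rfl
  have hHI : IsI H := isI_Idl _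
  set W := (Ann2 M ⊓ Ann2 H) ⊓ (Mid N X ⊥ ⊓ Mid X N ⊥) with hW
  have hWf : Finite (U ⧸ W) := fin_inf (fin_inf (fin_Ann2 hM hMf) (fin_Ann2 hHI hH))
    (fin_inf hl hrf)
  have hleft : ∀ z ∈ W, ∃ k : ℕ, ∀ x ∈ X, (z ^ 2) ^ k * x = 0 := by
    intro z hz
    have f1 : ∀ u, ∀ x ∈ X, LinearMap.mulLeft Φ (z ^ 2) (u * x) =
        u * LinearMap.mulLeft Φ (z ^ 2) x := by
      intro u x hx
      have h1 := (hz.1.1 _ (hNX _ (h.comm z u) x hx).1).1
      have h2 : (z * u - u * z) * z * x = 0 := (Submodule.mem_bot Φ).1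
        (hz.2.1 _ (h.comm z u) x hx)
      change z ^ 2 * (u * x) = u * (z ^ 2 * x)
      rw [← sub_eq_zero]
      calc z ^ 2 * (u * x) - u * (z ^ 2 * x) =
          z * ((z * u - u * z) * x) + (z * u - u * z) * z * x := by
            rw [pow_two]; noncomm_ring
        _ = 0 := by rw [h1, h2, add_zero]
    have f2 : ∀ u, ∀ x ∈ X, LinearMap.mulLeft Φ (z ^ 2) (x * u) =
        LinearMap.mulLeft Φ (z ^ 2) x * u := by
      intro u x _
      change z ^ 2 * (x * u) = z ^ 2 * x * u
      rw [mul_assoc]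
    have f3 : LinearMap.mulLeft Φ (z ^ 2) r = 0 := by
      change z ^ 2 * r = 0
      rw [pow_two, mul_assoc, (hz.1.2 r hrH).1, mul_zero]
    obtain ⟨k, hk⟩ := fitting hX hacc hr (LinearMap.mulLeft Φ (z ^ 2))
      (fun x hx => hX.l _ _ hx) f1 f2 f3
    refine ⟨k, fun x hx => ?_⟩
    have h1 := hk x hx
    rw [LinearMap.pow_mulLeft] at h1
    exact h1
  have hright : ∀ z ∈ W, ∃ k : ℕ, ∀ x ∈ X, x * (z ^ 2) ^ k = 0 := by
    intro z hz
    have f1 : ∀ u, ∀ x ∈ X, LinearMap.mulRight Φ (z ^ 2) (u * x) =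
        u * LinearMap.mulRight Φ (z ^ 2) x := by
      intro u x _
      change u * x * z ^ 2 = u * (x * z ^ 2)
      rw [mul_assoc]
    have f2 : ∀ u, ∀ x ∈ X, LinearMap.mulRight Φ (z ^ 2) (x * u) =
        LinearMap.mulRight Φ (z ^ 2) x * u := by
      intro u x hx
      have h1 := (hz.1.1 _ (hNX _ (h.comm u z) x hx).2).2
      have h2 : x * z * (u * z - z * u) = 0 := (Submodule.mem_bot Φ).1
        (hz.2.2 x hx _ (h.comm u z))
      change x * u * z ^ 2 = x * z ^ 2 * u
      rw [← sub_eq_zero]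
      calc x * u * z ^ 2 - x * z ^ 2 * u =
          x * (u * z - z * u) * z + x * z * (u * z - z * u) := by
            rw [pow_two]; noncomm_ring
        _ = 0 := by rw [h1, h2, add_zero]
    have f3 : LinearMap.mulRight Φ (z ^ 2) r = 0 := by
      change r * z ^ 2 = 0
      rw [pow_two, ← mul_assoc, (hz.1.2 r hrH).2, zero_mul]
    obtain ⟨k, hk⟩ := fitting hX hacc hr (LinearMap.mulRight Φ (z ^ 2))
      (fun x hx => hX.r _ _ hx) f1 f2 f3
    refine ⟨k, fun x hx => ?_⟩
    have h1 := hk x hx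
    rw [LinearMap.pow_mulRight] at h1
    exact h1
  have hLi : ∀ t ∈ T, IsIntegral Φ (Lq hcl t) := by
    intro t _
    obtain ⟨a, b, hab, hz⟩ := pow_repeat hWf t
    obtain ⟨k, hk⟩ := hleft _ hz
    refine int_of_rel _ hab k ?_
    rw [← Lq_pow, ← Lq_pow, ← Lq_sub, ← Lq_pow, ← Lq_pow]
    ext x
    change Lq hcl _ (mkG x) = 0
    rw [Lq_mk]
    change mkG _ = mkG 0
    rw [mkG_eq]
    change ((t ^ b - t ^ a) ^ 2) ^ k * (x : U) - 0 ∈ M
    rw [hk x x.2, sub_zero]
    exact M.zero_mem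
  have hRi : ∀ t ∈ T, IsIntegral Φ (Rq hcl t) := by
    intro t _
    obtain ⟨a, b, hab, hz⟩ := pow_repeat hWf t
    obtain ⟨k, hk⟩ := hright _ hz
    refine int_of_rel _ hab k ?_
    rw [← Rq_pow, ← Rq_pow, ← Rq_sub, ← Rq_pow, ← Rq_pow]
    ext x
    change Rq hcl _ (mkG x) = 0
    rw [Rq_mk]
    change mkG _ = mkG 0
    rw [mkG_eq]
    change (x : U) * ((t ^ b - t ^ a) ^ 2) ^ k - 0 ∈ M
    rw [hk x x.2, sub_zero]
    exact M.zero_mem
  have hGf : Finite (GQ M X) :=
    GQ_finite hcl hTf hT hLi hRi hY hYX hXY m (fun x _ => hm x) hf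
  -- an extension of a finite group by a finite group
  have hMX' : Finite (M.comap X.subtype) :=
    Finite.of_injective (fun x : M.comap X.subtype => (⟨x.1.1, x.2⟩ : M)) (by
      intro x y hxy
      have := congrArg Subtype.val hxy
      exact Subtype.ext (Subtype.ext this))
  apply Finite.of_surjective (fun p : GQ M X × M.comap X.subtype => Quotient.out p.1 + p.2.1)
  intro x
  have h1 : mkG (M := M) (Quotient.out (mkG (M := M) x)) = mkG x := Quotient.out_eq _
  rw [mkG_eq] at h1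
  refine ⟨(mkG x, ⟨x - Quotient.out (mkG (M := M) x), ?_⟩), ?_⟩
  · have := M.neg_mem h1
    rw [neg_sub] at this
    exact this
  · change Quotient.out (mkG (M := M) x) + (x - Quotient.out (mkG (M := M) x)) = x
    abel

/-- **Subdirectly irreducible algebras satisfying the identity are finite.** -/
theorem si_finite [Nontrivial Φ] [IsNoetherianRing Φ] [Algebra.FiniteType ℤ Φ]
    (hΦ : ∀ m : ℕ, 0 < m → Finite (Φ ⧸ Ideal.span {(m : Φ)}))
    {B N : Submodule Φ U} (h : Std B N) {n : ℕ} (hn : N ^ n = ⊥)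
    {H : Polynomial Φ} {n0 : ℕ} (hH : H.coeff n0 = 1) (hG : G6 (B : Set U) H) (hL : Layers N)
    {r : U} (hr : Min Φ r) : Finite U := by
  obtain ⟨T, hTf, hTB, hT⟩ := h.gen
  have hHf := heart_fin h.isN h.comm hn hr hTf hT
  have hacct := acc_top h.isN h.comm hL hn hTf hT
  have hacc := acc_pow h.isN h.comm hL hn hTf hT
  obtain ⟨m, hmpos, hm⟩ := torsion hr hHf hacct
  have hf := hΦ m hmpos
  have key : ∀ k i, 1 ≤ i → n ≤ i + k → Finite (N ^ i : Submodule Φ U) := by
    intro k
    induction k with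
    | zero =>
      intro i hi hni
      rw [add_zero] at hni
      have : N ^ i = ⊥ := by
        rw [← Nat.sub_add_cancel hni, pow_add, hn]
        exact Submodule.mul_bot _
      rw [this]
      infer_instance
    | succ k ih =>
      intro i hi hni
      have hMf := ih (i + 1) (by omega) (by omega)
      obtain ⟨X, hX, hXN, hle⟩ := hL i hi
      have hNi := isI_pow h.isN i hi
      have hNiN : N ^ i ≤ N := by
        have := pow_anti h.isN le_rfl hi
        rwa [pow_one] at this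
      have h1 : ∀ p ∈ N, ∀ q ∈ N ^ i, p * q ∈ N ^ (i + 1) := by
        intro p hp q hq
        rw [pow_succ']
        exact Submodule.mul_mem_mul hp hq
      have h2 : ∀ p ∈ N, ∀ q ∈ N ^ i, q * p ∈ N ^ (i + 1) := by
        intro p hp q hq
        rw [pow_succ]
        exact Submodule.mul_mem_mul hq hp
      have hbot : N ^ (i + 1 + n) = ⊥ := by
        rw [pow_add, hn]; exact Submodule.mul_bot _
      have hl := kc h hn hm hf hH hG hL h.isN hNi le_rfl hNiN h1 h2 hMf n
      have hr' := kc h hn hm hf hH hG hL hNi h.isN hNiN le_rfl (fun p hp q hq => h2 q hq p hp)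
        (fun p hp q hq => h1 q hq p hp) hMf n
      rw [hbot] at hl hr'
      exact main_step h hm hf hr hHf (isI_pow h.isN _ (by omega)) hNi (pow_succ_le h.isN hi)
        (fun z hz x hx => ⟨h1 z hz x hx, h2 z hz x hx⟩) (hacc i hi) hMf hl hr' hX hXN hle
  have hNf : Finite N := by
    have := key n 1 le_rfl (by omega)
    rwa [pow_one] at this
  have hAf := fin_Ann2 h.isN hNf
  have hl : Finite (U ⧸ Mid N ⊤ (⊥ : Submodule Φ U)) := by
    refine Finite.of_surjective _ (Submodule.factor_surjective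
      (p := Ann2 N) (p' := Mid N ⊤ ⊥) ?_)
    intro z hz p hp q _
    rw [(hz p hp).2, zero_mul]
    exact zero_mem _
  have hr' : Finite (U ⧸ Mid ⊤ N (⊥ : Submodule Φ U)) := by
    refine Finite.of_surjective _ (Submodule.factor_surjective
      (p := Ann2 N) (p' := Mid ⊤ N ⊥) ?_)
    intro z hz p _ q hq
    rw [mul_assoc, (hz q hq).1, mul_zero]
    exact zero_mem _
  have htop : Finite (⊤ : Submodule Φ U) := by
    refine main_step h hm hf hr hHf h.isN isI_top le_top
      (fun z hz x _ => ⟨h.isN.r _ _ hz, h.isN.l _ _ hz⟩) hacct hNf hl hr'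
      (Set.finite_singleton 1) (fun _ _ => trivial) ?_
    intro x _
    refine Submodule.mem_sup_left ?_
    have := (isI_Idl (Φ := Φ) ({1} : Set U)).l x 1 (subset_Idl rfl)
    rwa [mul_one] at this
  exact Finite.of_equiv _ (Submodule.topEquiv (R := Φ) (M := U)).toEquiv

end Pool.Agent.V8H74.LR
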