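import Pool.Agent.V8H74.LR.RF1
import Pool.Agent.H854R3.NE.Dens2
import Pool.Agent.H854R3.CR.Stmts

/-!
Finite simple modules of algebras with an ideal satisfying an identity.
-/

set_option autoImplicit false

namespace Pool.Agent.V8H74.LR

open Pool.Agent.H854R3.CR Pool.Agent.H854R3.NE

variable {Φ : Type} [CommRing Φ] {U : Type} [Ring U] [Algebra Φ U]

/-- a finite simple module as a vector space over a finite field -/
structure VS (Φ : Type) [CommRing Φ] {U : Type} [Ring U] [Algebra Φ U] (A : Submodule Φ U)
    (W : Type) [AddCommGroup W] [Module U W] (κ : Type) [Field κ] [Module κ W]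
    (γ : Φ →+* κ) : Prop where
  comm : ∀ (u : U) (k : κ) (w : W), u • k • w = k • u • w
  alg : ∀ (c : Φ) (w : W), (algebraMap Φ U c) • w = γ c • w
  dens : ∀ (n : ℕ) (v : Fin n → W), LinearIndependent κ v → ∀ y : Fin n → W,
    ∃ a ∈ A, ∀ j, a • v j = y j

theorem simple_data {A : Submodule Φ U} (hA : IsI A) (W : Type) [AddCommGroup W] [Module U W]
    [IsSimpleModule U W] [Finite W] (hAW : ∃ a ∈ A, ∃ w : W, a • w ≠ 0) :
    ∃ (κ : Type) (_ : Field κ) (_ : Finite κ) (_ : Module κ W) (γ : Φ →+* κ), VS Φ A W κ γ := by
  classical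
  let iD : DivisionRing (Module.End U W) := inferInstance
  have hfin : Finite (Module.End U W) :=
    Finite.of_injective (fun f : Module.End U W => (f : W → W)) DFunLike.coe_injective
  let iF : Field (Module.End U W) := littleWedderburn (Module.End U W)
  let iM : Module (Module.End U W) W := Module.End.applyModule
  let γ : Φ →+* Module.End U W :=
    { toFun := fun c =>
        { toFun := fun w => (algebraMap Φ U c) • w
          map_add' := fun x y => smul_add _ _ _
          map_smul' := fun u w => by
            simp only [RingHom.id_apply]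
            rw [smul_smul, smul_smul, Algebra.commutes] }
      map_one' := by
        ext w
        change (algebraMap Φ U 1) • w = w
        rw [map_one, one_smul]
      map_mul' := fun c d => by
        ext w
        change (algebraMap Φ U (c * d)) • w = (algebraMap Φ U c) • (algebraMap Φ U d) • w
        rw [map_mul, mul_smul]
      map_zero' := by
        ext w
        change (algebraMap Φ U 0) • w = 0
        rw [map_zero, zero_smul]
      map_add' := fun c d => by
        ext w
        change (algebraMap Φ U (c + d)) • w = (algebraMap Φ U c) • w + (algebraMap Φ U d) • w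
        rw [map_add, add_smul] }
  refine ⟨Module.End U W, iF, hfin, iM, γ, ?_, fun c w => rfl, ?_⟩
  · intro u k w
    exact (LinearMap.map_smul k u w).symm
  · intro n v hv y
    -- the orbits of `A`
    have horb : ∀ w : W, w ≠ 0 → ∀ z : W, ∃ a ∈ A, a • w = z := by
      let Z : Submodule U W :=
        { carrier := {w | ∀ a ∈ A, a • w = 0}
          add_mem' := by
            intro x y hx hy a ha
            rw [smul_add, hx a ha, hy a ha, add_zero]
          zero_mem' := fun a _ => smul_zero a
          smul_mem' := by
            intro u x hx a ha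
            rw [smul_smul]
            exact hx _ (hA.r u a ha) }
      have hZ : Z = ⊥ := by
        rcases eq_bot_or_eq_top Z with h | h
        · exact h
        · exfalso
          obtain ⟨a, ha, w, hw⟩ := hAW
          apply hw
          have : w ∈ Z := by rw [h]; trivial
          exact this a ha
      intro w hw z
      let O : Submodule U W :=
        { carrier := {z | ∃ a ∈ A, a • w = z}
          add_mem' := by
            rintro _ _ ⟨a, ha, rfl⟩ ⟨b, hb, rfl⟩
            exact ⟨a + b, A.add_mem ha hb, add_smul _ _ _⟩
          zero_mem' := ⟨0, A.zero_mem, zero_smul _ _⟩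
          smul_mem' := by
            rintro u _ ⟨a, ha, rfl⟩
            exact ⟨u * a, hA.l u a ha, mul_smul _ _ _⟩ }
      rcases eq_bot_or_eq_top O with h | h
      · exfalso
        have h1 : w ∈ Z := by
          intro a ha
          have : a • w ∈ O := ⟨a, ha, rfl⟩
          rw [h] at this
          exact (Submodule.mem_bot U).1 this
        rw [hZ] at h1
        exact hw ((Submodule.mem_bot U).1 h1)
      · have : z ∈ O := by rw [h]; trivial
        exact this
    have hf : ∀ k : Fin n, ∃ f : W →ₗ[Module.End U W] W,
        ∀ j, f (v j) = if j = k then v k else 0 := by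
      intro k
      obtain ⟨g, hg⟩ := LinearMap.exists_extend ((Module.Basis.span hv).constr ℤ
        (fun j => if j = k then v k else 0))
      refine ⟨g, fun j => ?_⟩
      have h3 := congrArg (fun h => h (Module.Basis.span hv j)) hg
      simp only [LinearMap.comp_apply, Module.Basis.constr_basis] at h3
      rw [← h3]
      congr 1
      simp [Module.Basis.span_apply]
    choose f hf using hf
    have hr : ∀ k : Fin n, ∃ r : U, ∀ j, r • v j = if j = k then v k else 0 := by
      intro k
      obtain ⟨r, hr⟩ := jacobson_density (f k) (Finset.univ.image v)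
      refine ⟨r, fun j => ?_⟩
      rw [← hr (v j) (Finset.mem_image_of_mem v (Finset.mem_univ j)), hf]
    choose r hr using hr
    have ha : ∀ k : Fin n, ∃ a ∈ A, a • v k = y k := fun k => horb _ (hv.ne_zero k) _
    choose a haA hav using ha
    refine ⟨∑ k, a k * r k, Submodule.sum_mem _ fun k _ => hA.r _ _ (haA k), fun j => ?_⟩
    rw [Finset.sum_smul, Finset.sum_eq_single j]
    · rw [mul_smul, hr, if_pos rfl, hav]
    · intro k _ hkj
      rw [mul_smul, hr, if_neg (Ne.symm hkj), smul_zero]
    · intro h
      exact absurd (Finset.mem_univ j) h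

section vs

variable {A : Submodule Φ U} {W : Type} [AddCommGroup W] [Module U W] {κ : Type} [Field κ]
  [Module κ W] {γ : Φ →+* κ} (h : VS Φ A W κ γ)

include h in
theorem dim_le [Module.Finite κ W] {m : ℕ} {nn : Equiv.Perm (Fin m) → ℤ}
    {π0 : Equiv.Perm (Fin m)} (h0 : nn π0 = 1) (hid : MId (A : Set U) m nn) :
    Module.finrank κ W ≤ m := by
  classical
  by_contra hcon
  push Not at hcon
  let b := Module.finBasis κ W
  let v : Fin (m + 1) → W := fun i => b (Fin.castLE hcon i)
  have hv : LinearIndependent κ v :=
    b.linearIndependent.comp _ (Fin.castLE_injective hcon)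
  have hr : ∀ k : Fin m, ∃ r ∈ A, ∀ j, r • v j = if j = k.succ then v k.castSucc else 0 :=
    fun k => h.dens _ v hv _
  choose r hrA hr using hr
  have h2 := hid (fun j => r (π0⁻¹ j)) (fun j => hrA _)
  have h3 := congrArg (fun z => z • v (Fin.last m)) h2
  simp only [Finset.sum_smul, zero_smul] at h3
  have h4 : ∀ π : Equiv.Perm (Fin m),
      (nn π • (List.ofFn fun k => r (π0⁻¹ (π k))).prod) • v (Fin.last m) =
      if π = π0 then v 0 else 0 := by
    intro π
    rw [smul_assoc]
    have h5 := chain_prod v r hr (π0⁻¹ * π)
    have h6 : (List.ofFn fun k => r (π0⁻¹ (π k))).prod • v (Fin.last m) =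
      if π0⁻¹ * π = 1 then v 0 else 0 := h5
    rw [h6]
    by_cases h7 : π = π0
    · rw [if_pos h7, if_pos (by rw [h7, inv_mul_cancel]), h7, h0, one_smul]
    · rw [if_neg h7, if_neg, smul_zero]
      intro h8
      exact h7 (inv_mul_eq_one.1 h8).symm
  rw [Finset.sum_congr rfl (fun π _ => h4 π), Finset.sum_ite_eq' Finset.univ π0,
    if_pos (Finset.mem_univ _)] at h3
  exact hv.ne_zero 0 h3

/-- coordinates of the images of a vector under a word -/
noncomputable def PQ (e : ℕ → ℕ) (i j : ℕ) (y : κ) : List ℕ → Polynomial κ × Polynomial κ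
  | [] => (1, 0)
  | l :: w => ((if l = i then Polynomial.X * (PQ e i j y w).2 else 0),
      (if l = j then (PQ e i j y w).1 else 0) + Polynomial.C (y ^ e l) * (PQ e i j y w).2)

theorem PQ_deg (e : ℕ → ℕ) (i j : ℕ) (y : κ) (w : List ℕ) :
    (PQ e i j y w).1.natDegree ≤ w.length ∧ (PQ e i j y w).2.natDegree ≤ w.length := by
  induction w with
  | nil => simp [PQ]
  | cons l w ih =>
    simp only [PQ, List.length_cons]
    constructor
    · split_ifs
      · refine Polynomial.natDegree_mul_le.trans ?_
        rw [Polynomial.natDegree_X]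
        omega
      · simp
    · refine (Polynomial.natDegree_add_le _ _).trans (max_le ?_ ?_)
      · split_ifs
        · exact ih.1.trans (Nat.le_succ _)
        · simp
      · refine (Polynomial.natDegree_C_mul_le _ _).trans (ih.2.trans (Nat.le_succ _))

theorem PQ_coeff0 (e : ℕ → ℕ) (i j : ℕ) (y : κ) (w : List ℕ) :
    (PQ e i j y w).1.coeff 0 = (if w = [] then 1 else 0) ∧
    (PQ e i j y w).2.coeff 0 = (qp (Φ := Φ) e j w).eval₂ γ y := by
  induction w with
  | nil => simp [PQ, qp]
  | cons l w ih =>
    simp only [PQ, qp]
    constructor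
    · split_ifs <;> simp_all
    · rw [Polynomial.coeff_add, Polynomial.coeff_C_mul, ih.2, Polynomial.eval₂_add,
        Polynomial.eval₂_mul, Polynomial.eval₂_X_pow, add_comm]
      congr 1
      by_cases hl : l = j
      · rw [if_pos hl, ih.1]
        by_cases hw : w = []
        · rw [if_pos hw, if_pos ⟨hl, hw⟩, Polynomial.eval₂_one]
        · rw [if_neg hw, if_neg (by tauto), Polynomial.eval₂_zero]
      · rw [if_neg hl, if_neg (by tauto), Polynomial.coeff_zero, Polynomial.eval₂_zero]

theorem PQ_coeff1 (e : ℕ → ℕ) (i j : ℕ) (y : κ) (w : List ℕ) :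
    (PQ e i j y w).1.coeff 1 = (hp (Φ := Φ) e i j w).eval₂ γ y := by
  cases w with
  | nil => simp [PQ, hp, Polynomial.coeff_one]
  | cons l w =>
    simp only [PQ, hp]
    split_ifs
    · rw [Polynomial.coeff_X_mul]
      exact (PQ_coeff0 e i j y w).2
    · simp

include h in
theorem PQ_act {v : Fin 2 → W} {e : ℕ → ℕ} {i j : ℕ} {y α : κ} {x : ℕ → U}
    (h1 : ∀ l, x l • v 1 = y ^ e l • v 1 + (if l = i then α • v 0 else 0))
    (h0 : ∀ l, x l • v 0 = if l = j then v 1 else 0) (w : List ℕ) :
    (w.map x).prod • v 0 = ((PQ e i j y w).1.eval α) • v 0 + ((PQ e i j y w).2.eval α) • v 1 := by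
  induction w with
  | nil => simp [PQ]
  | cons l w ih =>
    rw [List.map_cons, List.prod_cons, mul_smul, ih, smul_add, h.comm, h.comm, h0, h1]
    simp only [PQ]
    split_ifs <;>
      simp only [Polynomial.eval_mul, Polynomial.eval_add, Polynomial.eval_X, Polynomial.eval_C,
        Polynomial.eval_zero] <;> module

include h in
/-- an identity gives a relation satisfied by all elements of a large field -/
theorem rel_h0 [Finite κ] {f : List ℕ →₀ Φ} (hf : Van (A : Set U) f) {v : Fin 2 → W}
    (hv : LinearIndependent κ v) (e : ℕ → ℕ) (i j : ℕ) {N : ℕ}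
    (hN : ∀ w ∈ f.support, w.length ≤ N) (hκ : N < Nat.card κ) (y : κ) :
    (h0 f e i j).eval₂ γ y = 0 := by
  classical
  have := Fintype.ofFinite κ
  let S : Polynomial κ := ∑ w ∈ f.support, Polynomial.C (γ (f w)) * (PQ e i j y w).1
  have hS : S = 0 := by
    refine Polynomial.eq_zero_of_natDegree_lt_card_of_eval_eq_zero S (f := (id : κ → κ))
      Function.injective_id ?_ ?_
    · intro α
      simp only [id]
      have hx : ∀ l, ∃ a ∈ A, ∀ q : Fin 2, a • v q =
          (![if l = j then v 1 else 0, y ^ e l • v 1 + (if l = i then α • v 0 else 0)] :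
            Fin 2 → W) q := fun l => h.dens 2 v hv _
      choose x hxA hx using hx
      have h1 : ev x f • v 0 = 0 := by rw [hf x hxA, zero_smul]
      have h2 : ev x f • v 0 = ∑ w ∈ f.support, γ (f w) •
          (((PQ e i j y w).1.eval α) • v 0 + ((PQ e i j y w).2.eval α) • v 1) := by
        rw [ev, Finsupp.sum, Finset.sum_smul]
        refine Finset.sum_congr rfl fun w _ => ?_
        rw [Algebra.smul_def, mul_smul, PQ_act h (fun l => hx l 1) (fun l => hx l 0), h.alg]
      rw [h2] at h1
      simp only [smul_add, smul_smul, Finset.sum_add_distrib, ← Finset.sum_smul] at h1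
      have h3 := (LinearIndependent.pair_iff.1 (by
        have : v = ![v 0, v 1] := by
          funext q
          fin_cases q <;> rfl
        rw [← this]
        exact hv)) _ _ h1
      rw [Polynomial.eval_finsetSum]
      simp only [Polynomial.eval_mul, Polynomial.eval_C]
      exact h3.1
    · refine lt_of_le_of_lt ?_ (by rw [← Nat.card_eq_fintype_card]; exact hκ)
      refine Polynomial.natDegree_sum_le_of_forall_le _ _ fun w hw => ?_
      exact (Polynomial.natDegree_C_mul_le _ _).trans ((PQ_deg e i j y w).1.trans (hN w hw))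
  have h1 := congrArg (fun p => p.coeff 1) hS
  simp only [S, Polynomial.finsetSum_coeff, Polynomial.coeff_C_mul, Polynomial.coeff_zero] at h1
  rw [h0, Finsupp.sum, Polynomial.eval₂_finsetSum, ← h1]
  refine Finset.sum_congr rfl fun w _ => ?_
  rw [Polynomial.eval₂_mul, Polynomial.eval₂_C, PQ_coeff1 (γ := γ)]

end vs

end Pool.Agent.V8H74.LR
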