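import Pool.Agent.V8H74.LR.Simple
import Pool.Agent.H66R3.CR.Mat
import Pool.Agent.H428R3.CRLeft

/-!
An ideal of finite index whose commutators generate a nil ideal.
-/

set_option autoImplicit false

namespace Pool.Agent.V8H74.LR

open Pool.Agent.H854R3.CR Pool.Agent.H854R3.NE

/-- `U` is finitely generated as a ring -/
def FGR (U : Type) [Ring U] : Prop := ∃ S : Set U, S.Finite ∧ Subring.closure S = ⊤

theorem exists_fin_rep {U : Type} [Ring U] (hg : FGR U) {K : Type} [Field K]
    {s : ℕ} (Θ : U →+* Matrix (Fin s) (Fin s) K) (α : U) (hα : ∀ k, Θ α ^ k ≠ 0) :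
    ∃ (L : Type) (_ : Field L) (_ : Finite L) (Θ' : U →+* Matrix (Fin s) (Fin s) L),
      ∀ k, Θ' α ^ k ≠ 0 := by
  classical
  obtain ⟨S₀, hS₀, hcl⟩ := hg
  let gens : Set K := {k | ∃ a ∈ S₀, ∃ i j, k = Θ a i j}
  have hgfin : gens.Finite := by
    have : gens ⊆ ⋃ a ∈ S₀, (Set.range fun ij : Fin s × Fin s => Θ a ij.1 ij.2) := by
      rintro k ⟨a, ha, i, j, rfl⟩
      exact Set.mem_biUnion ha ⟨(i, j), rfl⟩
    exact (hS₀.biUnion fun a _ => Set.finite_range _).subset this
  let S := Algebra.adjoin ℤ gens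
  have hft : Algebra.FiniteType ℤ S := by
    rw [← Subalgebra.fg_iff_finiteType]
    exact Subalgebra.fg_def.2 ⟨gens, hgfin, rfl⟩
  have hent : ∀ a i j, Θ a i j ∈ S := by
    intro a
    have ha : a ∈ Subring.closure S₀ := by rw [hcl]; trivial
    induction ha using Subring.closure_induction with
    | mem a ha => intro i j; exact Algebra.subset_adjoin ⟨a, ha, i, j, rfl⟩
    | zero => intro i j; rw [map_zero]; exact zero_mem _
    | one =>
      intro i j
      rw [map_one, Matrix.one_apply]
      split_ifs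
      · exact one_mem _
      · exact zero_mem _
    | add a b _ _ ha hb => intro i j; rw [map_add]; exact add_mem (ha i j) (hb i j)
    | neg a _ ha => intro i j; rw [map_neg]; exact neg_mem (ha i j)
    | mul a b _ _ ha hb =>
      intro i j
      rw [map_mul, Matrix.mul_apply]
      exact sum_mem fun k _ => mul_mem (ha i k) (hb k j)
  let Θ₀ : U →+* Matrix (Fin s) (Fin s) S :=
    { toFun := fun a => Matrix.of fun i j => ⟨Θ a i j, hent a i j⟩
      map_one' := by
        ext i j
        have h1 : Θ 1 i j = (1 : Matrix (Fin s) (Fin s) K) i j := by rw [map_one]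
        simp only [Matrix.of_apply, h1, Matrix.one_apply]
        split_ifs <;> rfl
      map_mul' := by
        intro a b
        ext i j
        have h1 : Θ (a * b) i j = ∑ k, Θ a i k * Θ b k j := by rw [map_mul, Matrix.mul_apply]
        rw [Matrix.mul_apply]
        simp only [Matrix.of_apply, AddSubmonoidClass.coe_finsetSum, MulMemClass.coe_mul]
        exact h1
      map_zero' := by
        ext i j
        simp
      map_add' := by
        intro a b
        ext i j
        simp }
  have hΘ₀ : (S.val : S →+* K).mapMatrix (Θ₀ α) = Θ α := by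
    ext i j
    rfl
  have hne : (Θ₀ α) ^ s ≠ 0 := by
    intro h
    apply hα s
    rw [← hΘ₀, ← map_pow, h, map_zero]
  obtain ⟨i, j, hij⟩ : ∃ i j, ((Θ₀ α) ^ s) i j ≠ 0 := by
    by_contra hcon
    push Not at hcon
    apply hne
    ext i j
    rw [hcon i j]
    rfl
  obtain ⟨L, iL, hL, f, hf⟩ := exists_residue S _ hij
  let Θ' : U →+* Matrix (Fin s) (Fin s) L := (f.mapMatrix).comp Θ₀
  refine ⟨L, iL, hL, Θ', ?_⟩
  intro k hk
  have h2 : (Θ' α) ^ s = 0 := matrix_nilp hk
  have h3 : f.mapMatrix ((Θ₀ α) ^ s) = 0 := by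
    rw [map_pow]
    exact h2
  have h4 := congrFun (congrFun h3 i) j
  exact hf h4

theorem exists_simple_module {U : Type} [Ring U] (x : U) : ∀ (n : ℕ) (V : Type)
    [AddCommGroup V] [Module U V] [Finite V], Nat.card V = n → (∀ k : ℕ, ∃ v : V, x ^ k • v ≠ 0) →
    ∃ (W : Type) (_ : AddCommGroup W) (_ : Module U W), IsSimpleModule U W ∧ Finite W ∧
      ∃ w : W, x • w ≠ 0 := by
  intro n
  induction n using Nat.strong_induction_on with
  | _ n ih =>
  intro V _ _ _ hn hx
  by_cases hs : ∃ P : Submodule U V, P ≠ ⊥ ∧ P ≠ ⊤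
  · obtain ⟨P, hP0, hP1⟩ := hs
    have hcardm := Submodule.card_eq_card_quotient_mul_card P
    have hVP : Finite (V ⧸ P) := Finite.of_surjective _ (Submodule.Quotient.mk_surjective P)
    have hP : 1 < Nat.card P := by
      have := (Submodule.nontrivial_iff_ne_bot).2 hP0
      exact Finite.one_lt_card
    have hQ : 1 < Nat.card (V ⧸ P) := by
      have := Submodule.Quotient.nontrivial_iff.2 hP1
      exact Finite.one_lt_card
    have hlt1 : Nat.card P < n := by rw [← hn, hcardm]; nlinarith
    have hlt2 : Nat.card (V ⧸ P) < n := by rw [← hn, hcardm]; nlinarith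
    by_cases h1 : ∀ k : ℕ, ∃ v : P, x ^ k • v ≠ 0
    · exact ih _ hlt1 P rfl h1
    · push Not at h1
      obtain ⟨k1, hk1⟩ := h1
      by_cases h2 : ∀ k : ℕ, ∃ v : V ⧸ P, x ^ k • v ≠ 0
      · exact ih _ hlt2 (V ⧸ P) rfl h2
      · exfalso
        push Not at h2
        obtain ⟨k2, hk2⟩ := h2
        obtain ⟨v, hv⟩ := hx (k1 + k2)
        apply hv
        have h3 : x ^ k2 • v ∈ P := by
          have := hk2 (Submodule.Quotient.mk v)
          rw [← Submodule.Quotient.mk_smul] at this
          exact (Submodule.Quotient.mk_eq_zero P).1 this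
        have h4 := congrArg Subtype.val (hk1 ⟨_, h3⟩)
        rw [pow_add, mul_smul]
        exact h4
  · push Not at hs
    obtain ⟨v, hv⟩ := hx 0
    have hnt : Nontrivial V := ⟨⟨_, _, hv⟩⟩
    have hsimp : IsSimpleModule U V := by
      rw [isSimpleModule_iff]
      have : Nontrivial (Submodule U V) := inferInstance
      exact { eq_bot_or_eq_top := fun P => by
                by_cases hP : P = ⊥
                · exact Or.inl hP
                · exact Or.inr (hs P hP) }
    obtain ⟨w, hw⟩ := hx 1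
    rw [pow_one] at hw
    exact ⟨V, inferInstance, inferInstance, hsimp, inferInstance, w, hw⟩

variable {Φ : Type} [CommRing Φ] {U : Type} [Ring U] [Algebra Φ U]

/-- a non-nilpotent element of a PI ideal acts nontrivially on a finite simple module -/
theorem detect {A : Submodule Φ U} (hA : IsI A) (hU : FGR U) (hPI : PIOn (A : Set U)) {x : U}
    (hx : x ∈ A) (hxn : ∀ k : ℕ, x ^ k ≠ 0) :
    ∃ (W : Type) (_ : AddCommGroup W) (_ : Module U W), IsSimpleModule U W ∧ Finite W ∧
      ∃ w : W, x • w ≠ 0 := by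
  let I : TwoSidedIdeal U := TwoSidedIdeal.mk' (A : Set U) A.zero_mem
    (fun ha hb => A.add_mem ha hb) (fun ha => A.neg_mem ha)
    (fun {u y} hy => hA.l u y hy) (fun {y u} hy => hA.r u y hy)
  have hI : ∀ x, x ∈ I ↔ x ∈ A := fun x => TwoSidedIdeal.mem_mk' _ _ _ _ _ _ x
  have hI' : (I : Set U) = (A : Set U) := Set.ext hI
  obtain ⟨K, iK, s, Θ, hΘ⟩ := Pool.Agent.H66R3.CR.taskMat U I (by rw [hI']; exact hPI) x
    ((hI x).2 hx) hxn
  obtain ⟨L, iL, hL, Θ', hΘ'⟩ := exists_fin_rep hU Θ x (fun k => by rw [← map_pow]; exact (by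
    have := hΘ k
    rwa [← map_pow] at this))
  let φ : U →+* Module.End L (Fin s → L) :=
    ((Matrix.toLinAlgEquiv' (R := L) (n := Fin s)).toAlgHom.toRingHom).comp Θ'
  let iM : Module U (Fin s → L) := Module.compHom (Fin s → L) φ
  refine exists_simple_module x _ (Fin s → L) rfl ?_
  intro k
  by_contra hcon
  push Not at hcon
  apply hΘ' k
  rw [← map_pow]
  apply (Matrix.toLinAlgEquiv' (R := L) (n := Fin s)).injective
  rw [map_zero]
  apply LinearMap.ext
  intro z
  exact hcon z

end Pool.Agent.V8H74.LR
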