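import Mathlib

/-!
Values of noncommutative polynomials and their expansions at `y + a + b`.
-/

set_option autoImplicit false

namespace Pool.Agent.V8H74.LR

variable {Φ : Type} [CommRing Φ] {U : Type} [Ring U] [Algebra Φ U]

/-- The value of a noncommutative polynomial (a finite combination of words). -/
noncomputable def ev (x : ℕ → U) (f : List ℕ →₀ Φ) : U := f.sum fun w c => c • (w.map x).prod

/-- `f` vanishes on `B`. -/
def Van (B : Set U) (f : List ℕ →₀ Φ) : Prop := ∀ x : ℕ → U, (∀ i, x i ∈ B) → ev x f = 0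

/-- two-sided ideals as submodules -/
structure IsI (I : Submodule Φ U) : Prop where
  l : ∀ u x, x ∈ I → u * x ∈ I
  r : ∀ u x, x ∈ I → x * u ∈ I

/-- the sum of the words in which one letter `k` is replaced by `c` -/
def D1 (y : ℕ → U) (c : U) (k : ℕ) : List ℕ → U
  | [] => 0
  | l :: w => y l * D1 y c k w + (if l = k then c * (w.map y).prod else 0)

/-- the sum of the words in which a letter `k` is replaced by `c` and a later letter `k'`
by `c'` -/
def D2 (y : ℕ → U) (c : U) (k : ℕ) (c' : U) (k' : ℕ) : List ℕ → U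
  | [] => 0
  | l :: w => y l * D2 y c k c' k' w + (if l = k then c * D1 y c' k' w else 0)

/-- the substitution `y + a + b` -/
def sub2 (y : ℕ → U) (a : U) (i : ℕ) (b : U) (j : ℕ) (l : ℕ) : U :=
  y l + (if l = i then a else 0) + (if l = j then b else 0)

variable (Φ) in
/-- the span of `u b v` -/
def Q1 (b : U) : Submodule Φ U := Submodule.span Φ {x | ∃ u v, x = u * b * v}

variable (Φ) in
/-- the span of `u a v b w` -/
def Q2 (a b : U) : Submodule Φ U := Submodule.span Φ {x | ∃ u v w, x = u * a * v * b * w}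

theorem mem_Q1 (b u v : U) : u * b * v ∈ Q1 Φ b := Submodule.subset_span ⟨u, v, rfl⟩

theorem mem_Q2 (a b u v w : U) : u * a * v * b * w ∈ Q2 Φ a b :=
  Submodule.subset_span ⟨u, v, w, rfl⟩

theorem span_l {S : Set U} (u : U) (h : ∀ x ∈ S, u * x ∈ Submodule.span Φ S) :
    ∀ x ∈ Submodule.span Φ S, u * x ∈ Submodule.span Φ S := by
  intro x hx
  induction hx using Submodule.span_induction with
  | mem x hx => exact h x hx
  | zero => rw [mul_zero]; exact zero_mem _
  | add x y _ _ hx hy => rw [mul_add]; exact add_mem hx hy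
  | smul c x _ hx => rw [mul_smul_comm]; exact Submodule.smul_mem _ _ hx

theorem span_r {S : Set U} (u : U) (h : ∀ x ∈ S, x * u ∈ Submodule.span Φ S) :
    ∀ x ∈ Submodule.span Φ S, x * u ∈ Submodule.span Φ S := by
  intro x hx
  induction hx using Submodule.span_induction with
  | mem x hx => exact h x hx
  | zero => rw [zero_mul]; exact zero_mem _
  | add x y _ _ hx hy => rw [add_mul]; exact add_mem hx hy
  | smul c x _ hx => rw [smul_mul_assoc]; exact Submodule.smul_mem _ _ hx

/-- left multiplication maps a span into a submodule if it maps the generators there -/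
theorem span_into_l {S : Set U} {I : Submodule Φ U} (u : U) (h : ∀ x ∈ S, u * x ∈ I) :
    ∀ x ∈ Submodule.span Φ S, u * x ∈ I := by
  intro x hx
  induction hx using Submodule.span_induction with
  | mem x hx => exact h x hx
  | zero => rw [mul_zero]; exact zero_mem _
  | add x y _ _ hx hy => rw [mul_add]; exact add_mem hx hy
  | smul c x _ hx => rw [mul_smul_comm]; exact Submodule.smul_mem _ _ hx

theorem span_into_r {S : Set U} {I : Submodule Φ U} (u : U) (h : ∀ x ∈ S, x * u ∈ I) :
    ∀ x ∈ Submodule.span Φ S, x * u ∈ I := by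
  intro x hx
  induction hx using Submodule.span_induction with
  | mem x hx => exact h x hx
  | zero => rw [zero_mul]; exact zero_mem _
  | add x y _ _ hx hy => rw [add_mul]; exact add_mem hx hy
  | smul c x _ hx => rw [smul_mul_assoc]; exact Submodule.smul_mem _ _ hx

theorem isI_Q1 (b : U) : IsI (Q1 Φ b) := by
  constructor
  · intro u
    apply span_l
    rintro x ⟨p, q, rfl⟩
    exact Submodule.subset_span ⟨u * p, q, by noncomm_ring⟩
  · intro u
    apply span_r
    rintro x ⟨p, q, rfl⟩
    exact Submodule.subset_span ⟨p, q * u, by noncomm_ring⟩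

theorem isI_Q2 (a b : U) : IsI (Q2 Φ a b) := by
  constructor
  · intro u
    apply span_l
    rintro x ⟨p, q, r, rfl⟩
    exact Submodule.subset_span ⟨u * p, q, r, by noncomm_ring⟩
  · intro u
    apply span_r
    rintro x ⟨p, q, r, rfl⟩
    exact Submodule.subset_span ⟨p, q, r * u, by noncomm_ring⟩

theorem mul_Q1 (a b x : U) (hx : x ∈ Q1 Φ b) : a * x ∈ Q2 Φ a b := by
  refine span_into_l (I := Q2 Φ a b) a ?_ x hx
  rintro x ⟨p, q, rfl⟩
  exact Submodule.subset_span ⟨1, p, q, by noncomm_ring⟩

section exp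

variable (y : ℕ → U) (a b : U) (i j : ℕ)

/-- the value at `y + a + b` -/
def Eab (w : List ℕ) : U := (w.map (sub2 y a i b j)).prod

theorem Eab_cons (l : ℕ) (w : List ℕ) :
    Eab y a b i j (l :: w) = sub2 y a i b j l * Eab y a b i j w := by
  simp [Eab]

theorem e1 (w : List ℕ) : Eab y a b i j w - Eab y a 0 i j w ∈ Q1 Φ b := by
  induction w with
  | nil => simp [Eab]
  | cons l w ih =>
    rw [Eab_cons, Eab_cons]
    have h : sub2 y a i b j l * Eab y a b i j w - sub2 y a i 0 j l * Eab y a 0 i j w =
        (sub2 y a i 0 j l) * (Eab y a b i j w - Eab y a 0 i j w) +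
          (if l = j then b else 0) * Eab y a b i j w := by
      simp only [sub2, ite_self]
      noncomm_ring
    rw [h]
    refine add_mem ((isI_Q1 b).l _ _ ih) ?_
    split_ifs
    · have := mem_Q1 (Φ := Φ) b 1 (Eab y a b i j w)
      rwa [one_mul] at this
    · rw [zero_mul]; exact zero_mem _

theorem Eab_zero (w : List ℕ) : Eab y 0 0 i j w = (w.map y).prod := by
  have h : sub2 y 0 i 0 j = y := by
    funext l
    simp [sub2]
  rw [Eab, h]

theorem Eab_symm (w : List ℕ) : Eab y a b i j w = Eab y b a j i w := by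
  have h : sub2 y a i b j = sub2 y b j a i := by
    funext l
    simp only [sub2]
    abel
  rw [Eab, h, Eab]

/-- first order expansion -/
theorem e2 (w : List ℕ) :
    Eab y 0 b i j w - (w.map y).prod - D1 y b j w ∈ Q2 Φ b b := by
  induction w with
  | nil => simp [Eab, D1]
  | cons l w ih =>
    rw [Eab_cons]
    have h : sub2 y 0 i b j l * Eab y 0 b i j w - ((l :: w).map y).prod - D1 y b j (l :: w) =
        y l * (Eab y 0 b i j w - (w.map y).prod - D1 y b j w) +
          (if l = j then b * (Eab y 0 b i j w - (w.map y).prod) else 0) := by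
      simp only [sub2, ite_self, D1, List.map_cons, List.prod_cons]
      split_ifs <;> noncomm_ring
    rw [h]
    refine add_mem ((isI_Q2 b b).l _ _ ih) ?_
    split_ifs
    · apply mul_Q1
      have := e1 (Φ := Φ) y 0 b i j w
      rwa [Eab_zero] at this
    · exact zero_mem _

/-- the second difference -/
def Dl (w : List ℕ) : U :=
  Eab y a b i j w - Eab y a 0 i j w - Eab y 0 b i j w + Eab y 0 0 i j w

theorem Dl_cons (l : ℕ) (w : List ℕ) : Dl y a b i j (l :: w) = y l * Dl y a b i j w +
    (if l = i then a * (Eab y a b i j w - Eab y a 0 i j w) else 0) +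
    (if l = j then b * (Eab y a b i j w - Eab y 0 b i j w) else 0) := by
  simp only [Dl, Eab_cons, sub2, ite_self]
  split_ifs <;> noncomm_ring

theorem e3 (w : List ℕ) : Dl y a b i j w ∈ Q2 Φ a b ⊔ Q2 Φ b a := by
  induction w with
  | nil => simp [Dl, Eab]
  | cons l w ih =>
    rw [Dl_cons]
    have hl : ∀ x ∈ Q2 Φ a b ⊔ Q2 Φ b a, y l * x ∈ Q2 Φ a b ⊔ Q2 Φ b a := by
      intro x hx
      obtain ⟨p, hp, q, hq, rfl⟩ := Submodule.mem_sup.1 hx
      rw [mul_add]
      exact Submodule.add_mem_sup ((isI_Q2 a b).l _ _ hp) ((isI_Q2 b a).l _ _ hq)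
    refine add_mem (add_mem (hl _ ih) ?_) ?_
    · split_ifs
      · exact Submodule.mem_sup_left (mul_Q1 _ _ _ (e1 y a b i j w))
      · exact zero_mem _
    · split_ifs
      · refine Submodule.mem_sup_right (mul_Q1 _ _ _ ?_)
        have := e1 (Φ := Φ) y b a j i w
        rwa [← Eab_symm, ← Eab_symm y 0 b i j] at this
      · exact zero_mem _

/-- all products in which the letters `a`, `b` occur at least three times, each at least once -/
structure Tri (I : Submodule Φ U) : Prop where
  aab : ∀ u v, a * u * a * v * b ∈ I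
  abb : ∀ u v, a * u * b * v * b ∈ I
  aba : ∀ u v, a * u * b * v * a ∈ I
  baa : ∀ u v, b * u * a * v * a ∈ I
  bab : ∀ u v, b * u * a * v * b ∈ I
  bba : ∀ u v, b * u * b * v * a ∈ I

theorem q2_into {I : Submodule Φ U} (hI : IsI I) {c a b : U} (h : ∀ u v, c * u * a * v * b ∈ I)
    (x : U) (hx : x ∈ Q2 Φ a b) : c * x ∈ I := by
  refine span_into_l c ?_ x hx
  rintro x ⟨u, v, w, rfl⟩
  have := hI.r w _ (h u v)
  convert this using 1
  noncomm_ring

/-- second order expansion -/
theorem e4 {I : Submodule Φ U} (hI : IsI I) (hT : Tri a b I) (w : List ℕ) :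
    Dl y a b i j w - D2 y a i b j w - D2 y b j a i w ∈ I := by
  induction w with
  | nil => simp [Dl, Eab, D2]
  | cons l w ih =>
    rw [Dl_cons]
    have h3 := e3 (Φ := Φ) y a b i j w
    obtain ⟨p, hp, q, hq, hpq⟩ := Submodule.mem_sup.1 h3
    have hb := e2 (Φ := Φ) y b i j w
    have ha := e2 (Φ := Φ) y a j i w
    rw [← Eab_symm] at ha
    have h : y l * Dl y a b i j w +
        (if l = i then a * (Eab y a b i j w - Eab y a 0 i j w) else 0) +
        (if l = j then b * (Eab y a b i j w - Eab y 0 b i j w) else 0) -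
        D2 y a i b j (l :: w) - D2 y b j a i (l :: w) =
        y l * (Dl y a b i j w - D2 y a i b j w - D2 y b j a i w) +
        (if l = i then a * p + a * q + a * (Eab y 0 b i j w - (w.map y).prod - D1 y b j w)
          else 0) +
        (if l = j then b * p + b * q + b * (Eab y a 0 i j w - (w.map y).prod - D1 y a i w)
          else 0) := by
      have hpq' : ∀ c : U, c * p + c * q = c * Dl y a b i j w := fun c => by
        rw [← mul_add, hpq]
      rw [hpq' a, hpq' b]
      simp only [D2, Dl, Eab_zero]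
      split_ifs <;> noncomm_ring
    rw [h]
    refine add_mem (add_mem (hI.l _ _ ih) ?_) ?_
    · split_ifs
      · exact add_mem (add_mem (q2_into hI hT.aab p hp) (q2_into hI hT.aba q hq))
          (q2_into hI hT.abb _ hb)
      · exact zero_mem _
    · split_ifs
      · exact add_mem (add_mem (q2_into hI hT.bab p hp) (q2_into hI hT.bba q hq))
          (q2_into hI hT.baa _ ha)
      · exact zero_mem _

end exp

/-- the expansion of an identity -/
theorem exp_f {B : Set U} (hadd : ∀ x ∈ B, ∀ y ∈ B, x + y ∈ B) (h0 : (0 : U) ∈ B)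
    {f : List ℕ →₀ Φ} (hf : Van B f) {y : ℕ → U} (hy : ∀ l, y l ∈ B) {a b : U} (ha : a ∈ B)
    (hb : b ∈ B) (i j : ℕ) {I : Submodule Φ U} (hI : IsI I) (hT : Tri a b I) :
    (f.sum fun w c => c • (D2 y a i b j w + D2 y b j a i w)) ∈ I := by
  have hB : ∀ c ∈ B, ∀ d ∈ B, ∀ l, sub2 y c i d j l ∈ B := by
    intro c hc d hd l
    simp only [sub2]
    refine hadd _ (hadd _ (hy l) _ ?_) _ ?_
    · split_ifs
      · exact hc
      · exact h0
    · split_ifs
      · exact hd
      · exact h0
  have hE : ∀ c ∈ B, ∀ d ∈ B, (f.sum fun w r => r • Eab y c d i j w) = 0 := by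
    intro c hc d hd
    exact hf _ (hB c hc d hd)
  have h1 : (f.sum fun w c => c • Dl y a b i j w) = 0 := by
    have : (f.sum fun w c => c • Dl y a b i j w) =
        (f.sum fun w c => c • Eab y a b i j w) - (f.sum fun w c => c • Eab y a 0 i j w) -
        (f.sum fun w c => c • Eab y 0 b i j w) + (f.sum fun w c => c • Eab y 0 0 i j w) := by
      simp only [Finsupp.sum, ← Finset.sum_sub_distrib, ← Finset.sum_add_distrib, Dl, smul_sub,
        smul_add]
    rw [this, hE a ha b hb, hE a ha 0 h0, hE 0 h0 b hb, hE 0 h0 0 h0]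
    simp
  have h2 : (f.sum fun w c => c • (D2 y a i b j w + D2 y b j a i w)) =
      (f.sum fun w c => c • Dl y a b i j w) -
      (f.sum fun w c => c • (Dl y a b i j w - D2 y a i b j w - D2 y b j a i w)) := by
    simp only [Finsupp.sum, ← Finset.sum_sub_distrib, ← smul_sub]
    refine Finset.sum_congr rfl fun w _ => ?_
    congr 1
    abel
  rw [h2, h1, zero_sub]
  apply neg_mem
  exact Submodule.sum_mem _ fun w _ => Submodule.smul_mem _ _ (e4 y a b i j hI hT w)

end Pool.Agent.V8H74.LR
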