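import Pool.Agent.V8H74.LR.Words

/-!
Consequences of an identity in one variable: the polynomial between the two special letters.
-/

set_option autoImplicit false

namespace Pool.Agent.V8H74.LR

open Polynomial

variable {Φ : Type} [CommRing Φ] {U : Type} [Ring U] [Algebra Φ U]

/-- letters up to a last letter `j` -/
noncomputable def qp (e : ℕ → ℕ) (j : ℕ) : List ℕ → Φ[X]
  | [] => 0
  | l :: w => X ^ (e l) * qp e j w + (if l = j ∧ w = [] then 1 else 0)

/-- words with first letter `i` and last letter `j` -/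
noncomputable def hp (e : ℕ → ℕ) (i j : ℕ) : List ℕ → Φ[X]
  | [] => 0
  | l :: w => if l = i then qp e j w else 0

/-- the part of `f` with first letter `i` and last letter `j`, the inner letters being replaced
by powers of `X` -/
noncomputable def h0 (f : List ℕ →₀ Φ) (e : ℕ → ℕ) (i j : ℕ) : Φ[X] :=
  f.sum fun w c => C c * hp e i j w

theorem D1_mem (y : ℕ → U) (b : U) (j : ℕ) (w : List ℕ) : D1 y b j w ∈ Q1 Φ b := by
  induction w with
  | nil => exact zero_mem _
  | cons l w ih =>
    simp only [D1]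
    refine add_mem ((isI_Q1 b).l _ _ ih) ?_
    split_ifs
    · have := mem_Q1 (Φ := Φ) b 1 (w.map y).prod
      rwa [one_mul] at this
    · exact zero_mem _

theorem D2_mem (y : ℕ → U) (a b : U) (i j : ℕ) (w : List ℕ) :
    D2 y a i b j w ∈ Q2 Φ a b := by
  induction w with
  | nil => exact zero_mem _
  | cons l w ih =>
    simp only [D2]
    refine add_mem ((isI_Q2 a b).l _ _ ih) ?_
    split_ifs
    · exact mul_Q1 _ _ _ (D1_mem y b j w)
    · exact zero_mem _

/-- the conditions under which only the words `a ... b` survive modulo `I` -/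
structure Cond6 (I : Submodule Φ U) (a b d : U) : Prop where
  ba : ∀ u, b * u * a ∈ I
  dab : ∀ u v, d * u * a * v * b ∈ I
  abd : ∀ u v, a * u * b * v * d ∈ I
  aab : ∀ u v, a * u * a * v * b ∈ I
  abb : ∀ u v, a * u * b * v * b ∈ I

/-- the consequence of an identity in one variable -/
def G6 (B : Set U) (h : Φ[X]) : Prop :=
  ∀ I : Submodule Φ U, IsI I → ∀ a ∈ B, ∀ b ∈ B, ∀ d ∈ B, Cond6 I a b d →
    a * aeval d h * b ∈ I

theorem G6_zero (B : Set U) : G6 B (0 : Φ[X]) := by
  intro I hI a _ b _ d _ _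
  rw [map_zero, mul_zero, zero_mul]
  exact zero_mem _

theorem G6_add {B : Set U} {h k : Φ[X]} (hh : G6 B h) (hk : G6 B k) : G6 B (h + k) := by
  intro I hI a ha b hb d hd hc
  rw [map_add, mul_add, add_mul]
  exact add_mem (hh I hI a ha b hb d hd hc) (hk I hI a ha b hb d hd hc)

theorem G6_C {B : Set U} {h : Φ[X]} (hh : G6 B h) (c : Φ) : G6 B (C c * h) := by
  intro I hI a ha b hb d hd hc
  have e : a * aeval d (C c * h) * b = c • (a * aeval d h * b) := by
    rw [map_mul, aeval_C, ← Algebra.smul_def]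
    simp
  rw [e]
  exact Submodule.smul_mem _ _ (hh I hI a ha b hb d hd hc)

theorem G6_X {B : Set U} (hm : ∀ x ∈ B, ∀ y ∈ B, x * y ∈ B) {h : Φ[X]} (hh : G6 B h) :
    G6 B (X * h) := by
  intro I hI a ha b hb d hd hc
  have e : a * aeval d (X * h) * b = (a * d) * aeval d h * b := by
    rw [map_mul, aeval_X]
    noncomm_ring
  rw [e]
  refine hh I hI (a * d) (hm a ha d hd) b hb d hd ?_
  refine ⟨fun u => ?_, fun u v => ?_, fun u v => ?_, fun u v => ?_, fun u v => ?_⟩
  · have := hI.r d _ (hc.ba u)
    rwa [mul_assoc] at this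
  · have := hc.dab u (d * v)
    convert this using 1
    noncomm_ring
  · have := hc.abd (d * u) v
    convert this using 1
    noncomm_ring
  · have := hc.aab (d * u) (d * v)
    convert this using 1
    noncomm_ring
  · have := hc.abb (d * u) v
    convert this using 1
    noncomm_ring

theorem G6_mul {B : Set U} (hm : ∀ x ∈ B, ∀ y ∈ B, x * y ∈ B) {h : Φ[X]} (hh : G6 B h)
    (g : Φ[X]) : G6 B (g * h) := by
  induction g using Polynomial.induction_on with
  | C c => exact G6_C hh c
  | add p q hp hq => rw [add_mul]; exact G6_add hp hq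
  | monomial n c ih =>
    have e : C c * X ^ (n + 1) * h = X * (C c * X ^ n * h) := by ring
    rw [e]
    exact G6_X hm ih

theorem pow_form {d : U} {k : ℕ} (hk : 1 ≤ k) : d ^ k = d ^ (k - 1) * d := by
  rw [← pow_succ]
  congr 1
  omega

theorem prod_form {d : U} {e : ℕ → ℕ} (he : ∀ l, 1 ≤ e l) (l : ℕ) (w : List ℕ) :
    ∃ v, ((l :: w).map fun l => d ^ e l).prod = 1 * d * v := by
  refine ⟨d ^ (e l - 1) * (w.map fun l => d ^ e l).prod, ?_⟩
  rw [List.map_cons, List.prod_cons, one_mul, ← mul_assoc, ← pow_succ']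
  congr 2
  have := he l
  omega

theorem D1_pure {I : Submodule Φ U} (hI : IsI I) {a b d : U}
    (habd : ∀ u v, a * u * b * v * d ∈ I) {e : ℕ → ℕ} (he : ∀ l, 1 ≤ e l) (j : ℕ)
    (w : List ℕ) : ∀ u, a * u * D1 (fun l => d ^ e l) b j w -
      a * u * aeval d (qp (Φ := Φ) e j w) * b ∈ I := by
  induction w with
  | nil => intro u; simp [D1, qp]
  | cons l w ih =>
    intro u
    have h1 := ih (u * d ^ e l)
    simp only [D1, qp, map_add, map_mul, map_pow, aeval_X]
    by_cases hlj : l = j
    · rcases w with _ | ⟨m, w⟩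
      · rw [if_pos hlj, if_pos ⟨hlj, rfl⟩, map_one]
        convert h1 using 1
        simp only [List.map_nil, List.prod_nil]
        noncomm_ring
      · rw [if_pos hlj, if_neg (by simp), map_zero, add_zero]
        obtain ⟨v, hv⟩ := prod_form (d := d) he m w
        rw [hv]
        have h2 := hI.r v _ (habd u 1)
        convert add_mem h1 h2 using 1
        noncomm_ring
    · rw [if_neg hlj, if_neg (by tauto), map_zero, add_zero, add_zero]
      convert h1 using 1
      noncomm_ring

theorem D2_pure {I : Submodule Φ U} (hI : IsI I) {a b d : U} (hc : Cond6 I a b d)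
    {e : ℕ → ℕ} (he : ∀ l, 1 ≤ e l) (i j : ℕ) (w : List ℕ) :
    D2 (fun l => d ^ e l) a i b j w - a * aeval d (hp (Φ := Φ) e i j w) * b ∈ I := by
  cases w with
  | nil => simp [D2, hp]
  | cons l w =>
    have h1 : d ^ e l * D2 (fun l => d ^ e l) a i b j w ∈ I := by
      rw [pow_form (he l), mul_assoc]
      exact hI.l _ _ (q2_into hI hc.dab _ (D2_mem _ _ _ _ _ _))
    simp only [D2, hp]
    split_ifs with hl
    · have h2 := D1_pure hI hc.abd he j w 1
      rw [mul_one] at h2
      convert add_mem h1 h2 using 1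
      noncomm_ring
    · rw [map_zero, mul_zero, zero_mul, sub_zero, add_zero]
      exact h1

/-- `B` is closed under the operations of an algebra without unit -/
structure Clo (B : Set U) : Prop where
  zero : (0 : U) ∈ B
  add : ∀ x ∈ B, ∀ y ∈ B, x + y ∈ B
  mul : ∀ x ∈ B, ∀ y ∈ B, x * y ∈ B

theorem Clo.pow {B : Set U} (h : Clo B) {d : U} (hd : d ∈ B) {k : ℕ} (hk : 1 ≤ k) :
    d ^ k ∈ B := by
  induction k, hk using Nat.le_induction with
  | base => rwa [pow_one]
  | succ n hn ih => rw [pow_succ]; exact h.mul _ ih _ hd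

theorem G6_h0 {B : Set U} (hB : Clo B) {f : List ℕ →₀ Φ} (hf : Van B f) {e : ℕ → ℕ}
    (he : ∀ l, 1 ≤ e l) (i j : ℕ) : G6 B (h0 f e i j) := by
  intro I hI a ha b hb d hd hc
  have hba : ∀ x ∈ Q2 Φ b a, x ∈ I := by
    intro x hx
    refine (Submodule.span_le (p := I)).2 ?_ hx
    rintro x ⟨u, v, w, rfl⟩
    have := hI.l u _ (hI.r w _ (hc.ba v))
    change u * b * v * a * w ∈ I
    convert this using 1
    noncomm_ring
  have hT : Tri a b I := by
    refine ⟨hc.aab, hc.abb, fun u v => ?_, fun u v => ?_, fun u v => ?_, fun u v => ?_⟩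
    · have := hI.l (a * u) _ (hc.ba v)
      convert this using 1
      noncomm_ring
    · have := hI.r (v * a) _ (hc.ba u)
      convert this using 1
      noncomm_ring
    · have := hI.r (v * b) _ (hc.ba u)
      convert this using 1
      noncomm_ring
    · have := hI.l (b * u) _ (hc.ba v)
      convert this using 1
      noncomm_ring
  have h1 := exp_f hB.add hB.zero hf (y := fun l => d ^ e l) (fun l => hB.pow hd (he l)) ha hb
    i j hI hT
  have h2 : a * aeval d (h0 f e i j) * b =
      (f.sum fun w c => c • (D2 (fun l => d ^ e l) a i b j w + D2 (fun l => d ^ e l) b j a i w)) -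
      (f.sum fun w c => c • (D2 (fun l => d ^ e l) a i b j w -
        a * aeval d (hp (Φ := Φ) e i j w) * b + D2 (fun l => d ^ e l) b j a i w)) := by
    simp only [Finsupp.sum, h0, ← Finset.sum_sub_distrib, ← smul_sub, map_sum, Finset.mul_sum,
      Finset.sum_mul]
    refine Finset.sum_congr rfl fun w _ => ?_
    rw [map_mul, aeval_C, ← Algebra.smul_def]
    simp only [mul_smul_comm, smul_mul_assoc]
    congr 1
    abel
  rw [h2]
  refine sub_mem h1 ?_
  refine Submodule.sum_mem _ fun w _ => Submodule.smul_mem _ _ ?_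
  exact add_mem (D2_pure hI hc he i j w) (hba _ (D2_mem _ _ _ _ _ _))

end Pool.Agent.V8H74.LR
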