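import Pool.Agent.V8H74.LR.Words2

/-!
Consequences of an identity in three commuting variables: the letters before, between and after
the two special letters.
-/

set_option autoImplicit false

namespace Pool.Agent.V8H74.LR

variable {Φ : Type} [CommRing Φ] {U : Type} [Ring U] [Algebra Φ U]

/-- polynomials in three variables -/
abbrev P3 (Φ : Type) [CommRing Φ] := MvPolynomial (Fin 3) Φ

/-- the value of a polynomial in three variables on a pair `(a, b)` -/
noncomputable def TT (t a b : U) : P3 Φ →ₗ[Φ] U :=
  (MvPolynomial.basisMonomials (Fin 3) Φ).constr Φ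
    (fun m => t ^ (m 0) * a * t ^ (m 1) * b * t ^ (m 2))

theorem TT_mono (t a b : U) (m : Fin 3 →₀ ℕ) (c : Φ) :
    TT t a b (MvPolynomial.monomial m c) =
      c • (t ^ (m 0) * a * t ^ (m 1) * b * t ^ (m 2)) := by
  have h : MvPolynomial.monomial m c =
      c • (MvPolynomial.basisMonomials (Fin 3) Φ m) := by
    rw [MvPolynomial.coe_basisMonomials, MvPolynomial.smul_monomial, smul_eq_mul, mul_one]
  rw [h, map_smul, TT, Module.Basis.constr_basis]

theorem X_mul_mono (k : Fin 3) (m : Fin 3 →₀ ℕ) (c : Φ) :
    MvPolynomial.X k * MvPolynomial.monomial m c =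
      MvPolynomial.monomial (Finsupp.single k 1 + m) c := by
  rw [MvPolynomial.X, MvPolynomial.monomial_mul, one_mul]

theorem TT_X0 (t a b : U) (F : P3 Φ) :
    TT t a b (MvPolynomial.X 0 * F) = t * TT t a b F := by
  induction F using MvPolynomial.induction_on' with
  | monomial m c =>
    rw [X_mul_mono, TT_mono, TT_mono]
    simp only [Finsupp.add_apply, Finsupp.single_apply]
    simp only [Fin.isValue, ↓reduceIte, zero_add, Fin.reduceEq]
    rw [mul_smul_comm]
    congr 1
    rw [pow_add, pow_one]
    noncomm_ring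
  | add p q hp hq => rw [mul_add, map_add, map_add, mul_add, hp, hq]

theorem TT_X2 (t a b : U) (F : P3 Φ) :
    TT t a b (MvPolynomial.X 2 * F) = TT t a b F * t := by
  induction F using MvPolynomial.induction_on' with
  | monomial m c =>
    rw [X_mul_mono, TT_mono, TT_mono]
    simp only [Finsupp.add_apply, Finsupp.single_apply]
    simp only [Fin.isValue, ↓reduceIte, zero_add, Fin.reduceEq]
    rw [smul_mul_assoc]
    congr 1
    rw [add_comm 1, pow_add, pow_one]
    noncomm_ring
  | add p q hp hq => rw [mul_add, map_add, map_add, add_mul, hp, hq]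

theorem TT_X1 (t a b : U) (F : P3 Φ) :
    TT t a b (MvPolynomial.X 1 * F) = TT t (a * t) b F := by
  induction F using MvPolynomial.induction_on' with
  | monomial m c =>
    rw [X_mul_mono, TT_mono, TT_mono]
    simp only [Finsupp.add_apply, Finsupp.single_apply]
    simp only [Fin.isValue, ↓reduceIte, zero_add, Fin.reduceEq]
    congr 1
    rw [pow_add, pow_one]
    noncomm_ring
  | add p q hp hq => rw [mul_add, map_add, map_add, hp, hq]

theorem TT_one (t a b : U) : TT t a b (1 : P3 Φ) = a * b := by
  have := TT_mono (Φ := Φ) t a b 0 1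
  simpa using this

theorem TT_C (t a b : U) (c : Φ) (F : P3 Φ) :
    TT t a b (MvPolynomial.C c * F) = c • TT t a b F := by
  rw [← MvPolynomial.smul_eq_C_mul, map_smul]

theorem TT_add_a (t a a' b : U) (F : P3 Φ) :
    TT t (a + a') b F = TT t a b F + TT t a' b F := by
  induction F using MvPolynomial.induction_on' with
  | monomial m c =>
    rw [TT_mono, TT_mono, TT_mono, ← smul_add]
    congr 1
    noncomm_ring
  | add p q hp hq => rw [map_add, map_add, map_add, hp, hq]; abel

theorem TT_smul_a (t a b : U) (c : Φ) (F : P3 Φ) :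
    TT t (c • a) b F = c • TT t a b F := by
  induction F using MvPolynomial.induction_on' with
  | monomial m d =>
    rw [TT_mono, TT_mono, smul_comm c d]
    congr 1
    simp only [mul_smul_comm, smul_mul_assoc]
  | add p q hp hq => rw [map_add, map_add, hp, hq, smul_add]

open Polynomial in
theorem TT_P0 (t a b : U) (p : Φ[X]) (F : P3 Φ) :
    TT t a b (aeval (MvPolynomial.X 0) p * F) = aeval t p * TT t a b F := by
  induction p using Polynomial.induction_on generalizing F with
  | C c =>
    rw [aeval_C, aeval_C, MvPolynomial.algebraMap_eq, TT_C, Algebra.smul_def]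
  | add p q hp hq => rw [map_add, map_add, add_mul, map_add, add_mul, hp, hq]
  | monomial n c ih =>
    have e : (C c * X ^ (n + 1) : Φ[X]) = (C c * X ^ n) * X := by ring
    rw [e, map_mul (aeval (MvPolynomial.X 0 : P3 Φ)), map_mul (aeval t) _ X, aeval_X, aeval_X,
      mul_assoc, ih, TT_X0, mul_assoc]

open Polynomial in
theorem TT_P2 (t a b : U) (p : Φ[X]) (F : P3 Φ) :
    TT t a b (aeval (MvPolynomial.X 2) p * F) = TT t a b F * aeval t p := by
  induction p using Polynomial.induction_on generalizing F with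
  | C c =>
    rw [aeval_C, aeval_C, MvPolynomial.algebraMap_eq, TT_C, ← Algebra.commutes,
      Algebra.smul_def]
  | add p q hp hq => rw [map_add, map_add, add_mul, map_add, mul_add, hp, hq]
  | monomial n c ih =>
    have e : (C c * X ^ (n + 1) : Φ[X]) = X * (C c * X ^ n) := by ring
    rw [e, map_mul (aeval (MvPolynomial.X 2 : P3 Φ)) X, map_mul (aeval t) X, aeval_X, aeval_X,
      mul_assoc, TT_X2, ih]
    have hc : aeval t (C c * X ^ n : Φ[X]) * t = t * aeval t (C c * X ^ n : Φ[X]) := by
      have h1 : (C c * X ^ n : Φ[X]) * X = X * (C c * X ^ n) := by ring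
      have h2 := congrArg (aeval t) h1
      rwa [map_mul, map_mul (aeval t) X, aeval_X] at h2
    rw [mul_assoc, hc]

open Polynomial in
theorem TT_P1 (t a b : U) (p : Φ[X]) (F : P3 Φ) :
    TT t a b (aeval (MvPolynomial.X 1) p * F) = TT t (a * aeval t p) b F := by
  induction p using Polynomial.induction_on generalizing F a with
  | C c =>
    rw [aeval_C, aeval_C, MvPolynomial.algebraMap_eq, TT_C, ← Algebra.commutes,
      ← Algebra.smul_def, TT_smul_a]
  | add p q hp hq => rw [map_add, map_add, add_mul, map_add, mul_add, TT_add_a, hp, hq]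
  | monomial n c ih =>
    have e : (C c * X ^ (n + 1) : Φ[X]) = X * (C c * X ^ n) := by ring
    rw [e, map_mul (aeval (MvPolynomial.X 1 : P3 Φ)) X, map_mul (aeval t) X, aeval_X, aeval_X,
      mul_assoc, TT_X1, ih, mul_assoc]

/-! ### the polynomial of an identity -/

section L3

variable {K : Type} [CommRing K]

/-- letters `V`, one letter `j` omitted, then letters `W` -/
def LB (V W : ℕ → K) (j : ℕ) : List ℕ → K
  | [] => 0
  | l :: w => V l * LB V W j w + (if l = j then (w.map W).prod else 0)

/-- letters `U`, one letter `i` omitted, letters `V`, one letter `j` omitted, letters `W` -/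
def LAB (U V W : ℕ → K) (i j : ℕ) : List ℕ → K
  | [] => 0
  | l :: w => U l * LAB U V W i j w + (if l = i then LB V W j w else 0)

theorem LB_map {L : Type} [CommRing L] (φ : K →+* L) (V W : ℕ → K) (j : ℕ) (w : List ℕ) :
    φ (LB V W j w) = LB (fun l => φ (V l)) (fun l => φ (W l)) j w := by
  induction w with
  | nil => exact map_zero φ
  | cons l w ih =>
    simp only [LB, map_add, map_mul, ih]
    congr 1
    split_ifs
    · rw [map_list_prod, List.map_map]
      rfl
    · exact map_zero φ

theorem LAB_map {L : Type} [CommRing L] (φ : K →+* L) (U V W : ℕ → K) (i j : ℕ)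
    (w : List ℕ) :
    φ (LAB U V W i j w) =
      LAB (fun l => φ (U l)) (fun l => φ (V l)) (fun l => φ (W l)) i j w := by
  induction w with
  | nil => exact map_zero φ
  | cons l w ih =>
    simp only [LAB, map_add, map_mul, ih]
    congr 1
    split_ifs
    · rw [LB_map]
    · exact map_zero φ

end L3

/-- the polynomial in three variables of an identity -/
noncomputable def h3 (f : List ℕ →₀ Φ) (e : ℕ → ℕ) (i j : ℕ) : P3 Φ :=
  f.sum fun w c => MvPolynomial.C c * LAB (fun l => (MvPolynomial.X 0 : P3 Φ) ^ e l)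
    (fun l => (MvPolynomial.X 1 : P3 Φ) ^ e l) (fun l => (MvPolynomial.X 2 : P3 Φ) ^ e l) i j w

/-- the substitution of `g` in three variables -/
noncomputable def sg (g : Polynomial Φ) : P3 Φ →ₐ[Φ] P3 Φ :=
  MvPolynomial.aeval fun k => Polynomial.aeval (MvPolynomial.X k) g

theorem sg_h3 (f : List ℕ →₀ Φ) (e : ℕ → ℕ) (i j : ℕ) (g : Polynomial Φ) :
    sg g (h3 f e i j) = f.sum fun w c => MvPolynomial.C c *
      LAB (fun l => Polynomial.aeval (MvPolynomial.X 0 : P3 Φ) (g ^ e l))
      (fun l => Polynomial.aeval (MvPolynomial.X 1 : P3 Φ) (g ^ e l))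
      (fun l => Polynomial.aeval (MvPolynomial.X 2 : P3 Φ) (g ^ e l)) i j w := by
  simp only [h3, Finsupp.sum, map_sum]
  refine Finset.sum_congr rfl fun w _ => ?_
  rw [map_mul]
  have h1 : (sg g) (MvPolynomial.C (f w)) = MvPolynomial.C (f w) := by
    rw [sg, MvPolynomial.aeval_C, MvPolynomial.algebraMap_eq]
  rw [h1]
  congr 1
  have h2 := LAB_map (sg g).toRingHom (fun l => (MvPolynomial.X 0 : P3 Φ) ^ e l)
    (fun l => (MvPolynomial.X 1 : P3 Φ) ^ e l) (fun l => (MvPolynomial.X 2 : P3 Φ) ^ e l) i j w
  have h3 : ∀ k : Fin 3, (fun l => (sg g).toRingHom ((MvPolynomial.X k : P3 Φ) ^ e l)) =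
      fun l => Polynomial.aeval (MvPolynomial.X k : P3 Φ) (g ^ e l) := by
    intro k
    funext l
    rw [map_pow, map_pow]
    congr 1
    change sg g (MvPolynomial.X k) = _
    rw [sg, MvPolynomial.aeval_X]
  rw [h3, h3, h3] at h2
  exact h2

theorem TT_prod (t a b : U) (q : ℕ → Polynomial Φ) (w : List ℕ) :
    TT t a b (w.map fun l => Polynomial.aeval (MvPolynomial.X 2 : P3 Φ) (q l)).prod =
      a * b * (w.map fun l => Polynomial.aeval t (q l)).prod := by
  have h : ∀ (w : List ℕ) (F : P3 Φ),
      TT t a b ((w.map fun l => Polynomial.aeval (MvPolynomial.X 2 : P3 Φ) (q l)).prod * F) =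
      TT t a b F * (w.map fun l => Polynomial.aeval t (q l)).prod := by
    intro w
    induction w with
    | nil => intro F; simp
    | cons l w ih =>
      intro F
      rw [List.map_cons, List.prod_cons, List.map_cons, List.prod_cons, mul_assoc, TT_P2, ih,
        mul_assoc]
      congr 1
      have hcom : ∀ w : List ℕ, (w.map fun l => Polynomial.aeval t (q l)).prod =
          Polynomial.aeval t (w.map q).prod := by
        intro w
        rw [map_list_prod, List.map_map]
        rfl
      rw [hcom, ← map_mul, ← map_mul, mul_comm]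
  have := h w 1
  rwa [mul_one, TT_one] at this

theorem TT_LB (t a b : U) (q : ℕ → Polynomial Φ) (j : ℕ) (w : List ℕ) :
    TT t a b (LB (fun l => Polynomial.aeval (MvPolynomial.X 1 : P3 Φ) (q l))
      (fun l => Polynomial.aeval (MvPolynomial.X 2 : P3 Φ) (q l)) j w) =
      a * D1 (fun l => Polynomial.aeval t (q l)) b j w := by
  induction w generalizing a with
  | nil => simp [LB, D1]
  | cons l w ih =>
    simp only [LB, D1, map_add, TT_P1, ih]
    rw [mul_add, mul_assoc]
    congr 1
    split_ifs
    · rw [TT_prod, mul_assoc]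
    · rw [map_zero, mul_zero]

theorem TT_LAB (t a b : U) (q : ℕ → Polynomial Φ) (i j : ℕ) (w : List ℕ) :
    TT t a b (LAB (fun l => Polynomial.aeval (MvPolynomial.X 0 : P3 Φ) (q l))
      (fun l => Polynomial.aeval (MvPolynomial.X 1 : P3 Φ) (q l))
      (fun l => Polynomial.aeval (MvPolynomial.X 2 : P3 Φ) (q l)) i j w) =
      D2 (fun l => Polynomial.aeval t (q l)) a i b j w := by
  induction w with
  | nil => simp [LAB, D2]
  | cons l w ih =>
    simp only [LAB, D2, map_add, TT_P0, ih]
    congr 1
    split_ifs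
    · rw [TT_LB]
    · rw [map_zero]

/-! ### moving a factor -/

theorem D1_comm (y : ℕ → U) (c s : U) (hs : ∀ l, y l * s = s * y l) (k : ℕ) (w : List ℕ) :
    D1 y (c * s) k w = D1 y c k w * s := by
  have hp : ∀ w : List ℕ, (w.map y).prod * s = s * (w.map y).prod := by
    intro w
    induction w with
    | nil => simp
    | cons l w ih =>
      rw [List.map_cons, List.prod_cons, mul_assoc, ih, ← mul_assoc, hs, mul_assoc]
  induction w with
  | nil => simp [D1]
  | cons l w ih =>
    simp only [D1, ih, add_mul, mul_assoc]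
    congr 1
    split_ifs
    · rw [mul_assoc, hp]
    · rw [zero_mul]

theorem D2_comm (y : ℕ → U) (c c' s : U) (hs : ∀ l, y l * s = s * y l) (k k' : ℕ)
    (w : List ℕ) : D2 y c k (c' * s) k' w = D2 y c k c' k' w * s := by
  induction w with
  | nil => simp [D2]
  | cons l w ih =>
    simp only [D2, ih, add_mul, mul_assoc]
    congr 1
    split_ifs
    · rw [D1_comm y c' s hs, mul_assoc]
    · rw [zero_mul]

/-- the consequence of an identity in three variables, for ideals `A`, `A'` containing the two
special elements -/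
def G5 (A A' I : Submodule Φ U) (t : U) (h : P3 Φ) : Prop :=
  ∀ g : Polynomial Φ, g.coeff 0 = 0 → ∀ a ∈ A, ∀ b ∈ A',
    TT t a b ((MvPolynomial.X 1 - MvPolynomial.X 2) * sg g h) ∈ I

theorem G5_h3 {B : Set U} (hB : Clo B) (hS : ∀ (c : Φ), ∀ x ∈ B, c • x ∈ B)
    {f : List ℕ →₀ Φ} (hf : Van B f) {e : ℕ → ℕ}
    (he : ∀ l, 1 ≤ e l) (i j : ℕ) {A A' I : Submodule Φ U} (hA : IsI A)
    (hI : IsI I) (hT : ∀ a ∈ A, ∀ b ∈ A', Tri a b I) (hAB : ∀ x ∈ A, x ∈ B)
    (hAB' : ∀ x ∈ A', x ∈ B) {t : U} (ht : t ∈ B) :
    G5 A A' I t (h3 f e i j) := by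
  intro g hg a ha b hb
  have hgt : Polynomial.aeval t g ∈ B := by
    have e1 : g = Polynomial.X * g.divX := by
      have := Polynomial.X_mul_divX_add g
      rw [hg, map_zero, add_zero] at this
      exact this.symm
    have h2 : ∀ p : Polynomial Φ, t * Polynomial.aeval t p ∈ B := by
      intro p
      induction p using Polynomial.induction_on with
      | C c =>
        rw [Polynomial.aeval_C, ← Algebra.commutes, ← Algebra.smul_def]
        exact hS _ _ ht
      | add p q hp hq => rw [map_add, mul_add]; exact hB.add _ hp _ hq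
      | monomial n c ih =>
        have e2 : (Polynomial.C c * Polynomial.X ^ (n + 1) : Polynomial Φ) =
          (Polynomial.C c * Polynomial.X ^ n) * Polynomial.X := by ring
        rw [e2, map_mul, Polynomial.aeval_X, ← mul_assoc]
        exact hB.mul _ ih _ ht
    rw [e1, map_mul, Polynomial.aeval_X]
    exact h2 _
  set y : ℕ → U := fun l => Polynomial.aeval t (g ^ e l) with hy
  have hyB : ∀ l, y l ∈ B := by
    intro l
    rw [hy]
    simp only [map_pow]
    exact hB.pow hgt (he l)
  have hyt : ∀ l, y l * t = t * y l := by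
    intro l
    have h1 : g ^ e l * Polynomial.X = Polynomial.X * g ^ e l := mul_comm _ _
    have h2 := congrArg (Polynomial.aeval t) h1
    rwa [map_mul, map_mul (Polynomial.aeval t) Polynomial.X, Polynomial.aeval_X] at h2
  have h1 := exp_f hB.add hB.zero hf hyB (hAB a ha) (hAB' b hb) i j hI (hT a ha b hb)
  have h2 := exp_f hB.add hB.zero hf hyB (hAB _ (hA.r t a ha)) (hAB' b hb) i j hI
    (hT _ (hA.r t a ha) b hb)
  have h4 := sub_mem h2 (hI.r t _ h1)
  have e1 : TT t a b ((MvPolynomial.X 1 - MvPolynomial.X 2) * sg g (h3 f e i j)) =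
      (f.sum fun w c => c • (D2 y (a * t) i b j w + D2 y b j (a * t) i w)) -
      (f.sum fun w c => c • (D2 y a i b j w + D2 y b j a i w)) * t := by
    rw [sg_h3, sub_mul, map_sub, TT_X1, TT_X2]
    simp only [Finsupp.sum, map_sum, Finset.sum_mul, ← Finset.sum_sub_distrib]
    refine Finset.sum_congr rfl fun w _ => ?_
    rw [TT_C, TT_C, TT_LAB, TT_LAB, D2_comm y b a t hyt, smul_mul_assoc, smul_mul_assoc,
      ← smul_sub, ← smul_sub, add_mul]
    congr 1
    abel
  rw [e1]
  exact h4

/-- the ideal of all polynomials whose values lie in `I` -/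
def J3 (A A' I : Submodule Φ U) (hA : IsI A) (hI : IsI I) (t : U) : Ideal (P3 Φ) where
  carrier := {h | ∀ a ∈ A, ∀ b ∈ A', TT t a b h ∈ I}
  add_mem' := by
    intro p q hp hq a ha b hb
    rw [map_add]
    exact add_mem (hp a ha b hb) (hq a ha b hb)
  zero_mem' := by
    intro a _ b _
    rw [map_zero]
    exact zero_mem _
  smul_mem' := by
    intro c x hx
    change ∀ a ∈ A, ∀ b ∈ A', TT t a b (c * x) ∈ I
    induction c using MvPolynomial.induction_on with
    | C c =>
      intro a ha b hb
      rw [TT_C]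
      exact Submodule.smul_mem _ _ (hx a ha b hb)
    | add p q hp hq =>
      intro a ha b hb
      rw [add_mul, map_add]
      exact add_mem (hp a ha b hb) (hq a ha b hb)
    | mul_X p k hp =>
      intro a ha b hb
      have e1 : p * MvPolynomial.X k * x = MvPolynomial.X k * (p * x) := by ring
      rw [e1]
      fin_cases k
      · change TT t a b (MvPolynomial.X 0 * (p * x)) ∈ I
        rw [TT_X0]
        exact hI.l _ _ (hp a ha b hb)
      · change TT t a b (MvPolynomial.X 1 * (p * x)) ∈ I
        rw [TT_X1]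
        exact hp _ (hA.r t a ha) b hb
      · change TT t a b (MvPolynomial.X 2 * (p * x)) ∈ I
        rw [TT_X2]
        exact hI.r _ _ (hp a ha b hb)

theorem mem_J3 {A A' I : Submodule Φ U} {hA : IsI A} {hI : IsI I} {t : U} {h : P3 Φ} :
    h ∈ J3 A A' I hA hI t ↔ ∀ a ∈ A, ∀ b ∈ A', TT t a b h ∈ I := Iff.rfl

end Pool.Agent.V8H74.LR
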